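import Mathlib

set_option autoImplicit false

namespace Pool.Agent.H183R3

open Finset

variable {ℓ : ℕ}

/-- A set of integers all of whose solutions of the equation are constant. -/
def OnlyConst (a : Fin ℓ → ℤ) (B : Finset ℤ) : Prop :=
  ∀ x : Fin ℓ → ℤ, (∀ i, x i ∈ B) → ∑ i, a i * x i = 0 → ∀ p q, x p = x q

theorem alg2 (N M D ε θ P : ℝ) (hN : 0 < N) (hM : 0 ≤ M) (hD : 0 ≤ D) (hε : 0 ≤ ε)
    (hMD : M * D ≤ N) (hN2 : N ≤ 2 * (M * D)) (hsmall : P * θ ≤ ε / 8) (S1 S2 : ℝ)
    (h1 : M * (ε * N * D) ≤ S1) (h2 : S2 ≤ P * (θ * N ^ 2)) :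
    (N + M * D) * D * (ε * M / 4) ≤ S1 - S2 := by
  have e1 : (N + M * D) * D * (ε * M / 4) ≤ ε * M * D * N / 2 := by
    have : (N + M * D) * D * (ε * M / 4) ≤ (N + N) * D * (ε * M / 4) := by
      gcongr
    calc _ ≤ (N + N) * D * (ε * M / 4) := this
      _ = ε * M * D * N / 2 := by ring
  have e2 : P * (θ * N ^ 2) ≤ ε * M * D * N / 4 := by
    calc P * (θ * N ^ 2) = (P * θ) * N ^ 2 := by ring
      _ ≤ (ε / 8) * N ^ 2 := by gcongr
      _ = ε / 8 * N * N := by ring
      _ ≤ ε / 8 * N * (2 * (M * D)) := by gcongr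
      _ = ε * M * D * N / 4 := by ring
  have e4 : 0 ≤ ε * M * D * N := by positivity
  have e5 : M * (ε * N * D) = ε * M * D * N := by ring
  linarith

open Classical in
theorem avg (a : Fin ℓ → ℤ) (A : Finset ℤ) (N M : ℕ) (hM : 1 ≤ M) (hMN : M ≤ N)
    (hA : A ⊆ Finset.Icc 1 (N : ℤ)) (i0 : Fin ℓ) (θ : ℝ)
    (hpat : ∀ j : Fin ℓ → ℤ, (∃ p q, j p ≠ j q) → ∑ i, a i * j i = 0 →
      ∀ R : Finset (ℤ × ℤ), (∀ r ∈ R, ∀ i, r.1 + j i * r.2 ∈ A) → (R.card : ℝ) ≤ θ * (N : ℝ) ^ 2)
    (hθ : 0 ≤ θ)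
    (hsmall : (M : ℝ) ^ ℓ * θ ≤ (A.card : ℝ) / N / 8) :
    ∃ B : Finset ℤ, B ⊆ Finset.Icc 1 (M : ℤ) ∧ OnlyConst a B ∧
      (A.card : ℝ) / N * M / 4 ≤ (B.card : ℝ) := by
  set D : ℕ := N / M with hD
  have hD1 : 1 ≤ D := (Nat.one_le_div_iff (by omega)).2 hMN
  have hN1 : 1 ≤ N := le_trans hM hMN
  have hMD : M * D ≤ N := Nat.mul_div_le N M
  have hN2 : N ≤ 2 * (M * D) := by
    have h1 : N < M * (D + 1) := Nat.lt_mul_div_succ N (by omega)
    have h2 : M * 1 ≤ M * D := Nat.mul_le_mul_left M hD1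
    have h3 : M * (D + 1) = M * D + M := by ring
    omega
  set X : Finset ℤ := Finset.Icc (1 - (M * D : ℕ)) (N : ℤ) with hX
  set Ds : Finset ℤ := Finset.Icc 1 (D : ℤ) with hDs
  have hXc : X.card = N + M * D := by
    rw [hX, Int.card_Icc]
    omega
  have hDc : Ds.card = D := by
    rw [hDs, Int.card_Icc]
    omega
  set Pairs : Finset (ℤ × ℤ) := X ×ˢ Ds with hPairs
  have hPc : Pairs.card = (N + M * D) * D := by
    rw [hPairs, Finset.card_product, hXc, hDc]
  have hPne : Pairs.Nonempty := by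
    rw [← Finset.card_pos, hPc]
    positivity
  set J : Finset (Fin ℓ → ℤ) := (Fintype.piFinset (fun _ : Fin ℓ => Finset.Icc 1 (M : ℤ))).filter
    (fun j => (∃ p q, j p ≠ j q) ∧ ∑ i, a i * j i = 0) with hJ
  have hJc : J.card ≤ M ^ ℓ := by
    refine (Finset.card_filter_le _ _).trans ?_
    rw [Fintype.card_piFinset]
    simp
  -- lower bound for the sum of sizes
  have hS1 : (M : ℝ) * (A.card * D) ≤
      ∑ r ∈ Pairs, (((Finset.Icc 1 (M : ℤ)).filter (fun m => r.1 + m * r.2 ∈ A)).card : ℝ) := by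
    have h1 : ∑ r ∈ Pairs, ((Finset.Icc 1 (M : ℤ)).filter (fun m => r.1 + m * r.2 ∈ A)).card
        = ∑ m ∈ Finset.Icc 1 (M : ℤ), (Pairs.filter (fun r => r.1 + m * r.2 ∈ A)).card := by
      simp only [Finset.card_filter]
      exact Finset.sum_comm
    have h2 : ∀ m ∈ Finset.Icc 1 (M : ℤ), A.card * D ≤
        (Pairs.filter (fun r => r.1 + m * r.2 ∈ A)).card := by
      intro m hm
      rw [Finset.mem_Icc] at hm
      rw [← hDc, ← Finset.card_product]
      apply Finset.card_le_card_of_injOn (fun r : ℤ × ℤ => (r.1 - m * r.2, r.2))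
      · intro r hr
        rw [Finset.mem_coe, Finset.mem_product] at hr
        have h3 := Finset.mem_Icc.1 (hA hr.1)
        have h4 : 1 ≤ r.2 ∧ r.2 ≤ (D : ℤ) := Finset.mem_Icc.1 hr.2
        rw [Finset.mem_coe, Finset.mem_filter, hPairs, Finset.mem_product, hX, Finset.mem_Icc]
        have h5 : m * r.2 ≤ (M : ℤ) * D :=
          mul_le_mul hm.2 h4.2 (by linarith) (by positivity)
        have h6 : 1 * 1 ≤ m * r.2 := mul_le_mul hm.1 h4.1 (by norm_num) (by linarith)
        refine ⟨⟨⟨?_, ?_⟩, hr.2⟩, ?_⟩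
        · push_cast
          linarith
        · linarith
        · simpa using hr.1
      · intro r _ s _ hrs
        simp only [Prod.mk.injEq] at hrs
        obtain ⟨h3, h4⟩ := hrs
        refine Prod.ext ?_ h4
        rw [h4] at h3
        linarith
    have h3 : M * (A.card * D) ≤ ∑ r ∈ Pairs,
        ((Finset.Icc 1 (M : ℤ)).filter (fun m => r.1 + m * r.2 ∈ A)).card := by
      rw [h1]
      calc M * (A.card * D) = ∑ _m ∈ Finset.Icc 1 (M : ℤ), A.card * D := by
            rw [Finset.sum_const, smul_eq_mul, Int.card_Icc]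
            congr 1
            omega
        _ ≤ _ := Finset.sum_le_sum h2
    exact_mod_cast h3
  -- upper bound for the sum of numbers of solutions
  have hS2 : ∑ r ∈ Pairs, ((J.filter (fun j => ∀ i, r.1 + j i * r.2 ∈ A)).card : ℝ)
      ≤ (M : ℝ) ^ ℓ * (θ * (N : ℝ) ^ 2) := by
    have h1 : ∑ r ∈ Pairs, (J.filter (fun j => ∀ i, r.1 + j i * r.2 ∈ A)).card
        = ∑ j ∈ J, (Pairs.filter (fun r => ∀ i, r.1 + j i * r.2 ∈ A)).card := by
      simp only [Finset.card_filter]
      exact Finset.sum_comm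
    have h2 : ∑ r ∈ Pairs, ((J.filter (fun j => ∀ i, r.1 + j i * r.2 ∈ A)).card : ℝ)
        = ∑ j ∈ J, ((Pairs.filter (fun r => ∀ i, r.1 + j i * r.2 ∈ A)).card : ℝ) := by
      exact_mod_cast h1
    rw [h2]
    calc ∑ j ∈ J, ((Pairs.filter (fun r => ∀ i, r.1 + j i * r.2 ∈ A)).card : ℝ)
        ≤ ∑ _j ∈ J, θ * (N : ℝ) ^ 2 := by
          apply Finset.sum_le_sum
          intro j hj
          rw [hJ, Finset.mem_filter] at hj
          exact hpat j hj.2.1 hj.2.2 _ (fun r hr => (Finset.mem_filter.1 hr).2)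
      _ = (J.card : ℝ) * (θ * (N : ℝ) ^ 2) := by rw [Finset.sum_const, nsmul_eq_mul]
      _ ≤ (M : ℝ) ^ ℓ * (θ * (N : ℝ) ^ 2) := by
          apply mul_le_mul_of_nonneg_right _ (by positivity)
          exact_mod_cast hJc
  set ε : ℝ := (A.card : ℝ) / N with hε
  have hε0 : 0 ≤ ε := by positivity
  have hNpos : (0 : ℝ) < N := by exact_mod_cast hN1
  have hAc : (A.card : ℝ) = ε * N := by
    rw [hε]; field_simp
  have hMDR : (M : ℝ) * D ≤ N := by exact_mod_cast hMD
  have hN2R : (N : ℝ) ≤ 2 * (M * D) := by exact_mod_cast hN2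
  have hex : ∃ r ∈ Pairs, ε * M / 4 ≤
      (((Finset.Icc 1 (M : ℤ)).filter (fun m => r.1 + m * r.2 ∈ A)).card : ℝ)
        - ((J.filter (fun j => ∀ i, r.1 + j i * r.2 ∈ A)).card : ℝ) := by
    apply Finset.exists_le_of_sum_le hPne
    rw [Finset.sum_const, nsmul_eq_mul, hPc, Finset.sum_sub_distrib]
    push_cast
    have h3 : (M : ℝ) * (A.card * D) = M * (ε * N * D) := by rw [hAc]
    rw [h3] at hS1
    exact alg2 N M D ε θ ((M : ℝ) ^ ℓ) hNpos (Nat.cast_nonneg _) (Nat.cast_nonneg _) hε0 hMDR hN2R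
      hsmall _ _ hS1 hS2
  obtain ⟨r, _, hr⟩ := hex
  set B : Finset ℤ := (Finset.Icc 1 (M : ℤ)).filter (fun m => r.1 + m * r.2 ∈ A) with hB
  set So : Finset (Fin ℓ → ℤ) := J.filter (fun j => ∀ i, r.1 + j i * r.2 ∈ A) with hSo
  refine ⟨B \ So.image (fun j => j i0), ?_, ?_, ?_⟩
  · exact Finset.sdiff_subset.trans (Finset.filter_subset _ _)
  · intro x hx hsol p q
    by_contra hne
    have hxB : ∀ i, x i ∈ B := fun i => (Finset.mem_sdiff.1 (hx i)).1
    have hxSo : x ∈ So := by
      rw [hSo, Finset.mem_filter, hJ, Finset.mem_filter, Fintype.mem_piFinset]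
      refine ⟨⟨fun i => (Finset.mem_filter.1 (hxB i)).1, ⟨p, q, hne⟩, hsol⟩,
        fun i => (Finset.mem_filter.1 (hxB i)).2⟩
    exact (Finset.mem_sdiff.1 (hx i0)).2 (Finset.mem_image_of_mem _ hxSo)
  · have h1 : B.card ≤ (B \ So.image (fun j => j i0)).card + So.card := by
      have h2 := Finset.le_card_sdiff (So.image (fun j => j i0)) B
      have h3 : (So.image (fun j => j i0)).card ≤ So.card := Finset.card_image_le
      omega
    have h2 : (B.card : ℝ) ≤ ((B \ So.image (fun j => j i0)).card : ℝ) + So.card := by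
      exact_mod_cast h1
    linarith

/-- Digit products keep the property. -/
theorem digits (a : Fin ℓ → ℤ) (B : Finset ℤ) (M L : ℕ) (hL : (∑ i, (a i).natAbs) ≤ L)
    (hB : B ⊆ Finset.Icc 1 (M : ℤ)) (hconst : OnlyConst a B) (n : ℕ) :
    ∃ A : Finset ℤ, A ⊆ Finset.Ico 0 (((M * L + M + 1) ^ n : ℕ) : ℤ) ∧ OnlyConst a A ∧
      A.card = B.card ^ n := by
  classical
  induction n with
  | zero =>
    refine ⟨{0}, ?_, ?_, by simp⟩
    · intro x hx
      rw [Finset.mem_singleton] at hx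
      subst hx
      simp
    · intro x hx _ p q
      rw [Finset.mem_singleton.1 (hx p), Finset.mem_singleton.1 (hx q)]
  | succ n ih =>
    obtain ⟨A, hA, hAc, hAcard⟩ := ih
    set b : ℕ := M * L + M + 1 with hb
    have hbpos : 0 < b := by omega
    set f : ℤ × ℤ → ℤ := fun p => p.1 + b * p.2 with hf
    have hinj : ∀ p ∈ B ×ˢ A, ∀ q ∈ B ×ˢ A, f p = f q → p = q := by
      intro p hp q hq hpq
      rw [Finset.mem_product] at hp hq
      have hp1 := Finset.mem_Icc.1 (hB hp.1)
      have hq1 := Finset.mem_Icc.1 (hB hq.1)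
      have hMb : (M : ℤ) < b := by
        have : M < b := by rw [hb]; omega
        exact_mod_cast this
      have h1 : p.1 % (b : ℤ) = q.1 % b := by
        have h2 : (p.1 + b * p.2) % (b : ℤ) = (q.1 + b * q.2) % b := by
          rw [show p.1 + b * p.2 = q.1 + b * q.2 from hpq]
        rwa [Int.add_mul_emod_self_left, Int.add_mul_emod_self_left] at h2
      rw [Int.emod_eq_of_lt (by linarith) (by linarith),
        Int.emod_eq_of_lt (by linarith) (by linarith)] at h1
      refine Prod.ext h1 ?_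
      have h3 : p.1 + b * p.2 = q.1 + b * q.2 := hpq
      rw [h1] at h3
      have h4 : (b : ℤ) * p.2 = b * q.2 := by linarith
      exact mul_left_cancel₀ (by exact_mod_cast hbpos.ne') h4
    refine ⟨(B ×ˢ A).image f, ?_, ?_, ?_⟩
    · intro x hx
      rw [Finset.mem_image] at hx
      obtain ⟨p, hp, rfl⟩ := hx
      rw [Finset.mem_product] at hp
      have hp1 := Finset.mem_Icc.1 (hB hp.1)
      have hp2 := Finset.mem_Ico.1 (hA hp.2)
      have hMb : (M : ℤ) < b := by
        have : M < b := by rw [hb]; omega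
        exact_mod_cast this
      rw [Finset.mem_Ico]
      have hb0 : (0 : ℤ) ≤ b := by positivity
      refine ⟨?_, ?_⟩
      · show 0 ≤ p.1 + b * p.2
        have := mul_nonneg hb0 hp2.1
        linarith
      · show p.1 + b * p.2 < _
        have h5 : p.2 ≤ ((b ^ n : ℕ) : ℤ) - 1 := by omega
        have h6 := mul_le_mul_of_nonneg_left h5 hb0
        have h7 : (((b ^ (n + 1) : ℕ)) : ℤ) = b * ((b ^ n : ℕ) : ℤ) := by
          push_cast; ring
        rw [h7]
        linarith
    · intro x hx hsol p q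
      have hch : ∀ i, ∃ u v : ℤ, u ∈ B ∧ v ∈ A ∧ x i = u + b * v := by
        intro i
        obtain ⟨w, hw, hw2⟩ := Finset.mem_image.1 (hx i)
        rw [Finset.mem_product] at hw
        exact ⟨w.1, w.2, hw.1, hw.2, hw2.symm⟩
      choose u v hu hv huv using hch
      have hsplit : ∑ i, a i * x i = (∑ i, a i * u i) + b * (∑ i, a i * v i) := by
        rw [Finset.mul_sum, ← Finset.sum_add_distrib]
        refine Finset.sum_congr rfl fun i _ => ?_
        rw [huv i]; ring
      have hbound : |∑ i, a i * u i| < b := by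
        calc |∑ i, a i * u i| ≤ ∑ i, |a i * u i| := Finset.abs_sum_le_sum_abs _ _
          _ ≤ ∑ i, ((a i).natAbs : ℤ) * M := by
            apply Finset.sum_le_sum
            intro i _
            have hui := Finset.mem_Icc.1 (hB (hu i))
            rw [abs_mul, Int.abs_eq_natAbs (a i)]
            apply mul_le_mul_of_nonneg_left _ (by positivity)
            rw [abs_of_nonneg (by linarith)]
            exact hui.2
          _ = ((∑ i, (a i).natAbs : ℕ) : ℤ) * M := by
            rw [← Finset.sum_mul]; push_cast; rfl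
          _ ≤ (L : ℤ) * M := by
            apply mul_le_mul_of_nonneg_right _ (by positivity)
            exact_mod_cast hL
          _ < b := by
            rw [hb]; push_cast
            have : (0 : ℤ) ≤ M := by positivity
            nlinarith
      have hdvd : (b : ℤ) ∣ ∑ i, a i * u i := by
        refine ⟨-(∑ i, a i * v i), ?_⟩
        rw [hsplit] at hsol
        linarith
      have hu0 : ∑ i, a i * u i = 0 := Int.eq_zero_of_abs_lt_dvd hdvd hbound
      have hv0 : ∑ i, a i * v i = 0 := by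
        rw [hsplit, hu0, zero_add] at hsol
        rcases mul_eq_zero.1 hsol with h | h
        · exfalso
          have : (b : ℤ) ≠ 0 := by exact_mod_cast hbpos.ne'
          exact this h
        · exact h
      rw [huv p, huv q, hconst u hu hu0 p q, hAc v hv hv0 p q]
    · rw [Finset.card_image_of_injOn (fun p hp q hq h => hinj p hp q hq h), Finset.card_product,
        hAcard, pow_succ, mul_comm]

end Pool.Agent.H183R3
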