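import Mathlib
import Pool.Agent.Results.MP_eb9c50_an.SidonNearZero

open Pool.Agent.Results.MP_eb9c50_an.SidonNearZero

namespace Pool.Agent.H183R3.BohrRich

/-- open for the Bohr topology -/
def BOpen (E : Set ℤ) : Prop :=
  ∀ n ∈ E, ∃ (S : Finset UnitAddCircle) (d : ℝ), 0 < d ∧ ∀ k ∈ BohrSet S d, n + k ∈ E

theorem bohr_inter (S S' : Finset UnitAddCircle) (d d' : ℝ) [DecidableEq UnitAddCircle] :
    BohrSet (S ∪ S') (min d d') ⊆ BohrSet S d ∩ BohrSet S' d' := by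
  intro k hk
  refine ⟨fun a ha => ?_, fun a ha => ?_⟩
  · exact lt_of_lt_of_le (hk a (Finset.mem_union_left _ ha)) (min_le_left _ _)
  · exact lt_of_lt_of_le (hk a (Finset.mem_union_right _ ha)) (min_le_right _ _)

theorem bohr_neg (S : Finset UnitAddCircle) (d : ℝ) (k : ℤ) (hk : k ∈ BohrSet S d) :
    -k ∈ BohrSet S d := by
  intro a ha
  rw [neg_smul, norm_neg]
  exact hk a ha

/-- greedy choice of finite sums -/
theorem greedy (r : ℕ) : ∀ (E : Set ℤ), BOpen E →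
    (∀ (S : Finset UnitAddCircle) (d : ℝ), 0 < d → ∃ k ∈ E, 0 < k ∧ k ∈ BohrSet S d) →
    ∃ n : Fin r → ℕ, (∀ i, 0 < n i) ∧
      ∀ A : Finset (Fin r), A.Nonempty → ((∑ i ∈ A, n i : ℕ) : ℤ) ∈ E := by
  classical
  induction r with
  | zero =>
    intro E _ _
    refine ⟨fun i => i.elim0, fun i => i.elim0, fun A hA => ?_⟩
    obtain ⟨i, _⟩ := hA
    exact i.elim0
  | succ r ih =>
    intro E hE hcl
    obtain ⟨k, hkE, hk0, _⟩ := hcl ∅ 1 one_pos
    obtain ⟨S1, d1, hd1, h1⟩ := hE k hkE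
    let F : Set ℤ := {x | x ∈ E ∧ k + x ∈ E}
    have hFopen : BOpen F := by
      intro n hn
      obtain ⟨S2, d2, hd2, h2⟩ := hE n hn.1
      obtain ⟨S3, d3, hd3, h3⟩ := hE (k + n) hn.2
      refine ⟨S2 ∪ S3, min d2 d3, lt_min hd2 hd3, fun x hx => ?_⟩
      obtain ⟨hx2, hx3⟩ := bohr_inter S2 S3 d2 d3 hx
      refine ⟨h2 x hx2, ?_⟩
      rw [← add_assoc]
      exact h3 x hx3
    have hFcl : ∀ (S : Finset UnitAddCircle) (d : ℝ), 0 < d →
        ∃ x ∈ F, 0 < x ∧ x ∈ BohrSet S d := by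
      intro S d hd
      obtain ⟨x, hxE, hx0, hx⟩ := hcl (S ∪ S1) (min d d1) (lt_min hd hd1)
      obtain ⟨hx1, hx2⟩ := bohr_inter S S1 d d1 hx
      exact ⟨x, ⟨hxE, h1 x hx2⟩, hx0, hx1⟩
    obtain ⟨n, hn0, hn⟩ := ih F hFopen hFcl
    have hkn : ((k.toNat : ℕ) : ℤ) = k := Int.toNat_of_nonneg hk0.le
    refine ⟨Fin.cons k.toNat n, ?_, ?_⟩
    · intro i
      refine Fin.cases ?_ (fun j => ?_) i
      · rw [Fin.cons_zero]; omega
      · rw [Fin.cons_succ]; exact hn0 j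
    · intro A hA
      -- the part of A away from 0
      let B : Finset (Fin r) := Finset.univ.filter (fun j => j.succ ∈ A)
      have hsum : ∑ i ∈ A, (Fin.cons k.toNat n : Fin (r + 1) → ℕ) i
          = (if (0 : Fin (r + 1)) ∈ A then k.toNat else 0) + ∑ j ∈ B, n j := by
        have e1 : ∑ i ∈ A, (Fin.cons k.toNat n : Fin (r + 1) → ℕ) i
            = ∑ i : Fin (r + 1), if i ∈ A then (Fin.cons k.toNat n : Fin (r + 1) → ℕ) i else 0 := by
          rw [Finset.sum_ite_mem, Finset.univ_inter]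
        rw [e1, Fin.sum_univ_succ, Fin.cons_zero]
        congr 1
        rw [Finset.sum_filter]
        apply Finset.sum_congr rfl
        intro j _
        rw [Fin.cons_succ]
      rw [hsum]
      by_cases h0 : (0 : Fin (r + 1)) ∈ A
      · rw [if_pos h0]
        push_cast
        rw [hkn]
        rcases Finset.eq_empty_or_nonempty B with hB | hB
        · rw [hB]; simpa using hkE
        · have := (hn B hB).2
          push_cast at this
          exact this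
      · rw [if_neg h0, zero_add]
        have hB : B.Nonempty := by
          obtain ⟨i, hi⟩ := hA
          have hi0 : i ≠ 0 := fun h => h0 (h ▸ hi)
          obtain ⟨j, rfl⟩ := Fin.exists_succ_eq.mpr hi0
          exact ⟨j, Finset.mem_filter.mpr ⟨Finset.mem_univ _, hi⟩⟩
        exact (hn B hB).1

/-- A Bohr-open set having 0 as a limit point contains arbitrarily large finite sum sets, or its
negative does. -/
theorem bohr_open_rich (E : Set ℤ)
    (hopen : ∀ n ∈ E, ∃ (S : Finset UnitAddCircle) (d : ℝ), 0 < d ∧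
      ∀ k ∈ BohrSet S d, n + k ∈ E)
    (hcl : ∀ (S : Finset UnitAddCircle) (d : ℝ), 0 < d → ∃ k ∈ E, k ≠ 0 ∧ k ∈ BohrSet S d) :
    (∀ r : ℕ, ∃ n : Fin r → ℕ, (∀ i, 0 < n i) ∧
      ∀ A : Finset (Fin r), A.Nonempty → ((∑ i ∈ A, n i : ℕ) : ℤ) ∈ E) ∨
    (∀ r : ℕ, ∃ n : Fin r → ℕ, (∀ i, 0 < n i) ∧
      ∀ A : Finset (Fin r), A.Nonempty → (-((∑ i ∈ A, n i : ℕ) : ℤ)) ∈ E) := by
  classical
  by_cases hpos : ∀ (S : Finset UnitAddCircle) (d : ℝ), 0 < d →
      ∃ k ∈ E, 0 < k ∧ k ∈ BohrSet S d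
  · left
    exact fun r => greedy r E hopen hpos
  · right
    push Not at hpos
    obtain ⟨S1, d1, hd1, h1⟩ := hpos
    let F : Set ℤ := {x | -x ∈ E}
    have hFopen : BOpen F := by
      intro n hn
      obtain ⟨S2, d2, hd2, h2⟩ := hopen (-n) hn
      refine ⟨S2, d2, hd2, fun x hx => ?_⟩
      show -(n + x) ∈ E
      rw [neg_add]
      exact h2 (-x) (bohr_neg S2 d2 x hx)
    have hFcl : ∀ (S : Finset UnitAddCircle) (d : ℝ), 0 < d →
        ∃ x ∈ F, 0 < x ∧ x ∈ BohrSet S d := by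
      intro S d hd
      obtain ⟨x, hxE, hx0, hx⟩ := hcl (S ∪ S1) (min d d1) (lt_min hd hd1)
      obtain ⟨hx1, hx2⟩ := bohr_inter S S1 d d1 hx
      have hxneg : ¬ 0 < x := fun h => h1 x hxE h hx2
      refine ⟨-x, ?_, by omega, bohr_neg S d x hx1⟩
      show -(-x) ∈ E
      rw [neg_neg]; exact hxE
    intro r
    obtain ⟨n, hn0, hn⟩ := greedy r F hFopen hFcl
    exact ⟨n, hn0, fun A hA => hn A hA⟩

end Pool.Agent.H183R3.BohrRich
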