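import Pool.Agent.H183R3.Mix

set_option autoImplicit false

namespace Pool.Agent.H183R3

open Finset

variable {ℓ : ℕ}

/-- the constant vector one -/
def oneV : Fin ℓ → ℚ := fun _ => 1

theorem ww_smul (a : Fin ℓ → ℤ) (i k l : Fin ℓ) :
    (a k : ℚ) • ww a i l - (a i : ℚ) • ww a k l = (a l : ℚ) • ww a i k := by
  funext m
  simp only [ww, Pi.sub_apply, Pi.smul_apply, smul_eq_mul, Pi.single_apply]
  split_ifs <;> ring

theorem all_ww (a : Fin ℓ → ℤ) (ha : ∀ i, a i ≠ 0) (V : Submodule ℚ (Fin ℓ → ℚ)) (j : Fin ℓ → ℤ)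
    (p q : Fin ℓ) (hpq : j p ≠ j q)
    (hall : ∀ i k, j i ≠ j k → ww a i k ∈ V) (i k : Fin ℓ) : ww a i k ∈ V := by
  by_cases h : j i ≠ j k
  · exact hall i k h
  · push Not at h
    have : ∃ l, j i ≠ j l := by
      by_cases h2 : j i = j p
      · exact ⟨q, by rw [h2]; exact hpq⟩
      · exact ⟨p, h2⟩
    obtain ⟨l, hl⟩ := this
    have h1 := hall i l hl
    have h2 := hall k l (by rw [← h]; exact hl)
    have h3 := Submodule.sub_mem _ (Submodule.smul_mem _ (a k : ℚ) h1)
      (Submodule.smul_mem _ (a i : ℚ) h2)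
    rw [ww_smul] at h3
    exact (Submodule.smul_mem_iff _ (by exact_mod_cast ha l)).1 h3

theorem ker_le_of_all_ww (a : Fin ℓ → ℤ) (ha : ∀ i, a i ≠ 0) (V : Submodule ℚ (Fin ℓ → ℚ))
    (k : Fin ℓ) (hall : ∀ i, ww a i k ∈ V) : LinearMap.ker (lin a) ≤ V := by
  intro x hx
  rw [LinearMap.mem_ker] at hx
  have hak : (a k : ℚ) ≠ 0 := by exact_mod_cast ha k
  have hx2 : ∑ i, (a i : ℚ) * x i = 0 := hx
  have : x = ∑ i, (x i / (a k : ℚ)) • ww a i k := by
    funext m
    rw [Finset.sum_apply]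
    simp only [ww, Pi.sub_apply, Pi.smul_apply, smul_eq_mul, Pi.single_apply]
    simp only [mul_sub, mul_ite, mul_zero, Finset.sum_sub_distrib]
    rw [Finset.sum_ite_eq]
    simp only [Finset.mem_univ, if_true]
    by_cases hmk : m = k
    · subst hmk
      simp only [if_true]
      have h4 : ∑ i, x i / (a m : ℚ) * (a i : ℚ) = 0 := by
        have h5 : ∑ i, x i / (a m : ℚ) * (a i : ℚ) = (∑ i, (a i : ℚ) * x i) / (a m : ℚ) := by
          rw [Finset.sum_div]
          refine Finset.sum_congr rfl fun i _ => by ring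
        rw [h5, hx2, zero_div]
      rw [h4, sub_zero]
      field_simp
    · simp only [if_neg hmk, Finset.sum_const_zero, sub_zero]
      field_simp
  rw [this]
  exact Submodule.sum_mem _ fun i _ => Submodule.smul_mem _ _ (hall i)

theorem ww_mem_ker (a : Fin ℓ → ℤ) (i k : Fin ℓ) : ww a i k ∈ LinearMap.ker (lin a) := by
  rw [LinearMap.mem_ker]
  show ∑ m, (a m : ℚ) * (ww a i k) m = 0
  simp only [ww, Pi.sub_apply, Pi.single_apply, mul_sub, mul_ite, mul_zero, Finset.sum_sub_distrib]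
  rw [Finset.sum_ite_eq', Finset.sum_ite_eq']
  simp only [Finset.mem_univ, if_true]
  ring

theorem rank_drop (V : Submodule ℚ (Fin ℓ → ℚ)) (j : Fin ℓ → ℤ) (h1 : oneV ∈ V)
    (hj : toQ j ∈ V) (i k : Fin ℓ) (hik : j i ≠ j k) :
    Module.finrank ℚ
      (V ⊓ LinearMap.ker (LinearMap.proj i) ⊓ LinearMap.ker (LinearMap.proj k) :
        Submodule ℚ (Fin ℓ → ℚ)) + 2 ≤ Module.finrank ℚ V := by
  have hlt1 : V ⊓ LinearMap.ker (LinearMap.proj i) < V := by
    refine lt_of_le_of_ne inf_le_left ?_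
    intro he
    have h2 : (oneV : Fin ℓ → ℚ) ∈ V ⊓ LinearMap.ker (LinearMap.proj i) := by rw [he]; exact h1
    rw [Submodule.mem_inf, LinearMap.mem_ker] at h2
    simp [oneV] at h2
  have hlt2 : V ⊓ LinearMap.ker (LinearMap.proj i) ⊓ LinearMap.ker (LinearMap.proj k)
      < V ⊓ LinearMap.ker (LinearMap.proj (R := ℚ) i) := by
    refine lt_of_le_of_ne inf_le_left ?_
    intro he
    have h2 : toQ j - (j i : ℚ) • (oneV : Fin ℓ → ℚ) ∈ V ⊓ LinearMap.ker (LinearMap.proj i) := by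
      rw [Submodule.mem_inf, LinearMap.mem_ker]
      refine ⟨Submodule.sub_mem _ hj (Submodule.smul_mem _ _ h1), ?_⟩
      simp [toQ, oneV]
    rw [← he, Submodule.mem_inf, LinearMap.mem_ker (f := LinearMap.proj k)] at h2
    have h3 := h2.2
    simp only [toQ, oneV, LinearMap.proj_apply, Pi.sub_apply, Pi.smul_apply, smul_eq_mul,
      mul_one] at h3
    apply hik
    have h4 : (j k : ℚ) = j i := by linarith
    exact_mod_cast h4.symm
  have e1 := Submodule.finrank_lt_finrank_of_lt hlt1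
  have e2 := Submodule.finrank_lt_finrank_of_lt hlt2
  omega

theorem finrank_sup_single (V : Submodule ℚ (Fin ℓ → ℚ)) (w : Fin ℓ → ℚ) (hw : w ∉ V) :
    Module.finrank ℚ (V ⊔ Submodule.span ℚ {w} : Submodule ℚ (Fin ℓ → ℚ))
      = Module.finrank ℚ V + 1 := by
  have hw0 : w ≠ 0 := by
    rintro rfl
    exact hw (Submodule.zero_mem _)
  have h := Submodule.finrank_sup_add_finrank_inf_eq V (Submodule.span ℚ {w})
  have hinf : V ⊓ Submodule.span ℚ {w} = ⊥ := by
    rw [Submodule.eq_bot_iff]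
    intro x hx
    rw [Submodule.mem_inf, Submodule.mem_span_singleton] at hx
    obtain ⟨hx1, c, rfl⟩ := hx
    by_cases hc : c = 0
    · rw [hc, zero_smul]
    · exact absurd ((Submodule.smul_mem_iff _ hc).1 hx1) hw
  rw [hinf, finrank_bot, finrank_span_singleton hw0] at h
  omega

theorem alg_aux (C t N : ℝ) (hN : N ≠ 0) (D : ℕ) :
    C * (t / N ^ (D + 2 + 1)) * (N ^ (D + 2)) ^ 2 = (C * N) * (t * N ^ D) := by
  have h1 : (N ^ (D + 2)) ^ 2 = N ^ (D + 2 + 1) * (N * N ^ D) := by ring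
  have h2 : N ^ (D + 2 + 1) ≠ 0 := pow_ne_zero _ hN
  rw [h1]
  field_simp

/-- The chain inequality. -/
theorem chain (a : Fin ℓ → ℤ) (ha : ∀ i, a i ≠ 0) (A : Finset ℤ) (N : ℕ) (hN : 1 ≤ N)
    (hA : A ⊆ Finset.Icc 1 (N : ℤ)) (hA0 : A.Nonempty) (j : Fin ℓ → ℤ)
    (p q : Fin ℓ) (hpq : j p ≠ j q) (n : ℕ) :
    ∀ (V : Submodule ℚ (Fin ℓ → ℚ)), V ≤ LinearMap.ker (lin a) → oneV ∈ V → toQ j ∈ V →
      Module.finrank ℚ V + n = Module.finrank ℚ (LinearMap.ker (lin a)) →
      (((T V A).card : ℝ) / (N : ℝ) ^ (Module.finrank ℚ V)) ^ (2 ^ n) ≤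
        ((3 * (∑ m, (a m).natAbs) : ℕ) : ℝ) ^ (2 ^ n) *
          (((T (LinearMap.ker (lin a)) A).card : ℝ) /
            (N : ℝ) ^ (Module.finrank ℚ (LinearMap.ker (lin a)))) := by
  have hL1 : 1 ≤ ∑ m, (a m).natAbs := by
    have h1 := Int.natAbs_pos.2 (ha p)
    have h2 : (a p).natAbs ≤ ∑ m, (a m).natAbs :=
      Finset.single_le_sum (f := fun m => (a m).natAbs) (fun _ _ => Nat.zero_le _)
        (Finset.mem_univ p)
    omega
  set C : ℝ := ((3 * (∑ m, (a m).natAbs) : ℕ) : ℝ) with hC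
  have hC1 : 1 ≤ C := by
    rw [hC]
    exact_mod_cast (by omega : 1 ≤ 3 * (∑ m, (a m).natAbs))
  have hNpos : (0 : ℝ) < N := by exact_mod_cast hN
  induction n with
  | zero =>
    intro V hV _ _ hfr
    have hVe : V = LinearMap.ker (lin a) := by
      apply Submodule.eq_of_le_of_finrank_eq hV
      omega
    rw [hVe]
    simp only [pow_zero, pow_one]
    have h0 : (0 : ℝ) ≤ ((T (LinearMap.ker (lin a)) A).card : ℝ) /
            (N : ℝ) ^ (Module.finrank ℚ (LinearMap.ker (lin a))) := by positivity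
    nlinarith
  | succ n ih =>
    intro V hV h1 hj hfr
    have hex : ∃ i k, j i ≠ j k ∧ ww a i k ∉ V := by
      by_contra hcon
      push Not at hcon
      have h2 : ∀ i, ww a i p ∈ V := fun i => all_ww a ha V j p q hpq hcon i p
      have h3 := ker_le_of_all_ww a ha V p h2
      have h4 := Submodule.finrank_mono h3
      omega
    obtain ⟨i, k, hik, hw⟩ := hex
    have hik' : i ≠ k := by
      rintro rfl
      exact hik rfl
    have hrk := rank_drop V j h1 hj i k hik
    set D := Module.finrank ℚ V - 2 with hD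
    have hD2 : Module.finrank ℚ V = D + 2 := by omega
    have hst := step a ha A N hN hA hA0 V hV i k hik' hw D (by omega)
    set V' := V ⊔ Submodule.span ℚ {ww a i k} with hV'
    have hfr' : Module.finrank ℚ V' = Module.finrank ℚ V + 1 := finrank_sup_single V _ hw
    have hV'le : V' ≤ LinearMap.ker (lin a) := by
      rw [hV']
      apply sup_le hV
      rw [Submodule.span_singleton_le_iff_mem]
      exact ww_mem_ker a i k
    have hih := ih V' hV'le (le_sup_left (a := V) h1) (le_sup_left (a := V) hj) (by omega)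
    have hstR : ((T V A).card : ℝ) ^ 2 ≤ (C * N) * (((T V' A).card : ℝ) * (N : ℝ) ^ D) := by
      have : (((T V A).card ^ 2 : ℕ) : ℝ) ≤ (((3 * (∑ m, (a m).natAbs) * N) *
          ((T V' A).card * N ^ D) : ℕ) : ℝ) := by exact_mod_cast hst
      push_cast at this
      rw [hC]
      push_cast
      exact this
    have hnorm : (((T V A).card : ℝ) / (N : ℝ) ^ (Module.finrank ℚ V)) ^ 2
        ≤ C * (((T V' A).card : ℝ) / (N : ℝ) ^ (Module.finrank ℚ V')) := by
      rw [hfr', hD2, div_pow, div_le_iff₀ (pow_pos (pow_pos hNpos _) _)]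
      have h5 : C * (((T V' A).card : ℝ) / (N : ℝ) ^ (D + 2 + 1)) * ((N : ℝ) ^ (D + 2)) ^ 2
          = (C * N) * (((T V' A).card : ℝ) * (N : ℝ) ^ D) :=
        alg_aux C _ N hNpos.ne' D
      rw [h5]
      exact hstR
    have h0 : (0 : ℝ) ≤ ((T V A).card : ℝ) / (N : ℝ) ^ (Module.finrank ℚ V) :=
      div_nonneg (Nat.cast_nonneg _) (pow_nonneg hNpos.le _)
    calc (((T V A).card : ℝ) / (N : ℝ) ^ (Module.finrank ℚ V)) ^ (2 ^ (n + 1))
        = ((((T V A).card : ℝ) / (N : ℝ) ^ (Module.finrank ℚ V)) ^ 2) ^ (2 ^ n) := by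
          rw [← pow_mul, pow_succ, mul_comm]
      _ ≤ (C * (((T V' A).card : ℝ) / (N : ℝ) ^ (Module.finrank ℚ V'))) ^ (2 ^ n) :=
          pow_le_pow_left₀ (pow_nonneg h0 2) hnorm _
      _ = C ^ (2 ^ n) * (((T V' A).card : ℝ) / (N : ℝ) ^ (Module.finrank ℚ V')) ^ (2 ^ n) := by
          rw [mul_pow]
      _ ≤ C ^ (2 ^ n) * (C ^ (2 ^ n) * (((T (LinearMap.ker (lin a)) A).card : ℝ) /
            (N : ℝ) ^ (Module.finrank ℚ (LinearMap.ker (lin a))))) :=
          mul_le_mul_of_nonneg_left hih (pow_nonneg (by linarith) _)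
      _ = C ^ (2 ^ (n + 1)) * (((T (LinearMap.ker (lin a)) A).card : ℝ) /
            (N : ℝ) ^ (Module.finrank ℚ (LinearMap.ker (lin a)))) := by
          rw [← mul_assoc, ← pow_add]
          congr 2
          rw [pow_succ]; ring

theorem finrank_ker (a : Fin ℓ → ℤ) (p : Fin ℓ) (hp : a p ≠ 0) :
    Module.finrank ℚ (LinearMap.ker (lin a)) + 1 = ℓ := by
  have h := LinearMap.finrank_range_add_finrank_ker (lin a)
  have hr : LinearMap.range (lin a) = ⊤ := by
    rw [LinearMap.range_eq_top]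
    intro y
    refine ⟨Pi.single p (y / a p), ?_⟩
    show ∑ m, (a m : ℚ) * (Pi.single p (y / (a p : ℚ)) : Fin ℓ → ℚ) m = y
    rw [Finset.sum_eq_single p]
    · have hap : (a p : ℚ) ≠ 0 := by exact_mod_cast hp
      simp only [Pi.single_eq_same]
      field_simp
    · intro b _ hb
      simp [hb]
    · intro h; exact absurd (Finset.mem_univ _) h
  rw [hr, finrank_top, Module.finrank_self, Module.finrank_fintype_fun_eq_card, Fintype.card_fin] at h
  omega

/-- Number of pairs `(x,d)` in a finite set of pairs with `x + j_i d ∈ A` for all `i` is bounded by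
the number of solutions. -/
theorem pattern_bound (a : Fin ℓ → ℤ) (ha : ∀ i, a i ≠ 0) (hsum : ∑ i, a i = 0)
    (A : Finset ℤ) (N : ℕ) (hN : 1 ≤ N)
    (hA : A ⊆ Finset.Icc 1 (N : ℤ)) (hA0 : A.Nonempty) (j : Fin ℓ → ℤ)
    (hj : ∑ i, a i * j i = 0)
    (p q : Fin ℓ) (hpq : j p ≠ j q) (R : Finset (ℤ × ℤ))
    (hR : ∀ r ∈ R, ∀ i, r.1 + j i * r.2 ∈ A) :
    ((R.card : ℝ) / (N : ℝ) ^ 2) ^ (2 ^ (ℓ - 3)) ≤
        ((3 * (∑ m, (a m).natAbs) : ℕ) : ℝ) ^ (2 ^ (ℓ - 3)) *
          (((T (LinearMap.ker (lin a)) A).card : ℝ) / (N : ℝ) ^ (ℓ - 1)) := by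
  classical
  have hNpos : (0 : ℝ) < N := by exact_mod_cast hN
  set V : Submodule ℚ (Fin ℓ → ℚ) := Submodule.span ℚ {oneV} ⊔ Submodule.span ℚ {toQ j} with hV
  have h1 : (oneV : Fin ℓ → ℚ) ∈ V := le_sup_left (a := Submodule.span ℚ {oneV})
    (Submodule.mem_span_singleton_self _)
  have h2 : toQ j ∈ V := le_sup_right (a := Submodule.span ℚ {(oneV : Fin ℓ → ℚ)})
    (Submodule.mem_span_singleton_self _)
  have hnot : toQ j ∉ Submodule.span ℚ {(oneV : Fin ℓ → ℚ)} := by
    intro hmem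
    rw [Submodule.mem_span_singleton] at hmem
    obtain ⟨c, hc⟩ := hmem
    have e1 := congrFun hc p
    have e2 := congrFun hc q
    simp only [oneV, toQ, Pi.smul_apply, smul_eq_mul, mul_one] at e1 e2
    apply hpq
    have e3 : (j p : ℚ) = j q := by rw [← e1, ← e2]
    exact_mod_cast e3
  have hone0 : (oneV : Fin ℓ → ℚ) ≠ 0 := by
    intro h
    have := congrFun h p
    simp [oneV] at this
  have hfrV : Module.finrank ℚ V = 2 := by
    rw [hV, finrank_sup_single _ _ hnot, finrank_span_singleton hone0]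
  have hVle : V ≤ LinearMap.ker (lin a) := by
    rw [hV]
    apply sup_le
    · rw [Submodule.span_singleton_le_iff_mem, LinearMap.mem_ker]
      show ∑ m, (a m : ℚ) * 1 = 0
      simp only [mul_one]
      exact_mod_cast hsum
    · rw [Submodule.span_singleton_le_iff_mem, LinearMap.mem_ker, lin_toQ, hj]
      simp
  have hfrK := finrank_ker a p (ha p)
  have hmono := Submodule.finrank_mono hVle
  have hch := chain a ha A N hN hA hA0 j p q hpq (ℓ - 3) V hVle h1 h2 (by omega)
  have hK : Module.finrank ℚ (LinearMap.ker (lin a)) = ℓ - 1 := by omega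
  rw [hfrV, hK] at hch
  have hcard : R.card ≤ (T V A).card := by
    apply Finset.card_le_card_of_injOn (fun r : ℤ × ℤ => fun i => r.1 + j i * r.2)
    · intro r hr
      rw [Finset.mem_coe, mem_T]
      refine ⟨hR r hr, ?_⟩
      have : toQ (fun i => r.1 + j i * r.2) = (r.1 : ℚ) • (oneV : Fin ℓ → ℚ) + (r.2 : ℚ) • toQ j := by
        funext i
        simp [toQ, oneV]
        ring
      rw [this]
      exact Submodule.add_mem _ (Submodule.smul_mem _ _ h1) (Submodule.smul_mem _ _ h2)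
    · intro r _ s _ hrs
      have e1 : r.1 + j p * r.2 = s.1 + j p * s.2 := congrFun hrs p
      have e2 : r.1 + j q * r.2 = s.1 + j q * s.2 := congrFun hrs q
      have e3 : (j p - j q) * (r.2 - s.2) = 0 := by linarith
      have e4 : r.2 = s.2 := by
        rcases mul_eq_zero.1 e3 with h | h
        · exact absurd (by omega : j p = j q) hpq
        · omega
      refine Prod.ext ?_ e4
      rw [e4] at e1
      linarith
  refine le_trans ?_ hch
  apply pow_le_pow_left₀ (by positivity)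
  apply div_le_div_of_nonneg_right _ (by positivity)
  exact_mod_cast hcard

end Pool.Agent.H183R3
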