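import Pool.Agent.H942R3.KK.Stmts

set_option autoImplicit false

namespace Pool.Agent.H183R3.KKCount

open Finset Pool.Agent.H942R3.KK Pool.Agent.H560R2

open Classical in
theorem cols (Q : ℕ) [NeZero Q] (J : ℕ) :
    (((univ : Finset (Fin J → Fin Q)).filter (fun g => ¬ ∃ j, g j = 0)).card : ℝ) =
      (Q : ℝ) ^ J * (1 - 1 / (Q : ℝ)) ^ J ∧
    (((univ : Finset (Fin J → Fin Q)).filter (fun g => ∃ j, g j = 0)).card : ℝ) =
      (Q : ℝ) ^ J * (1 - (1 - 1 / (Q : ℝ)) ^ J) := by
  have hQ0 : 0 < Q := Nat.pos_of_ne_zero (NeZero.ne Q)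
  have hQR : (Q : ℝ) ≠ 0 := by exact_mod_cast hQ0.ne'
  have h1 : (((univ : Finset (Fin J → Fin Q)).filter (fun g => ¬ ∃ j, g j = 0)).card : ℝ) =
      (Q : ℝ) ^ J * (1 - 1 / (Q : ℝ)) ^ J := by
    have : ((univ : Finset (Fin J → Fin Q)).filter (fun g => ¬ ∃ j, g j = 0)) =
        Fintype.piFinset (fun _ => univ.erase (0 : Fin Q)) := by
      ext g
      simp
    rw [this, Fintype.card_piFinset]
    simp only [prod_const, card_univ, Fintype.card_fin]
    rw [card_erase_of_mem (mem_univ _), card_univ, Fintype.card_fin]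
    rw [← mul_pow]
    push_cast [Nat.cast_sub (show 1 ≤ Q from hQ0)]
    congr 1
    field_simp
  refine ⟨h1, ?_⟩
  have h2 := Finset.card_filter_add_card_filter_not (s := (univ : Finset (Fin J → Fin Q)))
    (fun g => ∃ j, g j = 0)
  have h3 : (((univ : Finset (Fin J → Fin Q)).filter (fun g => ∃ j, g j = 0)).card : ℝ) +
      (((univ : Finset (Fin J → Fin Q)).filter (fun g => ¬ ∃ j, g j = 0)).card : ℝ) =
      (Q : ℝ) ^ J := by
    rw [← Nat.cast_add, h2, card_univ, Fintype.card_fun, Fintype.card_fin, Fintype.card_fin]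
    push_cast
    rfl
  rw [h1] at h3
  linarith

open Classical in
theorem fiber (ι : Type) [Fintype ι] [DecidableEq ι] (Q : ℕ) [NeZero Q] (J : ℕ) (E S : Finset ι)
    (hS : S ⊆ E) :
    (((univ : Finset (Fin J → ι → Fin Q)).filter (fun ω => WJ ω ∩ E = S)).card : ℝ) =
      ((Q : ℝ) ^ (Fintype.card ι)) ^ J * ((1 - (1 - 1 / (Q : ℝ)) ^ J) ^ S.card *
        (1 - (1 - (1 - 1 / (Q : ℝ)) ^ J)) ^ (E.card - S.card)) := by
  obtain ⟨hn, hc⟩ := cols Q J
  set s : ι → Finset (Fin J → Fin Q) := fun v => if v ∈ S then univ.filter (fun g => ∃ j, g j = 0)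
    else if v ∈ E then univ.filter (fun g => ¬ ∃ j, g j = 0) else univ with hs
  have hcard : ((univ : Finset (Fin J → ι → Fin Q)).filter (fun ω => WJ ω ∩ E = S)).card =
      (Fintype.piFinset s).card := by
    refine Finset.card_equiv (Equiv.piComm _) ?_
    intro ω
    rw [mem_filter, Fintype.mem_piFinset]
    constructor
    · rintro ⟨-, h⟩ v
      change (fun j => ω j v) ∈ s v
      simp only [hs]
      split_ifs with h1 h2
      · rw [← h] at h1
        rw [mem_filter]
        exact ⟨mem_univ _, (mem_WJ ω v).1 (mem_inter.1 h1).1⟩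
      · rw [mem_filter]
        refine ⟨mem_univ _, fun h3 => h1 ?_⟩
        rw [← h]
        exact mem_inter.2 ⟨(mem_WJ ω v).2 h3, h2⟩
      · exact mem_univ _
    · intro h
      refine ⟨mem_univ _, ?_⟩
      ext v
      have hv := h v
      change (fun j => ω j v) ∈ s v at hv
      simp only [hs] at hv
      rw [mem_inter, mem_WJ]
      split_ifs at hv with h1 h2
      · rw [mem_filter] at hv
        exact ⟨fun _ => h1, fun _ => ⟨hv.2, hS h1⟩⟩
      · rw [mem_filter] at hv
        exact ⟨fun h3 => absurd h3.1 hv.2, fun h3 => absurd h3 h1⟩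
      · exact ⟨fun h3 => absurd h3.2 h2, fun h3 => absurd h3 h1⟩
  rw [hcard, Fintype.card_piFinset]
  push_cast
  set q : ℝ := 1 - (1 - 1 / (Q : ℝ)) ^ J with hq
  have hn' : (((univ : Finset (Fin J → Fin Q)).filter (fun g => ¬ ∃ j, g j = 0)).card : ℝ) =
      (Q : ℝ) ^ J * (1 - q) := by rw [hn, hq]; ring
  have hv : ∀ v ∈ (univ : Finset ι), ((s v).card : ℝ) = (Q : ℝ) ^ J *
      (if v ∈ E then (if v ∈ S then q else 1 - q) else 1) := by
    intro v _
    simp only [hs]
    split_ifs with h1 h2 h3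
    · rw [hc]
    · exact absurd (hS h1) h2
    · rw [hn']
    · rw [card_univ, Fintype.card_fun, Fintype.card_fin, Fintype.card_fin]
      push_cast
      ring
  rw [prod_congr rfl hv, prod_mul_distrib, prod_const, card_univ]
  congr 1
  · rw [← pow_mul, ← pow_mul, mul_comm]
  · rw [← prod_filter]
    have : (univ.filter (fun v => v ∈ E)) = E := by ext v; simp
    rw [this, prod_ite, prod_const, prod_const]
    have e1 : (E.filter (fun v => v ∈ S)) = S := by
      ext v; simp only [mem_filter]; exact ⟨fun h => h.2, fun h => ⟨hS h, h⟩⟩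
    have e2 : (E.filter (fun v => ¬ v ∈ S)).card = E.card - S.card := by
      rw [← card_sdiff_of_subset hS]
      congr 1
      ext v; simp
    rw [e1, e2]

theorem taskCount : TaskCount := by
  classical
  intro ι _ _ Q _ J E A hA hcount
  have hQ0 : 0 < Q := Nat.pos_of_ne_zero (NeZero.ne Q)
  have hQR : (0 : ℝ) < Q := by exact_mod_cast hQ0
  set X : ℝ := ((Q : ℝ) ^ (Fintype.card ι)) ^ J with hX
  have hXpos : 0 < X := by positivity
  -- total number
  have htot : (((univ : Finset (Fin J → ι → Fin Q)).filter (fun ω => WJ ω ∈ A)).card : ℝ) +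
      (((univ : Finset (Fin J → ι → Fin Q)).filter (fun ω => WJ ω ∉ A)).card : ℝ) = X := by
    have h2 := Finset.card_filter_add_card_filter_not (s := (univ : Finset (Fin J → ι → Fin Q)))
      (fun ω => WJ ω ∈ A)
    rw [← Nat.cast_add, h2, card_univ, Fintype.card_fun, Fintype.card_fun, Fintype.card_fin,
      Fintype.card_fin, hX]
    push_cast
    rfl
  have hsum : (((univ : Finset (Fin J → ι → Fin Q)).filter (fun ω => WJ ω ∈ A)).card : ℝ) =
      X * Pr E (1 - (1 - 1 / (Q : ℝ)) ^ J) A := by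
    have h1 : ((univ : Finset (Fin J → ι → Fin Q)).filter (fun ω => WJ ω ∈ A)).card =
        ∑ S ∈ E.powerset, (((univ : Finset (Fin J → ι → Fin Q)).filter (fun ω => WJ ω ∈ A)).filter
          (fun ω => WJ ω ∩ E = S)).card := by
      refine Finset.card_eq_sum_card_fiberwise (f := fun ω => WJ ω ∩ E) ?_
      intro ω _
      simp only [coe_powerset, Set.mem_preimage, Set.mem_powerset_iff, coe_subset]
      exact inter_subset_right
    rw [h1]
    unfold Pr
    rw [mul_sum]
    push_cast
    refine sum_congr rfl fun S hS => ?_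
    have hS' := mem_powerset.1 hS
    by_cases hSA : S ∈ A
    · rw [Set.indicator_of_mem hSA, ← fiber ι Q J E S hS']
      congr 2
      ext ω
      simp only [mem_filter, mem_univ, true_and]
      constructor
      · exact fun h => h.2
      · intro h
        refine ⟨?_, h⟩
        rw [← hA, h]
        exact hSA
    · rw [Set.indicator_of_notMem hSA, mul_zero, Nat.cast_eq_zero, card_eq_zero]
      ext ω
      simp only [mem_filter, mem_univ, true_and, notMem_empty, iff_false]
      rintro ⟨h1, h2⟩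
      rw [← hA, h2] at h1
      exact hSA h1
  rw [hsum] at htot
  have h5 : X * (3 / 4) ≤ X * Pr E (1 - (1 - 1 / (Q : ℝ)) ^ J) A := by linarith
  exact le_of_mul_le_mul_left h5 hXpos

end Pool.Agent.H183R3.KKCount
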