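import Mathlib

open Finset

universe u

namespace H183R3.LF

/-- `F(A)` for the form with coefficients `f`: all values `∑ i, f i • a i` with all `a i ∈ A`. -/
def formImage {R : Type*} [Ring R] {W : Type*} [AddCommGroup W] [Module R W] {h : ℕ}
    (f : Fin h → R) (A : Set W) : Set W :=
  {w | ∃ a : Fin h → W, (∀ i, a i ∈ A) ∧ w = ∑ i, f i • a i}

/-- property (S) for the pair of linear forms with coefficients `f` and `g` over `R`. -/
def PropertyS (R : Type u) [Ring R] {h l : ℕ} (f : Fin h → R) (g : Fin l → R) : Prop :=
  ∀ ε : ℝ, 0 < ε → ∀ c : ℝ, 0 < c →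
    ∃ (W : Type u) (_ : AddCommGroup W) (_ : Module R W) (_ : Finite W) (A : Set W),
      c < (Nat.card W : ℝ) ∧ formImage f A = Set.univ ∧
        (Nat.card (formImage g A) : ℝ) < ε * (Nat.card W : ℝ)

section field

variable {K : Type u} [Field K]

lemma exists_psi {ι : Type*} [Fintype ι] [DecidableEq ι] (f γ : ι → K) (hf : f ≠ 0)
    (hγ : ∀ c : K, c ≠ 0 → γ ≠ c • f) :
    ∃ ψ : ι → K, ∑ i, f i * ψ i = 1 ∧ ∑ i, γ i * ψ i = 0 := by
  obtain ⟨i0, hi0⟩ : ∃ i, f i ≠ 0 := by
    by_contra hcon
    push Not at hcon
    exact hf (funext hcon)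
  have hi0' : f i0 ≠ 0 := hi0
  by_cases hdet : ∃ i1, f i0 * γ i1 - f i1 * γ i0 ≠ 0
  · obtain ⟨i1, hi1⟩ := hdet
    have hne : i0 ≠ i1 := by
      rintro rfl
      exact hi1 (by ring)
    refine ⟨fun i => (if i = i0 then γ i1 / (f i0 * γ i1 - f i1 * γ i0) else 0) +
        (if i = i1 then - γ i0 / (f i0 * γ i1 - f i1 * γ i0) else 0), ?_, ?_⟩
    · simp only [mul_add, mul_ite, mul_zero, Finset.sum_add_distrib, Finset.sum_ite_eq',
        Finset.mem_univ, if_true]
      field_simp
      ring
    · simp only [mul_add, mul_ite, mul_zero, Finset.sum_add_distrib, Finset.sum_ite_eq',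
        Finset.mem_univ, if_true]
      field_simp
      ring
  · push Not at hdet
    have hγ0 : γ = (γ i0 / f i0) • f := by
      funext i
      simp only [Pi.smul_apply, smul_eq_mul]
      have := hdet i
      field_simp
      linear_combination this
    have hz : γ i0 / f i0 = 0 := by
      by_contra hcon
      exact hγ _ hcon hγ0
    have hγz : γ = 0 := by
      rw [hγ0, hz, zero_smul]
    refine ⟨fun i => if i = i0 then (f i0)⁻¹ else 0, ?_, ?_⟩
    · simp [hi0']
    · simp [hγz]

/-- The level construction. -/
lemma core [Fintype K] [DecidableEq K] {h l : ℕ} (f : Fin h → K) (g : Fin l → K) (hf : f ≠ 0)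
    (hobs : ∀ c : K, c ≠ 0 → ∀ J : Fin h → Finset (Fin l),
      (∀ i i', i ≠ i' → Disjoint (J i) (J i')) → ∃ i, ∑ j ∈ J i, g j ≠ c * f i) (r : ℕ) :
    ∃ (T : Type u) (_ : Fintype T) (_ : DecidableEq T) (a : Fin h → (T → K) → (T → K)),
      Nonempty T ∧ (∀ w, ∑ i, f i • a i w = w) ∧
      ∀ (i : Fin l → Fin h) (w : Fin l → (T → K)), (Finset.univ.image w).card ≤ r →
        ∑ j, g j • a (i j) (w j) ≠ 1 := by
  classical
  induction r with
  | zero =>
    obtain ⟨ψ, hψ, -⟩ := exists_psi f (0 : Fin h → K) hf (by
      intro c hc h0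
      apply hf
      have := congrArg (fun v => c⁻¹ • v) h0
      simpa [smul_smul, hc] using this.symm)
    refine ⟨PUnit, inferInstance, inferInstance, fun i w => ψ i • w, ⟨PUnit.unit⟩, ?_, ?_⟩
    · intro w
      simp only [smul_smul]
      rw [← Finset.sum_smul, hψ, one_smul]
    · intro i w hw
      have hl : IsEmpty (Fin l) := by
        have h0 : (Finset.univ.image w) = ∅ := Finset.card_eq_zero.1 (Nat.le_zero.1 hw)
        have h1 : (Finset.univ : Finset (Fin l)) = ∅ := Finset.image_eq_empty.1 h0
        exact Finset.univ_eq_empty_iff.1 h1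
      rw [Finset.univ_eq_empty, Finset.sum_empty]
      exact zero_ne_one
  | succ r ih =>
    obtain ⟨T, hT1, hT2, a, hT3, ha1, ha2⟩ := ih
    -- class vectors
    let γ : (Fin l → Fin h × (T → K)) → (T → K) → Fin h → K := fun P v i =>
      ∑ j ∈ Finset.univ.filter (fun j => P j = (i, v)), g j
    have hψ : ∀ (P : Fin l → Fin h × (T → K)) (v : T → K), ∃ ψ : Fin h → K,
        ∑ i, f i * ψ i = 1 ∧ ∑ i, γ P v i * ψ i = 0 := by
      intro P v
      apply exists_psi f _ hf
      intro c hc heq
      obtain ⟨i, hi⟩ := hobs c hc (fun i => Finset.univ.filter (fun j => P j = (i, v))) (by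
        intro i i' hii
        rw [Finset.disjoint_left]
        intro j hj hj'
        simp only [Finset.mem_filter, Finset.mem_univ, true_and] at hj hj'
        rw [hj] at hj'
        exact hii (Prod.mk.inj hj').1)
      exact hi (congrFun heq i)
    choose ψ hψ1 hψ2 using hψ
    refine ⟨T ⊕ (Fin l → Fin h × (T → K)), inferInstance, inferInstance,
      fun i w => Sum.elim (a i (fun t => w (Sum.inl t)))
        (fun P => ψ P (fun t => w (Sum.inl t)) i * w (Sum.inr P)), ⟨Sum.inl hT3.some⟩, ?_, ?_⟩
    · intro w
      funext t
      rw [Finset.sum_apply]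
      rcases t with t | P
      · have := congrFun (ha1 (fun t => w (Sum.inl t))) t
        rw [Finset.sum_apply] at this
        simpa using this
      · simp only [Pi.smul_apply, Sum.elim_inr, smul_eq_mul]
        have : ∑ i, f i * (ψ P (fun t => w (Sum.inl t)) i * w (Sum.inr P))
            = (∑ i, f i * ψ P (fun t => w (Sum.inl t)) i) * w (Sum.inr P) := by
          rw [Finset.sum_mul]
          exact Finset.sum_congr rfl fun i _ => by ring
        rw [this, hψ1, one_mul]
    · intro i w hw heq
      by_cases hr : (Finset.univ.image (fun j => fun t => w j (Sum.inl t) : Fin l → (T → K))).card ≤ r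
      · apply ha2 i (fun j => fun t => w j (Sum.inl t)) hr
        funext t
        have := congrFun heq (Sum.inl t)
        rw [Finset.sum_apply] at this ⊢
        simpa using this
      · -- the restriction map is injective on the image
        have hinj : Set.InjOn (fun (x : T ⊕ (Fin l → Fin h × (T → K)) → K) => fun t => x (Sum.inl t))
            (Finset.univ.image w : Finset _) := by
          apply Finset.injOn_of_card_image_eq
          apply le_antisymm Finset.card_image_le
          have h1 : ((Finset.univ.image w).image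
              (fun (x : T ⊕ (Fin l → Fin h × (T → K)) → K) => fun t => x (Sum.inl t)))
              = (Finset.univ.image (fun j => fun t => w j (Sum.inl t) : Fin l → (T → K))) := by
            rw [Finset.image_image]
            rfl
          rw [h1]
          omega
        have hfac : ∀ j j', (fun t => w j (Sum.inl t)) = (fun t => w j' (Sum.inl t)) → w j = w j' := by
          intro j j' hjj
          apply hinj _ _ hjj
          · simp
          · simp
        set P : Fin l → Fin h × (T → K) := fun j => (i j, fun t => w j (Sum.inl t)) with hP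
        -- the common value of the class
        have hZ : ∃ Z : (T → K) → K, ∀ j, w j (Sum.inr P) = Z (fun t => w j (Sum.inl t)) := by
          refine ⟨fun v => if hv : ∃ j, (fun t => w j (Sum.inl t)) = v then
            w hv.choose (Sum.inr P) else 0, ?_⟩
          intro j
          have hv : ∃ j', (fun t => w j' (Sum.inl t)) = (fun t => w j (Sum.inl t)) := ⟨j, rfl⟩
          simp only [dif_pos hv]
          rw [hfac _ _ hv.choose_spec]
        obtain ⟨Z, hZ⟩ := hZ
        have h2 := congrFun heq (Sum.inr P)
        rw [Finset.sum_apply] at h2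
        simp only [Pi.smul_apply, Sum.elim_inr, smul_eq_mul, Pi.one_apply] at h2
        have h3 : ∑ j, g j * (ψ P (fun t => w j (Sum.inl t)) (i j) * w j (Sum.inr P))
            = ∑ q : Fin h × (T → K), ∑ j ∈ Finset.univ.filter (fun j => P j = q),
              g j * (ψ P q.2 q.1 * Z q.2) := by
          rw [← Finset.sum_fiberwise (s := Finset.univ) (g := P)]
          refine Finset.sum_congr rfl fun q _ => Finset.sum_congr rfl fun j hj => ?_
          simp only [Finset.mem_filter, Finset.mem_univ, true_and] at hj
          rw [hZ j, ← hj]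
        have h4 : ∑ q : Fin h × (T → K), ∑ j ∈ Finset.univ.filter (fun j => P j = q),
              g j * (ψ P q.2 q.1 * Z q.2) = 0 := by
          rw [Fintype.sum_prod_type_right]
          apply Finset.sum_eq_zero
          intro v _
          have : ∑ x, ∑ j ∈ Finset.univ.filter (fun j => P j = (x, v)), g j * (ψ P v x * Z v)
              = (∑ x, γ P v x * ψ P v x) * Z v := by
            rw [Finset.sum_mul]
            refine Finset.sum_congr rfl fun x _ => ?_
            rw [← Finset.sum_mul]
            ring
          rw [this, hψ2, zero_mul]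
        rw [h3, h4] at h2
        exact zero_ne_one h2

end field

end H183R3.LF
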