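import Mathlib
import Pool.Agent.H183R3.LinForm

open Finset

universe u

namespace H183R3.LF

/-- Tensor power trick. -/
lemma propertyS_of_exists {R : Type u} [Ring R] {h l : ℕ} (f : Fin h → R) (g : Fin l → R)
    (W : Type u) [AddCommGroup W] [Module R W] [Finite W] (A : Set W)
    (hA : A.Nonempty) (hF : formImage f A = Set.univ) (hG : formImage g A ≠ Set.univ) :
    PropertyS R f g := by
  classical
  intro ε hε c hc
  -- the cardinalities
  have hM : Nat.card (formImage g A) < Nat.card W := by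
    have h1 : (formImage g A).ncard < (Set.univ : Set W).ncard :=
      Set.ncard_lt_ncard (Set.ssubset_univ_iff.2 hG) (Set.toFinite _)
    rwa [Set.ncard_univ] at h1
  have hM1 : 0 < Nat.card (formImage g A) := by
    obtain ⟨a, ha⟩ := hA
    have : Nonempty (formImage g A) := ⟨⟨∑ i, g i • a, fun _ => a, fun _ => ha, rfl⟩⟩
    exact Nat.card_pos
  set M := Nat.card (formImage g A) with hMdef
  set N := Nat.card W with hNdef
  have hN1 : (1 : ℝ) < N := by
    have : 1 < N := by omega
    exact_mod_cast this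
  have hN0 : (0 : ℝ) < N := by linarith
  have hr : (M : ℝ) / N < 1 := by
    rw [div_lt_one hN0]
    exact_mod_cast hM
  have hr0 : (0 : ℝ) ≤ (M : ℝ) / N := by positivity
  have t1 := tendsto_pow_atTop_nhds_zero_of_lt_one hr0 hr
  have t2 := tendsto_pow_atTop_atTop_of_one_lt hN1
  obtain ⟨n, hn1, hn2⟩ := ((t1.eventually (gt_mem_nhds hε)).and
    (t2.eventually (Filter.eventually_gt_atTop c))).exists
  refine ⟨Fin n → W, inferInstance, inferInstance, inferInstance, {x | ∀ t, x t ∈ A}, ?_, ?_, ?_⟩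
  · rw [Nat.card_fun, Nat.card_fin, Nat.cast_pow]
    exact hn2
  · apply Set.eq_univ_of_forall
    intro x
    have hx : ∀ t, ∃ a : Fin h → W, (∀ i, a i ∈ A) ∧ x t = ∑ i, f i • a i := by
      intro t
      have : x t ∈ formImage f A := by rw [hF]; trivial
      exact this
    choose a ha1 ha2 using hx
    refine ⟨fun i t => a t i, fun i t => ha1 t i, ?_⟩
    funext t
    rw [Finset.sum_apply, ha2 t]
    rfl
  · have hle : Nat.card (formImage g {x : Fin n → W | ∀ t, x t ∈ A}) ≤ M ^ n := by
      have h1 : Nat.card (Fin n → formImage g A) = M ^ n := by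
        rw [Nat.card_fun, Nat.card_fin]
      rw [← h1]
      have hmem : ∀ y ∈ formImage g {x : Fin n → W | ∀ t, x t ∈ A}, ∀ t, y t ∈ formImage g A := by
        rintro y ⟨a, ha1, ha2⟩ t
        refine ⟨fun i => a i t, fun i => ha1 i t, ?_⟩
        rw [ha2, Finset.sum_apply]
        rfl
      apply Nat.card_le_card_of_injective
        (fun (y : formImage g {x : Fin n → W | ∀ t, x t ∈ A}) => fun t =>
          (⟨y.1 t, hmem y.1 y.2 t⟩ : formImage g A))
      intro y y' hyy
      apply Subtype.ext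
      funext t
      have := congrFun hyy t
      exact congrArg Subtype.val this
    have hlt : ((M : ℝ) / N) ^ n * (N : ℝ) ^ n < ε * (N : ℝ) ^ n := by
      apply mul_lt_mul_of_pos_right hn1
      positivity
    rw [← mul_pow, div_mul_cancel₀ _ (ne_of_gt hN0)] at hlt
    calc (Nat.card (formImage g {x : Fin n → W | ∀ t, x t ∈ A}) : ℝ) ≤ (M : ℝ) ^ n := by
          exact_mod_cast hle
      _ < ε * (N : ℝ) ^ n := hlt
      _ = ε * (Nat.card (Fin n → W) : ℝ) := by
          rw [Nat.card_fun, Nat.card_fin, Nat.cast_pow]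

/-- The negative criterion. -/
lemma not_propertyS {R : Type u} [CommRing R] {h l : ℕ} (f : Fin h → R) (g : Fin l → R)
    (J : Fin h → Finset (Fin l)) (hJ : ∀ i i', i ≠ i' → Disjoint (J i) (J i'))
    (d a b : R) (k : ℕ) (hd : ∀ i, d ∣ f i) (ha : a ∣ d ^ k) (hb : b ∣ d ^ k)
    (hab : ∀ i, a * ∑ j ∈ J i, g j = b * f i) : ¬ PropertyS R f g := by
  classical
  intro hS
  obtain ⟨W, _, _, _, A, hW, hF, hG⟩ := hS 1 one_pos 1 one_pos
  have hW' : 1 < Nat.card W := by exact_mod_cast hW
  have hnt : Nontrivial W := Finite.one_lt_card_iff_nontrivial.1 hW'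
  -- A is nonempty
  obtain ⟨a0, ha0⟩ : A.Nonempty := by
    obtain ⟨w, hw⟩ := exists_ne (0 : W)
    have : w ∈ formImage f A := by rw [hF]; trivial
    obtain ⟨x, hx1, hx2⟩ := this
    rcases Nat.eq_zero_or_pos h with rfl | hpos
    · exfalso
      apply hw
      rw [hx2]
      simp
    · exact ⟨x ⟨0, hpos⟩, hx1 _⟩
  have hFw : ∀ w : W, ∃ x : Fin h → W, (∀ i, x i ∈ A) ∧ w = ∑ i, f i • x i := by
    intro w
    have : w ∈ formImage f A := by rw [hF]; trivial
    exact this
  have hdsurj : ∀ w : W, ∃ v : W, d • v = w := by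
    intro w
    obtain ⟨x, -, hx⟩ := hFw w
    choose f' hf' using hd
    refine ⟨∑ i, f' i • x i, ?_⟩
    rw [hx, Finset.smul_sum]
    refine Finset.sum_congr rfl fun i _ => ?_
    rw [hf' i, mul_smul]
  have hdk : ∀ (k : ℕ) (w : W), ∃ v : W, d ^ k • v = w := by
    intro k
    induction k with
    | zero => intro w; exact ⟨w, by simp⟩
    | succ k ih =>
      intro w
      obtain ⟨v, hv⟩ := ih w
      obtain ⟨u, hu⟩ := hdsurj v
      exact ⟨u, by rw [pow_succ, mul_smul, hu, hv]⟩
  have hsurj : ∀ e : R, e ∣ d ^ k → Function.Surjective (fun v : W => e • v) := by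
    rintro e ⟨e', he'⟩ w
    obtain ⟨v, hv⟩ := hdk k w
    exact ⟨e' • v, by simp only [← mul_smul, ← he', hv]⟩
  have hainj : Function.Injective (fun v : W => a • v) :=
    Finite.injective_iff_surjective.2 (hsurj a ha)
  -- G(A) is everything
  have hGA : formImage g A = Set.univ := by
    apply Set.eq_univ_of_forall
    intro y
    set U : Finset (Fin l) := Finset.univ.biUnion J with hU
    set y' : W := y - ∑ j ∈ Uᶜ, g j • a0 with hy'
    obtain ⟨w, hw⟩ := hsurj b hb (a • y')
    obtain ⟨x, hx1, hx2⟩ := hFw w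
    have key : ∑ i, (∑ j ∈ J i, g j) • x i = y' := by
      apply hainj
      show a • ∑ i, (∑ j ∈ J i, g j) • x i = a • y'
      rw [← hw, hx2]
      show _ = b • ∑ i, f i • x i
      rw [Finset.smul_sum, Finset.smul_sum]
      refine Finset.sum_congr rfl fun i _ => ?_
      rw [← mul_smul, ← mul_smul, hab]
    refine ⟨fun j => if hj : ∃ i, j ∈ J i then x hj.choose else a0, ?_, ?_⟩
    · intro j
      dsimp only
      split_ifs with hj
      · exact hx1 _
      · exact ha0
    · rw [← Finset.sum_add_sum_compl U]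
      have h1 : ∑ j ∈ U, g j • (if hj : ∃ i, j ∈ J i then x hj.choose else a0)
          = ∑ i, (∑ j ∈ J i, g j) • x i := by
        rw [hU, Finset.sum_biUnion]
        · refine Finset.sum_congr rfl fun i _ => ?_
          rw [Finset.sum_smul]
          refine Finset.sum_congr rfl fun j hj => ?_
          have hex : ∃ i, j ∈ J i := ⟨i, hj⟩
          rw [dif_pos hex]
          have : hex.choose = i := by
            by_contra hne
            exact (Finset.disjoint_left.1 (hJ _ _ hne) hex.choose_spec) hj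
          rw [this]
        · intro i _ i' _ hii
          exact hJ i i' hii
      have h2 : ∑ j ∈ Uᶜ, g j • (if hj : ∃ i, j ∈ J i then x hj.choose else a0)
          = ∑ j ∈ Uᶜ, g j • a0 := by
        refine Finset.sum_congr rfl fun j hj => ?_
        have : ¬ ∃ i, j ∈ J i := by
          rintro ⟨i, hi⟩
          rw [Finset.mem_compl] at hj
          exact hj (Finset.mem_biUnion.2 ⟨i, Finset.mem_univ _, hi⟩)
        rw [dif_neg this]
      rw [h1, h2, key, hy']
      abel
  rw [hGA, one_mul] at hG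
  have : Nat.card (Set.univ : Set W) = Nat.card W := by
    rw [Nat.card_coe_set_eq, Set.ncard_univ]
  rw [this] at hG
  exact lt_irrefl _ hG

/-- The local criterion. -/
lemma local_criterion {R : Type u} [CommRing R] {h l : ℕ} (f : Fin h → R) (g : Fin l → R)
    (m : Ideal R) (hm : m.IsMaximal) (hfin : Finite (R ⧸ m)) (hf : ∃ i, f i ∉ m)
    (hobs : ∀ c : R, c ∉ m → ∀ J : Fin h → Finset (Fin l),
      (∀ i i', i ≠ i' → Disjoint (J i) (J i')) → ∃ i, ∑ j ∈ J i, g j - c * f i ∉ m) :
    PropertyS R f g := by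
  classical
  let _ : Field (R ⧸ m) := Ideal.Quotient.field m
  let _ : Fintype (R ⧸ m) := Fintype.ofFinite _
  obtain ⟨T, hT1, hT2, a, hT3, ha1, ha2⟩ := core (K := R ⧸ m)
    (fun i => Ideal.Quotient.mk m (f i)) (fun j => Ideal.Quotient.mk m (g j)) (by
      obtain ⟨i, hi⟩ := hf
      intro h0
      exact hi (Ideal.Quotient.eq_zero_iff_mem.1 (congrFun h0 i))) (by
      intro c hc J hJ
      obtain ⟨c, rfl⟩ := Ideal.Quotient.mk_surjective c
      have hc' : c ∉ m := fun hcm => hc (Ideal.Quotient.eq_zero_iff_mem.2 hcm)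
      obtain ⟨i, hi⟩ := hobs c hc' J hJ
      refine ⟨i, fun heq => hi ?_⟩
      rw [← Ideal.Quotient.eq_zero_iff_mem, map_sub, map_sum, map_mul, heq, sub_self]) l
  have hsmul : ∀ (r : R) (w : T → R ⧸ m), r • w = (Ideal.Quotient.mk m r) • w := by
    intro r w
    funext t
    simp only [Pi.smul_apply, smul_eq_mul]
    rw [Algebra.smul_def]
    rfl
  apply propertyS_of_exists f g (T → R ⧸ m) {x | ∃ i w, x = a i w}
  · obtain ⟨i, -⟩ := hf
    exact ⟨a i 0, i, 0, rfl⟩
  · apply Set.eq_univ_of_forall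
    intro w
    refine ⟨fun i => a i w, fun i => ⟨i, w, rfl⟩, ?_⟩
    rw [← ha1 w]
    refine Finset.sum_congr rfl fun i _ => ?_
    rw [ha1 w, hsmul]
  · intro hG
    have : (1 : T → R ⧸ m) ∈ formImage g {x | ∃ i w, x = a i w} := by rw [hG]; trivial
    obtain ⟨x, hx1, hx2⟩ := this
    choose i w hx1 using hx1
    apply ha2 i w (le_trans Finset.card_image_le (by simp))
    rw [hx2]
    refine Finset.sum_congr rfl fun j _ => ?_
    rw [hx1 j, hsmul]

/-- Complete classification over a field. -/
theorem field_classification (K : Type u) [Field K] {h l : ℕ} (f : Fin h → K) (g : Fin l → K) :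
    PropertyS K f g ↔ Finite K ∧ f ≠ 0 ∧ ¬ ∃ (c : K) (J : Fin h → Finset (Fin l)), c ≠ 0 ∧
      (∀ i i', i ≠ i' → Disjoint (J i) (J i')) ∧ ∀ i, ∑ j ∈ J i, g j = c * f i := by
  classical
  constructor
  · intro hS
    refine ⟨?_, ?_, ?_⟩
    · obtain ⟨W, _, _, _, A, hW, hF, hG⟩ := hS 1 one_pos 1 one_pos
      have hW' : 1 < Nat.card W := by exact_mod_cast hW
      have hnt : Nontrivial W := Finite.one_lt_card_iff_nontrivial.1 hW'
      obtain ⟨w, hw⟩ := exists_ne (0 : W)
      exact Finite.of_injective (fun c : K => c • w) (smul_left_injective K hw)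
    · rintro rfl
      obtain ⟨W, _, _, _, A, hW, hF, hG⟩ := hS 1 one_pos 1 one_pos
      have hW' : 1 < Nat.card W := by exact_mod_cast hW
      have hnt : Nontrivial W := Finite.one_lt_card_iff_nontrivial.1 hW'
      obtain ⟨w, hw⟩ := exists_ne (0 : W)
      have : w ∈ formImage (0 : Fin h → K) A := by rw [hF]; trivial
      obtain ⟨x, hx1, hx2⟩ := this
      apply hw
      rw [hx2]
      simp
    · rintro ⟨c, J, hc, hJ, hcJ⟩
      refine not_propertyS f g J hJ 1 1 c 0 (fun i => one_dvd _) (one_dvd _) ?_ ?_ hS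
      · exact ⟨c⁻¹, by simp [hc]⟩
      · intro i
        rw [one_mul, hcJ]
  · rintro ⟨hfin, hf, hobs⟩
    have hbot : (⊥ : Ideal K).IsMaximal := Ideal.bot_isMaximal
    refine local_criterion f g ⊥ hbot ?_ ?_ ?_
    · exact Finite.of_surjective _ (Ideal.Quotient.mk_surjective (I := (⊥ : Ideal K)))
    · by_contra hcon
      push Not at hcon
      exact hf (funext fun i => (Ideal.mem_bot.1 (hcon i)))
    · intro c hc J hJ
      by_contra hcon
      push Not at hcon
      apply hobs
      refine ⟨c, J, fun h0 => hc (Ideal.mem_bot.2 h0), hJ, fun i => ?_⟩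
      exact sub_eq_zero.1 (Ideal.mem_bot.1 (hcon i))

end H183R3.LF
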