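import Mathlib
import Pool.Agent.H183R3.LinForm2

open Finset

universe u

namespace H183R3.LF

/-- Global criterion over a domain with infinitely many finite residue fields. -/
lemma global_criterion {R : Type u} [CommRing R] [IsDomain R] {h l : ℕ}
    (f : Fin h → R) (g : Fin l → R)
    (M : Set (Ideal R)) (hM : M.Infinite) (hmax : ∀ m ∈ M, m.IsMaximal)
    (hfin : ∀ m ∈ M, Finite (R ⧸ m)) (hx : ∀ x : R, x ≠ 0 → {m | m ∈ M ∧ x ∈ m}.Finite)
    (hf : f ≠ 0)
    (hobs : ∀ J : Fin h → Finset (Fin l), (∀ i i', i ≠ i' → Disjoint (J i) (J i')) →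
      (∀ i i', (∑ j ∈ J i, g j) * f i' = (∑ j ∈ J i', g j) * f i) → ∀ i, ∑ j ∈ J i, g j = 0) :
    PropertyS R f g := by
  classical
  by_contra hS
  obtain ⟨i0, hi0⟩ : ∃ i, f i ≠ 0 := by
    by_contra hcon
    push Not at hcon
    exact hf (funext hcon)
  set M' : Set (Ideal R) := M \ {m | m ∈ M ∧ f i0 ∈ m} with hM'
  have hM'inf : M'.Infinite := hM.sdiff (hx _ hi0)
  have hex : ∀ m : M', ∃ (J : Fin h → Finset (Fin l)) (c : R), c ∉ m.1 ∧
      (∀ i i', i ≠ i' → Disjoint (J i) (J i')) ∧ ∀ i, ∑ j ∈ J i, g j - c * f i ∈ m.1 := by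
    rintro ⟨m, hmM, hm2⟩
    by_contra hcon
    push Not at hcon
    apply hS
    apply local_criterion f g m (hmax m hmM) (hfin m hmM)
    · refine ⟨i0, fun h0 => hm2 ⟨hmM, h0⟩⟩
    · intro c hc J hJ
      exact hcon J c hc hJ
  choose J c hc hJ hJc using hex
  have : Infinite M' := hM'inf.to_subtype
  obtain ⟨J0, hJ0⟩ := Finite.exists_infinite_fiber J
  have hinf : ∀ x : R, (∀ m : M', J m = J0 → x ∈ m.1) → x = 0 := by
    intro x hxm
    by_contra hx0
    have hfin2 := hx x hx0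
    have h1 : Set.Infinite (J ⁻¹' {J0}) := Set.infinite_coe_iff.1 hJ0
    have h2 : Set.Infinite ((fun m : M' => (m.1 : Ideal R)) '' (J ⁻¹' {J0})) :=
      h1.image Subtype.val_injective.injOn
    apply h2
    apply hfin2.subset
    rintro _ ⟨m, hm, rfl⟩
    exact ⟨m.2.1, hxm m hm⟩
  obtain ⟨m, hm⟩ : ∃ m : M', J m = J0 := by
    obtain ⟨m, hm⟩ := (Set.infinite_coe_iff.1 hJ0).nonempty
    exact ⟨m, hm⟩
  have hz := hobs J0 (hm ▸ hJ m) (by
    intro i i'
    apply sub_eq_zero.1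
    apply hinf
    intro m' hm'
    have h1 := hJc m' i
    have h2 := hJc m' i'
    rw [hm'] at h1 h2
    have h3 := Ideal.sub_mem _ (Ideal.mul_mem_right (f i') _ h1) (Ideal.mul_mem_right (f i) _ h2)
    have h4 : (∑ j ∈ J0 i, g j) * f i' - (∑ j ∈ J0 i', g j) * f i
        = (∑ j ∈ J0 i, g j - c m' * f i) * f i' - (∑ j ∈ J0 i', g j - c m' * f i') * f i := by
      ring
    rw [h4]
    exact h3) i0
  have h1 := hJc m i0
  rw [hm, hz, zero_sub] at h1
  have h2 : c m * f i0 ∈ m.1 := by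
    have := Ideal.neg_mem_iff _ |>.1 h1
    exact this
  rcases (hmax m.1 m.2.1).isPrime.mem_or_mem h2 with h3 | h3
  · exact hc m h3
  · exact m.2.2 ⟨m.2.1, h3⟩

lemma exists_dvd_pow (d : ℤ) : ∀ s : ℕ, s ≠ 0 →
    (∀ p : ℕ, p.Prime → p ∣ s → (p : ℤ) ∣ d) → ∃ k : ℕ, (s : ℤ) ∣ d ^ k := by
  intro s
  induction s using Nat.strong_induction_on with
  | _ s ih =>
    intro hs hp
    by_cases h1 : s = 1
    · exact ⟨0, by simp [h1]⟩
    · obtain ⟨p, hpp, s', rfl⟩ := Nat.exists_prime_and_dvd h1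
      have hs' : s' ≠ 0 := by
        rintro rfl
        simp at hs
      have hlt : s' < p * s' := by
        have := hpp.two_le
        nlinarith [Nat.pos_of_ne_zero hs']
      obtain ⟨k, hk⟩ := ih s' hlt hs' (fun q hq hqs => hp q hq (dvd_mul_of_dvd_right hqs _))
      refine ⟨k + 1, ?_⟩
      rw [pow_succ', Nat.cast_mul]
      exact mul_dvd_mul (hp p hpp (dvd_mul_right _ _)) hk

/-- Prime criterion over the integers. -/
lemma int_prime {h l : ℕ} (f : Fin h → ℤ) (g : Fin l → ℤ) (p : ℕ) (hp : p.Prime)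
    (hf : ∃ i, ¬ (p : ℤ) ∣ f i)
    (hobs : ∀ c : ℤ, ¬ (p : ℤ) ∣ c → ∀ J : Fin h → Finset (Fin l),
      (∀ i i', i ≠ i' → Disjoint (J i) (J i')) → ∃ i, ¬ (p : ℤ) ∣ ∑ j ∈ J i, g j - c * f i) :
    PropertyS ℤ f g := by
  have hfin : Finite (ℤ ⧸ Ideal.span {(p : ℤ)}) := by
    have : NeZero p := ⟨hp.ne_zero⟩
    exact Finite.of_equiv (ZMod p) (Int.quotientSpanNatEquivZMod p).symm.toEquiv
  have hmax : (Ideal.span {(p : ℤ)}).IsMaximal := by
    apply PrincipalIdealRing.isMaximal_of_irreducible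
    exact (Nat.prime_iff_prime_int.1 hp).irreducible
  apply local_criterion f g (Ideal.span {(p : ℤ)}) hmax hfin
  · obtain ⟨i, hi⟩ := hf
    exact ⟨i, fun hm => hi (Ideal.mem_span_singleton.1 hm)⟩
  · intro c hc J hJ
    obtain ⟨i, hi⟩ := hobs c (fun hd => hc (Ideal.mem_span_singleton.2 hd)) J hJ
    exact ⟨i, fun hm => hi (Ideal.mem_span_singleton.1 hm)⟩

/-- Rational criterion over the integers. -/
lemma int_rational {h l : ℕ} (f : Fin h → ℤ) (g : Fin l → ℤ) (hf : f ≠ 0)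
    (hobs : ∀ J : Fin h → Finset (Fin l), (∀ i i', i ≠ i' → Disjoint (J i) (J i')) →
      (∀ i i', (∑ j ∈ J i, g j) * f i' = (∑ j ∈ J i', g j) * f i) → ∀ i, ∑ j ∈ J i, g j = 0) :
    PropertyS ℤ f g := by
  have hinj : Function.Injective (fun p : {p : ℕ // p.Prime} => Ideal.span {((p : ℕ) : ℤ)}) := by
    intro p q hpq
    apply Subtype.ext
    have h1 : Associated ((p : ℕ) : ℤ) ((q : ℕ) : ℤ) := Ideal.span_singleton_eq_span_singleton.1 hpq
    have h2 := Int.associated_iff_natAbs.1 h1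
    simpa using h2
  apply global_criterion f g (Set.range (fun p : {p : ℕ // p.Prime} => Ideal.span {((p : ℕ) : ℤ)}))
  · have : Infinite {p : ℕ // p.Prime} := Nat.infinite_setOfPred_prime.to_subtype
    exact Set.infinite_range_of_injective hinj
  · rintro _ ⟨p, rfl⟩
    apply PrincipalIdealRing.isMaximal_of_irreducible
    exact (Nat.prime_iff_prime_int.1 p.2).irreducible
  · rintro _ ⟨p, rfl⟩
    have : NeZero (p : ℕ) := ⟨p.2.ne_zero⟩
    exact Finite.of_equiv (ZMod p) (Int.quotientSpanNatEquivZMod p).symm.toEquiv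
  · intro x hx
    have hfin : {p : {p : ℕ // p.Prime} | ((p : ℕ) : ℤ) ∣ x}.Finite := by
      apply Set.Finite.of_finite_image (f := fun p : {p : ℕ // p.Prime} => (p : ℕ))
      · apply (Set.finite_le_nat x.natAbs).subset
        rintro _ ⟨p, hp, rfl⟩
        exact Nat.le_of_dvd (Int.natAbs_pos.2 hx) (Int.natCast_dvd.1 hp)
      · exact Subtype.val_injective.injOn
    apply (hfin.image (fun p : {p : ℕ // p.Prime} => Ideal.span {((p : ℕ) : ℤ)})).subset
    rintro _ ⟨⟨p, rfl⟩, hxp⟩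
    exact ⟨p, Ideal.mem_span_singleton.1 hxp, rfl⟩
  · exact hf
  · exact hobs

/-- Negative criterion over the integers. -/
lemma int_neg {h l : ℕ} (f : Fin h → ℤ) (g : Fin l → ℤ)
    (J : Fin h → Finset (Fin l)) (hJ : ∀ i i', i ≠ i' → Disjoint (J i) (J i'))
    (hne : ∃ i, ∑ j ∈ J i, g j ≠ 0)
    (hprop : ∀ i i', (∑ j ∈ J i, g j) * f i' = (∑ j ∈ J i', g j) * f i)
    (hpr : ∀ p : ℕ, p.Prime → (∀ i, (p : ℤ) ∣ ∑ j ∈ J i, g j) → ∀ i, (p : ℤ) ∣ f i) :
    ¬ PropertyS ℤ f g := by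
  classical
  set σ : Fin h → ℤ := fun i => ∑ j ∈ J i, g j with hσ
  -- gcds
  have hbez : ∀ v : Fin h → ℤ, ∃ (d : ℤ) (u : Fin h → ℤ), (∀ i, d ∣ v i) ∧ d = ∑ i, u i * v i := by
    intro v
    have hP : (Ideal.span (Set.range v)).IsPrincipal := IsPrincipalIdealRing.principal _
    obtain ⟨d, hd⟩ := hP.principal
    have hd' : Ideal.span (Set.range v) = Ideal.span {d} := hd
    have h1 : d ∈ Ideal.span (Set.range v) := by
      rw [hd']
      exact Ideal.mem_span_singleton_self d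
    obtain ⟨u, hu⟩ := (Ideal.mem_span_range_iff_exists_fun).1 h1
    refine ⟨d, u, ?_, hu.symm⟩
    intro i
    apply Ideal.mem_span_singleton.1
    rw [← hd']
    exact Ideal.subset_span ⟨i, rfl⟩
  obtain ⟨d, v, hd1, hd2⟩ := hbez f
  obtain ⟨s, w, hs1, hs2⟩ := hbez σ
  have hs0 : s ≠ 0 := by
    rintro rfl
    obtain ⟨i, hi⟩ := hne
    exact hi (zero_dvd_iff.1 (hs1 i))
  -- s divides a power of d
  obtain ⟨k, hk⟩ : ∃ k : ℕ, s ∣ d ^ k := by
    have h1 : ∀ p : ℕ, p.Prime → p ∣ s.natAbs → (p : ℤ) ∣ d := by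
      intro p hp hps
      have h2 : (p : ℤ) ∣ s := Int.natCast_dvd.2 hps
      have h3 := hpr p hp (fun i => h2.trans (hs1 i))
      rw [hd2]
      exact Finset.dvd_sum fun i _ => dvd_mul_of_dvd_right (h3 i) _
    obtain ⟨k, hk⟩ := exists_dvd_pow d s.natAbs (Int.natAbs_ne_zero.2 hs0) h1
    exact ⟨k, (Int.natAbs_dvd).1 hk⟩
  -- d σ = e f
  set e : ℤ := ∑ i, v i * σ i with he
  have hde : ∀ i, d * σ i = e * f i := by
    intro i
    rw [hd2, he, Finset.sum_mul, Finset.sum_mul]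
    refine Finset.sum_congr rfl fun i' _ => ?_
    have := hprop i i'
    show v i' * f i' * σ i = v i' * σ i' * f i
    have h1 : σ i * f i' = σ i' * f i := this
    linear_combination v i' * h1
  have hes : e ∣ d * s := by
    rw [hs2, Finset.mul_sum]
    refine Finset.dvd_sum fun i _ => ?_
    refine ⟨w i * f i, ?_⟩
    have := hde i
    linear_combination w i * this
  refine not_propertyS f g J hJ d d e (k + 1) hd1 ?_ ?_ hde
  · exact dvd_pow_self d (Nat.succ_ne_zero k)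
  · refine hes.trans ?_
    rw [pow_succ, mul_comm d s]
    exact mul_dvd_mul hk dvd_rfl

end H183R3.LF
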