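import Pool.Agent.H183R3.Chain
import Pool.Agent.H183R3.Avg

set_option autoImplicit false

namespace Pool.Agent.H183R3

open Finset

/-- growth bookkeeping -/
theorem final_growth (κ : ℝ) (hκ : 0 < κ) (hκ4 : κ ≤ 1 / 4) (M b : ℕ) (hM : 1 ≤ M) (hb : 2 ≤ b)
    (hbM : (b : ℝ) ≤ (M : ℝ) ^ (1 + κ)) (β : ℝ) (hβ : (M : ℝ) ^ (1 - κ) ≤ β) (N : ℕ)
    (hN : b ^ (⌈1 / (2 * κ)⌉₊) ≤ N) :
    (N : ℝ) ^ (1 - 4 * κ) ≤ β ^ (Nat.log b N) := by
  set n := Nat.log b N with hn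
  have hM1 : (1 : ℝ) ≤ M := by exact_mod_cast hM
  have hM0 : (0 : ℝ) < M := by linarith
  have hNn : ⌈1 / (2 * κ)⌉₊ ≤ n := by
    rw [hn]
    apply Nat.le_log_of_pow_le (by omega) hN
  have hn2 : 1 / (2 * κ) ≤ (n : ℝ) := (Nat.le_ceil _).trans (by exact_mod_cast hNn)
  have h1 : (N : ℝ) ≤ (b : ℝ) ^ (n + 1) := by
    have := (Nat.lt_pow_succ_log_self (by omega : 1 < b) N).le
    exact_mod_cast this
  have h2 : (N : ℝ) ^ (1 - 4 * κ) ≤ (M : ℝ) ^ ((1 + κ) * (n + 1) * (1 - 4 * κ)) := by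
    have h3 : (N : ℝ) ≤ (M : ℝ) ^ ((1 + κ) * (n + 1)) := by
      refine h1.trans ?_
      rw [Real.rpow_mul hM0.le]
      have : ((M : ℝ) ^ (1 + κ)) ^ ((n : ℝ) + 1) = ((M : ℝ) ^ (1 + κ)) ^ (n + 1) := by
        rw [← Real.rpow_natCast]; push_cast; rfl
      rw [this]
      exact pow_le_pow_left₀ (by positivity) hbM _
    rw [Real.rpow_mul hM0.le]
    exact Real.rpow_le_rpow (by positivity) h3 (by linarith)
  have h4 : (M : ℝ) ^ ((1 + κ) * (n + 1) * (1 - 4 * κ)) ≤ (M : ℝ) ^ ((1 - κ) * n) := by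
    apply Real.rpow_le_rpow_of_exponent_le hM1
    have h5 : 1 ≤ 2 * κ * n := by
      rw [div_le_iff₀ (by positivity)] at hn2
      linarith
    have h6 : (1 + κ) * ((n : ℝ) + 1) * (1 - 4 * κ) ≤ (1 - 3 * κ) * (n + 1) := by
      have h7 : (0 : ℝ) ≤ (n : ℝ) + 1 := by positivity
      have h8 : (1 + κ) * (1 - 4 * κ) ≤ 1 - 3 * κ := by nlinarith
      calc (1 + κ) * ((n : ℝ) + 1) * (1 - 4 * κ) = ((1 + κ) * (1 - 4 * κ)) * (n + 1) := by ring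
        _ ≤ (1 - 3 * κ) * (n + 1) := by gcongr
    nlinarith
  have h9 : (M : ℝ) ^ ((1 - κ) * n) = ((M : ℝ) ^ (1 - κ)) ^ n := by
    rw [Real.rpow_mul hM0.le, Real.rpow_natCast]
  have h10 : ((M : ℝ) ^ (1 - κ)) ^ n ≤ β ^ n := pow_le_pow_left₀ (by positivity) hβ _
  linarith

/-- Parameters. -/
theorem params (κ : ℝ) (hκ : 0 < κ) (M0 : ℝ) (hM0 : 1 ≤ M0) (ε : ℝ) (hε : 0 < ε) (hε1 : ε ≤ 1)
    (ℓ : ℕ) :
    ∃ M : ℕ, 1 ≤ M ∧ M0 / ε ≤ (M : ℝ) ^ κ ∧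
      (M : ℝ) ^ ℓ * ((1 / (8 * 2 ^ ℓ * M0 ^ ((ℓ : ℝ) / κ))) * ε ^ (1 + (ℓ : ℝ) / κ)) ≤ ε / 8 := by
  set y : ℝ := (M0 / ε) ^ (1 / κ) with hy
  have hbase : 1 ≤ M0 / ε := by
    rw [le_div_iff₀ hε]; linarith
  have hy1 : 1 ≤ y := Real.one_le_rpow hbase (by positivity)
  have hceil : y ≤ (⌈y⌉₊ : ℝ) := Nat.le_ceil y
  have hceil2 : (⌈y⌉₊ : ℝ) ≤ 2 * y := by
    have := (Nat.ceil_lt_add_one (by linarith : 0 ≤ y)).le
    linarith
  refine ⟨⌈y⌉₊, ?_, ?_, ?_⟩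
  · have : (1 : ℝ) ≤ (⌈y⌉₊ : ℝ) := by linarith
    exact_mod_cast this
  · have h1 : y ^ κ = M0 / ε := by
      rw [hy, ← Real.rpow_mul (by linarith)]
      rw [one_div, inv_mul_cancel₀ hκ.ne', Real.rpow_one]
    rw [← h1]
    exact Real.rpow_le_rpow (by linarith) hceil hκ.le
  · have h1 : (⌈y⌉₊ : ℝ) ^ ℓ ≤ (2 * y) ^ ℓ := pow_le_pow_left₀ (by positivity) hceil2 _
    have h2 : y ^ ℓ = M0 ^ ((ℓ : ℝ) / κ) / ε ^ ((ℓ : ℝ) / κ) := by
      rw [hy, ← Real.rpow_natCast, ← Real.rpow_mul (by linarith), Real.div_rpow (by linarith) hε.le]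
      congr 2 <;> ring
    have h3 : ε ^ (1 + (ℓ : ℝ) / κ) = ε * ε ^ ((ℓ : ℝ) / κ) := by
      rw [Real.rpow_add hε, Real.rpow_one]
    have hMp : 0 < M0 ^ ((ℓ : ℝ) / κ) := Real.rpow_pos_of_pos (by linarith) _
    have hεp : 0 < ε ^ ((ℓ : ℝ) / κ) := Real.rpow_pos_of_pos hε _
    calc (⌈y⌉₊ : ℝ) ^ ℓ * ((1 / (8 * 2 ^ ℓ * M0 ^ ((ℓ : ℝ) / κ))) * ε ^ (1 + (ℓ : ℝ) / κ))
        ≤ (2 * y) ^ ℓ * ((1 / (8 * 2 ^ ℓ * M0 ^ ((ℓ : ℝ) / κ))) * ε ^ (1 + (ℓ : ℝ) / κ)) := by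
          apply mul_le_mul_of_nonneg_right h1
          rw [h3]; positivity
      _ = ε / 8 := by
          rw [mul_pow, h2, h3]
          field_simp
      _ ≤ ε / 8 := le_rfl

/-- Main theorem for invariant equations in at least three variables, integer version. -/
theorem main_inv {ℓ : ℕ} (hℓ : 3 ≤ ℓ) (a : Fin ℓ → ℤ) (ha : ∀ i, a i ≠ 0) (hsum : ∑ i, a i = 0)
    (hnot : ∀ γ C : ℝ, 0 < γ → 0 < C → ∃ N : ℕ, 1 ≤ N ∧ ∃ A : Finset ℤ, A ⊆ Finset.Icc 1 (N : ℤ) ∧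
      ((T (LinearMap.ker (lin a)) A).card : ℝ) <
        γ * ((A.card : ℝ) / (N : ℝ)) ^ C * (N : ℝ) ^ ((ℓ : ℝ) - 1))
    (κ : ℝ) (hκ : 0 < κ) (hκ4 : κ ≤ 1 / 4) :
    ∃ N₀ : ℕ, ∀ N : ℕ, N₀ ≤ N → ∃ A : Finset ℤ, A ⊆ Finset.Icc 1 (N : ℤ) ∧ OnlyConst a A ∧
      (N : ℝ) ^ (1 - 4 * κ) ≤ (A.card : ℝ) := by
  classical
  set L : ℕ := ∑ i, (a i).natAbs with hL
  set K : ℕ := 2 ^ (ℓ - 3) with hK
  have hK1 : 1 ≤ K := Nat.one_le_two_pow
  set Cc : ℝ := ((3 * L : ℕ) : ℝ) ^ K with hCc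
  have hL1 : 1 ≤ L := by
    have h1 := Int.natAbs_pos.2 (ha ⟨0, by omega⟩)
    have h2 : (a ⟨0, by omega⟩).natAbs ≤ L :=
      Finset.single_le_sum (f := fun m => (a m).natAbs) (fun _ _ => Nat.zero_le _)
        (Finset.mem_univ _)
    omega
  have hCc1 : 1 ≤ Cc := by
    rw [hCc]
    apply one_le_pow₀
    exact_mod_cast (by omega : 1 ≤ 3 * L)
  set M0 : ℝ := 8 + (L + 2 : ℕ) with hM0
  have hM01 : 1 ≤ M0 := by rw [hM0]; push_cast; linarith [(Nat.cast_nonneg L : (0 : ℝ) ≤ L)]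
  set η : ℝ := 1 / (8 * 2 ^ ℓ * M0 ^ ((ℓ : ℝ) / κ)) with hη
  have hMp : 1 ≤ M0 ^ ((ℓ : ℝ) / κ) := Real.one_le_rpow hM01 (by positivity)
  have hη0 : 0 < η := by
    rw [hη]; positivity
  have hη1 : η ≤ 1 := by
    rw [hη]
    rw [div_le_one (by positivity)]
    have h2 : (1 : ℝ) ≤ 2 ^ ℓ := one_le_pow₀ (by norm_num)
    nlinarith
  set e : ℝ := 1 + (ℓ : ℝ) / κ with he
  have he0 : 0 < e := by rw [he]; positivity
  obtain ⟨N, hN, A, hA, hsol⟩ := hnot (η ^ K / Cc) (K * e) (by positivity) (by positivity)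
  have hNpos : (0 : ℝ) < N := by exact_mod_cast hN
  have hA0 : A.Nonempty := by
    rw [Finset.nonempty_iff_ne_empty]
    rintro rfl
    rw [Finset.card_empty, Nat.cast_zero, zero_div, Real.zero_rpow (by positivity)] at hsol
    simp at hsol
    have : (0 : ℝ) ≤ ((T (LinearMap.ker (lin a)) ∅).card : ℝ) := Nat.cast_nonneg _
    linarith
  set ε : ℝ := (A.card : ℝ) / N with hε
  have hAcpos : 0 < A.card := hA0.card_pos
  have hε0 : 0 < ε := by rw [hε]; positivity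
  have hε1 : ε ≤ 1 := by
    rw [hε, div_le_one hNpos]
    have := Finset.card_le_card hA
    rw [Int.card_Icc] at this
    have h2 : A.card ≤ N := by omega
    exact_mod_cast h2
  obtain ⟨M, hM1, hMκ, hMθ⟩ := params κ hκ M0 hM01 ε hε0 hε1 ℓ
  set θ : ℝ := η * ε ^ e with hθ
  have hθ0 : 0 < θ := by rw [hθ]; positivity
  have hεe1 : ε ^ e ≤ 1 := Real.rpow_le_one hε0.le hε1 he0.le
  have hθ1 : θ ≤ 1 := by
    rw [hθ]
    calc η * ε ^ e ≤ 1 * 1 := mul_le_mul hη1 hεe1 (by positivity) (by norm_num)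
      _ = 1 := by norm_num
  have hγ : η ^ K / Cc * ε ^ ((K : ℝ) * e) = θ ^ K / Cc := by
    rw [hθ, mul_pow, mul_comm (K : ℝ) e, Real.rpow_mul hε0.le, Real.rpow_natCast]
    ring
  rw [hγ] at hsol
  have hNpow : (N : ℝ) ^ ((ℓ : ℝ) - 1) = (N : ℝ) ^ (ℓ - 1) := by
    rw [← Real.rpow_natCast, Nat.cast_sub (by omega), Nat.cast_one]
  rw [hNpow] at hsol
  -- constant solutions
  have hconst : A.card ≤ (T (LinearMap.ker (lin a)) A).card := by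
    apply Finset.card_le_card_of_injOn (fun x : ℤ => fun _ : Fin ℓ => x)
    · intro x hx
      rw [Finset.mem_coe, mem_T]
      refine ⟨fun _ => hx, ?_⟩
      rw [LinearMap.mem_ker, lin_toQ, ← Finset.sum_mul, hsum, zero_mul, Int.cast_zero]
    · intro x _ y _ hxy
      exact congrFun hxy ⟨0, by omega⟩
  have hMN : M ≤ N := by
    by_contra hcon
    push Not at hcon
    have h1 : (A.card : ℝ) < θ ^ K / Cc * (N : ℝ) ^ (ℓ - 1) :=
      lt_of_le_of_lt (by exact_mod_cast hconst) hsol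
    have h2 : θ ^ K / Cc ≤ θ := by
      calc θ ^ K / Cc ≤ θ ^ K := div_le_self (by positivity) hCc1
        _ ≤ θ ^ 1 := pow_le_pow_of_le_one hθ0.le hθ1 hK1
        _ = θ := pow_one _
    have h3 : (A.card : ℝ) < θ * (N : ℝ) ^ (ℓ - 1) :=
      lt_of_lt_of_le h1 (mul_le_mul_of_nonneg_right h2 (by positivity))
    have h4 : (N : ℝ) ^ (ℓ - 1) = N * (N : ℝ) ^ (ℓ - 2) := by
      rw [← pow_succ']
      congr 1
      omega
    have h5 : (A.card : ℝ) = ε * N := (div_mul_cancel₀ _ hNpos.ne').symm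
    rw [h4, h5] at h3
    have h6 : ε < θ * (N : ℝ) ^ (ℓ - 2) := by
      have h7 : ε * N < (θ * (N : ℝ) ^ (ℓ - 2)) * N := by linarith
      exact lt_of_mul_lt_mul_right h7 hNpos.le
    have h8 : (N : ℝ) ^ (ℓ - 2) ≤ (M : ℝ) ^ ℓ := by
      calc (N : ℝ) ^ (ℓ - 2) ≤ (M : ℝ) ^ (ℓ - 2) := by
            apply pow_le_pow_left₀ hNpos.le
            exact_mod_cast hcon.le
        _ ≤ (M : ℝ) ^ ℓ := pow_le_pow_right₀ (by exact_mod_cast hM1) (by omega)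
    have h9 : ε < ε / 8 := by
      calc ε < θ * (N : ℝ) ^ (ℓ - 2) := h6
        _ ≤ θ * (M : ℝ) ^ ℓ := mul_le_mul_of_nonneg_left h8 hθ0.le
        _ = (M : ℝ) ^ ℓ * θ := mul_comm _ _
        _ ≤ ε / 8 := hMθ
    linarith
  have hpat : ∀ j : Fin ℓ → ℤ, (∃ p q, j p ≠ j q) → ∑ i, a i * j i = 0 →
      ∀ R : Finset (ℤ × ℤ), (∀ r ∈ R, ∀ i, r.1 + j i * r.2 ∈ A) →
        (R.card : ℝ) ≤ θ * (N : ℝ) ^ 2 := by
    rintro j ⟨p, q, hpq⟩ hj R hR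
    have h1 := pattern_bound a ha hsum A N hN hA hA0 j hj p q hpq R hR
    have h2 : ((T (LinearMap.ker (lin a)) A).card : ℝ) / (N : ℝ) ^ (ℓ - 1) ≤ θ ^ K / Cc := by
      rw [div_le_iff₀ (by positivity)]
      exact hsol.le
    have h3 : ((R.card : ℝ) / (N : ℝ) ^ 2) ^ K ≤ θ ^ K := by
      calc ((R.card : ℝ) / (N : ℝ) ^ 2) ^ K ≤ Cc *
            (((T (LinearMap.ker (lin a)) A).card : ℝ) / (N : ℝ) ^ (ℓ - 1)) := h1
        _ ≤ Cc * (θ ^ K / Cc) := mul_le_mul_of_nonneg_left h2 (by linarith)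
        _ = θ ^ K := by field_simp
    have h4 := le_of_pow_le_pow_left₀ (by omega) hθ0.le h3
    rwa [div_le_iff₀ (by positivity)] at h4
  obtain ⟨B, hB, hBc, hBcard⟩ := avg a A N M hM1 hMN hA ⟨0, by omega⟩ θ hpat hθ0.le hMθ
  -- size of B
  have hMpos : (0 : ℝ) < M := by exact_mod_cast hM1
  have hB2 : (M : ℝ) ^ (1 - κ) ≤ (B.card : ℝ) := by
    refine le_trans ?_ hBcard
    rw [Real.rpow_sub hMpos, Real.rpow_one, div_le_iff₀ (by positivity)]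
    have h1 : 8 ≤ M0 := by
      rw [hM0]
      have : (0 : ℝ) ≤ ((L + 2 : ℕ) : ℝ) := by positivity
      linarith
    have h2 : 8 ≤ ε * (M : ℝ) ^ κ := by
      rw [div_le_iff₀ hε0] at hMκ
      linarith
    have h3 : ε * M / 4 * (M : ℝ) ^ κ = (ε * (M : ℝ) ^ κ) * (M / 4) := by ring
    show (M : ℝ) ≤ ε * M / 4 * (M : ℝ) ^ κ
    rw [h3]
    nlinarith
  set b : ℕ := M * L + M + 1 with hb
  have hb2 : 2 ≤ b := by
    have : 1 ≤ M * L := Nat.one_le_iff_ne_zero.2 (by positivity)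
    omega
  have hbM : (b : ℝ) ≤ (M : ℝ) ^ (1 + κ) := by
    rw [Real.rpow_add hMpos, Real.rpow_one]
    have h1 : ((L + 2 : ℕ) : ℝ) ≤ (M : ℝ) ^ κ := by
      have h2 : M0 ≤ M0 / ε := by
        rw [le_div_iff₀ hε0]
        nlinarith
      have h3 : ((L + 2 : ℕ) : ℝ) ≤ M0 := by rw [hM0]; linarith
      linarith
    have h4 : (b : ℝ) ≤ M * ((L + 2 : ℕ) : ℝ) := by
      have : b ≤ M * (L + 2) := by
        rw [hb, Nat.mul_add]
        omega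
      exact_mod_cast this
    exact h4.trans (mul_le_mul_of_nonneg_left h1 hMpos.le)
  refine ⟨b ^ (⌈1 / (2 * κ)⌉₊), ?_⟩
  intro N' hN'
  obtain ⟨A', hA', hA'c, hA'card⟩ := digits a B M L le_rfl hB hBc (Nat.log b N')
  have hN'0 : N' ≠ 0 := by
    have : 0 < b ^ (⌈1 / (2 * κ)⌉₊) := by positivity
    omega
  have hlog : b ^ Nat.log b N' ≤ N' := Nat.pow_log_le_self b hN'0
  refine ⟨A'.image (fun x => x + 1), ?_, ?_, ?_⟩
  · intro x hx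
    rw [Finset.mem_image] at hx
    obtain ⟨y, hy, rfl⟩ := hx
    have hy2 := Finset.mem_Ico.1 (hA' hy)
    rw [Finset.mem_Icc]
    have h1 : ((b ^ Nat.log b N' : ℕ) : ℤ) ≤ N' := by exact_mod_cast hlog
    constructor
    · linarith [hy2.1]
    · have := hy2.2
      rw [← hb] at this
      linarith
  · intro x hx hsolx p q
    have h1 : ∀ i, x i - 1 ∈ A' := by
      intro i
      obtain ⟨y, hy, hy2⟩ := Finset.mem_image.1 (hx i)
      rw [← hy2]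
      simpa using hy
    have h2 : ∑ i, a i * (x i - 1) = 0 := by
      simp only [mul_sub, mul_one, Finset.sum_sub_distrib]
      rw [hsolx, hsum, sub_zero]
    have h3 := hA'c (fun i => x i - 1) h1 h2 p q
    linarith
  · rw [Finset.card_image_of_injective _ (add_left_injective 1), hA'card]
    push_cast
    exact final_growth κ hκ hκ4 M b hM1 hb2 hbM _ hB2 N' hN'

end Pool.Agent.H183R3
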