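import Mathlib

set_option autoImplicit false

namespace Pool.Agent.H183R3

open Finset

variable {ℓ : ℕ}

/-- The rational vector of an integer vector. -/
def toQ (x : Fin ℓ → ℤ) : Fin ℓ → ℚ := fun i => (x i : ℚ)

/-- The tuples of elements of `A` lying in the rational subspace `V`. -/
noncomputable def T (V : Submodule ℚ (Fin ℓ → ℚ)) (A : Finset ℤ) : Finset (Fin ℓ → ℤ) := by
  classical
  exact (Fintype.piFinset (fun _ : Fin ℓ => A)).filter (fun x => toQ x ∈ V)

theorem mem_T {V : Submodule ℚ (Fin ℓ → ℚ)} {A : Finset ℤ} {x : Fin ℓ → ℤ} :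
    x ∈ T V A ↔ (∀ i, x i ∈ A) ∧ toQ x ∈ V := by
  classical
  unfold T
  rw [Finset.mem_filter, Fintype.mem_piFinset]

theorem card_coset_le (S : Finset ℤ) (hS : S.Nonempty) (d : ℕ) :
    ∀ (W : Submodule ℚ (Fin ℓ → ℚ)), Module.finrank ℚ W ≤ d →
    ∀ (P : Finset (Fin ℓ → ℤ)), (∀ x ∈ P, ∀ i, x i ∈ S) →
      (∀ x ∈ P, ∀ y ∈ P, toQ x - toQ y ∈ W) →
      P.card ≤ S.card ^ d := by
  classical
  induction d with
  | zero =>
    intro W hW P _ hP2
    have hW0 : W = ⊥ := by
      apply Submodule.finrank_eq_zero.1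
      omega
    rw [pow_zero, Finset.card_le_one]
    intro x hx y hy
    have h := hP2 x hx y hy
    rw [hW0, Submodule.mem_bot] at h
    funext i
    have h2 := congrFun h i
    simp only [toQ, Pi.sub_apply, Pi.zero_apply] at h2
    have h3 : (x i : ℚ) = y i := by linarith
    exact_mod_cast h3
  | succ d ih =>
    intro W hW P hP1 hP2
    by_cases hz : ∀ w ∈ W, ∀ i, w i = 0
    · have h1 : P.card ≤ 1 := by
        rw [Finset.card_le_one]
        intro x hx y hy
        funext i
        have h2 := hz _ (hP2 x hx y hy) i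
        simp only [toQ, Pi.sub_apply] at h2
        have h3 : (x i : ℚ) = y i := by linarith
        exact_mod_cast h3
      exact h1.trans (Nat.one_le_pow _ _ hS.card_pos)
    · push Not at hz
      obtain ⟨w, hw, i, hwi⟩ := hz
      set W' : Submodule ℚ (Fin ℓ → ℚ) := W ⊓ LinearMap.ker (LinearMap.proj i) with hW'
      have hlt : W' < W := by
        refine lt_of_le_of_ne inf_le_left ?_
        intro he
        have : w ∈ W' := by rw [he]; exact hw
        rw [hW', Submodule.mem_inf, LinearMap.mem_ker] at this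
        exact hwi this.2
      have hfr : Module.finrank ℚ W' ≤ d := by
        have := Submodule.finrank_lt_finrank_of_lt hlt
        omega
      have hcard : P.card = ∑ s ∈ S, (P.filter (fun x => x i = s)).card :=
        Finset.card_eq_sum_card_fiberwise (fun x hx => hP1 x hx i)
      rw [hcard, pow_succ]
      have hle : ∀ s ∈ S, (P.filter (fun x => x i = s)).card ≤ S.card ^ d := by
        intro s _
        apply ih W' hfr
        · intro x hx
          exact hP1 x (Finset.mem_filter.1 hx).1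
        · intro x hx y hy
          rw [Finset.mem_filter] at hx hy
          rw [hW', Submodule.mem_inf, LinearMap.mem_ker]
          refine ⟨hP2 x hx.1 y hy.1, ?_⟩
          simp [toQ, hx.2, hy.2]
      calc ∑ s ∈ S, (P.filter (fun x => x i = s)).card ≤ ∑ _s ∈ S, S.card ^ d := Finset.sum_le_sum hle
        _ = S.card ^ d * S.card := by rw [Finset.sum_const, smul_eq_mul, mul_comm]

/-- The linear functional with coefficient vector `a`. -/
def lin (a : Fin ℓ → ℤ) : (Fin ℓ → ℚ) →ₗ[ℚ] ℚ where
  toFun x := ∑ i, (a i : ℚ) * x i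
  map_add' x y := by
    simp only [Pi.add_apply, mul_add, Finset.sum_add_distrib]
  map_smul' r x := by
    simp only [Pi.smul_apply, smul_eq_mul, RingHom.id_apply, Finset.mul_sum]
    refine Finset.sum_congr rfl fun i _ => by ring

/-- The exchange vector `a_k e_i - a_i e_k`. -/
def ww (a : Fin ℓ → ℤ) (i k : Fin ℓ) : Fin ℓ → ℚ :=
  Pi.single i (a k : ℚ) - Pi.single k (a i : ℚ)

theorem lin_toQ (a x : Fin ℓ → ℤ) : lin a (toQ x) = ((∑ i, a i * x i : ℤ) : ℚ) := by
  simp [lin, toQ]

theorem exch (a : Fin ℓ → ℤ) (ha : ∀ i, a i ≠ 0) (i k : Fin ℓ) (hik : i ≠ k) (z : Fin ℓ → ℚ)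
    (hz : lin a z = 0) (hsupp : ∀ m, m ≠ i → m ≠ k → z m = 0) :
    z = (z i / a k) • ww a i k := by
  have hak : (a k : ℚ) ≠ 0 := by exact_mod_cast ha k
  have h1 : (a i : ℚ) * z i + (a k : ℚ) * z k = 0 := by
    have h2 : lin a z = ∑ m ∈ ({i, k} : Finset (Fin ℓ)), (a m : ℚ) * z m := by
      show ∑ m, (a m : ℚ) * z m = _
      symm
      apply Finset.sum_subset (Finset.subset_univ _)
      intro m _ hm
      rw [Finset.mem_insert, Finset.mem_singleton, not_or] at hm
      rw [hsupp m hm.1 hm.2, mul_zero]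
    rw [Finset.sum_pair hik] at h2
    rw [← h2, hz]
  funext m
  by_cases hmi : m = i
  · subst hmi
    simp [ww, hik]
    field_simp
  · by_cases hmk : m = k
    · subst hmk
      simp [ww, hmi]
      field_simp
      linarith
    · rw [hsupp m hmi hmk]
      simp [ww, hmi, hmk]

open Classical in
theorem step (a : Fin ℓ → ℤ) (ha : ∀ i, a i ≠ 0) (A : Finset ℤ) (N : ℕ) (hN : 1 ≤ N)
    (hA : A ⊆ Finset.Icc 1 (N : ℤ)) (hA0 : A.Nonempty) (V : Submodule ℚ (Fin ℓ → ℚ))
    (hV : V ≤ LinearMap.ker (lin a)) (i k : Fin ℓ) (hik : i ≠ k) (hw : ww a i k ∉ V) (D : ℕ)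
    (hrank : Module.finrank ℚ
      (V ⊓ LinearMap.ker (LinearMap.proj i) ⊓ LinearMap.ker (LinearMap.proj k) :
        Submodule ℚ (Fin ℓ → ℚ)) ≤ D) :
    (T V A).card ^ 2 ≤ (3 * (∑ m, (a m).natAbs) * N) *
      ((T (V ⊔ Submodule.span ℚ {ww a i k}) A).card * N ^ D) := by
  set V' := V ⊔ Submodule.span ℚ {ww a i k} with hV'
  set L : ℕ := ∑ m, (a m).natAbs with hL
  have hcardA : A.card ≤ N := by
    have := Finset.card_le_card hA
    simpa using this
  -- values
  set φ : (Fin ℓ → ℤ) → ℤ := fun x => a i * x i + a k * x k with hφ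
  set Vals : Finset ℤ := Finset.Icc (-((L * N : ℕ) : ℤ)) ((L * N : ℕ) : ℤ) with hVals
  have hLik : (a i).natAbs + (a k).natAbs ≤ L := by
    have h : ∑ m ∈ ({i, k} : Finset (Fin ℓ)), (a m).natAbs ≤ L :=
      Finset.sum_le_sum_of_subset (Finset.subset_univ _)
    rwa [Finset.sum_pair hik] at h
  have hmaps : ∀ x ∈ T V A, φ x ∈ Vals := by
    intro x hx
    rw [mem_T] at hx
    have hi := Finset.mem_Icc.1 (hA (hx.1 i))
    have hk := Finset.mem_Icc.1 (hA (hx.1 k))
    rw [hVals, Finset.mem_Icc, ← abs_le]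
    have h1 : |a i * x i| ≤ |a i| * N := by
      rw [abs_mul]
      exact mul_le_mul_of_nonneg_left (by rw [abs_of_nonneg (by linarith)]; exact hi.2) (abs_nonneg _)
    have h2 : |a k * x k| ≤ |a k| * N := by
      rw [abs_mul]
      exact mul_le_mul_of_nonneg_left (by rw [abs_of_nonneg (by linarith)]; exact hk.2) (abs_nonneg _)
    have h3 : (|a i| + |a k|) * N ≤ ((L * N : ℕ) : ℤ) := by
      push_cast
      apply mul_le_mul_of_nonneg_right _ (by positivity)
      rw [Int.abs_eq_natAbs, Int.abs_eq_natAbs]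
      exact_mod_cast hLik
    calc |φ x| ≤ |a i * x i| + |a k * x k| := abs_add_le _ _
      _ ≤ |a i| * N + |a k| * N := add_le_add h1 h2
      _ = (|a i| + |a k|) * N := by ring
      _ ≤ _ := h3
  have hValsCard : Vals.card ≤ 3 * L * N := by
    rw [hVals, Int.card_Icc]
    have hL1 : 1 ≤ L := by
      have := Int.natAbs_pos.2 (ha i)
      omega
    have h1 : 1 ≤ L * N := Nat.one_le_iff_ne_zero.2 (by positivity)
    have h2 : (((L * N : ℕ) : ℤ) + 1 - -((L * N : ℕ) : ℤ)).toNat = 2 * (L * N) + 1 := by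
      omega
    rw [h2]
    calc 2 * (L * N) + 1 ≤ 2 * (L * N) + L * N := by omega
      _ = 3 * L * N := by ring
  set Pr : Finset ((Fin ℓ → ℤ) × (Fin ℓ → ℤ)) :=
    ((T V A) ×ˢ (T V A)).filter (fun p => φ p.1 = φ p.2) with hPr
  have hcs : (T V A).card ^ 2 ≤ Vals.card * Pr.card := by
    have h1 : (T V A).card = ∑ v ∈ Vals, ((T V A).filter (fun x => φ x = v)).card :=
      Finset.card_eq_sum_card_fiberwise hmaps
    have h2 : Pr.card = ∑ v ∈ Vals, ((T V A).filter (fun x => φ x = v)).card ^ 2 := by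
      have hm2 : ∀ p ∈ Pr, φ p.1 ∈ Vals := by
        intro p hp
        rw [hPr, Finset.mem_filter, Finset.mem_product] at hp
        exact hmaps _ hp.1.1
      rw [Finset.card_eq_sum_card_fiberwise hm2]
      refine Finset.sum_congr rfl fun v _ => ?_
      rw [sq, ← Finset.card_product]
      congr 1
      ext p
      simp only [hPr, Finset.mem_filter, Finset.mem_product]
      constructor
      · rintro ⟨⟨⟨h1, h2⟩, h3⟩, h4⟩
        exact ⟨⟨h1, h4⟩, h2, by rw [← h3, h4]⟩
      · rintro ⟨⟨h1, h2⟩, h3, h4⟩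
        exact ⟨⟨⟨h1, h3⟩, by rw [h2, h4]⟩, h2⟩
    rw [h2, h1]
    exact sq_sum_le_card_mul_sum_sq
  -- mixing map
  set mix : (Fin ℓ → ℤ) × (Fin ℓ → ℤ) → (Fin ℓ → ℤ) :=
    fun p m => if m = i ∨ m = k then p.2 m else p.1 m with hmix
  have hmixmem : ∀ p ∈ Pr, mix p ∈ T V' A := by
    intro p hp
    rw [hPr, Finset.mem_filter, Finset.mem_product, mem_T, mem_T] at hp
    obtain ⟨⟨⟨h1, h2⟩, h3, h4⟩, h5⟩ := hp
    rw [mem_T]
    refine ⟨?_, ?_⟩
    · intro m
      simp only [hmix]
      split_ifs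
      · exact h3 m
      · exact h1 m
    · have hz : toQ (mix p) = toQ p.1 + (toQ (mix p) - toQ p.1) := by abel
      rw [hz]
      apply Submodule.add_mem_sup h2
      have hlin : lin a (toQ (mix p) - toQ p.1) = 0 := by
        show ∑ m, (a m : ℚ) * ((toQ (mix p) - toQ p.1) m) = 0
        have h6 : ∑ m, (a m : ℚ) * ((toQ (mix p) - toQ p.1) m)
            = ∑ m ∈ ({i, k} : Finset (Fin ℓ)), (a m : ℚ) * ((toQ (mix p) - toQ p.1) m) := by
          symm
          apply Finset.sum_subset (Finset.subset_univ _)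
          intro m _ hm
          rw [Finset.mem_insert, Finset.mem_singleton] at hm
          simp only [hmix, Pi.sub_apply, toQ, if_neg hm, sub_self, mul_zero]
        rw [h6, Finset.sum_pair hik]
        have h7 : ((a i * p.1 i + a k * p.1 k : ℤ) : ℚ) = ((a i * p.2 i + a k * p.2 k : ℤ) : ℚ) := by
          exact_mod_cast h5
        push_cast at h7
        simp only [hmix, Pi.sub_apply, toQ, true_or, or_true, if_true]
        linarith
      have hex := exch a ha i k hik (toQ (mix p) - toQ p.1) hlin (by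
        intro m hmi hmk
        have : ¬ (m = i ∨ m = k) := by tauto
        simp only [hmix, Pi.sub_apply, toQ, if_neg this, sub_self])
      rw [hex]
      exact Submodule.smul_mem _ _ (Submodule.mem_span_singleton_self _)
  have hfib : ∀ b ∈ T V' A, (Pr.filter (fun p => mix p = b)).card ≤ N ^ D := by
    intro b _
    have hinj : Set.InjOn (fun p : (Fin ℓ → ℤ) × (Fin ℓ → ℤ) => p.2)
        ((Pr.filter (fun p => mix p = b) : Finset _) : Set ((Fin ℓ → ℤ) × (Fin ℓ → ℤ))) := by
      intro p hp q hq hpq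
      rw [Finset.mem_coe, Finset.mem_filter, hPr, Finset.mem_filter, Finset.mem_product, mem_T,
        mem_T] at hp hq
      have hpq2 : p.2 = q.2 := hpq
      refine Prod.ext ?_ hpq2
      -- p.1 = q.1
      have hlin : lin a (toQ p.1 - toQ q.1) = 0 := by
        rw [map_sub, LinearMap.mem_ker.1 (hV hp.1.1.1.2), LinearMap.mem_ker.1 (hV hq.1.1.1.2), sub_zero]
      have hoff : ∀ m, m ≠ i → m ≠ k → (toQ p.1 - toQ q.1) m = 0 := by
        intro m hmi hmk
        have hn : ¬ (m = i ∨ m = k) := by tauto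
        have h8 : mix p m = mix q m := by rw [hp.2, hq.2]
        simp only [hmix, if_neg hn] at h8
        simp only [Pi.sub_apply, toQ, h8, sub_self]
      have hex := exch a ha i k hik _ hlin hoff
      have hmem : toQ p.1 - toQ q.1 ∈ V := Submodule.sub_mem _ hp.1.1.1.2 hq.1.1.1.2
      have hc0 : (toQ p.1 - toQ q.1) i / (a k : ℚ) = 0 := by
        by_contra hne
        apply hw
        have h11 : ((toQ p.1 - toQ q.1) i / (a k : ℚ)) • ww a i k ∈ V := by
          rw [← hex]; exact hmem
        exact (Submodule.smul_mem_iff _ hne).1 h11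
      rw [hc0, zero_smul] at hex
      funext m
      have h9 := congrFun hex m
      simp only [Pi.sub_apply, toQ, Pi.zero_apply] at h9
      have h10 : (p.1 m : ℚ) = q.1 m := by linarith
      exact_mod_cast h10
    rw [← Finset.card_image_of_injOn hinj]
    have hb := card_coset_le A hA0 D _ hrank ((Pr.filter (fun p => mix p = b)).image
      (fun p : (Fin ℓ → ℤ) × (Fin ℓ → ℤ) => p.2)) (by
        intro x hx m
        rw [Finset.mem_image] at hx
        obtain ⟨p, hp, rfl⟩ := hx
        rw [Finset.mem_filter, hPr, Finset.mem_filter, Finset.mem_product, mem_T, mem_T] at hp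
        exact hp.1.1.2.1 m) (by
        intro x hx y hy
        rw [Finset.mem_image] at hx hy
        obtain ⟨p, hp, rfl⟩ := hx
        obtain ⟨q, hq, rfl⟩ := hy
        rw [Finset.mem_filter, hPr, Finset.mem_filter, Finset.mem_product, mem_T, mem_T] at hp hq
        rw [Submodule.mem_inf, Submodule.mem_inf, LinearMap.mem_ker, LinearMap.mem_ker]
        refine ⟨⟨Submodule.sub_mem _ hp.1.1.2.2 hq.1.1.2.2, ?_⟩, ?_⟩
        · have h8 : mix p i = mix q i := by rw [hp.2, hq.2]
          simp only [hmix, true_or, if_true] at h8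
          simp [toQ, h8]
        · have h8 : mix p k = mix q k := by rw [hp.2, hq.2]
          simp only [hmix, or_true, if_true] at h8
          simp [toQ, h8])
    exact hb.trans (Nat.pow_le_pow_left hcardA D)
  have hPrCard : Pr.card ≤ N ^ D * (T V' A).card :=
    Finset.card_le_mul_card_image_of_maps_to hmixmem _ hfib
  calc (T V A).card ^ 2 ≤ Vals.card * Pr.card := hcs
    _ ≤ (3 * L * N) * (N ^ D * (T V' A).card) := Nat.mul_le_mul hValsCard hPrCard
    _ = (3 * L * N) * ((T V' A).card * N ^ D) := by ring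

end Pool.Agent.H183R3
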