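import Pool.Agent.Helper188.NCM.Stmts

set_option autoImplicit false

open Finset

namespace Pool.Agent.H183R3.NCMRat

open Pool.Agent.Helper188.NCM

theorem ee_add (x y : ℝ) : ee (x + y) = ee x * ee y := by
  unfold ee
  rw [← Complex.exp_add]
  congr 1
  push_cast
  ring

theorem ee_zero : ee 0 = 1 := by simp [ee]

theorem ee_int (k : ℤ) : ee k = 1 := by
  unfold ee
  rw [Complex.exp_eq_one_iff]
  exact ⟨k, by push_cast; ring⟩

theorem ee_eq_one {x : ℝ} (h : ee x = 1) : ∃ k : ℤ, x = k := by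
  unfold ee at h
  rw [Complex.exp_eq_one_iff] at h
  obtain ⟨k, hk⟩ := h
  refine ⟨k, ?_⟩
  have h2 : (2 * Real.pi * Complex.I : ℂ) ≠ 0 := by
    simp [Real.pi_ne_zero]
  have : (x : ℂ) = (k : ℂ) := by
    apply mul_left_cancel₀ h2
    rw [hk]; ring
  exact_mod_cast this

theorem ee_norm (x : ℝ) : ‖ee x‖ = 1 := by
  unfold ee
  rw [Complex.norm_exp]
  simp

theorem ee_nat_mul (l : ℕ) (x : ℝ) : ee (l * x) = ee x ^ l := by
  induction l with
  | zero => simp [ee_zero]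
  | succ l ih =>
    rw [pow_succ, ← ih, ← ee_add]
    congr 1
    push_cast
    ring

theorem geom (q : ℕ) (hq : 0 < q) (t : ℤ) :
    ∑ l ∈ range q, ee (l * ((t : ℝ) / q)) = if (q : ℤ) ∣ t then (q : ℂ) else 0 := by
  have hq' : (q : ℝ) ≠ 0 := by positivity
  simp only [ee_nat_mul]
  split_ifs with h
  · obtain ⟨k, rfl⟩ := h
    have : (((q : ℤ) * k : ℤ) : ℝ) / q = (k : ℤ) := by
      push_cast; field_simp
    rw [this, ee_int]
    simp
  · have hz : ee ((t : ℝ) / q) ≠ 1 := by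
      intro h1
      obtain ⟨k, hk⟩ := ee_eq_one h1
      apply h
      refine ⟨k, ?_⟩
      have : (t : ℝ) = q * k := by
        rw [← hk]; field_simp
      exact_mod_cast this
    have hzq : ee ((t : ℝ) / q) ^ q = 1 := by
      rw [← ee_nat_mul]
      have : (q : ℝ) * ((t : ℝ) / q) = (t : ℤ) := by field_simp
      rw [this, ee_int]
    have := geom_sum_mul (ee ((t : ℝ) / q)) q
    rw [hzq, sub_self] at this
    exact (mul_eq_zero.1 this).resolve_right (sub_ne_zero.2 hz)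

theorem periodic (p : ℤ) (q : ℕ) (hq : 0 < q) (n : ℕ) :
    ee ((p : ℝ) / q * (n : ℝ) ^ 2) = ee ((p : ℝ) / q * ((n % q : ℕ) : ℝ) ^ 2) := by
  have hq' : (q : ℝ) ≠ 0 := by positivity
  have hn : (n : ℝ) = ((n % q : ℕ) : ℝ) + q * ((n / q : ℕ) : ℝ) := by
    exact_mod_cast (Nat.mod_add_div n q).symm
  rw [hn]
  generalize n % q = a
  generalize n / q = b
  have : (p : ℝ) / q * ((a : ℝ) + q * (b : ℝ)) ^ 2 = (p : ℝ) / q * (a : ℝ) ^ 2 +
      ((p * (2 * a * b + q * b ^ 2) : ℤ) : ℝ) := by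
    push_cast
    field_simp
    ring
  rw [this, ee_add, ee_int, mul_one]

theorem expand (p : ℤ) (q : ℕ) (hq : 0 < q) (n : ℕ) :
    ee ((p : ℝ) / q * (n : ℝ) ^ 2) = ∑ s ∈ range q, ∑ l ∈ range q,
      (ee ((p : ℝ) / q * (s : ℝ) ^ 2) / q * ee (l * (((-(s : ℤ) : ℤ) : ℝ) / q))) * ee (((l : ℝ) / q) * n) := by
  have hq' : (q : ℝ) ≠ 0 := by positivity
  have hqc : (q : ℂ) ≠ 0 := by exact_mod_cast hq.ne'
  have h1 : ∀ s ∈ range q, ∑ l ∈ range q,
      (ee ((p : ℝ) / q * (s : ℝ) ^ 2) / q * ee (l * (((-(s : ℤ) : ℤ) : ℝ) / q))) * ee (((l : ℝ) / q) * n) =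
      if s = n % q then ee ((p : ℝ) / q * ((n % q : ℕ) : ℝ) ^ 2) else 0 := by
    intro s hs
    have e1 : ∀ l : ℕ, (ee ((p : ℝ) / q * (s : ℝ) ^ 2) / q * ee (l * (((-(s : ℤ) : ℤ) : ℝ) / q))) *
        ee (((l : ℝ) / q) * n) = ee ((p : ℝ) / q * (s : ℝ) ^ 2) / q *
          ee (l * ((((n : ℤ) - s : ℤ) : ℝ) / q)) := by
      intro l
      rw [mul_assoc, ← ee_add]
      congr 2
      push_cast
      field_simp
      ring
    simp only [e1]
    rw [← mul_sum, geom q hq]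
    have hsq := mem_range.1 hs
    have e2 : ((q : ℤ) ∣ (n : ℤ) - s) ↔ s = n % q := by
      rw [← Int.modEq_iff_dvd, Int.natCast_modEq_iff]
      unfold Nat.ModEq
      rw [Nat.mod_eq_of_lt hsq]
    by_cases h : s = n % q
    · rw [if_pos (e2.2 h), if_pos h, ← h]
      field_simp
    · rw [if_neg (fun h' => h (e2.1 h')), if_neg h, mul_zero]
  rw [sum_congr rfl h1, sum_ite_eq' (range q) (n % q), if_pos (mem_range.2 (Nat.mod_lt _ hq)),
    periodic p q hq n]

theorem taskRat : TaskRat := by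
  intro h0 p q hq ε hε
  have hqR : (0 : ℝ) < q := by exact_mod_cast hq
  obtain ⟨N₀, hN⟩ := h0 (ε / q) (by positivity)
  refine ⟨N₀, fun N hNN B => ?_⟩
  have e1 : ∑ n ∈ range N, mob n * ee ((p : ℝ) / q * (n : ℝ) ^ 2 + B * n) =
      ∑ s ∈ range q, ∑ l ∈ range q,
        (ee ((p : ℝ) / q * (s : ℝ) ^ 2) / q * ee (l * (((-(s : ℤ) : ℤ) : ℝ) / q))) *
          ∑ n ∈ range N, mob n * ee (0 * (n : ℝ) ^ 2 + (B + (l : ℝ) / q) * n) := by
    have : ∀ n ∈ range N, mob n * ee ((p : ℝ) / q * (n : ℝ) ^ 2 + B * n) =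
        ∑ s ∈ range q, ∑ l ∈ range q,
        (ee ((p : ℝ) / q * (s : ℝ) ^ 2) / q * ee (l * (((-(s : ℤ) : ℤ) : ℝ) / q))) *
          (mob n * ee (0 * (n : ℝ) ^ 2 + (B + (l : ℝ) / q) * n)) := by
      intro n _
      rw [ee_add, expand p q hq n, sum_mul, mul_sum]
      refine sum_congr rfl fun s _ => ?_
      rw [sum_mul, mul_sum]
      refine sum_congr rfl fun l _ => ?_
      have : (0 : ℝ) * (n : ℝ) ^ 2 + (B + (l : ℝ) / q) * n = (l : ℝ) / q * n + B * n := by ring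
      rw [this, ee_add]
      ring
    rw [sum_congr rfl this, sum_comm]
    refine sum_congr rfl fun s _ => ?_
    rw [sum_comm]
    refine sum_congr rfl fun l _ => ?_
    rw [mul_sum]
  rw [e1]
  calc _ ≤ ∑ s ∈ range q, ∑ l ∈ range q, (1 / (q : ℝ)) * (ε / q * N) := by
        refine (norm_sum_le _ _).trans (sum_le_sum fun s _ => (norm_sum_le _ _).trans
          (sum_le_sum fun l _ => ?_))
        rw [norm_mul, norm_mul, norm_div, ee_norm, ee_norm, mul_one, Complex.norm_natCast]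
        exact mul_le_mul_of_nonneg_left (hN N hNN _) (by positivity)
    _ = ε * N := by
        simp only [sum_const, card_range, nsmul_eq_mul]
        field_simp

end Pool.Agent.H183R3.NCMRat
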