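import Mathlib

set_option autoImplicit false

open Finset Polynomial

namespace Pool.Agent.H183R3.RootSum

theorem sum_nth (R : Type) [Field R] [CharZero R] [IsAlgClosed R] (N : ℕ) (hN : 0 < N) (j : ℕ) :
    ∑ z ∈ nthRootsFinset N (1 : R), z ^ j = if N ∣ j then (N : R) else 0 := by
  classical
  have : NeZero N := ⟨hN.ne'⟩
  have : NeZero ((N : ℕ) : R) := ⟨by exact_mod_cast hN.ne'⟩
  obtain ⟨ζ, hζ⟩ := HasEnoughRootsOfUnity.exists_primitiveRoot R N
  have himg : nthRootsFinset N (1 : R) = (range N).image (fun i => ζ ^ i) := by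
    ext z
    rw [mem_nthRootsFinset hN, mem_image]
    constructor
    · intro hz
      obtain ⟨i, hi, h⟩ := hζ.eq_pow_of_pow_eq_one hz
      exact ⟨i, mem_range.2 hi, h⟩
    · rintro ⟨i, _, rfl⟩
      rw [← pow_mul, mul_comm, pow_mul, hζ.pow_eq_one, one_pow]
  rw [himg, sum_image (fun a ha b hb h => hζ.pow_inj (mem_range.1 ha) (mem_range.1 hb) h)]
  have e : ∀ i ∈ range N, (ζ ^ i) ^ j = (ζ ^ j) ^ i := by
    intro i _
    rw [← pow_mul, ← pow_mul, mul_comm]
  rw [sum_congr rfl e]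
  split_ifs with h
  · rw [hζ.pow_eq_one_iff_dvd j |>.2 h]
    simp
  · have hz : ζ ^ j ≠ 1 := fun h' => h ((hζ.pow_eq_one_iff_dvd j).1 h')
    have := geom_sum_mul (ζ ^ j) N
    have h1 : (ζ ^ j) ^ N = 1 := by
      rw [← pow_mul, mul_comm, pow_mul, hζ.pow_eq_one, one_pow]
    rw [h1, sub_self] at this
    exact (mul_eq_zero.1 this).resolve_right (sub_ne_zero.2 hz)

theorem rootSum (p : ℕ) [hp : Fact p.Prime] (R : Type) [Field R] [CharZero R] [IsAlgClosed R]
    (n j : ℕ) : ∑ z ∈ primitiveRoots (p ^ (n + 1)) R, z ^ j =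
    (if p ^ (n + 1) ∣ j then (p : R) ^ (n + 1) else 0) - (if p ^ n ∣ j then (p : R) ^ n else 0) := by
  classical
  have hN : 0 < p ^ (n + 1) := pow_pos hp.1.pos _
  have hM : 0 < p ^ n := pow_pos hp.1.pos _
  have h1 := sum_nth R (p ^ (n + 1)) hN j
  have h2 := sum_nth R (p ^ n) hM j
  have hsub : nthRootsFinset (p ^ n) (1 : R) ⊆ nthRootsFinset (p ^ (n + 1)) (1 : R) := by
    intro z hz
    rw [mem_nthRootsFinset hM] at hz
    rw [mem_nthRootsFinset hN, pow_succ, pow_mul, hz, one_pow]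
  have hsd : nthRootsFinset (p ^ (n + 1)) (1 : R) \ nthRootsFinset (p ^ n) (1 : R) =
      primitiveRoots (p ^ (n + 1)) R := by
    ext z
    rw [mem_sdiff, mem_nthRootsFinset hN, mem_nthRootsFinset hM, mem_primitiveRoots hN]
    constructor
    · rintro ⟨ha, hb⟩
      rw [IsPrimitiveRoot.iff_orderOf]
      exact orderOf_eq_prime_pow hb ha
    · intro h
      refine ⟨h.pow_eq_one, fun hb => ?_⟩
      have := Nat.le_of_dvd hM (h.dvd_of_pow_eq_one _ hb)
      have h3 : p ^ n < p ^ (n + 1) := Nat.pow_lt_pow_right hp.1.one_lt (Nat.lt_succ_self n)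
      omega
  have h3 := sum_sdiff hsub (f := fun z : R => z ^ j)
  rw [hsd, h1, h2] at h3
  push_cast at h3
  rw [← h3]
  ring

end Pool.Agent.H183R3.RootSum
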