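import Pool.Agent.H335R3.ZF.Stmts
import Pool.Agent.H183R3.RootSumCore

set_option autoImplicit false

namespace Pool.Agent.H183R3.RootSum

theorem taskRootSum : Pool.Agent.H335R3.ZF.TaskRootSum := by
  intro p _ R _ _ _ n j
  exact rootSum p R n j

end Pool.Agent.H183R3.RootSum
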