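import Pool.Agent.H183R3.StekCore

/-!
# Steklov eigenfunctions with an entire harmonic extension: obstructions from arcs of the boundary
-/

set_option autoImplicit false

open Complex Set Filter Topology ComplexConjugate

namespace Pool.Agent.H183R3.Stek

/-- the gradient of `ρ` at `z`, as a complex number -/
noncomputable def grad (ρ : ℂ → ℝ) (z : ℂ) : ℂ :=
  ((fderiv ℝ ρ z 1 : ℝ) : ℂ) + ((fderiv ℝ ρ z I : ℝ) : ℂ) * I

/-- `ρ` is a defining function of a smooth domain `Ω = {ρ < 0}`: `ρ` is smooth and its gradient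
does not vanish on the boundary `{ρ = 0}`; `Ω` is bounded and connected. -/
structure SmoothDomain (ρ : ℂ → ℝ) : Prop where
  smooth : ContDiff ℝ ((⊤ : ℕ∞) : WithTop ℕ∞) ρ
  regular : ∀ z : ℂ, ρ z = 0 → fderiv ℝ ρ z ≠ 0
  bounded : Bornology.IsBounded {z : ℂ | ρ z < 0}
  connected : IsConnected {z : ℂ | ρ z < 0}

/-- `U` is a harmonic function on the whole plane whose restriction to `Ω = {ρ < 0}` satisfies the
Steklov condition `∂U/∂ν = σ U` on the boundary `{ρ = 0}` (`ν = ∇ρ/|∇ρ|` is the outward normal). -/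
structure EntireSteklov (ρ : ℂ → ℝ) (σ : ℝ) (U : ℂ → ℝ) : Prop where
  c2 : ContDiff ℝ 2 U
  harmonic : ∀ z : ℂ, iteratedFDeriv ℝ 2 U z (![1, 1] : Fin 2 → ℂ)
    + iteratedFDeriv ℝ 2 U z (![I, I] : Fin 2 → ℂ) = 0
  boundary : ∀ z : ℂ, ρ z = 0 → fderiv ℝ U z (grad ρ z) = σ * U z * ‖grad ρ z‖

theorem EntireSteklov.exists_entire {ρ : ℂ → ℝ} {σ : ℝ} {U : ℂ → ℝ} (h : EntireSteklov ρ σ U) :
    ∃ f : ℂ → ℂ, Differentiable ℂ f ∧ (∀ z, U z = (f z).re) ∧
      ∀ z v, fderiv ℝ U z v = (deriv f z * v).re := by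
  have hh : InnerProductSpace.HarmonicOnNhd U univ := by
    intro z _
    refine ⟨h.c2.contDiffAt, Eventually.of_forall fun w => ?_⟩
    rw [InnerProductSpace.laplacian_eq_iteratedFDeriv_complexPlane]
    exact h.harmonic w
  obtain ⟨f, hf, hfU⟩ := hh.exists_analyticOnNhd_univ_re_eq
  have hfd : Differentiable ℂ f := analyticOnNhd_univ_iff_differentiable.1 hf
  refine ⟨f, hfd, fun z => (congrFun hfU z).symm, fun z v => ?_⟩
  have h1 : HasFDerivAt U (Complex.reCLM.comp ((fderiv ℂ f z).restrictScalars ℝ)) z := by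
    rw [← hfU]
    exact Complex.reCLM.hasFDerivAt.comp z ((hfd z).hasFDerivAt.restrictScalars ℝ)
  rw [h1.fderiv]
  change ((fderiv ℂ f z) v).re = _
  have : (fderiv ℂ f z) v = v * deriv f z := by
    rw [fderiv_eq_smul_deriv, smul_eq_mul]
  rw [this, mul_comm]

/-- the boundary condition on an arc -/
theorem arc_condition {ρ : ℂ → ℝ} (hρ : Differentiable ℝ ρ)
    (hreg : ∀ z : ℂ, ρ z = 0 → fderiv ℝ ρ z ≠ 0) {σ : ℝ} {U : ℂ → ℝ} {f : ℂ → ℂ}
    (hb : ∀ z : ℂ, ρ z = 0 → fderiv ℝ U z (grad ρ z) = σ * U z * ‖grad ρ z‖)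
    (hUf : ∀ z, U z = (f z).re) (hUd : ∀ z v, fderiv ℝ U z v = (deriv f z * v).re)
    {Z : ℂ → ℂ} (hZ : Differentiable ℂ Z) {a b : ℝ}
    (harc : ∀ t : ℝ, a < t → t < b → ρ (Z t) = 0 ∧ deriv Z t ≠ 0) (t : ℝ) (h1 : a < t) (h2 : t < b) :
    ((deriv f (Z t) * (I * deriv Z t)).re) ^ 2 = σ ^ 2 * ((f (Z t)).re) ^ 2 * ‖deriv Z t‖ ^ 2 := by
  obtain ⟨hz, hd⟩ := harc t h1 h2
  have hr := hreg _ hz
  -- tangent direction
  have htan : fderiv ℝ ρ (Z t) (deriv Z t) = 0 := by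
    have e1 : HasDerivAt (fun s : ℝ => Z s) (deriv Z t) t := (hZ (t : ℂ)).hasDerivAt.comp_ofReal
    have e2 : HasDerivAt (fun s : ℝ => ρ (Z s)) (fderiv ℝ ρ (Z t) (deriv Z t)) t :=
      (hρ (Z t)).hasFDerivAt.comp_hasDerivAt t e1
    have e3 : (fun s : ℝ => ρ (Z s)) =ᶠ[𝓝 t] fun _ => 0 := by
      filter_upwards [Ioo_mem_nhds h1 h2] with s hs
      exact (harc s hs.1 hs.2).1
    have e4 : HasDerivAt (fun s : ℝ => ρ (Z s)) 0 t := (hasDerivAt_const t (0 : ℝ)).congr_of_eventuallyEq e3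
    exact e2.unique e4
  set x := (deriv Z (t : ℂ)).re with hx
  set y := (deriv Z (t : ℂ)).im with hy
  have hlin : ∀ v : ℂ, fderiv ℝ ρ (Z t) v = v.re * fderiv ℝ ρ (Z t) 1 + v.im * fderiv ℝ ρ (Z t) I := by
    intro v
    conv_lhs => rw [show v = v.re • (1 : ℂ) + v.im • I by simp]
    rw [map_add, map_smul, map_smul]
    rfl
  set p := fderiv ℝ ρ (Z t) 1 with hp
  set q := fderiv ℝ ρ (Z t) I with hq
  have ht : x * p + y * q = 0 := by rw [← htan, hlin]
  have hn : x ^ 2 + y ^ 2 ≠ 0 := by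
    intro h
    apply hd
    apply Complex.ext
    · change x = 0; nlinarith [sq_nonneg x, sq_nonneg y]
    · change y = 0; nlinarith [sq_nonneg x, sq_nonneg y]
  set c := (x * q - y * p) / (x ^ 2 + y ^ 2) with hc
  have hp' : p = -(c * y) := by
    rw [hc]; field_simp; linear_combination x * ht
  have hq' : q = c * x := by
    rw [hc]; field_simp; linear_combination y * ht
  have hc0 : c ≠ 0 := by
    intro h
    apply hr
    ext v
    rw [hlin, hp', hq', h]; simp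
  have hg : grad ρ (Z t) = (c : ℂ) * (I * deriv Z t) := by
    unfold grad
    rw [← hp, ← hq, hp', hq']
    apply Complex.ext
    · simp [← hx, ← hy]
    · simp [← hx, ← hy]
  have hbc := hb _ hz
  rw [hg, hUd, hUf] at hbc
  have e5 : (deriv f (Z t) * ((c : ℂ) * (I * deriv Z t))).re =
      c * (deriv f (Z t) * (I * deriv Z t)).re := by
    rw [show deriv f (Z t) * ((c : ℂ) * (I * deriv Z t)) = (c : ℂ) * (deriv f (Z t) * (I * deriv Z t)) by ring]
    rw [Complex.re_ofReal_mul]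
  rw [e5, norm_mul, norm_mul, Complex.norm_I, one_mul, Complex.norm_real, Real.norm_eq_abs] at hbc
  have h3 : (c * (deriv f (Z t) * (I * deriv Z t)).re) ^ 2 =
      (σ * (f (Z t)).re * (|c| * ‖deriv Z t‖)) ^ 2 := by rw [hbc]
  have h4 : c ^ 2 * ((deriv f (Z t) * (I * deriv Z t)).re) ^ 2 =
      c ^ 2 * (σ ^ 2 * ((f (Z t)).re) ^ 2 * ‖deriv Z t‖ ^ 2) := by
    have : |c| ^ 2 = c ^ 2 := sq_abs c
    calc _ = (c * (deriv f (Z t) * (I * deriv Z t)).re) ^ 2 := by ring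
      _ = _ := h3
      _ = |c| ^ 2 * (σ ^ 2 * ((f (Z t)).re) ^ 2 * ‖deriv Z t‖ ^ 2) := by ring
      _ = _ := by rw [this]
  exact mul_left_cancel₀ (pow_ne_zero 2 hc0) h4

/-- **Odd zeros of the complexified arc length element exclude eigenfunctions.** -/
theorem odd_arc {ρ : ℂ → ℝ} (hρ : Differentiable ℝ ρ)
    (hreg : ∀ z : ℂ, ρ z = 0 → fderiv ℝ ρ z ≠ 0) {Z : ℂ → ℂ} (hZ : Differentiable ℂ Z) {a b : ℝ}
    (hab : a < b) (harc : ∀ t : ℝ, a < t → t < b → ρ (Z t) = 0 ∧ deriv Z t ≠ 0)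
    (t₀ : ℂ) (n : ℕ) (hn : Odd n)
    (hord : analyticOrderAt (fun t => deriv Z t * conj (deriv Z (conj t))) t₀ = n)
    {σ : ℝ} (hσ : σ ≠ 0) {U : ℂ → ℝ} (hU : EntireSteklov ρ σ U) : ∀ z, U z = 0 := by
  obtain ⟨f, hf, hUf, hUd⟩ := hU.exists_entire
  have hst := arc_condition hρ hreg hU.boundary hUf hUd hZ harc
  have hcore := core Z f hZ hf a b hab σ hst
  have hord' : analyticOrderAt (fun t => deriv Z t * deriv (refl Z) t) t₀ = n := by
    rw [← hord]
    congr 1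
    funext t
    rw [deriv_refl]
  obtain ⟨h1, h2⟩ := odd_zero Z f hZ hf σ hσ hcore t₀ n hn hord'
  -- `f' = 0`
  set s : ℝ := (a + b) / 2 with hs
  have hs1 : a < s := by rw [hs]; linarith
  have hs2 : s < b := by rw [hs]; linarith
  have hds := (harc s hs1 hs2).2
  have htd : Tendsto Z (𝓝[≠] (s : ℂ)) (𝓝[≠] (Z s)) := by
    refine tendsto_nhdsWithin_iff.2 ⟨((hZ _).continuousAt.tendsto).mono_left nhdsWithin_le_nhds, ?_⟩
    exact (hZ (s : ℂ)).hasDerivAt.eventually_ne hds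
  have hcd : Continuous (deriv Z) := by
    have := (analyticOnNhd_univ_iff_differentiable.2 hZ).deriv
    exact (analyticOnNhd_univ_iff_differentiable.1 this).continuous
  have hev : ∀ᶠ t in 𝓝[≠] (s : ℂ), deriv f (Z t) = 0 := by
    have : ∀ᶠ t in 𝓝 (s : ℂ), deriv Z t ≠ 0 := hcd.continuousAt.eventually_ne hds
    filter_upwards [nhdsWithin_le_nhds this] with t ht
    have := h1 t
    rw [deriv_comp _ (hf _) (hZ _)] at this
    exact (mul_eq_zero.1 this).resolve_right ht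
  have hfr : ∃ᶠ w in 𝓝[≠] (Z s), deriv f w = (fun _ => (0 : ℂ)) w := htd.frequently hev.frequently
  have hf' : AnalyticOnNhd ℂ (deriv f) univ := (analyticOnNhd_univ_iff_differentiable.2 hf).deriv
  have hf0 := hf'.eq_of_frequently_eq analyticOnNhd_const hfr
  have hconst : ∀ z w, f z = f w := by
    intro z w
    exact is_const_of_deriv_eq_zero hf (fun x => congrFun hf0 x) z w
  intro z
  have h3 := h2 (s : ℂ)
  rw [refl_real, Complex.add_conj] at h3
  have h4 : (f (Z s)).re = 0 := by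
    have : ((2 * (f (Z s)).re : ℝ) : ℂ) = 0 := h3
    have := Complex.ofReal_eq_zero.1 this
    linarith
  rw [hUf, hconst z (Z s), h4]

/-- **Zeros of the derivative of the parametrization force critical points.** -/
theorem crit_arc {ρ : ℂ → ℝ} (hρ : Differentiable ℝ ρ)
    (hreg : ∀ z : ℂ, ρ z = 0 → fderiv ℝ ρ z ≠ 0) {Z : ℂ → ℂ} (hZ : Differentiable ℂ Z) {a b : ℝ}
    (hab : a < b) (harc : ∀ t : ℝ, a < t → t < b → ρ (Z t) = 0 ∧ deriv Z t ≠ 0)
    (t₀ : ℂ) (h0 : deriv Z t₀ = 0) (h1 : deriv Z (conj t₀) ≠ 0)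
    {σ : ℝ} {U : ℂ → ℝ} (hU : EntireSteklov ρ σ U) : fderiv ℝ U (Z (conj t₀)) = 0 := by
  obtain ⟨f, hf, hUf, hUd⟩ := hU.exists_entire
  have hst := arc_condition hρ hreg hU.boundary hUf hUd hZ harc
  have hcore := core Z f hZ hf a b hab σ hst
  have := crit Z f hZ hf σ hcore t₀ h0 h1
  ext v
  rw [hUd, this]; simp

end Pool.Agent.H183R3.Stek
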