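import Pool.Agent.H183R3.StekRing

/-!
# Circular arcs on the boundary
-/

set_option autoImplicit false

open Complex Set Filter Topology ComplexConjugate

namespace Pool.Agent.H183R3.Stek

theorem euler_form (g : ℂ → ℂ) (hg : Differentiable ℂ g) (s : ℝ) (hs : s ≠ 0)
    (h : ∀ t : ℂ, Complex.exp (I * t) * deriv g (Complex.exp (I * t)) +
      Complex.exp (-(I * t)) * deriv (refl g) (Complex.exp (-(I * t))) =
      s * (g (Complex.exp (I * t)) + refl g (Complex.exp (-(I * t))))) :
    ∃ (A : ℂ) (n : ℕ), 1 ≤ n ∧ (A ≠ 0 → s = n) ∧ (g 0).re = 0 ∧ ∀ w, g w = g 0 + A * w ^ n := by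
  have hlog : ∀ ω : ℂ, ω ≠ 0 → Complex.exp (I * (-I * Complex.log ω)) = ω := by
    intro ω hω
    have : I * (-I * Complex.log ω) = Complex.log ω := by
      linear_combination -(Complex.log ω) * Complex.I_sq
    rw [this, Complex.exp_log hω]
  have hsC : (s : ℂ) ≠ 0 := by exact_mod_cast hs
  have hg' : Differentiable ℂ (deriv g) :=
    analyticOnNhd_univ_iff_differentiable.1 (analyticOnNhd_univ_iff_differentiable.2 hg).deriv
  have hr := refl_diff hg
  have hr' : Differentiable ℂ (deriv (refl g)) :=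
    analyticOnNhd_univ_iff_differentiable.1 (analyticOnNhd_univ_iff_differentiable.2 hr).deriv
  set H : ℂ → ℂ := fun ω => ω * deriv g ω - s * g ω with hH
  set K : ℂ → ℂ := fun ω => ω * deriv (refl g) ω - s * refl g ω with hK
  have hHd : Differentiable ℂ H := (differentiable_id.mul hg').sub (hg.const_mul _)
  have hKd : Differentiable ℂ K := (differentiable_id.mul hr').sub (hr.const_mul _)
  have hHK : ∀ ω : ℂ, ω ≠ 0 → H ω = -K ω⁻¹ := by
    intro ω hω
    have := h (-I * Complex.log ω)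
    rw [Complex.exp_neg, hlog ω hω] at this
    simp only [hH, hK]
    linear_combination this
  have hcomp : IsCompact (Metric.closedBall (0 : ℂ) 1) := isCompact_closedBall 0 1
  obtain ⟨M₁, hM₁⟩ := hcomp.exists_bound_of_continuousOn hHd.continuous.continuousOn
  obtain ⟨M₂, hM₂⟩ := hcomp.exists_bound_of_continuousOn hKd.continuous.continuousOn
  have hb : Bornology.IsBounded (range H) := by
    rw [isBounded_iff_forall_norm_le]
    refine ⟨max M₁ M₂, ?_⟩
    rintro _ ⟨ω, rfl⟩
    by_cases h1 : ‖ω‖ ≤ 1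
    · exact (hM₁ ω (by simpa using h1)).trans (le_max_left _ _)
    · have hω : ω ≠ 0 := by
        rintro rfl
        simp at h1
      rw [hHK ω hω, norm_neg]
      refine (hM₂ ω⁻¹ ?_).trans (le_max_right _ _)
      rw [mem_closedBall_zero_iff, norm_inv]
      exact inv_le_one_of_one_le₀ (not_le.1 h1).le
  have hHc : ∀ ω, H ω = H 0 := fun ω => hHd.apply_eq_apply_of_bounded hb ω 0
  have hKc : K = fun _ => -H 0 := by
    refine Continuous.ext_on (dense_compl_singleton (0 : ℂ)) hKd.continuous continuous_const ?_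
    intro ξ hξ
    have hξ' : ξ ≠ 0 := hξ
    have := hHK ξ⁻¹ (inv_ne_zero hξ')
    rw [inv_inv, hHc] at this
    change K ξ = -H 0
    rw [this, neg_neg]
  have h0 : (g 0).re = 0 := by
    have e1 : K 0 = -H 0 := congrFun hKc 0
    simp only [hH, hK, zero_mul, zero_sub] at e1
    have e2 : refl g 0 = conj (g 0) := by simp [refl]
    rw [e2] at e1
    have e3 : (s : ℂ) * (g 0 + conj (g 0)) = 0 := by linear_combination -e1
    have e4 := (mul_eq_zero.1 e3).resolve_left hsC
    rw [Complex.add_conj] at e4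
    have := Complex.ofReal_eq_zero.1 e4
    linarith
  have hode : ∀ ω, ω * deriv g ω = s * (g ω - g 0) := by
    intro ω
    have := hHc ω
    simp only [hH, zero_mul, zero_sub] at this
    linear_combination this
  set Φ : ℂ → ℂ := fun t => (g (Complex.exp (I * t)) - g 0) * Complex.exp (-(I * s * t)) with hΦ
  have hexpd : ∀ t, HasDerivAt (fun t => Complex.exp (I * t)) (Complex.exp (I * t) * I) t := by
    intro t
    have := ((hasDerivAt_id t).const_mul I).cexp
    simpa using this
  have hgd : ∀ t, HasDerivAt (fun t => g (Complex.exp (I * t)))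
      (deriv g (Complex.exp (I * t)) * (Complex.exp (I * t) * I)) t := by
    intro t
    exact (hg (Complex.exp (I * t))).hasDerivAt.comp t (hexpd t)
  have hΦd : ∀ t, HasDerivAt Φ 0 t := by
    intro t
    have e1 : HasDerivAt (fun t => Complex.exp (-(I * s * t)))
        (Complex.exp (-(I * s * t)) * (-(I * s))) t := by
      have := (((hasDerivAt_id t).const_mul (I * s)).neg).cexp
      simpa using this
    have e2 := ((hgd t).sub_const (g 0)).mul e1
    refine e2.congr_deriv ?_
    have := hode (Complex.exp (I * t))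
    linear_combination (I * Complex.exp (-(I * s * t))) * this
  have hΦc : ∀ t, Φ t = g 1 - g 0 := by
    intro t
    have e1 : Differentiable ℂ Φ := fun t => (hΦd t).differentiableAt
    rw [is_const_of_deriv_eq_zero e1 (fun x => (hΦd x).deriv) t 0]
    simp [hΦ]
  set A := g 1 - g 0 with hA
  by_cases hA0 : A = 0
  · refine ⟨0, 1, le_refl 1, fun h => absurd rfl h, h0, fun w => ?_⟩
    rw [zero_mul, add_zero]
    by_cases hw : w = 0
    · rw [hw]
    · have := hΦc (-I * Complex.log w)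
      simp only [hΦ] at this
      rw [hlog w hw, hA0] at this
      exact sub_eq_zero.1 ((mul_eq_zero.1 this).resolve_right (Complex.exp_ne_zero _))
  · -- `s` is an integer
    have h2π := hΦc (2 * Real.pi)
    simp only [hΦ] at h2π
    have e1 : Complex.exp (I * (2 * Real.pi)) = 1 := by
      rw [mul_comm]; exact Complex.exp_two_pi_mul_I
    rw [e1, ← hA] at h2π
    have e2 : Complex.exp (-(I * s * (2 * Real.pi))) = 1 := by
      have : A * (Complex.exp (-(I * s * (2 * Real.pi))) - 1) = 0 := by linear_combination h2π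
      exact sub_eq_zero.1 ((mul_eq_zero.1 this).resolve_left hA0)
    obtain ⟨N, hN⟩ := Complex.exp_eq_one_iff.1 e2
    have e3 : (s : ℂ) = -N := by
      have hne : (2 * Real.pi * I : ℂ) ≠ 0 := Complex.two_pi_I_ne_zero
      apply mul_right_cancel₀ hne
      linear_combination -hN
    have e4 : s = ((-N : ℤ) : ℝ) := by
      have : (s : ℂ) = (((-N : ℤ) : ℝ) : ℂ) := by rw [e3]; push_cast; rfl
      exact_mod_cast this
    obtain ⟨n, hn | hn⟩ := Int.eq_nat_or_neg (-N)
    · rw [hn] at e4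
      have e5 : s = n := by rw [e4]; simp
      have hn1 : 1 ≤ n := by
        rcases Nat.eq_zero_or_pos n with h1 | h1
        · rw [h1] at e5; exact absurd (by simpa using e5) hs
        · exact h1
      refine ⟨A, n, hn1, fun _ => e5, h0, fun w => ?_⟩
      by_cases hw : w = 0
      · rw [hw, zero_pow (by omega)]; ring
      · have := hΦc (-I * Complex.log w)
        simp only [hΦ] at this
        rw [hlog w hw] at this
        have e6 : Complex.exp (-(I * s * (-I * Complex.log w))) * w ^ n = 1 := by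
          have e7 : w ^ n = Complex.exp (n * Complex.log w) := by
            rw [Complex.exp_nat_mul, Complex.exp_log hw]
          rw [e7, ← Complex.exp_add, e5]
          have : -(I * ((n : ℝ) : ℂ) * (-I * Complex.log w)) + n * Complex.log w = 0 := by
            push_cast
            linear_combination (n * Complex.log w) * Complex.I_sq
          rw [this, Complex.exp_zero]
        have : g w - g 0 = A * w ^ n := by
          linear_combination (w ^ n) * this - (g w - g 0) * e6
        linear_combination this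
    · exfalso
      rw [hn] at e4
      have e5 : s = -n := by rw [e4]; simp
      have hn1 : n ≠ 0 := by
        rintro rfl
        exact hs (by simpa using e5)
      have hq : (fun w : ℂ => (g w - g 0) * w ^ n) = fun _ => A := by
        refine Continuous.ext_on (dense_compl_singleton (0 : ℂ))
          ((hg.continuous.sub continuous_const).mul (continuous_id.pow n)) continuous_const ?_
        intro w hw
        have hw : w ≠ 0 := hw
        have := hΦc (-I * Complex.log w)
        simp only [hΦ] at this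
        rw [hlog w hw] at this
        have e6 : Complex.exp (-(I * s * (-I * Complex.log w))) = w ^ n := by
          have e7 : w ^ n = Complex.exp (n * Complex.log w) := by
            rw [Complex.exp_nat_mul, Complex.exp_log hw]
          rw [e7, e5]
          congr 1
          push_cast
          linear_combination (-n * Complex.log w) * Complex.I_sq
        rw [e6] at this
        exact this
      have := congrFun hq 0
      simp only [sub_self, zero_mul] at this
      exact hA0 this.symm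

theorem circle_arc {ρ : ℂ → ℝ} (hρ : Differentiable ℝ ρ)
    (hreg : ∀ z : ℂ, ρ z = 0 → fderiv ℝ ρ z ≠ 0) (c κ : ℂ) (hκ : κ ≠ 0) {a b : ℝ} (hab : a < b)
    (harc : ∀ t : ℝ, a < t → t < b → ρ (c + κ * (Real.cos t + Real.sin t * I)) = 0)
    {σ : ℝ} (hσ : 0 < σ) {U : ℂ → ℝ} (hU : EntireSteklov ρ σ U) :
    ∃ (A : ℂ) (n : ℕ), 1 ≤ n ∧ (A ≠ 0 → σ * ‖κ‖ = n) ∧ (∀ w, U (c + κ * w) = (A * w ^ n).re) ∧
      ∀ w v, fderiv ℝ U (c + κ * w) v = (A * (n * w ^ (n - 1)) / κ * v).re := by
  obtain ⟨f, hf, hUf, hUd⟩ := hU.exists_entire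
  set Z : ℂ → ℂ := fun t => c + κ * Complex.exp (I * t) with hZdef
  have hexpd : ∀ t, HasDerivAt (fun t => Complex.exp (I * t)) (Complex.exp (I * t) * I) t := by
    intro t
    have := ((hasDerivAt_id t).const_mul I).cexp
    simpa using this
  have hd : ∀ t, HasDerivAt Z (κ * (Complex.exp (I * t) * I)) t := fun t =>
    ((hexpd t).const_mul κ).const_add c
  have hZ : Differentiable ℂ Z := fun t => (hd t).differentiableAt
  set g : ℂ → ℂ := fun w => f (c + κ * w) with hg
  have hlin : ∀ w : ℂ, HasDerivAt (fun w : ℂ => c + κ * w) κ w := by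
    intro w
    have := ((hasDerivAt_id w).const_mul κ).const_add c
    simpa using this
  have hgd : ∀ w, HasDerivAt g (deriv f (c + κ * w) * κ) w := fun w =>
    (hf (c + κ * w)).hasDerivAt.comp w (hlin w)
  have hgdiff : Differentiable ℂ g := fun w => (hgd w).differentiableAt
  have hreal : ∀ t : ℝ, a < t → t < b → ρ (Z t) = 0 ∧ deriv Z t ≠ 0 := by
    intro t h1 h2
    refine ⟨?_, ?_⟩
    · have := harc t h1 h2
      have e : Z t = c + κ * (Real.cos t + Real.sin t * I) := by
        simp only [hZdef]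
        rw [mul_comm I (t : ℂ), Complex.exp_mul_I]
        push_cast
        rfl
      rw [e]; exact this
    · rw [(hd t).deriv]
      exact mul_ne_zero hκ (mul_ne_zero (Complex.exp_ne_zero _) Complex.I_ne_zero)
  have hst := arc_condition hρ hreg hU.boundary hUf hUd hZ hreal
  have hcore := core Z f hZ hf a b hab σ hst
  have hce : ∀ t : ℂ, conj (Complex.exp (I * conj t)) = Complex.exp (-(I * t)) := by
    intro t
    rw [← Complex.exp_conj]
    congr 1
    simp
  have hFZ : ∀ t, deriv (f ∘ Z) t = deriv g (Complex.exp (I * t)) * (Complex.exp (I * t) * I) := by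
    intro t
    have e1 : f ∘ Z = fun t => g (Complex.exp (I * t)) := rfl
    rw [e1]
    exact ((hgdiff (Complex.exp (I * t))).hasDerivAt.comp t (hexpd t)).deriv
  have hreflg : ∀ t, deriv (refl g) (Complex.exp (-(I * t))) = conj (deriv g (Complex.exp (I * conj t))) := by
    intro t
    rw [deriv_refl, ← hce t, Complex.conj_conj]
  have hreflg0 : ∀ t, refl g (Complex.exp (-(I * t))) = conj (g (Complex.exp (I * conj t))) := by
    intro t
    rw [refl, ← hce t, Complex.conj_conj]
  have hκn : κ * conj κ = ((‖κ‖ ^ 2 : ℝ) : ℂ) := by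
    rw [Complex.mul_conj, Complex.normSq_eq_norm_sq]
  set X : ℂ → ℂ := fun t => Complex.exp (I * t) * deriv g (Complex.exp (I * t)) +
      Complex.exp (-(I * t)) * deriv (refl g) (Complex.exp (-(I * t))) with hX
  set Y : ℂ → ℂ := fun t => g (Complex.exp (I * t)) + refl g (Complex.exp (-(I * t))) with hY
  have hXY : ∀ t, (X t) ^ 2 = ((σ * ‖κ‖ : ℝ) : ℂ) ^ 2 * (Y t) ^ 2 := by
    intro t
    have e := hcore t
    rw [deriv_refl, deriv_refl, hFZ, hFZ, (hd t).deriv, (hd (conj t)).deriv] at e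
    simp only [map_mul, Complex.conj_I, hce] at e
    rw [← hreflg t] at e
    have e2 : refl (f ∘ Z) t = refl g (Complex.exp (-(I * t))) := by
      rw [hreflg0]; rfl
    have e3 : (f ∘ Z) t = g (Complex.exp (I * t)) := rfl
    rw [e2, e3] at e
    have e4 : Complex.exp (I * t) * Complex.exp (-(I * t)) = 1 := by
      rw [← Complex.exp_add, add_neg_cancel, Complex.exp_zero]
    simp only [hX, hY]
    have e5 : κ * (Complex.exp (I * t) * I) * (conj κ * (Complex.exp (-(I * t)) * -I)) =
        ((‖κ‖ ^ 2 : ℝ) : ℂ) := by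
      rw [← hκn]
      linear_combination (-(κ * conj κ) * I ^ 2) * e4 - (κ * conj κ) * Complex.I_sq
    rw [e5] at e
    push_cast at e ⊢
    linear_combination -e + ((Complex.exp (I * t) * deriv g (Complex.exp (I * t)) +
      Complex.exp (-(I * t)) * deriv (refl g) (Complex.exp (-(I * t)))) ^ 2) * Complex.I_sq
  have hXd : Differentiable ℂ X := by
    have hg' : Differentiable ℂ (deriv g) :=
      analyticOnNhd_univ_iff_differentiable.1 (analyticOnNhd_univ_iff_differentiable.2 hgdiff).deriv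
    have hr' : Differentiable ℂ (deriv (refl g)) :=
      analyticOnNhd_univ_iff_differentiable.1
        (analyticOnNhd_univ_iff_differentiable.2 (refl_diff hgdiff)).deriv
    have h1 : Differentiable ℂ (fun t : ℂ => Complex.exp (I * t)) := by fun_prop
    have h2 : Differentiable ℂ (fun t : ℂ => Complex.exp (-(I * t))) := by fun_prop
    exact (h1.mul (hg'.comp h1)).add (h2.mul (hr'.comp h2))
  have hYd : Differentiable ℂ Y := by
    have h1 : Differentiable ℂ (fun t : ℂ => Complex.exp (I * t)) := by fun_prop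
    have h2 : Differentiable ℂ (fun t : ℂ => Complex.exp (-(I * t))) := by fun_prop
    exact (hgdiff.comp h1).add ((refl_diff hgdiff).comp h2)
  have hs : σ * ‖κ‖ ≠ 0 := mul_ne_zero hσ.ne' (norm_ne_zero_iff.2 hκ)
  have hspos : 0 < σ * ‖κ‖ := mul_pos hσ (norm_pos_iff.2 hκ)
  have hdich := AnalyticOnNhd.eq_zero_or_eq_zero_of_mul_eq_zero (U := univ)
    (f := fun t => X t - ((σ * ‖κ‖ : ℝ) : ℂ) * Y t) (g := fun t => X t + ((σ * ‖κ‖ : ℝ) : ℂ) * Y t)
    (analyticOnNhd_univ_iff_differentiable.2 (hXd.sub (hYd.const_mul _)))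
    (analyticOnNhd_univ_iff_differentiable.2 (hXd.add (hYd.const_mul _)))
    (fun t _ => by
      have := hXY t
      linear_combination this) isPreconnected_univ
  have hfin : ∃ (A : ℂ) (n : ℕ), 1 ≤ n ∧ (A ≠ 0 → σ * ‖κ‖ = n) ∧ (g 0).re = 0 ∧
      ∀ w, g w = g 0 + A * w ^ n := by
    rcases hdich with h1 | h1
    · exact euler_form g hgdiff (σ * ‖κ‖) hs (fun t => sub_eq_zero.1 (h1 t (mem_univ _)))
    · obtain ⟨A, n, hn, h2, h3, h4⟩ := euler_form g hgdiff (-(σ * ‖κ‖)) (neg_ne_zero.2 hs) (fun t => by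
        have := h1 t (mem_univ _)
        simp only [hX, hY] at this
        push_cast at this ⊢
        linear_combination this)
      refine ⟨A, n, hn, fun hA => ?_, h3, h4⟩
      have := h2 hA
      have hn0 : (0 : ℝ) ≤ n := Nat.cast_nonneg n
      linarith
  obtain ⟨A, n, hn, h2, h3, h4⟩ := hfin
  refine ⟨A, n, hn, h2, fun w => ?_, fun w v => ?_⟩
  · rw [hUf]
    have : f (c + κ * w) = g w := rfl
    rw [this, h4, Complex.add_re, h3, zero_add]
  · rw [hUd]
    have e1 : HasDerivAt g (A * (n * w ^ (n - 1))) w := by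
      have : g = fun w => g 0 + A * w ^ n := funext h4
      rw [this]
      exact ((hasDerivAt_pow n w).const_mul A).const_add _
    have e2 := (hgd w).unique e1
    have e3 : deriv f (c + κ * w) = A * (n * w ^ (n - 1)) / κ := by
      rw [← e2]; field_simp
    rw [e3]

/-- the topological part -/
theorem ball_of_zero_set {ρ : ℂ → ℝ} (hρ : Continuous ρ)
    (hb : Bornology.IsBounded {z : ℂ | ρ z < 0}) (hne : {z : ℂ | ρ z < 0}.Nonempty)
    (c : ℂ) (R : ℝ) (h : ∀ z, ρ z = 0 → dist z c = R) :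
    {z : ℂ | ρ z < 0} = Metric.ball c R := by
  have hivt : ∀ z w : ℂ, ρ z < 0 → 0 ≤ ρ w → ∃ t : ℝ, 0 ≤ t ∧ t ≤ 1 ∧ ρ (z + t * (w - z)) = 0 := by
    intro z w hz hw
    have hc : ContinuousOn (fun t : ℝ => ρ (z + t * (w - z))) (Icc 0 1) := by
      apply Continuous.continuousOn
      exact hρ.comp (continuous_const.add (Complex.continuous_ofReal.mul continuous_const))
    have := intermediate_value_Icc (zero_le_one' ℝ) hc
    have h0 : (0 : ℝ) ∈ Icc (ρ (z + ((0 : ℝ) : ℂ) * (w - z))) (ρ (z + ((1 : ℝ) : ℂ) * (w - z))) := by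
      constructor
      · simpa using hz.le
      · simpa using hw
    obtain ⟨t, ht, h1⟩ := this h0
    exact ⟨t, ht.1, ht.2, h1⟩
  have hsub : ∀ z, ρ z < 0 → dist z c ≤ R := by
    intro z hz
    by_contra hcon
    push Not at hcon
    have hR : 0 < dist z c := by
      by_contra h0
      have h1 : dist z c = 0 := le_antisymm (not_lt.1 h0) dist_nonneg
      -- then `R < 0`, so `ρ` has no zero
      obtain ⟨M, hM⟩ := hb.subset_ball c
      have h2 : (c + (M : ℝ) : ℂ) ∉ {z : ℂ | ρ z < 0} := by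
        intro h3
        have := hM h3
        rw [Metric.mem_ball, dist_eq_norm, add_sub_cancel_left, Complex.norm_real] at this
        exact absurd this (not_lt.2 (Real.le_norm_self M))
      have h3 : 0 ≤ ρ (c + (M : ℝ)) := not_lt.1 h2
      obtain ⟨t, _, _, h4⟩ := hivt z _ hz h3
      have := h _ h4
      have h5 := dist_nonneg (x := z + t * ((c + (M : ℝ)) - z)) (y := c)
      rw [this] at h5
      linarith
    obtain ⟨M, hM⟩ := hb.subset_ball c
    set T : ℝ := |M| / dist z c + 1 with hT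
    have hT0 : 0 ≤ T := by positivity
    have h2 : (z + (T : ℂ) * (z - c)) ∉ {z : ℂ | ρ z < 0} := by
      intro h3
      have := hM h3
      rw [Metric.mem_ball, dist_eq_norm] at this
      have e : z + (T : ℂ) * (z - c) - c = ((1 + T : ℝ) : ℂ) * (z - c) := by push_cast; ring
      rw [e, norm_mul, Complex.norm_real, ← dist_eq_norm, Real.norm_of_nonneg (by linarith)] at this
      have e2 : T * dist z c = |M| + dist z c := by rw [hT]; field_simp
      have e3 := le_abs_self M
      nlinarith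
    obtain ⟨t, ht, _, h4⟩ := hivt z _ hz (not_lt.1 h2)
    have h5 := h _ h4
    have e : z + (t : ℂ) * (z + (T : ℂ) * (z - c) - z) - c = ((1 + t * T : ℝ) : ℂ) * (z - c) := by
      push_cast; ring
    rw [dist_eq_norm, e, norm_mul, Complex.norm_real, ← dist_eq_norm,
      Real.norm_of_nonneg (by positivity)] at h5
    have : 0 ≤ t * T := mul_nonneg ht hT0
    nlinarith
  have hopen : IsOpen {z : ℂ | ρ z < 0} := isOpen_lt hρ continuous_const
  have hsub2 : {z : ℂ | ρ z < 0} ⊆ Metric.ball c R := by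
    have h1 : {z : ℂ | ρ z < 0} ⊆ Metric.closedBall c R := fun z hz => hsub z hz
    obtain ⟨z, hz⟩ := hne
    by_cases hR : R = 0
    · exfalso
      have h2 : {z : ℂ | ρ z < 0} ⊆ {c} := by
        rw [hR, Metric.closedBall_zero] at h1; exact h1
      have h3 : {z : ℂ | ρ z < 0} = {c} := (Set.subset_singleton_iff_eq.1 h2).resolve_left
        (fun h4 => by rw [h4] at hz; exact hz)
      rw [h3] at hopen
      exact not_isOpen_singleton c hopen
    · have := interior_mono h1
      rwa [hopen.interior_eq, interior_closedBall c hR] at this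
  refine Subset.antisymm hsub2 ?_
  intro w hw
  obtain ⟨z, hz⟩ := hne
  by_contra hcon
  have hcon' : 0 ≤ ρ w := not_lt.1 hcon
  obtain ⟨t, ht0, ht1, h4⟩ := hivt z w hz hcon'
  have h5 := h _ h4
  have h6 : z + (t : ℂ) * (w - z) ∈ Metric.ball c R := by
    have := (convex_ball c R) (hsub2 hz) hw (sub_nonneg.2 ht1) ht0 (by ring)
    have e : (1 - t) • z + t • w = z + (t : ℂ) * (w - z) := by
      rw [Complex.real_smul, Complex.real_smul]; push_cast; ring
    rwa [e] at this
  rw [Metric.mem_ball, h5] at h6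
  exact lt_irrefl _ h6

theorem circle_rigid_aux {ρ : ℂ → ℝ} (hρ : SmoothDomain ρ) (c κ : ℂ) (hκ : κ ≠ 0)
    {U₁ U₂ : ℂ → ℝ} {σ₁ σ₂ : ℝ} (hU₁ : EntireSteklov ρ σ₁ U₁) (hU₂ : EntireSteklov ρ σ₂ U₂)
    (hlin : ∀ x y : ℝ, (∀ z, x * U₁ z + y * U₂ z = 0) → x = 0 ∧ y = 0)
    (A B : ℂ) (k m : ℕ) (hA : A ≠ 0) (hB : B ≠ 0) (h1 : σ₁ * ‖κ‖ = ((k + 1 : ℕ) : ℝ))
    (h2 : σ₂ * ‖κ‖ = ((k + m + 1 : ℕ) : ℝ))
    (h3 : ∀ w, U₁ (c + κ * w) = (A * w ^ (k + 1)).re)
    (h4 : ∀ w v, fderiv ℝ U₁ (c + κ * w) v = (A * (((k + 1 : ℕ) : ℂ) * w ^ k) / κ * v).re)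
    (h5 : ∀ w, U₂ (c + κ * w) = (B * w ^ (k + m + 1)).re)
    (h6 : ∀ w v, fderiv ℝ U₂ (c + κ * w) v = (B * (((k + m + 1 : ℕ) : ℂ) * w ^ (k + m)) / κ * v).re) :
    {z : ℂ | ρ z < 0} = Metric.ball c ‖κ‖ := by
  have hκn : 0 < ‖κ‖ := norm_pos_iff.2 hκ
  set r : ℂ → ℝ := fun w => ρ (c + κ * w) with hr
  have haff : ContDiff ℝ 1 (fun w : ℂ => c + κ * w) := contDiff_const.add (contDiff_const.mul contDiff_id)
  have hρ1 : ContDiff ℝ 1 ρ := hρ.smooth.of_le (by
    exact_mod_cast (le_top : (1 : ℕ∞) ≤ ⊤))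
  have hr1 : ContDiff ℝ 1 r := hρ1.comp haff
  have hder : ∀ w v, fderiv ℝ r w v = fderiv ℝ ρ (c + κ * w) (κ * v) := by
    intro w v
    have e1 : HasFDerivAt (fun w : ℂ => c + κ * w) ((ContinuousLinearMap.mul ℝ ℂ) κ) w := by
      exact (((ContinuousLinearMap.mul ℝ ℂ) κ).hasFDerivAt).const_add c
    have e2 : HasFDerivAt r ((fderiv ℝ ρ (c + κ * w)).comp ((ContinuousLinearMap.mul ℝ ℂ) κ)) w :=
      (hρ1.differentiable one_ne_zero (c + κ * w)).hasFDerivAt.comp w e1
    rw [e2.fderiv]; rfl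
  have hgrad : ∀ w, grad r w = conj κ * grad ρ (c + κ * w) := by
    intro w
    unfold grad
    rw [hder, hder, mul_one]
    rw [grad_re (ρ := ρ), grad_re (ρ := ρ)]
    set G := grad ρ (c + κ * w)
    have hG : conj κ * ((fderiv ℝ ρ (c + κ * w) 1 : ℝ) + (fderiv ℝ ρ (c + κ * w) I : ℝ) * I) = conj κ * G := rfl
    rw [hG]
    apply Complex.ext
    · simp
      ring
    · simp
      ring
  have hrreg : ∀ w, r w = 0 → fderiv ℝ r w ≠ 0 := by
    intro w hw h0
    apply hρ.regular _ hw
    ext v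
    have := hder w (κ⁻¹ * v)
    rw [h0, mul_inv_cancel_left₀ hκ] at this
    simpa using this.symm
  have key : ∀ (σ : ℝ) (U : ℂ → ℝ) (C : ℂ) (j : ℕ), EntireSteklov ρ σ U → σ * ‖κ‖ = ((j + 1 : ℕ) : ℝ) →
      (∀ w, U (c + κ * w) = (C * w ^ (j + 1)).re) →
      (∀ w v, fderiv ℝ U (c + κ * w) v = (C * (((j + 1 : ℕ) : ℂ) * w ^ j) / κ * v).re) →
      ∀ w, r w = 0 → (C * w ^ j * (grad r w - ‖grad r w‖ * w)).re = 0 := by
    intro σ U C j hU e1 e2 e3 w hw
    have e4 := hU.boundary _ hw
    rw [e2, e3] at e4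
    rw [hgrad, norm_mul, RCLike.norm_conj]
    set G := grad ρ (c + κ * w) with hG
    have e5 : (C * (((j + 1 : ℕ) : ℂ) * w ^ j) / κ * G) * ((‖κ‖ ^ 2 : ℝ) : ℂ) =
        (((j + 1 : ℕ) : ℝ) : ℂ) * (C * w ^ j * (conj κ * G)) := by
      have hκn : ((‖κ‖ ^ 2 : ℝ) : ℂ) = κ * conj κ := by
        rw [Complex.mul_conj, Complex.normSq_eq_norm_sq]
      rw [hκn]
      push_cast
      field_simp
    have e6 : (C * (((j + 1 : ℕ) : ℂ) * w ^ j) / κ * G).re * ‖κ‖ ^ 2 =
        ((j + 1 : ℕ) : ℝ) * (C * w ^ j * (conj κ * G)).re := by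
      rw [← Complex.re_mul_ofReal, e5, Complex.re_ofReal_mul]
    rw [e4] at e6
    have e7 : ((j + 1 : ℕ) : ℝ) * (C * w ^ j * (conj κ * G)).re =
        ((j + 1 : ℕ) : ℝ) * (‖κ‖ * ‖G‖ * (C * w ^ (j + 1)).re) := by
      rw [← e6, ← e1]; ring
    have hj : ((j + 1 : ℕ) : ℝ) ≠ 0 := by positivity
    have e8 := mul_left_cancel₀ hj e7
    have e9 : C * w ^ j * (conj κ * G - ((‖κ‖ * ‖G‖ : ℝ) : ℂ) * w) =
        C * w ^ j * (conj κ * G) - ((‖κ‖ * ‖G‖ : ℝ) : ℂ) * (C * w ^ (j + 1)) := by ring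
    rw [e9, Complex.sub_re, Complex.re_ofReal_mul, e8]; ring
  have hz : ∀ w, (w - c) / κ * κ + c = w := by
    intro w; field_simp; ring
  have hm : m = 0 → (conj A * B).im ≠ 0 := by
    intro hm0 him
    set l : ℝ := (conj A * B).re with hl
    have e1 : conj A * B = (l : ℂ) := by
      apply Complex.ext
      · simp [hl]
      · rw [him]; simp
    have e2 : ((normSq A : ℝ) : ℂ) * B = (l : ℂ) * A := by
      rw [← Complex.mul_conj]
      linear_combination A * e1
    have := hlin l (-(normSq A)) (fun z => by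
      have e3 := h3 ((z - c) / κ)
      have e4 := h5 ((z - c) / κ)
      have e5 : c + κ * ((z - c) / κ) = z := by
        field_simp; ring
      rw [e5] at e3 e4
      rw [e3, e4, hm0, add_zero]
      rw [← Complex.re_ofReal_mul, ← Complex.re_ofReal_mul, ← Complex.add_re]
      have e6 : (l : ℂ) * (A * ((z - c) / κ) ^ (k + 1)) +
          ((-(normSq A) : ℝ) : ℂ) * (B * ((z - c) / κ) ^ (k + 1)) = 0 := by
        push_cast
        linear_combination (-((z - c) / κ) ^ (k + 1)) * e2
      rw [e6, Complex.zero_re])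
    have h7 : normSq A = 0 := by linarith [this.2]
    exact hA (Complex.normSq_eq_zero.1 h7)
  have hring := ring_lemma hr1 hrreg A B k m hA hB hm (key σ₁ U₁ A k hU₁ h1 h3 h4)
    (key σ₂ U₂ B (k + m) hU₂ h2 h5 h6)
  refine ball_of_zero_set hρ.smooth.continuous hρ.bounded hρ.connected.nonempty c ‖κ‖ ?_
  intro z hz0
  have e5 : c + κ * ((z - c) / κ) = z := by
    field_simp; ring
  have := hring ((z - c) / κ) (by simp only [hr]; rw [e5]; exact hz0)
  rw [norm_div, div_eq_one_iff_eq hκn.ne'] at this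
  rw [dist_eq_norm, this]

theorem circle_rigid {ρ : ℂ → ℝ} (hρ : SmoothDomain ρ) (c κ : ℂ) (hκ : κ ≠ 0) {a b : ℝ} (hab : a < b)
    (harc : ∀ t : ℝ, a < t → t < b → ρ (c + κ * (Real.cos t + Real.sin t * I)) = 0)
    {U₁ U₂ : ℂ → ℝ} {σ₁ σ₂ : ℝ} (hσ₁ : 0 < σ₁) (hσ₂ : 0 < σ₂)
    (hU₁ : EntireSteklov ρ σ₁ U₁) (hU₂ : EntireSteklov ρ σ₂ U₂)
    (hlin : ∀ x y : ℝ, (∀ z, x * U₁ z + y * U₂ z = 0) → x = 0 ∧ y = 0) :
    {z : ℂ | ρ z < 0} = Metric.ball c ‖κ‖ := by
  have hd : Differentiable ℝ ρ := hρ.smooth.differentiable (by simp)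
  obtain ⟨A, n, hn, a1, a2, a3⟩ := circle_arc hd hρ.regular c κ hκ hab harc hσ₁ hU₁
  obtain ⟨B, m, hm, b1, b2, b3⟩ := circle_arc hd hρ.regular c κ hκ hab harc hσ₂ hU₂
  have hAB : ∀ (U : ℂ → ℝ) (C : ℂ) (j : ℕ), (∀ w, U (c + κ * w) = (C * w ^ j).re) → C = 0 →
      ∀ z, U z = 0 := by
    intro U C j h hC z
    have e5 : c + κ * ((z - c) / κ) = z := by
      field_simp; ring
    have := h ((z - c) / κ)
    rw [e5, hC, zero_mul, Complex.zero_re] at this
    exact this
  have hA : A ≠ 0 := by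
    intro h
    have h0 := hAB U₁ A n a2 h
    exact one_ne_zero (hlin 1 0 (fun z => by rw [h0 z]; ring)).1
  have hB : B ≠ 0 := by
    intro h
    have h0 := hAB U₂ B m b2 h
    exact one_ne_zero (hlin 0 1 (fun z => by rw [h0 z]; ring)).2
  rcases le_total n m with hnm | hnm
  · obtain ⟨k, rfl⟩ : ∃ k, n = k + 1 := ⟨n - 1, by omega⟩
    obtain ⟨l, rfl⟩ : ∃ l, m = k + l + 1 := ⟨m - (k + 1), by omega⟩
    exact circle_rigid_aux hρ c κ hκ hU₁ hU₂ hlin A B k l hA hB (a1 hA) (b1 hB) a2
      (fun w v => a3 w v) b2 (fun w v => b3 w v)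
  · obtain ⟨k, rfl⟩ : ∃ k, m = k + 1 := ⟨m - 1, by omega⟩
    obtain ⟨l, rfl⟩ : ∃ l, n = k + l + 1 := ⟨n - (k + 1), by omega⟩
    refine circle_rigid_aux hρ c κ hκ hU₂ hU₁ (fun x y h => ?_) B A k l hB hA (b1 hB) (a1 hA) b2
      (fun w v => b3 w v) a2 (fun w v => a3 w v)
    have := hlin y x (fun z => by rw [← h z]; ring)
    exact ⟨this.2, this.1⟩

end Pool.Agent.H183R3.Stek
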