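import Mathlib

/-!
# Steklov eigenfunctions on analytic arcs: the complexified boundary condition
-/

set_option autoImplicit false

open Complex Set Filter Topology ComplexConjugate

namespace Pool.Agent.H183R3.Stek

/-- the reflected function -/
noncomputable def refl (F : ℂ → ℂ) : ℂ → ℂ := fun t => conj (F (conj t))

theorem refl_diff {F : ℂ → ℂ} (hF : Differentiable ℂ F) : Differentiable ℂ (refl F) := by
  intro t
  have := (hF (conj t)).conj_conj
  rw [Complex.conj_conj] at this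
  exact this

theorem deriv_refl (F : ℂ → ℂ) (t : ℂ) : deriv (refl F) t = conj (deriv F (conj t)) := by
  have := congrFun (deriv_conj_conj (f := F)) t
  exact this

theorem refl_real (F : ℂ → ℂ) (t : ℝ) : refl F t = conj (F t) := by
  simp [refl]

/-- the identity between entire functions -/
theorem core (Z f : ℂ → ℂ) (hZ : Differentiable ℂ Z) (hf : Differentiable ℂ f) (a b : ℝ)
    (hab : a < b) (σ : ℝ)
    (hst : ∀ t : ℝ, a < t → t < b → ((deriv f (Z t) * (I * deriv Z t)).re) ^ 2 =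
      σ ^ 2 * ((f (Z t)).re) ^ 2 * ‖deriv Z t‖ ^ 2) (t : ℂ) :
    (deriv (f ∘ Z) t - deriv (refl (f ∘ Z)) t) ^ 2 =
      -(σ : ℂ) ^ 2 * (deriv Z t * deriv (refl Z) t) * ((f ∘ Z) t + refl (f ∘ Z) t) ^ 2 := by
  have hF : Differentiable ℂ (f ∘ Z) := hf.comp hZ
  have hG := refl_diff hF
  have hW := refl_diff hZ
  have dd : ∀ {g : ℂ → ℂ}, Differentiable ℂ g → Differentiable ℂ (deriv g) := by
    intro g hg
    have := (analyticOnNhd_univ_iff_differentiable.2 hg).deriv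
    exact analyticOnNhd_univ_iff_differentiable.1 this
  have h1 : Differentiable ℂ (fun t => (deriv (f ∘ Z) t - deriv (refl (f ∘ Z)) t) ^ 2) :=
    ((dd hF).sub (dd hG)).pow 2
  have h2 : Differentiable ℂ (fun t => -(σ : ℂ) ^ 2 * (deriv Z t * deriv (refl Z) t) *
      ((f ∘ Z) t + refl (f ∘ Z) t) ^ 2) :=
    (((dd hZ).mul (dd hW)).const_mul _).mul ((hF.add hG).pow 2)
  have hreal : ∀ s : ℝ, a < s → s < b →
      (deriv (f ∘ Z) s - deriv (refl (f ∘ Z)) s) ^ 2 =
      -(σ : ℂ) ^ 2 * (deriv Z s * deriv (refl Z) s) * ((f ∘ Z) s + refl (f ∘ Z) s) ^ 2 := by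
    intro s hs1 hs2
    have hs := hst s hs1 hs2
    have hd : deriv (f ∘ Z) (s : ℂ) = deriv f (Z s) * deriv Z s :=
      deriv_comp (s : ℂ) (hf _) (hZ _)
    rw [deriv_refl, deriv_refl, refl_real, Complex.conj_ofReal, hd]
    have e1 : deriv f (Z s) * deriv Z s - conj (deriv f (Z s) * deriv Z s) =
        ((2 * (deriv f (Z s) * deriv Z s).im : ℝ) : ℂ) * I := by
      rw [Complex.sub_conj]
    have e2 : (f ∘ Z) (s : ℂ) + conj ((f ∘ Z) (s : ℂ)) = ((2 * (f (Z s)).re : ℝ) : ℂ) := by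
      rw [Complex.add_conj]; rfl
    have e3 : deriv Z (s : ℂ) * conj (deriv Z (s : ℂ)) = ((‖deriv Z (s : ℂ)‖ ^ 2 : ℝ) : ℂ) := by
      rw [Complex.mul_conj, Complex.normSq_eq_norm_sq]
    have e4 : (deriv f (Z s) * (I * deriv Z s)).re = -(deriv f (Z s) * deriv Z s).im := by
      have : deriv f (Z s) * (I * deriv Z s) = I * (deriv f (Z s) * deriv Z s) := by ring
      rw [this, Complex.I_mul_re]
    rw [e1, e2, e3, mul_pow, Complex.I_sq]
    rw [e4] at hs
    have hs' : (((deriv f (Z s) * deriv Z s).im ^ 2 : ℝ) : ℂ) =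
        ((σ ^ 2 * ((f (Z s)).re) ^ 2 * ‖deriv Z s‖ ^ 2 : ℝ) : ℂ) := by
      rw [← hs]; push_cast; ring
    push_cast at hs' ⊢
    linear_combination (-4) * hs'
  -- identity theorem at the midpoint
  have hm : ∃ᶠ s in 𝓝[≠] (((a + b) / 2 : ℝ) : ℂ),
      (fun t => (deriv (f ∘ Z) t - deriv (refl (f ∘ Z)) t) ^ 2) s =
      (fun t => -(σ : ℂ) ^ 2 * (deriv Z t * deriv (refl Z) t) *
      ((f ∘ Z) t + refl (f ∘ Z) t) ^ 2) s := by
    have hcont : Tendsto (fun s : ℝ => (s : ℂ)) (𝓝[≠] ((a + b) / 2)) (𝓝[≠] (((a + b) / 2 : ℝ) : ℂ)) := by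
      refine tendsto_nhdsWithin_iff.2 ⟨?_, ?_⟩
      · exact (Complex.continuous_ofReal.tendsto _).mono_left nhdsWithin_le_nhds
      · filter_upwards [self_mem_nhdsWithin] with s hs
        intro h
        have h' : (s : ℂ) = (((a + b) / 2 : ℝ) : ℂ) := h
        exact hs (Complex.ofReal_injective h')
    have hev : ∀ᶠ s : ℝ in 𝓝[≠] ((a + b) / 2), a < s ∧ s < b :=
      nhdsWithin_le_nhds (Ioo_mem_nhds (by linarith) (by linarith))
    have hfr : ∃ᶠ s : ℝ in 𝓝[≠] ((a + b) / 2),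
        (fun t => (deriv (f ∘ Z) t - deriv (refl (f ∘ Z)) t) ^ 2) (s : ℂ) =
      (fun t => -(σ : ℂ) ^ 2 * (deriv Z t * deriv (refl Z) t) *
      ((f ∘ Z) t + refl (f ∘ Z) t) ^ 2) (s : ℂ) :=
      (hev.mono fun s hs => hreal s hs.1 hs.2).frequently
    exact hcont.frequently hfr
  exact congrFun ((analyticOnNhd_univ_iff_differentiable.2 h1).eq_of_frequently_eq
    (analyticOnNhd_univ_iff_differentiable.2 h2) hm) t

/-- first consequence: odd zeros -/
theorem odd_zero (Z f : ℂ → ℂ) (hZ : Differentiable ℂ Z) (hf : Differentiable ℂ f) (σ : ℝ)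
    (hσ : σ ≠ 0)
    (hcore : ∀ t : ℂ, (deriv (f ∘ Z) t - deriv (refl (f ∘ Z)) t) ^ 2 =
      -(σ : ℂ) ^ 2 * (deriv Z t * deriv (refl Z) t) * ((f ∘ Z) t + refl (f ∘ Z) t) ^ 2)
    (t₀ : ℂ) (n : ℕ) (hn : Odd n)
    (hord : analyticOrderAt (fun t => deriv Z t * deriv (refl Z) t) t₀ = n) :
    (∀ t, deriv (f ∘ Z) t = 0) ∧ ∀ t, (f ∘ Z) t + refl (f ∘ Z) t = 0 := by
  have hF : Differentiable ℂ (f ∘ Z) := hf.comp hZ
  have hG := refl_diff hF
  have hW := refl_diff hZ
  have an : ∀ {g : ℂ → ℂ}, Differentiable ℂ g → ∀ t, AnalyticAt ℂ g t := by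
    intro g hg t
    exact (analyticOnNhd_univ_iff_differentiable.2 hg) t (mem_univ _)
  have dd : ∀ {g : ℂ → ℂ}, Differentiable ℂ g → Differentiable ℂ (deriv g) := by
    intro g hg
    have := (analyticOnNhd_univ_iff_differentiable.2 hg).deriv
    exact analyticOnNhd_univ_iff_differentiable.1 this
  set D : ℂ → ℂ := fun t => deriv (f ∘ Z) t - deriv (refl (f ∘ Z)) t with hD
  set E : ℂ → ℂ := fun t => (f ∘ Z) t + refl (f ∘ Z) t with hE
  set H : ℂ → ℂ := fun t => deriv Z t * deriv (refl Z) t with hH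
  have hDd : Differentiable ℂ D := (dd hF).sub (dd hG)
  have hEd : Differentiable ℂ E := hF.add hG
  have hHd : Differentiable ℂ H := (dd hZ).mul (dd hW)
  have hfun : D ^ 2 = (fun _ => -(σ : ℂ) ^ 2) * (H * E ^ 2) := by
    funext t
    have := hcore t
    simp only [Pi.mul_apply, Pi.pow_apply]
    rw [← mul_assoc]
    exact this
  have ho : 2 • analyticOrderAt D t₀ = n + 2 • analyticOrderAt E t₀ := by
    rw [← analyticOrderAt_pow (an hDd t₀), hfun, analyticOrderAt_mul analyticAt_const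
      ((an hHd t₀).mul ((an hEd t₀).pow 2)), analyticOrderAt_mul (an hHd t₀) ((an hEd t₀).pow 2),
      analyticOrderAt_pow (an hEd t₀), hord]
    have : analyticOrderAt (fun _ : ℂ => -(σ : ℂ) ^ 2) t₀ = 0 := by
      rw [analyticOrderAt_eq_zero]
      right
      simp [hσ]
    rw [this, zero_add]
  have hEtop : analyticOrderAt E t₀ = ⊤ := by
    by_contra hne
    obtain ⟨e, he⟩ := ENat.ne_top_iff_exists.1 hne
    rw [← he] at ho
    by_cases hDt : analyticOrderAt D t₀ = ⊤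
    · rw [hDt] at ho
      have : ((n : ℕ∞) + 2 • (e : ℕ∞)) = ((n + 2 * e : ℕ) : ℕ∞) := by
        push_cast; simp [two_mul, two_smul]
      rw [this] at ho
      have ho' : ((n + 2 * e : ℕ) : ℕ∞) = ⊤ := by
        rw [← ho]; simp [two_smul]
      exact ENat.natCast_ne_top _ ho'
    · obtain ⟨d, hd⟩ := ENat.ne_top_iff_exists.1 hDt
      rw [← hd] at ho
      have h2 : ((2 * d : ℕ) : ℕ∞) = ((n + 2 * e : ℕ) : ℕ∞) := by
        push_cast
        simpa [two_mul, two_smul] using ho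
      have h3 : 2 * d = n + 2 * e := by exact_mod_cast h2
      obtain ⟨k, hk⟩ := hn
      omega
  have hE0 : ∀ t, E t = 0 := by
    have := (AnalyticOnNhd.analyticOrderAt_eq_top_iff_eq_zero t₀ (an hEd)).1 hEtop
    intro t
    rw [this]; rfl
  have hD0 : ∀ t, D t = 0 := by
    intro t
    have := hcore t
    have h2 : D t ^ 2 = 0 := by
      change (deriv (f ∘ Z) t - deriv (refl (f ∘ Z)) t) ^ 2 = 0
      rw [this]
      have : (f ∘ Z) t + refl (f ∘ Z) t = 0 := hE0 t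
      rw [this]; ring
    exact pow_eq_zero_iff (two_ne_zero) |>.1 h2
  refine ⟨fun t => ?_, hE0⟩
  -- derivative of `E` is zero as well
  have hE' : deriv (f ∘ Z) t + deriv (refl (f ∘ Z)) t = 0 := by
    have : deriv E t = deriv (f ∘ Z) t + deriv (refl (f ∘ Z)) t :=
      deriv_add (hF t) (hG t)
    rw [← this]
    have : E = fun _ => 0 := funext hE0
    rw [this]; simp
  have hD' : deriv (f ∘ Z) t - deriv (refl (f ∘ Z)) t = 0 := hD0 t
  have : 2 * deriv (f ∘ Z) t = 0 := by linear_combination hE' + hD'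
  simpa using this

/-- second consequence: critical points -/
theorem crit (Z f : ℂ → ℂ) (hZ : Differentiable ℂ Z) (hf : Differentiable ℂ f) (σ : ℝ)
    (hcore : ∀ t : ℂ, (deriv (f ∘ Z) t - deriv (refl (f ∘ Z)) t) ^ 2 =
      -(σ : ℂ) ^ 2 * (deriv Z t * deriv (refl Z) t) * ((f ∘ Z) t + refl (f ∘ Z) t) ^ 2)
    (t₀ : ℂ) (h0 : deriv Z t₀ = 0) (h1 : deriv Z (conj t₀) ≠ 0) :
    deriv f (Z (conj t₀)) = 0 := by
  have h := hcore t₀
  have hd : deriv (f ∘ Z) t₀ = 0 := by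
    rw [deriv_comp t₀ (hf _) (hZ _), h0, mul_zero]
  rw [hd, h0, deriv_refl] at h
  have h2 : conj (deriv (f ∘ Z) (conj t₀)) ^ 2 = 0 := by
    have : conj (deriv (f ∘ Z) (conj t₀)) ^ 2 = (0 - conj (deriv (f ∘ Z) (conj t₀))) ^ 2 := by ring
    rw [this, h]; ring
  have h3 : deriv (f ∘ Z) (conj t₀) = 0 := by
    have := pow_eq_zero_iff (two_ne_zero) |>.1 h2
    simpa using this
  rw [deriv_comp _ (hf _) (hZ _)] at h3
  exact (mul_eq_zero.1 h3).resolve_right h1

end Pool.Agent.H183R3.Stek
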