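import Pool.Agent.H183R3.StekEx

/-!
# Polynomial images of the disk: rigidity
-/

set_option autoImplicit false

open Complex Set Filter Topology ComplexConjugate

namespace Pool.Agent.H183R3.Stek

/-- a simple zero of the derivative of the Riemann map excludes all eigenfunctions -/
theorem disk_image_simple {ρ : ℂ → ℝ} (hρ : Differentiable ℝ ρ)
    (hreg : ∀ z : ℂ, ρ z = 0 → fderiv ℝ ρ z ≠ 0) (p : Polynomial ℂ)
    (hp' : ∀ z : ℂ, ‖z‖ ≤ 1 → p.derivative.eval z ≠ 0)
    (hbd : ∀ z : ℂ, ‖z‖ = 1 → ρ (p.eval z) = 0) (ζ : ℂ) (hζ : p.derivative.eval ζ = 0)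
    (hζ2 : p.derivative.derivative.eval ζ ≠ 0)
    {σ : ℝ} (hσ : σ ≠ 0) {U : ℂ → ℝ} (hU : EntireSteklov ρ σ U) : ∀ z, U z = 0 := by
  have hζ1 : 1 < ‖ζ‖ := by
    by_contra h
    exact hp' ζ (not_lt.1 h) hζ
  have hζ0 : ζ ≠ 0 := by
    intro h
    rw [h] at hζ1
    simp at hζ1
    linarith
  set Z : ℂ → ℂ := fun t => p.eval (Complex.exp (I * t)) with hZdef
  have hexpd : ∀ t, HasDerivAt (fun t => Complex.exp (I * t)) (Complex.exp (I * t) * I) t := by
    intro t
    have := ((hasDerivAt_id t).const_mul I).cexp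
    simpa using this
  have hd : ∀ t, HasDerivAt Z (p.derivative.eval (Complex.exp (I * t)) * (Complex.exp (I * t) * I)) t := by
    intro t
    exact (p.hasDerivAt (Complex.exp (I * t))).comp t (hexpd t)
  have hZ : Differentiable ℂ Z := fun t => (hd t).differentiableAt
  have hdZ : deriv Z = fun t => p.derivative.eval (Complex.exp (I * t)) * (Complex.exp (I * t) * I) :=
    funext fun t => (hd t).deriv
  set t₀ : ℂ := -I * Complex.log ζ with ht₀
  have he0 : Complex.exp (I * t₀) = ζ := by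
    have : I * t₀ = Complex.log ζ := by
      rw [ht₀]; linear_combination -(Complex.log ζ) * Complex.I_sq
    rw [this, Complex.exp_log hζ0]
  have he1 : Complex.exp (I * conj t₀) = (conj ζ)⁻¹ := by
    have : I * conj t₀ = -conj (I * t₀) := by
      rw [map_mul (starRingEnd ℂ) I t₀, Complex.conj_I]; ring
    rw [this, Complex.exp_neg, Complex.exp_conj, he0]
  have hn1 : ‖(conj ζ)⁻¹‖ < 1 := by
    rw [norm_inv, RCLike.norm_conj]
    exact inv_lt_one_of_one_lt₀ hζ1
  have hexp : ∀ t : ℝ, ‖Complex.exp (I * t)‖ = 1 := by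
    intro t
    rw [mul_comm, Complex.norm_exp_ofReal_mul_I]
  have hdd : HasDerivAt (deriv Z) (p.derivative.derivative.eval ζ * (ζ * I) * (ζ * I)) t₀ := by
    rw [hdZ]
    have hd' : ∀ t, HasDerivAt (fun t => p.derivative.eval (Complex.exp (I * t)))
        (p.derivative.derivative.eval (Complex.exp (I * t)) * (Complex.exp (I * t) * I)) t := by
      intro t
      exact (p.derivative.hasDerivAt (Complex.exp (I * t))).comp t (hexpd t)
    have h1 := hd' t₀
    have h2 := h1.mul ((hexpd t₀).mul_const I)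
    refine h2.congr_deriv ?_
    rw [he0, hζ]
    ring
  have hW : Differentiable ℂ (deriv (refl Z)) := by
    have := (analyticOnNhd_univ_iff_differentiable.2 (refl_diff hZ)).deriv
    exact analyticOnNhd_univ_iff_differentiable.1 this
  have hZ' : Differentiable ℂ (deriv Z) := by
    have := (analyticOnNhd_univ_iff_differentiable.2 hZ).deriv
    exact analyticOnNhd_univ_iff_differentiable.1 this
  have hz0 : deriv Z t₀ = 0 := by rw [(hd t₀).deriv, he0, hζ, zero_mul]
  have hz1 : deriv Z (conj t₀) ≠ 0 := by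
    rw [(hd (conj t₀)).deriv]
    refine mul_ne_zero ?_ (mul_ne_zero (Complex.exp_ne_zero _) Complex.I_ne_zero)
    rw [he1]
    exact hp' _ hn1.le
  have hHeq : (fun t => deriv Z t * conj (deriv Z (conj t))) = fun t => deriv Z t * deriv (refl Z) t := by
    funext t
    rw [deriv_refl]
  refine odd_arc hρ hreg hZ (a := 0) (b := 1) one_pos (fun t _ _ => ⟨hbd _ (hexp t), ?_⟩) t₀ 1 odd_one
    ?_ hσ hU
  · rw [(hd t).deriv]
    exact mul_ne_zero (hp' _ (hexp t).le) (mul_ne_zero (Complex.exp_ne_zero _) Complex.I_ne_zero)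
  · rw [hHeq]
    refine order_one (hZ'.mul hW) t₀ ?_ ?_
    · change deriv Z t₀ * deriv (refl Z) t₀ = 0
      rw [hz0, zero_mul]
    · have h3 : HasDerivAt (fun t => deriv Z t * deriv (refl Z) t)
          (p.derivative.derivative.eval ζ * (ζ * I) * (ζ * I) * deriv (refl Z) t₀) t₀ := by
        refine (hdd.mul (hW t₀).hasDerivAt).congr_deriv ?_
        rw [hz0, zero_mul, add_zero]
      change deriv (fun t => deriv Z t * deriv (refl Z) t) t₀ ≠ 0
      rw [h3.deriv, deriv_refl]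
      refine mul_ne_zero (mul_ne_zero (mul_ne_zero hζ2 ?_) ?_) ?_
      · exact mul_ne_zero hζ0 Complex.I_ne_zero
      · exact mul_ne_zero hζ0 Complex.I_ne_zero
      · intro h
        exact hz1 (by simpa using h)

/-- the linear span of the Steklov eigenfunctions of `{ρ < 0}` with an entire harmonic extension -/
def entireSpan (ρ : ℂ → ℝ) : Submodule ℝ (ℂ → ℝ) :=
  Submodule.span ℝ {U | ∃ σ : ℝ, EntireSteklov ρ σ U}

theorem span_crit {ρ : ℂ → ℝ} {w : ℂ}
    (hw : ∀ (σ : ℝ) (U : ℂ → ℝ), EntireSteklov ρ σ U → fderiv ℝ U w = 0) (V : ℂ → ℝ)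
    (hV : V ∈ entireSpan ρ) :
    ∃ h : ℂ → ℂ, Differentiable ℂ h ∧ (∀ z, V z = (h z).re) ∧ deriv h w = 0 := by
  unfold entireSpan at hV
  induction hV using Submodule.span_induction with
  | mem U hU =>
    obtain ⟨σ, hU⟩ := hU
    obtain ⟨f, hf, h1, h2⟩ := hU.exists_entire
    refine ⟨f, hf, h1, ?_⟩
    have h3 := hw σ U hU
    have h4 := h2 w 1
    have h5 := h2 w I
    rw [h3] at h4 h5
    apply Complex.ext
    · simpa using h4.symm
    · have : (deriv f w * I).re = -(deriv f w).im := by simp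
      rw [this] at h5
      simp only [ContinuousLinearMap.zero_apply] at h5
      change (deriv f w).im = 0
      linarith
  | zero => exact ⟨fun _ => 0, differentiable_const _, fun z => by simp, by simp⟩
  | add U₁ U₂ _ _ ih1 ih2 =>
    obtain ⟨f₁, a1, b1, c1⟩ := ih1
    obtain ⟨f₂, a2, b2, c2⟩ := ih2
    refine ⟨fun z => f₁ z + f₂ z, a1.add a2, fun z => by simp [b1, b2], ?_⟩
    have : deriv (fun z => f₁ z + f₂ z) w = deriv f₁ w + deriv f₂ w := deriv_add (a1 w) (a2 w)
    rw [this, c1, c2, add_zero]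
  | smul c U _ ih =>
    obtain ⟨f, a1, b1, c1⟩ := ih
    refine ⟨fun z => (c : ℂ) * f z, a1.const_mul _, fun z => by simp [b1], ?_⟩
    have : deriv (fun z => (c : ℂ) * f z) w = (c : ℂ) * deriv f w := deriv_const_mul _ (a1 w)
    rw [this, c1, mul_zero]

/-- **Rigidity.** -/
theorem disk_rigid {ρ : ℂ → ℝ} (hρ : Differentiable ℝ ρ)
    (hreg : ∀ z : ℂ, ρ z = 0 → fderiv ℝ ρ z ≠ 0) (p : Polynomial ℂ)
    (hp' : ∀ z : ℂ, ‖z‖ ≤ 1 → p.derivative.eval z ≠ 0)
    (hbd : ∀ z : ℂ, ‖z‖ = 1 → ρ (p.eval z) = 0)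
    (hdense : ∀ ε : ℝ, 0 < ε → ∃ V ∈ entireSpan ρ, ∀ z : ℂ, ρ z = 0 → |V z - z.re| ≤ ε) :
    p.natDegree = 1 := by
  by_contra hne
  have hdeg0 : p.natDegree ≠ 0 := by
    intro h
    have : p.derivative = 0 := Polynomial.derivative_eq_zero.2 h
    exact hp' 0 (by simp) (by rw [this]; simp)
  have hp : 2 ≤ p.natDegree := by omega
  -- we need the critical point in the form `p ω`
  obtain ⟨ω, hω, hcrit⟩ := disk_image' hρ hreg p hp hp' hbd
  set r : ℝ := 1 - ‖ω‖ with hr
  have hr0 : 0 < r := by rw [hr]; linarith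
  have key : ∀ ε : ℝ, 0 < ε → ‖p.derivative.eval ω‖ ≤ 8 * ε / r := by
    intro ε hε
    obtain ⟨V, hV, hVε⟩ := hdense ε hε
    obtain ⟨h, hh, hVh, hh0⟩ := span_crit hcrit V hV
    set φ : ℂ → ℂ := fun ζ => h (p.eval ζ) - p.eval ζ with hφ
    have hφd : Differentiable ℂ φ :=
      (hh.comp p.differentiable).sub p.differentiable
    have hφ' : deriv φ ω = -p.derivative.eval ω := by
      have h1 : HasDerivAt φ (deriv h (p.eval ω) * p.derivative.eval ω - p.derivative.eval ω) ω :=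
        ((hh (p.eval ω)).hasDerivAt.comp ω (p.hasDerivAt ω)).sub (p.hasDerivAt ω)
      rw [h1.deriv, hh0]; ring
    have hcirc : ∀ ζ : ℂ, ‖ζ‖ = 1 → |(φ ζ).re| ≤ ε := by
      intro ζ hζ
      have := hVε _ (hbd ζ hζ)
      rw [hVh] at this
      simpa [hφ] using this
    have hmax : ∀ ψ : ℂ → ℂ, Differentiable ℂ ψ → (∀ ζ : ℂ, ‖ζ‖ = 1 → (ψ ζ).re ≤ ε) →
        ∀ ζ : ℂ, ‖ζ‖ < 1 → (ψ ζ).re ≤ ε := by
      intro ψ hψ hb ζ hζ
      have h1 : ‖Complex.exp (ψ ζ)‖ ≤ Real.exp ε := by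
        refine Complex.norm_le_of_forall_mem_frontier_norm_le (U := Metric.ball 0 1)
          Metric.isBounded_ball (hψ.cexp.diffContOnCl) ?_ (subset_closure (by simpa using hζ))
        intro z hz
        rw [frontier_ball (0 : ℂ) one_ne_zero] at hz
        rw [Complex.norm_exp]
        exact Real.exp_le_exp.2 (hb z (by simpa using hz))
      rw [Complex.norm_exp] at h1
      exact Real.exp_le_exp.1 h1
    have hup : ∀ ζ : ℂ, ‖ζ‖ < 1 → (φ ζ).re ≤ ε :=
      hmax φ hφd fun ζ hζ => (abs_le.1 (hcirc ζ hζ)).2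
    have hlow : ∀ ζ : ℂ, ‖ζ‖ < 1 → -ε ≤ (φ ζ).re := by
      intro ζ hζ
      have := hmax (fun ζ => -φ ζ) hφd.neg (fun ζ hζ => by
        have := (abs_le.1 (hcirc ζ hζ)).1
        simp only [Complex.neg_re]
        linarith) ζ hζ
      simp only [Complex.neg_re] at this
      linarith
    have hball : ∀ ξ : ℂ, ‖ξ‖ < r → ‖ω + ξ‖ < 1 := by
      intro ξ hξ
      calc ‖ω + ξ‖ ≤ ‖ω‖ + ‖ξ‖ := norm_add_le _ _
        _ < 1 := by rw [hr] at hξ; linarith
    set ψ : ℂ → ℂ := fun ξ => φ (ω + ξ) - φ ω with hψ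
    have hψd : Differentiable ℂ ψ := by
      have : Differentiable ℂ (fun ξ : ℂ => ω + ξ) := by fun_prop
      exact (hφd.comp this).sub_const _
    have hbc : ∀ ξ : ℂ, ‖ξ‖ < r → ‖ψ ξ‖ ≤ 2 * (2 * ε) * ‖ξ‖ / (r - ‖ξ‖) := by
      intro ξ hξ
      refine Complex.borelCaratheodory_zero (by positivity) hψd.differentiableOn ?_ hr0
        (by simpa using hξ) (by simp [hψ])
      intro ξ' hξ'
      have h1 := hup _ (hball ξ' (by simpa using hξ'))
      have h2 := hlow ω hω
      simp only [hψ, mem_setOf_eq, Complex.sub_re]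
      linarith
    have hlip : ∀ᶠ ξ in 𝓝 (0 : ℂ), ‖ψ ξ - ψ 0‖ ≤ 8 * ε / r * ‖ξ - 0‖ := by
      filter_upwards [Metric.ball_mem_nhds (0 : ℂ) (half_pos hr0)] with ξ hξ
      have hξ' : ‖ξ‖ < r / 2 := by simpa using hξ
      have h0 : ψ 0 = 0 := by simp [hψ]
      rw [h0, sub_zero, sub_zero]
      refine (hbc ξ (by linarith)).trans ?_
      rw [div_le_iff₀ (by linarith)]
      have h1 : r / 2 ≤ r - ‖ξ‖ := by linarith
      calc 2 * (2 * ε) * ‖ξ‖ = 8 * ε / r * ‖ξ‖ * (r / 2) := by field_simp; ring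
        _ ≤ 8 * ε / r * ‖ξ‖ * (r - ‖ξ‖) := by gcongr
    have hψ' : HasDerivAt ψ (-p.derivative.eval ω) 0 := by
      have h1 : HasDerivAt (fun ξ : ℂ => ω + ξ) 1 0 := by simpa using (hasDerivAt_id (0 : ℂ)).const_add ω
      have h2 : HasDerivAt φ (deriv φ ω) (ω + 0) := by
        rw [add_zero]; exact (hφd ω).hasDerivAt
      have h3 := (h2.comp (0 : ℂ) h1).sub_const (φ ω)
      refine h3.congr_deriv ?_
      rw [hφ', mul_one]
    have := hψ'.le_of_lip' (by positivity) hlip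
    rwa [norm_neg] at this
  have hzero : p.derivative.eval ω = 0 := by
    by_contra hne0
    have hpos : 0 < ‖p.derivative.eval ω‖ := norm_pos_iff.2 hne0
    have := key (‖p.derivative.eval ω‖ * r / 16) (by positivity)
    have e : 8 * (‖p.derivative.eval ω‖ * r / 16) / r = ‖p.derivative.eval ω‖ / 2 := by
      field_simp; ring
    rw [e] at this
    linarith
  exact hp' ω hω.le hzero

end Pool.Agent.H183R3.Stek
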