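import Pool.Agent.H183R3.StekArc

/-!
# Examples: conics, graphs of polynomials, polynomial images of the disk
-/

set_option autoImplicit false

open Complex Set Filter Topology ComplexConjugate

namespace Pool.Agent.H183R3.Stek

/-- a value-zero, derivative-nonzero point has order one -/
theorem order_one {H : ℂ → ℂ} (hH : Differentiable ℂ H) (t₀ : ℂ) (h0 : H t₀ = 0)
    (h1 : deriv H t₀ ≠ 0) : analyticOrderAt H t₀ = (1 : ℕ) := by
  have ha : AnalyticAt ℂ H t₀ := (analyticOnNhd_univ_iff_differentiable.2 hH) t₀ (mem_univ _)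
  have := ha.analyticOrderAt_eq_one_of_zero_deriv_ne_zero h0 h1
  simpa using this

theorem norm_one_conj {u : ℂ} (hu : ‖u‖ = 1) : u * conj u = 1 := by
  rw [Complex.mul_conj, Complex.normSq_eq_norm_sq, hu]; norm_num

/-- a simple zero of `1 + p²` -/
theorem simple_root (p : Polynomial ℂ) (hd : 1 ≤ p.natDegree) :
    ∃ t : ℂ, p.eval t ^ 2 + 1 = 0 ∧ p.derivative.eval t ≠ 0 := by
  classical
  by_contra hcon
  push Not at hcon
  have hdeg0 : p.natDegree ≠ 0 := by omega
  have key : ∀ w : ℂ, w ^ 2 = -1 → (p - Polynomial.C w).natDegree = p.natDegree ∧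
      (p - Polynomial.C w) ≠ 0 ∧ ∀ t, (p - Polynomial.C w).IsRoot t →
        2 ≤ (p - Polynomial.C w).rootMultiplicity t := by
    intro w hw
    have h1 : (p - Polynomial.C w).natDegree = p.natDegree := Polynomial.natDegree_sub_C
    have h2 : (p - Polynomial.C w) ≠ 0 := by
      intro h
      rw [h] at h1
      simp at h1
      omega
    refine ⟨h1, h2, fun t ht => ?_⟩
    have h3 : p.eval t = w := by
      have := ht
      simp only [Polynomial.IsRoot.def, Polynomial.eval_sub, Polynomial.eval_C] at this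
      exact sub_eq_zero.1 this
    have h4 := hcon t (by rw [h3, hw]; ring)
    have h5 : 1 < (p - Polynomial.C w).rootMultiplicity t := by
      rw [Polynomial.one_lt_rootMultiplicity_iff_isRoot h2]
      refine ⟨ht, ?_⟩
      simp [Polynomial.IsRoot.def, h4]
    omega
  obtain ⟨a1, a2, a3⟩ := key I (by simp)
  obtain ⟨b1, b2, b3⟩ := key (-I) (by simp)
  have hder : p.derivative ≠ 0 := by
    intro h
    exact hdeg0 (Polynomial.derivative_eq_zero.1 h)
  have hmul : ∀ w : ℂ, ∀ t, (p - Polynomial.C w).IsRoot t →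
      p.derivative.rootMultiplicity t = (p - Polynomial.C w).rootMultiplicity t - 1 := by
    intro w t ht
    have := Polynomial.derivative_rootMultiplicity_of_root ht
    simpa using this
  have hle : (p - Polynomial.C I).roots + (p - Polynomial.C (-I)).roots ≤ 2 • p.derivative.roots := by
    rw [Multiset.le_iff_count]
    intro t
    rw [Multiset.count_add, Multiset.count_nsmul, Polynomial.count_roots, Polynomial.count_roots,
      Polynomial.count_roots]
    by_cases h1 : (p - Polynomial.C I).IsRoot t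
    · have h2 : ¬ (p - Polynomial.C (-I)).IsRoot t := by
        intro h2
        simp only [Polynomial.IsRoot.def, Polynomial.eval_sub, Polynomial.eval_C] at h1 h2
        have : (2 : ℂ) * I = 0 := by linear_combination h2 - h1
        simp at this
      rw [Polynomial.rootMultiplicity_eq_zero h2]
      have h3 := a3 t h1
      have h4 := hmul I t h1
      omega
    · rw [Polynomial.rootMultiplicity_eq_zero h1]
      by_cases h2 : (p - Polynomial.C (-I)).IsRoot t
      · have h3 := b3 t h2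
        have h4 := hmul (-I) t h2
        omega
      · rw [Polynomial.rootMultiplicity_eq_zero h2]
        omega
  have hcard := Multiset.card_le_card hle
  rw [Multiset.card_add, Multiset.card_nsmul] at hcard
  have hc : ∀ g : Polynomial ℂ, Multiset.card g.roots = g.natDegree := by
    intro g
    exact (Polynomial.splits_iff_card_roots.1 (IsAlgClosed.splits g))
  rw [hc, hc, hc, a1, b1] at hcard
  have := Polynomial.natDegree_derivative_lt hdeg0
  omega

theorem ellipse {ρ : ℂ → ℝ} (hρ : Differentiable ℝ ρ)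
    (hreg : ∀ z : ℂ, ρ z = 0 → fderiv ℝ ρ z ≠ 0) (c u : ℂ) (hu : ‖u‖ = 1) (α β : ℝ) (hα : α ≠ 0)
    (hβ : β ≠ 0) (hαβ : α ^ 2 ≠ β ^ 2) {a b : ℝ} (hab : a < b)
    (harc : ∀ t : ℝ, a < t → t < b → ρ (c + u * (α * Real.cos t + β * Real.sin t * I)) = 0)
    {σ : ℝ} (hσ : σ ≠ 0) {U : ℂ → ℝ} (hU : EntireSteklov ρ σ U) : ∀ z, U z = 0 := by
  set Z : ℂ → ℂ := fun t => c + u * (α * Complex.cos t + β * Complex.sin t * I) with hZdef
  have hd : ∀ t, HasDerivAt Z (u * (-(α * Complex.sin t) + β * Complex.cos t * I)) t := by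
    intro t
    have h1 := ((Complex.hasDerivAt_cos t).const_mul (α : ℂ))
    have h2 := ((Complex.hasDerivAt_sin t).const_mul (β : ℂ)).mul_const I
    have h3 := ((h1.add h2).const_mul u).const_add c
    refine h3.congr_deriv ?_
    ring
  have hZ : Differentiable ℂ Z := fun t => (hd t).differentiableAt
  have hH : (fun t => deriv Z t * conj (deriv Z (conj t))) = fun t =>
      (α : ℂ) ^ 2 * Complex.sin t ^ 2 + (β : ℂ) ^ 2 * Complex.cos t ^ 2 := by
    funext t
    rw [(hd t).deriv, (hd (conj t)).deriv]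
    simp only [map_mul, map_add, map_neg, Complex.conj_ofReal, Complex.conj_I, Complex.sin_conj,
      Complex.cos_conj, Complex.conj_conj]
    have := norm_one_conj hu
    linear_combination ((α : ℂ) ^ 2 * Complex.sin t ^ 2 - (β : ℂ) ^ 2 * Complex.cos t ^ 2 * I ^ 2) * this -
      (β : ℂ) ^ 2 * Complex.cos t ^ 2 * Complex.I_sq
  have hα' : (α : ℂ) ≠ 0 := by exact_mod_cast hα
  have hβ' : (β : ℂ) ≠ 0 := by exact_mod_cast hβ
  have hαβ' : (α : ℂ) ^ 2 - (β : ℂ) ^ 2 ≠ 0 := by
    intro h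
    apply hαβ
    have : (α : ℂ) ^ 2 = (β : ℂ) ^ 2 := sub_eq_zero.1 h
    exact_mod_cast this
  obtain ⟨w, hw⟩ := Complex.cos_surjective (((α : ℂ) ^ 2 + (β : ℂ) ^ 2) / ((α : ℂ) ^ 2 - (β : ℂ) ^ 2))
  have hw2 : Complex.cos w * ((α : ℂ) ^ 2 - (β : ℂ) ^ 2) = (α : ℂ) ^ 2 + (β : ℂ) ^ 2 := by
    rw [hw]; field_simp
  have hcw : Complex.cos w = 2 * Complex.cos (w / 2) ^ 2 - 1 := by
    rw [← Complex.cos_two_mul]; congr 1; ring
  have hsc := Complex.sin_sq_add_cos_sq (w / 2)
  refine odd_arc hρ hreg hZ hab (fun t h1 h2 => ⟨?_, ?_⟩) (w / 2) 1 odd_one ?_ hσ hU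
  · have := harc t h1 h2
    simpa [hZdef] using this
  · rw [(hd t).deriv]
    refine mul_ne_zero (by intro h; rw [h] at hu; simp at hu) ?_
    intro h
    have h3 := congrArg Complex.re h
    have h4 := congrArg Complex.im h
    rw [← Complex.ofReal_sin, ← Complex.ofReal_cos] at h3 h4
    simp at h3 h4
    have h5 : Real.sin t = 0 := (h3.resolve_left hα)
    have h6 : Real.cos t = 0 := (h4.resolve_left hβ)
    have := Real.sin_sq_add_cos_sq t
    rw [h5, h6] at this
    norm_num at this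
  · rw [hH]
    refine order_one (by fun_prop) (w / 2) ?_ ?_
    · linear_combination (-1 / 2 : ℂ) * hw2 + (1 / 2 : ℂ) * ((α : ℂ) ^ 2 - (β : ℂ) ^ 2) * hcw +
        (α : ℂ) ^ 2 * hsc
    · have hder : HasDerivAt (fun t => (α : ℂ) ^ 2 * Complex.sin t ^ 2 + (β : ℂ) ^ 2 * Complex.cos t ^ 2)
          (2 * ((α : ℂ) ^ 2 - (β : ℂ) ^ 2) * Complex.sin (w / 2) * Complex.cos (w / 2)) (w / 2) := by
        have h1 := ((Complex.hasDerivAt_sin (w / 2)).pow 2).const_mul ((α : ℂ) ^ 2)
        have h2 := ((Complex.hasDerivAt_cos (w / 2)).pow 2).const_mul ((β : ℂ) ^ 2)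
        refine (h1.add h2).congr_deriv ?_
        simp only [Nat.cast_ofNat, Nat.add_one_sub_one, pow_one]
        ring
      rw [hder.deriv]
      intro h
      have hs : Complex.sin (w / 2) ≠ 0 := by
        intro hs
        rw [hs] at hsc
        have h7 : Complex.cos (w / 2) ^ 2 = 1 := by linear_combination hsc
        rw [hcw, h7] at hw2
        have : (β : ℂ) ^ 2 = 0 := by linear_combination (-1 / 2 : ℂ) * hw2
        exact hβ' (pow_eq_zero_iff (two_ne_zero) |>.1 this)
      have hc' : Complex.cos (w / 2) ≠ 0 := by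
        intro hs
        rw [hcw, hs] at hw2
        have : (α : ℂ) ^ 2 = 0 := by linear_combination (-1 / 2 : ℂ) * hw2
        exact hα' (pow_eq_zero_iff (two_ne_zero) |>.1 this)
      have h2 : (2 : ℂ) ≠ 0 := two_ne_zero
      simp only [mul_eq_zero, h2, hαβ', hs, hc', or_self] at h

theorem hyperbola {ρ : ℂ → ℝ} (hρ : Differentiable ℝ ρ)
    (hreg : ∀ z : ℂ, ρ z = 0 → fderiv ℝ ρ z ≠ 0) (c u : ℂ) (hu : ‖u‖ = 1) (α β : ℝ) (hα : α ≠ 0)
    (hβ : β ≠ 0) {a b : ℝ} (hab : a < b)
    (harc : ∀ t : ℝ, a < t → t < b → ρ (c + u * (α * Real.cosh t + β * Real.sinh t * I)) = 0)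
    {σ : ℝ} (hσ : σ ≠ 0) {U : ℂ → ℝ} (hU : EntireSteklov ρ σ U) : ∀ z, U z = 0 := by
  set Z : ℂ → ℂ := fun t => c + u * (α * Complex.cosh t + β * Complex.sinh t * I) with hZdef
  have hd : ∀ t, HasDerivAt Z (u * (α * Complex.sinh t + β * Complex.cosh t * I)) t := by
    intro t
    have h1 := ((Complex.hasDerivAt_cosh t).const_mul (α : ℂ))
    have h2 := ((Complex.hasDerivAt_sinh t).const_mul (β : ℂ)).mul_const I
    have h3 := ((h1.add h2).const_mul u).const_add c
    exact h3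
  have hZ : Differentiable ℂ Z := fun t => (hd t).differentiableAt
  have hH : (fun t => deriv Z t * conj (deriv Z (conj t))) = fun t =>
      (α : ℂ) ^ 2 * Complex.sinh t ^ 2 + (β : ℂ) ^ 2 * Complex.cosh t ^ 2 := by
    funext t
    rw [(hd t).deriv, (hd (conj t)).deriv]
    simp only [map_mul, map_add, Complex.conj_ofReal, Complex.conj_I, Complex.sinh_conj,
      Complex.cosh_conj, Complex.conj_conj]
    have := norm_one_conj hu
    linear_combination ((α : ℂ) ^ 2 * Complex.sinh t ^ 2 - (β : ℂ) ^ 2 * Complex.cosh t ^ 2 * I ^ 2) * this -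
      (β : ℂ) ^ 2 * Complex.cosh t ^ 2 * Complex.I_sq
  have hα' : (α : ℂ) ≠ 0 := by exact_mod_cast hα
  have hβ' : (β : ℂ) ≠ 0 := by exact_mod_cast hβ
  have hαβ' : (α : ℂ) ^ 2 + (β : ℂ) ^ 2 ≠ 0 := by
    intro h
    have h2 : α ^ 2 + β ^ 2 = 0 := by exact_mod_cast h
    have : 0 < α ^ 2 := by positivity
    nlinarith [sq_nonneg β]
  obtain ⟨v, hv⟩ := Complex.cos_surjective (((α : ℂ) ^ 2 - (β : ℂ) ^ 2) / ((α : ℂ) ^ 2 + (β : ℂ) ^ 2))
  set w : ℂ := v * I with hwdef
  have hcosh : Complex.cosh w = ((α : ℂ) ^ 2 - (β : ℂ) ^ 2) / ((α : ℂ) ^ 2 + (β : ℂ) ^ 2) := by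
    rw [hwdef, Complex.cosh_mul_I, hv]
  have hw2 : Complex.cosh w * ((α : ℂ) ^ 2 + (β : ℂ) ^ 2) = (α : ℂ) ^ 2 - (β : ℂ) ^ 2 := by
    rw [hcosh]; field_simp
  have hcw : Complex.cosh w = Complex.cosh (w / 2) ^ 2 + Complex.sinh (w / 2) ^ 2 := by
    rw [← Complex.cosh_two_mul]; congr 1; ring
  have hsc := Complex.cosh_sq_sub_sinh_sq (w / 2)
  refine odd_arc hρ hreg hZ hab (fun t h1 h2 => ⟨?_, ?_⟩) (w / 2) 1 odd_one ?_ hσ hU
  · have := harc t h1 h2
    simpa [hZdef] using this
  · rw [(hd t).deriv]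
    refine mul_ne_zero (by intro h; rw [h] at hu; simp at hu) ?_
    intro h
    have h4 := congrArg Complex.im h
    rw [← Complex.ofReal_sinh, ← Complex.ofReal_cosh] at h4
    simp at h4
    have h6 := (h4.resolve_left hβ)
    exact (Real.cosh_pos t).ne' h6
  · rw [hH]
    refine order_one (by fun_prop) (w / 2) ?_ ?_
    · linear_combination (1 / 2 : ℂ) * hw2 - (1 / 2 : ℂ) * ((α : ℂ) ^ 2 + (β : ℂ) ^ 2) * hcw -
        (1 / 2 : ℂ) * ((α : ℂ) ^ 2 - (β : ℂ) ^ 2) * hsc
    · have hder : HasDerivAt (fun t => (α : ℂ) ^ 2 * Complex.sinh t ^ 2 + (β : ℂ) ^ 2 * Complex.cosh t ^ 2)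
          (2 * ((α : ℂ) ^ 2 + (β : ℂ) ^ 2) * Complex.sinh (w / 2) * Complex.cosh (w / 2)) (w / 2) := by
        have h1 := ((Complex.hasDerivAt_sinh (w / 2)).pow 2).const_mul ((α : ℂ) ^ 2)
        have h2 := ((Complex.hasDerivAt_cosh (w / 2)).pow 2).const_mul ((β : ℂ) ^ 2)
        refine (h1.add h2).congr_deriv ?_
        simp only [Nat.cast_ofNat, Nat.add_one_sub_one, pow_one]
        ring
      rw [hder.deriv]
      intro h
      have hs : Complex.sinh (w / 2) ≠ 0 := by
        intro hs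
        rw [hs] at hsc hcw
        have : (β : ℂ) ^ 2 = 0 := by
          rw [hcw] at hw2
          linear_combination (1 / 2 : ℂ) * hw2 - (1 / 2 : ℂ) * ((α : ℂ) ^ 2 + (β : ℂ) ^ 2) * hsc
        exact hβ' (pow_eq_zero_iff (two_ne_zero) |>.1 this)
      have hc' : Complex.cosh (w / 2) ≠ 0 := by
        intro hs
        rw [hs] at hsc hcw
        have : (α : ℂ) ^ 2 = 0 := by
          rw [hcw] at hw2
          linear_combination (-1 / 2 : ℂ) * hw2 - (1 / 2 : ℂ) * ((α : ℂ) ^ 2 + (β : ℂ) ^ 2) * hsc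
        exact hα' (pow_eq_zero_iff (two_ne_zero) |>.1 this)
      have h2 : (2 : ℂ) ≠ 0 := two_ne_zero
      simp only [mul_eq_zero, h2, hαβ', hs, hc', or_self] at h

theorem graph {ρ : ℂ → ℝ} (hρ : Differentiable ℝ ρ)
    (hreg : ∀ z : ℂ, ρ z = 0 → fderiv ℝ ρ z ≠ 0) (c u : ℂ) (hu : ‖u‖ = 1) (P : Polynomial ℝ)
    (hP : 2 ≤ P.natDegree) {a b : ℝ} (hab : a < b)
    (harc : ∀ t : ℝ, a < t → t < b → ρ (c + u * (t + P.eval t * I)) = 0)
    {σ : ℝ} (hσ : σ ≠ 0) {U : ℂ → ℝ} (hU : EntireSteklov ρ σ U) : ∀ z, U z = 0 := by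
  set Q : Polynomial ℂ := P.map (algebraMap ℝ ℂ) with hQ
  set Z : ℂ → ℂ := fun t => c + u * (t + Q.eval t * I) with hZdef
  have hd : ∀ t, HasDerivAt Z (u * (1 + Q.derivative.eval t * I)) t := by
    intro t
    have h1 := hasDerivAt_id t
    have h2 := (Q.hasDerivAt t).mul_const I
    exact ((h1.add h2).const_mul u).const_add c
  have hZ : Differentiable ℂ Z := fun t => (hd t).differentiableAt
  have hconj : ∀ (R : Polynomial ℝ) (t : ℂ), conj ((R.map (algebraMap ℝ ℂ)).eval (conj t)) =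
      (R.map (algebraMap ℝ ℂ)).eval t := by
    intro R t
    rw [Polynomial.eval_map, Polynomial.eval_map, Polynomial.hom_eval₂]
    rw [Complex.conj_conj]
    congr 1
    ext x
    simp
  have hder : Q.derivative = P.derivative.map (algebraMap ℝ ℂ) := by
    rw [hQ, Polynomial.derivative_map]
  have hH : (fun t => deriv Z t * conj (deriv Z (conj t))) = fun t => Q.derivative.eval t ^ 2 + 1 := by
    funext t
    rw [(hd t).deriv, (hd (conj t)).deriv]
    simp only [map_mul, map_add, map_one, Complex.conj_I]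
    rw [hder, hconj]
    have := norm_one_conj hu
    linear_combination (1 - (Polynomial.eval t (P.derivative.map (algebraMap ℝ ℂ))) ^ 2 * I ^ 2) * this -
      (Polynomial.eval t (P.derivative.map (algebraMap ℝ ℂ))) ^ 2 * Complex.I_sq
  have hdeg : 1 ≤ Q.derivative.natDegree := by
    rw [hder, Polynomial.natDegree_map, Polynomial.natDegree_derivative]
    omega
  obtain ⟨t₀, ht1, ht2⟩ := simple_root Q.derivative hdeg
  refine odd_arc hρ hreg hZ hab (fun t h1 h2 => ⟨?_, ?_⟩) t₀ 1 odd_one ?_ hσ hU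
  · have := harc t h1 h2
    have e : Q.eval (t : ℂ) = ((P.eval t : ℝ) : ℂ) := by
      rw [hQ, Polynomial.eval_map]
      exact (Polynomial.hom_eval₂ P (RingHom.id ℝ) (algebraMap ℝ ℂ) t).symm ▸ rfl
    simp only [hZdef]
    rw [e]
    exact this
  · rw [(hd t).deriv]
    refine mul_ne_zero (by intro h; rw [h] at hu; simp at hu) ?_
    intro h
    have e : Q.derivative.eval (t : ℂ) = ((P.derivative.eval t : ℝ) : ℂ) := by
      rw [hder, Polynomial.eval_map]
      exact (Polynomial.hom_eval₂ P.derivative (RingHom.id ℝ) (algebraMap ℝ ℂ) t).symm ▸ rfl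
    rw [e] at h
    have h3 := congrArg Complex.re h
    simp at h3
  · rw [hH]
    have hder2 : HasDerivAt (fun t => Q.derivative.eval t ^ 2 + 1)
        (2 * Q.derivative.eval t₀ * Q.derivative.derivative.eval t₀) t₀ := by
      have h1 := ((Q.derivative.hasDerivAt t₀).pow 2).add_const (1 : ℂ)
      refine h1.congr_deriv ?_
      simp only [Nat.cast_ofNat, Nat.add_one_sub_one, pow_one]
    refine order_one ?_ t₀ ht1 ?_
    · intro t
      exact (((Q.derivative.hasDerivAt t).pow 2).add_const (1 : ℂ)).differentiableAt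
    · rw [hder2.deriv]
      refine mul_ne_zero (mul_ne_zero two_ne_zero ?_) ht2
      intro h
      rw [h] at ht1
      norm_num at ht1

/-- polynomial images of the disk: a common critical point -/
theorem disk_image' {ρ : ℂ → ℝ} (hρ : Differentiable ℝ ρ)
    (hreg : ∀ z : ℂ, ρ z = 0 → fderiv ℝ ρ z ≠ 0) (p : Polynomial ℂ) (hp : 2 ≤ p.natDegree)
    (hp' : ∀ z : ℂ, ‖z‖ ≤ 1 → p.derivative.eval z ≠ 0)
    (hbd : ∀ z : ℂ, ‖z‖ = 1 → ρ (p.eval z) = 0) :
    ∃ ω : ℂ, ‖ω‖ < 1 ∧ ∀ (σ : ℝ) (U : ℂ → ℝ), EntireSteklov ρ σ U →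
      fderiv ℝ U (p.eval ω) = 0 := by
  have hdeg : p.derivative.degree ≠ 0 := by
    have h1 : p.derivative.natDegree = p.natDegree - 1 := Polynomial.natDegree_derivative p
    intro h
    have h2 : p.derivative.natDegree = 0 := Polynomial.natDegree_eq_of_degree_eq_some h
    omega
  obtain ⟨ζ, hζ⟩ := IsAlgClosed.exists_root p.derivative hdeg
  have hζ1 : 1 < ‖ζ‖ := by
    by_contra h
    exact hp' ζ (not_lt.1 h) hζ
  have hζ0 : ζ ≠ 0 := by
    intro h
    rw [h] at hζ1
    simp at hζ1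
    linarith
  set Z : ℂ → ℂ := fun t => p.eval (Complex.exp (I * t)) with hZdef
  have hd : ∀ t, HasDerivAt Z (p.derivative.eval (Complex.exp (I * t)) * (Complex.exp (I * t) * I)) t := by
    intro t
    have h1 : HasDerivAt (fun t => Complex.exp (I * t)) (Complex.exp (I * t) * I) t := by
      have := ((hasDerivAt_id t).const_mul I).cexp
      simpa using this
    exact (p.hasDerivAt (Complex.exp (I * t))).comp t h1
  have hZ : Differentiable ℂ Z := fun t => (hd t).differentiableAt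
  set t₀ : ℂ := -I * Complex.log ζ with ht₀
  have he0 : Complex.exp (I * t₀) = ζ := by
    have : I * t₀ = Complex.log ζ := by
      rw [ht₀]; linear_combination -(Complex.log ζ) * Complex.I_sq
    rw [this, Complex.exp_log hζ0]
  have he1 : Complex.exp (I * conj t₀) = (conj ζ)⁻¹ := by
    have : I * conj t₀ = -conj (I * t₀) := by
      rw [map_mul (starRingEnd ℂ) I t₀, Complex.conj_I]; ring
    rw [this, Complex.exp_neg, Complex.exp_conj, he0]
  have hn1 : ‖(conj ζ)⁻¹‖ < 1 := by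
    rw [norm_inv, RCLike.norm_conj]
    exact inv_lt_one_of_one_lt₀ hζ1
  have hexp : ∀ t : ℝ, ‖Complex.exp (I * t)‖ = 1 := by
    intro t
    rw [mul_comm, Complex.norm_exp_ofReal_mul_I]
  refine ⟨(conj ζ)⁻¹, hn1, fun σ U hU => ?_⟩
  have h := crit_arc hρ hreg hZ (a := 0) (b := 1) one_pos (fun t _ _ => ⟨hbd _ (hexp t), ?_⟩) t₀ ?_ ?_ hU
  · simp only [hZdef] at h
    rw [he1] at h
    exact h
  · rw [(hd t).deriv]
    exact mul_ne_zero (hp' _ (hexp t).le) (mul_ne_zero (Complex.exp_ne_zero _) Complex.I_ne_zero)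
  · rw [(hd t₀).deriv, he0]
    have : p.derivative.eval ζ = 0 := hζ
    rw [this, zero_mul]
  · rw [(hd (conj t₀)).deriv]
    refine mul_ne_zero ?_ (mul_ne_zero (Complex.exp_ne_zero _) Complex.I_ne_zero)
    rw [he1]
    exact hp' _ hn1.le

end Pool.Agent.H183R3.Stek
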