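import Pool.Agent.H183R3.StekEx

/-!
# Two homogeneous harmonic polynomials with the Steklov condition
-/

set_option autoImplicit false

open Complex Set Filter Topology ComplexConjugate

namespace Pool.Agent.H183R3.Stek

theorem lagrange {ρ : ℂ → ℝ} {z : ℂ} (hρ : ContDiffAt ℝ 1 ρ z) (hz : ρ z = 0)
    (hreg : fderiv ℝ ρ z ≠ 0) {Φ : ℂ → ℝ} (hΦ : ContDiffAt ℝ 1 Φ z)
    (h : ∀ᶠ x in 𝓝 z, ρ x = 0 → Φ x = Φ z) :
    ∃ α β : ℝ, β ≠ 0 ∧ ∀ v, α * fderiv ℝ ρ z v + β * fderiv ℝ Φ z v = 0 := by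
  have h1 : IsLocalExtrOn Φ {x | ρ x = ρ z} z := by
    left
    have : ∀ᶠ x in 𝓝[{x | ρ x = ρ z}] z, Φ z ≤ Φ x := by
      rw [eventually_nhdsWithin_iff]
      filter_upwards [h] with x hx hx2
      have hx3 : ρ x = ρ z := hx2
      rw [hz] at hx3
      exact (hx hx3).ge
    exact this
  obtain ⟨α, β, h2, h3⟩ := h1.exists_multipliers_of_hasStrictFDerivAt_1d
    (hρ.hasStrictFDerivAt one_ne_zero) (hΦ.hasStrictFDerivAt one_ne_zero)
  refine ⟨α, β, ?_, fun v => ?_⟩
  · rintro rfl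
    rw [zero_smul, add_zero] at h3
    rcases smul_eq_zero.1 h3 with h4 | h4
    · exact h2 (by rw [h4]; rfl)
    · exact hreg h4
  · have := congrArg (fun L : ℂ →L[ℝ] ℝ => L v) h3
    simpa using this

theorem grad_re {ρ : ℂ → ℝ} (z v : ℂ) : fderiv ℝ ρ z v = (conj (grad ρ z) * v).re := by
  conv_lhs => rw [show v = v.re • (1 : ℂ) + v.im • I by simp]
  rw [map_add, map_smul, map_smul]
  unfold grad
  simp
  ring

theorem not_isolated {ρ : ℂ → ℝ} {z : ℂ} (hρ : ContDiffAt ℝ 1 ρ z) (hz : ρ z = 0)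
    (hreg : fderiv ℝ ρ z ≠ 0) (h : ∀ᶠ x in 𝓝 z, ρ x = 0 → x = z) : False := by
  obtain ⟨α, β, hβ, h1⟩ := lagrange hρ hz hreg (Φ := fun x => x.re)
    (Complex.reCLM.contDiff.contDiffAt) (by
      filter_upwards [h] with x hx hx2
      rw [hx hx2])
  obtain ⟨α', β', hβ', h2⟩ := lagrange hρ hz hreg (Φ := fun x => x.im)
    (Complex.imCLM.contDiff.contDiffAt) (by
      filter_upwards [h] with x hx hx2
      rw [hx hx2])
  have e1 : fderiv ℝ (fun x : ℂ => x.re) z = Complex.reCLM := Complex.reCLM.fderiv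
  have e2 : fderiv ℝ (fun x : ℂ => x.im) z = Complex.imCLM := Complex.imCLM.fderiv
  rw [e1] at h1
  rw [e2] at h2
  have a1 := h1 1
  have a2 := h1 I
  have b1 := h2 1
  have b2 := h2 I
  simp at a1 a2 b1 b2
  have hI : fderiv ℝ ρ z I = 0 := by
    rcases a2 with h3 | h3
    · rw [h3] at a1; exact absurd (by linarith) hβ
    · exact h3
  have h1' : fderiv ℝ ρ z 1 = 0 := by
    rcases b1 with h3 | h3
    · rw [h3] at b2; exact absurd (by linarith) hβ'
    · exact h3
  apply hreg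
  ext v
  rw [grad_re]
  unfold grad
  rw [h1', hI]
  simp

theorem grad_ne {ρ : ℂ → ℝ} {z : ℂ} (h : fderiv ℝ ρ z ≠ 0) : grad ρ z ≠ 0 := by
  intro h0
  apply h
  ext v
  rw [grad_re, h0]; simp

theorem grad_cont {ρ : ℂ → ℝ} (hρ : ContDiff ℝ 1 ρ) : Continuous (grad ρ) := by
  unfold grad
  have h1 := hρ.continuous_fderiv one_ne_zero
  have h2 : Continuous fun z => fderiv ℝ ρ z 1 := h1.clm_apply continuous_const
  have h3 : Continuous fun z => fderiv ℝ ρ z I := h1.clm_apply continuous_const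
  exact (Complex.continuous_ofReal.comp h2).add ((Complex.continuous_ofReal.comp h3).mul continuous_const)

theorem im_deriv (C : ℂ) (m : ℕ) (z v : ℂ) :
    fderiv ℝ (fun x : ℂ => (C * x ^ m).im) z v = (C * (m * z ^ (m - 1)) * v).im := by
  have h0 : HasDerivAt (fun x : ℂ => C * x ^ m) (C * (m * z ^ (m - 1))) z :=
    (hasDerivAt_pow m z).const_mul C
  have h1 := Complex.imCLM.hasFDerivAt.comp z (h0.hasFDerivAt.restrictScalars ℝ)
  have h2 : fderiv ℝ (fun x : ℂ => (C * x ^ m).im) z = _ := h1.fderiv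
  rw [h2]
  simp
  ring

theorem ring_lemma {ρ : ℂ → ℝ} (hρ : ContDiff ℝ 1 ρ) (hreg : ∀ z, ρ z = 0 → fderiv ℝ ρ z ≠ 0)
    (A B : ℂ) (k m : ℕ) (hA : A ≠ 0) (hB : B ≠ 0) (hm : m = 0 → (conj A * B).im ≠ 0)
    (h1 : ∀ z, ρ z = 0 → (A * z ^ k * (grad ρ z - ‖grad ρ z‖ * z)).re = 0)
    (h2 : ∀ z, ρ z = 0 → (B * z ^ (k + m) * (grad ρ z - ‖grad ρ z‖ * z)).re = 0)
    (z : ℂ) (hz : ρ z = 0) : ‖z‖ = 1 := by
  by_contra hne
  set q : ℂ → ℂ := fun z => grad ρ z - ‖grad ρ z‖ * z with hq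
  have hgc := grad_cont hρ
  have hqc : Continuous q :=
    hgc.sub ((Complex.continuous_ofReal.comp hgc.norm).mul continuous_id)
  have hqz : q z ≠ 0 := by
    intro h0
    have h3 : grad ρ z = ‖grad ρ z‖ * z := sub_eq_zero.1 h0
    have h4 := congrArg norm h3
    rw [norm_mul, Complex.norm_real, norm_norm] at h4
    have h5 : ‖grad ρ z‖ ≠ 0 := norm_ne_zero_iff.2 (grad_ne (hreg z hz))
    apply hne
    have : ‖grad ρ z‖ * (‖z‖ - 1) = 0 := by linarith
    have := (mul_eq_zero.1 this).resolve_left h5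
    linarith
  -- a good point
  obtain ⟨w, hw, hqw, hw0⟩ : ∃ w, ρ w = 0 ∧ q w ≠ 0 ∧ w ≠ 0 := by
    by_contra hcon
    push Not at hcon
    have hz0 : z = 0 := hcon z hz hqz
    refine not_isolated hρ.contDiffAt hz (hreg z hz) ?_
    filter_upwards [hqc.continuousAt.eventually_ne hqz] with x hx hx2
    rw [hcon x hx2 hx, hz0]
  have hnear : ∀ᶠ x in 𝓝 w, q x ≠ 0 ∧ x ≠ 0 :=
    (hqc.continuousAt.eventually_ne hqw).and (continuousAt_id.eventually_ne hw0)
  set C : ℂ := conj A * B with hC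
  have hC0 : C ≠ 0 := mul_ne_zero (by simpa using hA) hB
  have hIm : ∀ x, ρ x = 0 → q x ≠ 0 → x ≠ 0 → (C * x ^ m).im = 0 := by
    intro x hx hqx hx0
    have e1 := h1 x hx
    have e2 := h2 x hx
    change (A * x ^ k * q x).re = 0 at e1
    change (B * x ^ (k + m) * q x).re = 0 at e2
    have e3 : (conj (A * x ^ k * q x) * (B * x ^ (k + m) * q x)).im = 0 := by
      rw [Complex.mul_im, Complex.conj_re, Complex.conj_im, e1, e2]; ring
    have e4 : conj (A * x ^ k * q x) * (B * x ^ (k + m) * q x) =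
        ((normSq (x ^ k * q x) : ℝ) : ℂ) * (C * x ^ m) := by
      rw [← Complex.mul_conj]
      simp only [map_mul, map_pow, hC]
      ring
    rw [e4, Complex.im_ofReal_mul] at e3
    have e5 : normSq (x ^ k * q x) ≠ 0 := by
      rw [Ne, Complex.normSq_eq_zero]
      exact mul_ne_zero (pow_ne_zero _ hx0) hqx
    exact (mul_eq_zero.1 e3).resolve_left e5
  rcases Nat.eq_zero_or_pos m with hm0 | hmpos
  · have := hIm w hw hqw hw0
    rw [hm0, pow_zero, mul_one] at this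
    exact hm hm0 this
  -- radial derivative
  have hrad : ∀ᶠ x in 𝓝 w, ρ x = 0 → fderiv ℝ ρ x x = 0 := by
    filter_upwards [hnear.eventually_nhds, hnear] with x hx hx1 hx2
    obtain ⟨α, β, hβ, h3⟩ := lagrange hρ.contDiffAt hx2 (hreg x hx2)
      (Φ := fun y => (C * y ^ m).im) (by
        have : ContDiff ℝ 1 (fun y : ℂ => C * y ^ m) := contDiff_const.mul (contDiff_id.pow m)
        exact (Complex.imCLM.contDiff.comp this).contDiffAt) (by
        filter_upwards [hx] with y hy hy2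
        rw [hIm y hy2 hy.1 hy.2, hIm x hx2 hx1.1 hx1.2])
    have h4 := h3 x
    have h5 := h3 (I * x)
    rw [im_deriv] at h4 h5
    obtain ⟨j, rfl⟩ : ∃ j, m = j + 1 := ⟨m - 1, by omega⟩
    have e1 : C * (((j + 1 : ℕ) : ℂ) * x ^ (j + 1 - 1)) * x = (((j + 1 : ℕ) : ℝ) : ℂ) * (C * x ^ (j + 1)) := by
      rw [Nat.add_sub_cancel]; push_cast; ring
    have e2 : C * (((j + 1 : ℕ) : ℂ) * x ^ (j + 1 - 1)) * (I * x) =
        (((j + 1 : ℕ) : ℝ) : ℂ) * (I * (C * x ^ (j + 1))) := by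
      rw [Nat.add_sub_cancel]; push_cast; ring
    have him := hIm x hx2 hx1.1 hx1.2
    rw [e1, Complex.im_ofReal_mul, him, mul_zero, mul_zero, add_zero] at h4
    rw [e2, Complex.im_ofReal_mul] at h5
    have e3 : (I * (C * x ^ (j + 1))).im = (C * x ^ (j + 1)).re := by simp
    rw [e3] at h5
    rcases mul_eq_zero.1 h4 with h6 | h6
    · exfalso
      rw [h6, zero_mul, zero_add] at h5
      have h7 : (C * x ^ (j + 1)).re = 0 := by
        rcases mul_eq_zero.1 h5 with h8 | h8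
        · exact absurd h8 hβ
        · rcases mul_eq_zero.1 h8 with h9 | h9
          · exact absurd (Nat.cast_eq_zero.1 h9) (by omega)
          · exact h9
      exact mul_ne_zero hC0 (pow_ne_zero _ hx1.2) (Complex.ext h7 him)
    · exact h6
  -- the second relation
  have hrel : ∀ x, ρ x = 0 → x ≠ 0 → fderiv ℝ ρ x x = 0 →
      (A * x ^ (k + 1)).im ^ 2 = normSq x * (A * x ^ (k + 1)).re ^ 2 := by
    intro x hx hx0 hr
    have e1 := h1 x hx
    set G := grad ρ x with hG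
    have hG0 : G ≠ 0 := grad_ne (hreg x hx)
    rw [grad_re, ← hG] at hr
    set N := ‖G‖ with hN
    have hN0 : N ≠ 0 := norm_ne_zero_iff.2 hG0
    -- `G * conj x = I * y`
    set y : ℝ := (G * conj x).im with hy
    have hGx : G * conj x = I * y := by
      apply Complex.ext
      · have : (G * conj x).re = (conj G * x).re := by simp
        rw [this, hr]; simp
      · rw [← hy]; simp
    have hy2 : y ^ 2 = N ^ 2 * normSq x := by
      have h3 := congrArg normSq hGx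
      rw [Complex.normSq_mul, Complex.normSq_mul, Complex.normSq_conj, Complex.normSq_I, one_mul,
        Complex.normSq_ofReal] at h3
      rw [hN, ← Complex.normSq_eq_norm_sq, h3]; ring
    have e2 : ((A * x ^ k * (G - N * x)) * ((normSq x : ℝ) : ℂ)).re = 0 := by
      rw [Complex.re_mul_ofReal, e1, zero_mul]
    have e3 : (A * x ^ k * (G - N * x)) * ((normSq x : ℝ) : ℂ) =
        (A * x ^ (k + 1)) * (I * y - ((N * normSq x : ℝ) : ℂ)) := by
      rw [← hGx]
      push_cast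
      rw [← Complex.mul_conj]
      ring
    rw [e3] at e2
    set W := A * x ^ (k + 1) with hW
    have e4 : -(W.im * y) - W.re * (N * normSq x) = 0 := by
      rw [Complex.mul_re] at e2
      simp at e2
      linarith
    have hx2 : normSq x ≠ 0 := by rwa [Ne, Complex.normSq_eq_zero]
    have e5 : W.im ^ 2 * y ^ 2 = W.re ^ 2 * (N * normSq x) ^ 2 := by
      have : W.im * y = -(W.re * (N * normSq x)) := by linarith
      calc W.im ^ 2 * y ^ 2 = (W.im * y) ^ 2 := by ring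
        _ = _ := by rw [this]; ring
    rw [hy2] at e5
    have e6 : (N ^ 2 * normSq x) * (W.im ^ 2) = (N ^ 2 * normSq x) * (normSq x * W.re ^ 2) := by
      linear_combination e5
    exact mul_left_cancel₀ (mul_ne_zero (pow_ne_zero 2 hN0) hx2) e6
  set Ψ : ℂ → ℝ := fun x => (A * x ^ (k + 1)).im ^ 2 - (x.re ^ 2 + x.im ^ 2) * (A * x ^ (k + 1)).re ^ 2
    with hΨ
  have hΨ0 : ∀ x, ρ x = 0 → x ≠ 0 → fderiv ℝ ρ x x = 0 → Ψ x = 0 := by
    intro x hx hx0 hr
    have := hrel x hx hx0 hr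
    rw [Complex.normSq_apply] at this
    simp only [hΨ]
    rw [this]; ring
  have hwr : fderiv ℝ ρ w w = 0 := hrad.self_of_nhds hw
  have hΨC : ContDiff ℝ 1 Ψ := by
    have h3 : ContDiff ℝ 1 (fun y : ℂ => A * y ^ (k + 1)) := contDiff_const.mul (contDiff_id.pow _)
    have h4 := Complex.imCLM.contDiff.comp h3
    have h5 := Complex.reCLM.contDiff.comp h3
    have h6 : ContDiff ℝ 1 (fun y : ℂ => y.re) := Complex.reCLM.contDiff
    have h7 : ContDiff ℝ 1 (fun y : ℂ => y.im) := Complex.imCLM.contDiff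
    exact (h4.pow 2).sub (((h6.pow 2).add (h7.pow 2)).mul (h5.pow 2))
  obtain ⟨α, β, hβ, h3⟩ := lagrange hρ.contDiffAt hw (hreg w hw) (Φ := Ψ) hΨC.contDiffAt (by
    filter_upwards [hrad, hnear] with x hx hx1 hx2
    rw [hΨ0 x hx2 hx1.2 (hx hx2), hΨ0 w hw hw0 hwr])
  have h4 := h3 w
  rw [hwr, mul_zero, zero_add] at h4
  have h5 : fderiv ℝ Ψ w w = 0 := (mul_eq_zero.1 h4).resolve_left hβ
  set W := A * w ^ (k + 1) with hW
  have hder1 : HasDerivAt (fun s : ℝ => Ψ (w + s • w)) (fderiv ℝ Ψ w w) 0 := by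
    have e1 : HasDerivAt (fun s : ℝ => w + s • w) w 0 := by
      have := ((hasDerivAt_id (0 : ℝ)).smul_const w).const_add w
      simpa using this
    have e2 : HasFDerivAt Ψ (fderiv ℝ Ψ w) (w + (0 : ℝ) • w) := by
      rw [zero_smul, add_zero]
      exact (hΨC.differentiable one_ne_zero w).hasFDerivAt
    exact e2.comp_hasDerivAt 0 e1
  have hfun : (fun s : ℝ => Ψ (w + s • w)) = fun s : ℝ => (1 + s) ^ (2 * k + 2) * W.im ^ 2 -
      (1 + s) ^ (2 * k + 4) * ((w.re ^ 2 + w.im ^ 2) * W.re ^ 2) := by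
    funext s
    have e1 : w + s • w = ((1 + s : ℝ) : ℂ) * w := by
      rw [Complex.real_smul]; push_cast; ring
    have e2 : A * (w + s • w) ^ (k + 1) = (((1 + s) ^ (k + 1) : ℝ) : ℂ) * W := by
      rw [e1, hW, mul_pow]; push_cast; ring
    simp only [hΨ]
    rw [e2, e1, Complex.im_ofReal_mul, Complex.re_ofReal_mul, Complex.re_ofReal_mul,
      Complex.im_ofReal_mul]
    ring
  have hder2 : HasDerivAt (fun s : ℝ => (1 + s) ^ (2 * k + 2) * W.im ^ 2 -
      (1 + s) ^ (2 * k + 4) * ((w.re ^ 2 + w.im ^ 2) * W.re ^ 2))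
      ((2 * k + 2) * W.im ^ 2 - (2 * k + 4) * ((w.re ^ 2 + w.im ^ 2) * W.re ^ 2)) 0 := by
    have e0 : HasDerivAt (fun s : ℝ => 1 + s) 1 0 := (hasDerivAt_id (0 : ℝ)).const_add 1
    have e1 := (e0.pow (2 * k + 2)).mul_const (W.im ^ 2)
    have e2 := (e0.pow (2 * k + 4)).mul_const ((w.re ^ 2 + w.im ^ 2) * W.re ^ 2)
    refine (e1.sub e2).congr_deriv ?_
    push_cast
    simp
  rw [hfun] at hder1
  have h6 := hder1.unique hder2
  rw [h5] at h6
  have h7 := hrel w hw hw0 hwr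
  rw [Complex.normSq_apply] at h7
  rw [← hW] at h7
  have h8 : (w.re ^ 2 + w.im ^ 2) * W.re ^ 2 = 0 := by
    rw [h7] at h6
    nlinarith
  have hwn : w.re ^ 2 + w.im ^ 2 ≠ 0 := by
    have : normSq w ≠ 0 := by rwa [Ne, Complex.normSq_eq_zero]
    rw [Complex.normSq_apply] at this
    intro h; apply this; linarith
  have h9 : W.re = 0 := by
    have := (mul_eq_zero.1 h8).resolve_left hwn
    exact pow_eq_zero_iff two_ne_zero |>.1 this
  have h10 : W.im = 0 := by
    rw [h9] at h7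
    have : W.im ^ 2 = 0 := by rw [h7]; ring
    exact pow_eq_zero_iff two_ne_zero |>.1 this
  exact mul_ne_zero hA (pow_ne_zero _ hw0) (Complex.ext h9 h10)

end Pool.Agent.H183R3.Stek
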