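import Pool.Agent.H183R3.StekRing

/-!
# Straight segments on the boundary
-/

set_option autoImplicit false

open Complex Set Filter Topology ComplexConjugate

namespace Pool.Agent.H183R3.Stek

theorem seg_local_pos {r : ℂ → ℝ} (hr : ContDiff ℝ 2 r) {g : ℂ → ℂ} (hg : Differentiable ℂ g) {σ : ℝ}
    (hb : ∀ w, r w = 0 → (deriv g w * grad r w).re = σ * (g w).re * ‖grad r w‖)
    (hrob : ∀ x : ℝ, -(deriv g x).im = σ * (g x).re)
    {x₀ : ℝ} (h0 : r x₀ = 0) (hx : fderiv ℝ r x₀ 1 = 0) (hy : 0 < fderiv ℝ r x₀ I)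
    (hq : (deriv g x₀).re ≠ 0) :
    ∃ ε : ℝ, 0 < ε ∧ ∀ x : ℝ, x₀ ≤ x → x ≤ x₀ + ε → r x = 0 := by
  set Gx : ℂ → ℝ := fun z => fderiv ℝ r z 1 with hGx
  set Gy : ℂ → ℝ := fun z => fderiv ℝ r z I with hGy
  have hfd : ContDiff ℝ 1 (fderiv ℝ r) := hr.fderiv_right (by norm_num)
  have hGxc : ContDiff ℝ 1 Gx := hfd.clm_apply contDiff_const
  have hGyc : ContDiff ℝ 1 Gy := hfd.clm_apply contDiff_const
  have hg' : Differentiable ℂ (deriv g) :=
    analyticOnNhd_univ_iff_differentiable.1 (analyticOnNhd_univ_iff_differentiable.2 hg).deriv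
  have hgr : ContDiff ℝ 1 (fun z => (g z).re) :=
    Complex.reCLM.contDiff.comp ((hg.contDiff (n := 1)).restrict_scalars ℝ)
  have hgi : ContDiff ℝ 1 (fun z => (deriv g z).im) :=
    Complex.imCLM.contDiff.comp ((hg'.contDiff (n := 1)).restrict_scalars ℝ)
  have hgq : ContDiff ℝ 1 (fun z => (deriv g z).re) :=
    Complex.reCLM.contDiff.comp ((hg'.contDiff (n := 1)).restrict_scalars ℝ)
  obtain ⟨K1, t1, ht1, hL1⟩ := (hGxc.contDiffAt (x := (x₀ : ℂ))).exists_lipschitzOnWith
  obtain ⟨K2, t2, ht2, hL2⟩ := (hgi.contDiffAt (x := (x₀ : ℂ))).exists_lipschitzOnWith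
  obtain ⟨K3, t3, ht3, hL3⟩ := (hgr.contDiffAt (x := (x₀ : ℂ))).exists_lipschitzOnWith
  set p : ℝ := Gy x₀ / 2 with hp
  have hp0 : 0 < p := half_pos hy
  set q : ℝ := |(deriv g x₀).re| / 2 with hqd
  have hq0 : 0 < q := half_pos (abs_pos.2 hq)
  set M1 : ℝ := |(g x₀).re| + 1 with hM1
  have hM10 : 0 < M1 := by positivity
  set M2 : ℝ := Gy x₀ + 1 with hM2
  have hM20 : 0 < M2 := by
    have : 0 < Gy x₀ := hy
    linarith
  set η : ℝ := q * p / (2 * (|σ| * M1 + 1)) with hη
  have hη0 : 0 < η := by positivity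
  have hηq : |σ| * M1 * (η / p) ≤ q / 2 := by
    have e : |σ| * M1 * (η / p) = q / 2 * ((|σ| * M1) / (|σ| * M1 + 1)) := by
      rw [hη]; field_simp
    rw [e]
    have : (|σ| * M1) / (|σ| * M1 + 1) ≤ 1 := by
      rw [div_le_one (by positivity)]; linarith
    nlinarith
  have hev : ∀ᶠ z in 𝓝 (x₀ : ℂ), z ∈ t1 ∧ z ∈ t2 ∧ z ∈ t3 ∧ p < Gy z ∧ Gy z < M2 ∧
      q < |(deriv g z).re| ∧ |(g z).re| < M1 ∧ |Gx z| < η := by
    have c1 : ∀ᶠ z in 𝓝 (x₀ : ℂ), p < Gy z :=
      hGyc.continuous.continuousAt.eventually_const_lt (by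
        have : 0 < Gy x₀ := hy
        rw [hp]; linarith)
    have c2 : ∀ᶠ z in 𝓝 (x₀ : ℂ), Gy z < M2 :=
      hGyc.continuous.continuousAt.eventually_lt_const (by rw [hM2]; linarith)
    have c3 : ∀ᶠ z in 𝓝 (x₀ : ℂ), q < |(deriv g z).re| :=
      hgq.continuous.abs.continuousAt.eventually_const_lt (by
        have : 0 < |(deriv g x₀).re| := abs_pos.2 hq
        rw [hqd]; linarith)
    have c4 : ∀ᶠ z in 𝓝 (x₀ : ℂ), |(g z).re| < M1 :=
      hgr.continuous.abs.continuousAt.eventually_lt_const (by rw [hM1]; linarith)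
    have c5 : ∀ᶠ z in 𝓝 (x₀ : ℂ), |Gx z| < η :=
      hGxc.continuous.abs.continuousAt.eventually_lt_const (by
        have : Gx x₀ = 0 := hx
        change |Gx x₀| < η
        rw [this, abs_zero]; exact hη0)
    filter_upwards [ht1, ht2, ht3, c1, c2, c3, c4, c5] with z a1 a2 a3 a4 a5 a6 a7 a8
    exact ⟨a1, a2, a3, a4, a5, a6, a7, a8⟩
  obtain ⟨δ, hδ, hball⟩ := Metric.eventually_nhds_iff_ball.1 hev
  set C1 : ℝ := 2 * (M2 * K2 + |σ| * (K3 * M2)) / q with hC1
  have hC10 : 0 ≤ C1 := by positivity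
  -- the bound on `Gx` at boundary points
  have hbound : ∀ (x h : ℝ), (x : ℂ) ∈ Metric.ball (x₀ : ℂ) δ →
      (x + h * I : ℂ) ∈ Metric.ball (x₀ : ℂ) δ → r (x + h * I) = 0 → |Gx x| ≤ (C1 + K1) * |h| := by
    intro x h hxm hzm hz
    obtain ⟨a1, a2, a3, a4, a5, a6, a7, a8⟩ := hball _ hxm
    set z : ℂ := x + h * I with hzdef
    obtain ⟨b1, b2, b3, b4, b5, b6, b7, b8⟩ := hball _ hzm
    have hdist : dist z (x : ℂ) = |h| := by
      rw [dist_eq_norm, hzdef, add_sub_cancel_left, norm_mul, Complex.norm_I, mul_one,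
        Complex.norm_real, Real.norm_eq_abs]
    have l1 : |Gx z - Gx x| ≤ K1 * |h| := by
      have := hL1.dist_le_mul z b1 x a1
      rwa [hdist, Real.dist_eq] at this
    have l2 : |(deriv g z).im - (deriv g x).im| ≤ K2 * |h| := by
      have := hL2.dist_le_mul z b2 x a2
      rwa [hdist, Real.dist_eq] at this
    have l3 : |(g z).re - (g x).re| ≤ K3 * |h| := by
      have := hL3.dist_le_mul z b3 x a3
      rwa [hdist, Real.dist_eq] at this
    have e1 := hb z hz
    have e2 := hrob x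
    set N := ‖grad r z‖ with hN
    have hN2 : N ^ 2 = Gx z ^ 2 + Gy z ^ 2 := by
      rw [hN, ← Complex.normSq_eq_norm_sq]
      unfold grad
      rw [Complex.normSq_add_mul_I]
    have hN0 : 0 ≤ N := norm_nonneg _
    have e3 : (deriv g z * grad r z).re = Gx z * (deriv g z).re - Gy z * (deriv g z).im := by
      unfold grad
      simp [hGx, hGy]
      ring
    rw [e3] at e1
    have hNG : 0 ≤ N - Gy z := by
      have : Gy z ≤ N := by
        by_contra hlt
        push Not at hlt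
        nlinarith [sq_nonneg (Gx z)]
      linarith
    have hNG2 : N - Gy z ≤ |Gx z| * (η / p) := by
      have f1 : (N - Gy z) * (N + Gy z) = |Gx z| ^ 2 := by rw [sq_abs]; linear_combination hN2
      have f2 : p ≤ N + Gy z := by linarith
      have f3 : (N - Gy z) * p ≤ |Gx z| ^ 2 := by nlinarith
      have f4 : |Gx z| ^ 2 ≤ |Gx z| * η := by nlinarith [abs_nonneg (Gx z)]
      rw [← mul_div_assoc, le_div_iff₀ hp0]
      linarith
    have e4 : Gx z * (deriv g z).re = Gy z * ((deriv g z).im - (deriv g x).im) +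
        σ * ((g z).re * (N - Gy z) + ((g z).re - (g x).re) * Gy z) := by
      linear_combination e1 - (Gy z) * e2
    have e5 : |Gx z| * |(deriv g z).re| ≤ M2 * (K2 * |h|) +
        |σ| * (M1 * (|Gx z| * (η / p)) + (K3 * |h|) * M2) := by
      rw [← abs_mul, e4]
      have hGyz : |Gy z| ≤ M2 := by rw [abs_of_pos (by linarith)]; exact b5.le
      refine (abs_add_le _ _).trans (add_le_add ?_ ?_)
      · rw [abs_mul]
        exact mul_le_mul hGyz l2 (abs_nonneg _) hM20.le
      · rw [abs_mul]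
        refine mul_le_mul_of_nonneg_left ((abs_add_le _ _).trans (add_le_add ?_ ?_)) (abs_nonneg _)
        · rw [abs_mul]
          refine mul_le_mul b7.le ?_ (abs_nonneg _) hM10.le
          rw [abs_of_nonneg hNG]; exact hNG2
        · rw [abs_mul]
          exact mul_le_mul l3 hGyz (abs_nonneg _) (by positivity)
    have e6 : |Gx z| * q ≤ |Gx z| * |(deriv g z).re| :=
      mul_le_mul_of_nonneg_left b6.le (abs_nonneg _)
    have e7 : |σ| * (M1 * (|Gx z| * (η / p))) ≤ |Gx z| * (q / 2) := by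
      have := mul_le_mul_of_nonneg_left hηq (abs_nonneg (Gx z))
      linarith
    have e8 : |Gx z| ≤ C1 * |h| := by
      rw [hC1, div_mul_eq_mul_div, le_div_iff₀ hq0]
      linarith
    calc |Gx x| = |Gx z - (Gx z - Gx x)| := by ring_nf
      _ ≤ |Gx z| + |Gx z - Gx x| := abs_sub _ _
      _ ≤ C1 * |h| + K1 * |h| := add_le_add e8 l1
      _ = _ := by ring
  -- choice of `ε`
  have hrc : Continuous fun x : ℝ => |r x| / p :=
    ((hr.continuous.comp Complex.continuous_ofReal).abs).div_const p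
  have hev2 : ∀ᶠ x in 𝓝 x₀, |r (x : ℝ)| / p < δ / 2 :=
    hrc.continuousAt.eventually_lt_const (by
      change |r (x₀ : ℝ)| / p < δ / 2
      rw [h0, abs_zero, zero_div]; exact half_pos hδ)
  obtain ⟨ε', hε', hball2⟩ := Metric.eventually_nhds_iff_ball.1 hev2
  refine ⟨min (ε' / 2) (δ / 4), by positivity, ?_⟩
  set ε := min (ε' / 2) (δ / 4) with hε
  have hε1 : ε ≤ ε' / 2 := min_le_left _ _
  have hε2 : ε ≤ δ / 4 := min_le_right _ _
  have hderiv : ∀ x : ℝ, HasDerivAt (fun x : ℝ => r x) (Gx x) x := by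
    intro x
    have e1 : HasDerivAt (fun s : ℝ => (s : ℂ)) 1 x := Complex.ofRealCLM.hasDerivAt
    exact ((hr.differentiable (by norm_num) (x : ℂ)).hasFDerivAt).comp_hasDerivAt x e1
  have hG : ∀ x ∈ Icc x₀ (x₀ + ε), r (x : ℝ) = 0 := by
    refine eq_zero_of_abs_deriv_le_mul_abs_self_of_eq_zero_right (f' := fun x => Gx x)
      (K := (C1 + K1) / p) ?_ ?_ h0 ?_
    · exact (hr.continuous.comp Complex.continuous_ofReal).continuousOn
    · intro x _
      exact (hderiv x).hasDerivWithinAt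
    · intro x hxI
      have hx1 : x ∈ Metric.ball x₀ ε' := by
        rw [Metric.mem_ball, Real.dist_eq, abs_lt]
        constructor <;> linarith [hxI.1, hxI.2]
      have hm := hball2 x hx1
      have hxball : ∀ y : ℝ, |y| ≤ |r (x : ℝ)| / p → (x + y * I : ℂ) ∈ Metric.ball (x₀ : ℂ) δ := by
        intro y hy1
        rw [Metric.mem_ball, dist_eq_norm]
        have : (x + y * I : ℂ) - x₀ = ((x - x₀ : ℝ) : ℂ) + (y : ℂ) * I := by push_cast; ring
        rw [this]
        refine (norm_add_le _ _).trans_lt ?_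
        rw [norm_mul, Complex.norm_I, mul_one, Complex.norm_real, Complex.norm_real,
          Real.norm_eq_abs, Real.norm_eq_abs]
        have : |x - x₀| ≤ δ / 4 := by
          rw [abs_le]; constructor <;> linarith [hxI.1, hxI.2]
        linarith
      set ℓ : ℝ := |r (x : ℝ)| / p with hℓ
      have hℓ0 : 0 ≤ ℓ := by positivity
      -- monotonicity in `y`
      have hvd : ∀ y : ℝ, HasDerivAt (fun y : ℝ => r (x + y * I)) (Gy (x + y * I)) y := by
        intro y
        have e1 : HasDerivAt (fun y : ℝ => (x + y * I : ℂ)) I y := by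
          have := ((Complex.ofRealCLM.hasDerivAt (x := y)).mul_const I).const_add (x : ℂ)
          simpa using this
        exact ((hr.differentiable (by norm_num) _).hasFDerivAt).comp_hasDerivAt y e1
      have hmono := Convex.mul_sub_le_image_sub_of_le_deriv (convex_Icc (-ℓ) ℓ)
        (f := fun y : ℝ => r (x + y * I)) (C := p)
        (fun y _ => (hvd y).continuousAt.continuousWithinAt)
        (fun y _ => (hvd y).differentiableAt.differentiableWithinAt)
        (fun y hy1 => by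
          rw [(hvd y).deriv]
          have hy2 : y ∈ Icc (-ℓ) ℓ := interior_subset hy1
          exact (hball _ (hxball y (abs_le.2 hy2))).2.2.2.1.le)
      have h1 := hmono (-ℓ) ⟨le_refl _, by linarith⟩ 0 ⟨by linarith, hℓ0⟩ (by linarith)
      have h2 := hmono 0 ⟨by linarith, hℓ0⟩ ℓ ⟨by linarith, le_refl _⟩ hℓ0
      have hpl : p * ℓ = |r (x : ℝ)| := by rw [hℓ]; field_simp
      simp only [Complex.ofReal_zero, zero_mul, add_zero] at h1 h2
      have h3 : r (x + ((-ℓ : ℝ) : ℂ) * I) ≤ 0 := by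
        have := le_abs_self (r (x : ℝ))
        linarith
      have h4 : 0 ≤ r (x + ((ℓ : ℝ) : ℂ) * I) := by
        have := neg_abs_le (r (x : ℝ))
        linarith
      have hivt := intermediate_value_Icc (show -ℓ ≤ ℓ by linarith)
        (f := fun y : ℝ => r (x + y * I)) (fun y _ => (hvd y).continuousAt.continuousWithinAt)
      obtain ⟨h, hh, hh0⟩ := hivt ⟨h3, h4⟩
      have hh' : |h| ≤ ℓ := abs_le.2 hh
      have hx0 : (x : ℂ) ∈ Metric.ball (x₀ : ℂ) δ := by
        have := hxball 0 (by rw [abs_zero]; exact hℓ0)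
        simpa using this
      have := hbound x h hx0 (hxball h hh') hh0
      rw [Real.norm_eq_abs, Real.norm_eq_abs]
      calc |Gx x| ≤ (C1 + K1) * |h| := this
        _ ≤ (C1 + K1) * ℓ := by gcongr
        _ = (C1 + K1) / p * |r x| := by rw [hℓ]; ring
  intro x h1 h2
  exact hG x ⟨h1, h2⟩

end Pool.Agent.H183R3.Stek
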