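import Pool.Agent.H183R3.StekSeg

/-!
# Straight segments on the boundary, global part
-/

set_option autoImplicit false

open Complex Set Filter Topology ComplexConjugate

namespace Pool.Agent.H183R3.Stek

theorem robin_line {g : ℂ → ℂ} (hg : Differentiable ℂ g) (σ : ℝ) {a b : ℝ} (hab : a < b)
    (h : ∀ x : ℝ, a < x → x < b → -(deriv g x).im = σ * (g x).re) (x : ℝ) :
    -(deriv g x).im = σ * (g x).re := by
  have hg' : Differentiable ℂ (deriv g) :=
    analyticOnNhd_univ_iff_differentiable.1 (analyticOnNhd_univ_iff_differentiable.2 hg).deriv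
  have hr' : Differentiable ℂ (deriv (refl g)) :=
    analyticOnNhd_univ_iff_differentiable.1 (analyticOnNhd_univ_iff_differentiable.2 (refl_diff hg)).deriv
  set P : ℂ → ℂ := fun t => I * (deriv g t - deriv (refl g) t) - σ * (g t + refl g t) with hP
  have hPd : Differentiable ℂ P :=
    ((hg'.sub hr').const_mul I).sub ((hg.add (refl_diff hg)).const_mul _)
  have hPr : ∀ y : ℝ, P y = ((-2 * (deriv g y).im - 2 * σ * (g y).re : ℝ) : ℂ) := by
    intro y
    simp only [hP]
    rw [deriv_refl, refl_real, Complex.conj_ofReal, Complex.sub_conj, Complex.add_conj]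
    push_cast
    linear_combination (2 * ((deriv g y).im : ℂ)) * Complex.I_sq
  have hm : ∃ᶠ s in 𝓝[≠] (((a + b) / 2 : ℝ) : ℂ), P s = (fun _ => (0 : ℂ)) s := by
    have hcont : Tendsto (fun s : ℝ => (s : ℂ)) (𝓝[≠] ((a + b) / 2)) (𝓝[≠] (((a + b) / 2 : ℝ) : ℂ)) := by
      refine tendsto_nhdsWithin_iff.2 ⟨?_, ?_⟩
      · exact (Complex.continuous_ofReal.tendsto _).mono_left nhdsWithin_le_nhds
      · filter_upwards [self_mem_nhdsWithin] with s hs
        intro h
        have h' : (s : ℂ) = (((a + b) / 2 : ℝ) : ℂ) := h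
        exact hs (Complex.ofReal_injective h')
    have hev : ∀ᶠ s : ℝ in 𝓝[≠] ((a + b) / 2), a < s ∧ s < b :=
      nhdsWithin_le_nhds (Ioo_mem_nhds (by linarith) (by linarith))
    have hfr : ∃ᶠ s : ℝ in 𝓝[≠] ((a + b) / 2), P (s : ℂ) = (fun _ => (0 : ℂ)) (s : ℂ) :=
      (hev.mono fun s hs => by
        rw [hPr]
        have := h s hs.1 hs.2
        have e : -2 * (deriv g s).im - 2 * σ * (g s).re = 0 := by linarith
        rw [e]; simp).frequently
    exact hcont.frequently hfr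
  have h0 := congrFun ((analyticOnNhd_univ_iff_differentiable.2 hPd).eq_of_frequently_eq
    analyticOnNhd_const hm) (x : ℂ)
  rw [hPr] at h0
  have := Complex.ofReal_eq_zero.1 h0
  linarith

theorem seg_local {r : ℂ → ℝ} (hr : ContDiff ℝ 2 r) {g : ℂ → ℂ} (hg : Differentiable ℂ g) {σ : ℝ}
    (hb : ∀ w, r w = 0 → (deriv g w * grad r w).re = σ * (g w).re * ‖grad r w‖)
    {x₀ a : ℝ} (ha : a < x₀) (hseg : ∀ x : ℝ, a < x → x < x₀ → r x = 0)
    (hx : ∀ x : ℝ, a < x → x ≤ x₀ → fderiv ℝ r x 1 = 0) (h0 : r x₀ = 0)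
    (hy : 0 < fderiv ℝ r x₀ I) (hq : (deriv g x₀).re ≠ 0) :
    ∃ ε : ℝ, 0 < ε ∧ ∀ x : ℝ, x₀ ≤ x → x ≤ x₀ + ε → r x = 0 := by
  have hfd : ContDiff ℝ 1 (fderiv ℝ r) := hr.fderiv_right (by norm_num)
  have hGyc : ContDiff ℝ 1 (fun z => fderiv ℝ r z I) := hfd.clm_apply contDiff_const
  have hcont : Continuous fun x : ℝ => fderiv ℝ r (x : ℂ) I :=
    hGyc.continuous.comp Complex.continuous_ofReal
  have hev : ∀ᶠ x : ℝ in 𝓝 x₀, 0 < fderiv ℝ r (x : ℂ) I :=
    hcont.continuousAt.eventually_const_lt hy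
  obtain ⟨δ, hδ, hball⟩ := Metric.eventually_nhds_iff_ball.1 hev
  have hrob : ∀ x : ℝ, -(deriv g x).im = σ * (g x).re := by
    refine robin_line hg σ (a := max a (x₀ - δ)) (b := x₀) (max_lt ha (by linarith)) ?_
    intro x h1 h2
    have h3 : a < x := (le_max_left _ _).trans_lt h1
    have h4 : x₀ - δ < x := (le_max_right _ _).trans_lt h1
    have h5 : 0 < fderiv ℝ r (x : ℂ) I := by
      apply hball
      rw [Metric.mem_ball, Real.dist_eq, abs_lt]; constructor <;> linarith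
    have h6 := hb x (hseg x h3 h2)
    have h7 : grad r x = ((fderiv ℝ r (x : ℂ) I : ℝ) : ℂ) * I := by
      unfold grad; rw [hx x h3 h2.le]; simp
    rw [h7, norm_mul, Complex.norm_I, mul_one, Complex.norm_real, Real.norm_of_nonneg h5.le] at h6
    have h8 : (deriv g x * (((fderiv ℝ r (x : ℂ) I : ℝ) : ℂ) * I)).re =
        (fderiv ℝ r (x : ℂ) I) * (-(deriv g x).im) := by
      rw [show deriv g x * (((fderiv ℝ r (x : ℂ) I : ℝ) : ℂ) * I) =
        ((fderiv ℝ r (x : ℂ) I : ℝ) : ℂ) * (deriv g x * I) by ring, Complex.re_ofReal_mul]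
      simp
    rw [h8] at h6
    apply mul_left_cancel₀ h5.ne'
    linarith
  exact seg_local_pos hr hg hb hrob h0 (hx x₀ ha le_rfl) hy hq

theorem zero_set_bounded {ρ : ℂ → ℝ} (hΩ : SmoothDomain ρ) : Bornology.IsBounded {z : ℂ | ρ z = 0} := by
  refine hΩ.bounded.closure.subset ?_
  intro z hz
  by_contra hcl
  have h1 : ∀ᶠ x in 𝓝 z, x ∉ {z : ℂ | ρ z < 0} := by
    have := isClosed_closure.isOpen_compl.mem_nhds (show z ∈ (closure {z : ℂ | ρ z < 0})ᶜ from hcl)
    filter_upwards [this] with x hx hx2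
    exact hx (subset_closure hx2)
  have h2 : IsLocalMin ρ z := by
    filter_upwards [h1] with x hx
    have hz' : ρ z = 0 := hz
    rw [hz']
    exact not_lt.1 hx
  exact hΩ.regular z hz h2.fderiv_eq_zero

theorem no_segment {ρ : ℂ → ℝ} (hΩ : SmoothDomain ρ) (c u : ℂ) (hu : ‖u‖ = 1) {a b : ℝ} (hab : a < b)
    (hseg : ∀ t : ℝ, a < t → t < b → ρ (c + u * t) = 0)
    (hne : ∀ z, ρ z = 0 → fderiv ℝ ρ z u = 0 →
      ∃ (σ : ℝ) (U : ℂ → ℝ), EntireSteklov ρ σ U ∧ fderiv ℝ U z u ≠ 0) : False := by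
  have hu0 : u ≠ 0 := by intro h; rw [h] at hu; simp at hu
  set r : ℂ → ℝ := fun w => ρ (c + u * w) with hrdef
  have hρ2 : ContDiff ℝ 2 ρ := hΩ.smooth.of_le
    (WithTop.coe_le_coe.2 (le_top : (2 : ℕ∞) ≤ ⊤))
  have haff : ContDiff ℝ 2 (fun w : ℂ => c + u * w) := contDiff_const.add (contDiff_const.mul contDiff_id)
  have hr : ContDiff ℝ 2 r := hρ2.comp haff
  have hder : ∀ w v, fderiv ℝ r w v = fderiv ℝ ρ (c + u * w) (u * v) := by
    intro w v
    have e1 : HasFDerivAt (fun w : ℂ => c + u * w) ((ContinuousLinearMap.mul ℝ ℂ) u) w := by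
      exact (((ContinuousLinearMap.mul ℝ ℂ) u).hasFDerivAt).const_add c
    have e2 : HasFDerivAt r ((fderiv ℝ ρ (c + u * w)).comp ((ContinuousLinearMap.mul ℝ ℂ) u)) w :=
      (hρ2.differentiable (by norm_num) (c + u * w)).hasFDerivAt.comp w e1
    rw [e2.fderiv]; rfl
  have hgrad : ∀ w, grad r w = conj u * grad ρ (c + u * w) := by
    intro w
    unfold grad
    rw [hder, hder, mul_one]
    rw [grad_re (ρ := ρ), grad_re (ρ := ρ)]
    set G := grad ρ (c + u * w)
    have hG : conj u * ((fderiv ℝ ρ (c + u * w) 1 : ℝ) + (fderiv ℝ ρ (c + u * w) I : ℝ) * I) = conj u * G := rfl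
    rw [hG]
    apply Complex.ext
    · simp
      ring
    · simp
      ring
  have hrreg : ∀ w, r w = 0 → fderiv ℝ r w ≠ 0 := by
    intro w hw h0
    apply hΩ.regular _ hw
    ext v
    have := hder w (u⁻¹ * v)
    rw [h0, mul_inv_cancel_left₀ hu0] at this
    simpa using this.symm
  have hfd : ContDiff ℝ 1 (fderiv ℝ r) := hr.fderiv_right (by norm_num)
  have hGxc : Continuous (fun z => fderiv ℝ r z 1) := (hfd.clm_apply contDiff_const).continuous
  have hderiv : ∀ x : ℝ, HasDerivAt (fun x : ℝ => r x) (fderiv ℝ r x 1) x := by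
    intro x
    have e1 : HasDerivAt (fun s : ℝ => (s : ℂ)) 1 x := Complex.ofRealCLM.hasDerivAt
    exact ((hr.differentiable (by norm_num) (x : ℂ)).hasFDerivAt).comp_hasDerivAt x e1
  -- the local step
  have hstep : ∀ x₀ a' : ℝ, a' < x₀ → (∀ x : ℝ, a' < x → x < x₀ → r x = 0) →
      ∃ ε : ℝ, 0 < ε ∧ ∀ x : ℝ, x₀ ≤ x → x ≤ x₀ + ε → r x = 0 := by
    intro x₀ a' ha' hz
    have hzx : ∀ x : ℝ, a' < x → x < x₀ → fderiv ℝ r x 1 = 0 := by
      intro x h1 h2
      have e : (fun s : ℝ => r s) =ᶠ[𝓝 x] fun _ => 0 := by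
        filter_upwards [Ioo_mem_nhds h1 h2] with s hs
        exact hz s hs.1 hs.2
      exact (hderiv x).unique ((hasDerivAt_const x (0 : ℝ)).congr_of_eventuallyEq e)
    have hcl : IsClosed {x : ℝ | r (x : ℂ) = 0 ∧ fderiv ℝ r (x : ℂ) 1 = 0} := by
      have c1 : IsClosed {x : ℝ | r (x : ℂ) = 0} :=
        isClosed_eq (hr.continuous.comp Complex.continuous_ofReal) continuous_const
      have c2 : IsClosed {x : ℝ | fderiv ℝ r (x : ℂ) 1 = 0} :=
        isClosed_eq (hGxc.comp Complex.continuous_ofReal) continuous_const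
      exact c1.inter c2
    have hx₀ : r (x₀ : ℂ) = 0 ∧ fderiv ℝ r (x₀ : ℂ) 1 = 0 := by
      have hsub : closure (Ioo a' x₀) ⊆ {x : ℝ | r (x : ℂ) = 0 ∧ fderiv ℝ r (x : ℂ) 1 = 0} :=
        hcl.closure_subset_iff.2 fun x hx => ⟨hz x hx.1 hx.2, hzx x hx.1 hx.2⟩
      rw [closure_Ioo ha'.ne] at hsub
      exact hsub ⟨ha'.le, le_refl _⟩
    have hzx' : ∀ x : ℝ, a' < x → x ≤ x₀ → fderiv ℝ r x 1 = 0 := by
      intro x h1 h2
      rcases h2.eq_or_lt with h3 | h3
      · rw [h3]; exact hx₀.2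
      · exact hzx x h1 h3
    obtain ⟨σ, U, hU, hUne⟩ := hne _ hx₀.1 (by
      have h1 := hder x₀ 1
      rw [hx₀.2, mul_one] at h1
      exact h1.symm)
    obtain ⟨f, hf, hUf, hUd⟩ := hU.exists_entire
    set g : ℂ → ℂ := fun w => f (c + u * w) with hgdef
    have hlin : ∀ w : ℂ, HasDerivAt (fun w : ℂ => c + u * w) u w := by
      intro w
      have := ((hasDerivAt_id w).const_mul u).const_add c
      simpa using this
    have hgd : ∀ w, HasDerivAt g (deriv f (c + u * w) * u) w := fun w =>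
      (hf (c + u * w)).hasDerivAt.comp w (hlin w)
    have hg : Differentiable ℂ g := fun w => (hgd w).differentiableAt
    have hq : (deriv g x₀).re ≠ 0 := by
      rw [(hgd x₀).deriv, ← hUd]; exact hUne
    have huu : u * conj u = 1 := norm_one_conj hu
    have hb : ∀ w, r w = 0 → (deriv g w * grad r w).re = σ * (g w).re * ‖grad r w‖ := by
      intro w hw
      have := hU.boundary _ hw
      rw [hUd, hUf] at this
      rw [(hgd w).deriv, hgrad, norm_mul, RCLike.norm_conj, hu, one_mul]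
      have e : deriv f (c + u * w) * u * (conj u * grad ρ (c + u * w)) =
          deriv f (c + u * w) * grad ρ (c + u * w) := by
        linear_combination (deriv f (c + u * w) * grad ρ (c + u * w)) * huu
      rw [e]; exact this
    have hGy : fderiv ℝ r x₀ I ≠ 0 := by
      intro h
      apply hrreg _ hx₀.1
      ext v
      rw [grad_re]; unfold grad; rw [hx₀.2, h]; simp
    rcases hGy.lt_or_gt with hneg | hpos
    · -- replace `r` by `-r`
      have hfneg : ∀ w, fderiv ℝ (fun w => -r w) w = -fderiv ℝ r w := fun w => fderiv_fun_neg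
      have hgneg : ∀ w, grad (fun w => -r w) w = -grad r w := by
        intro w
        unfold grad
        rw [hfneg]
        simp only [neg_apply]
        push_cast
        ring
      obtain ⟨ε, hε, h⟩ := seg_local (r := fun w => -r w) hr.neg hg (σ := -σ) (fun w hw => by
        rw [hgneg, norm_neg, mul_neg, Complex.neg_re, hb w (neg_eq_zero.1 hw)]; ring)
        ha' (fun x h1 h2 => neg_eq_zero.2 (hz x h1 h2)) (fun x h1 h2 => by
          rw [hfneg]
          simp only [neg_apply]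
          rw [hzx' x h1 h2, neg_zero]) (neg_eq_zero.2 hx₀.1) (by
          rw [hfneg]
          simp only [neg_apply]
          linarith) hq
      exact ⟨ε, hε, fun x h1 h2 => neg_eq_zero.1 (h x h1 h2)⟩
    · exact seg_local hr hg hb ha' hz hzx' hx₀.1 hpos hq
  -- the global argument
  obtain ⟨M, hM⟩ := (zero_set_bounded hΩ).subset_ball 0
  set m : ℝ := (a + b) / 2 with hm
  set S : Set ℝ := {t | m ≤ t ∧ ∀ s : ℝ, m ≤ s → s ≤ t → r s = 0} with hS
  have hr0 : ∀ t : ℝ, a < t → t < b → r t = 0 := hseg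
  have hmS : (m + b) / 2 ∈ S := by
    refine ⟨by rw [hm]; linarith, fun s h1 h2 => hr0 s (by rw [hm] at h1; linarith)
      (by rw [hm] at h2; linarith)⟩
  have hbdd : BddAbove S := by
    refine ⟨M + ‖c‖, fun t ht => ?_⟩
    have h1 : r t = 0 := ht.2 t ht.1 le_rfl
    have h2 := hM (show c + u * t ∈ {z : ℂ | ρ z = 0} from h1)
    rw [mem_ball_zero_iff] at h2
    have h3 : ‖u * (t : ℂ)‖ ≤ ‖c + u * t‖ + ‖c‖ := by
      calc ‖u * (t : ℂ)‖ = ‖(c + u * t) - c‖ := by ring_nf
        _ ≤ _ := norm_sub_le _ _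
    rw [norm_mul, hu, one_mul, Complex.norm_real, Real.norm_eq_abs] at h3
    have := le_abs_self t
    linarith
  set T := sSup S with hT
  have hT1 : (m + b) / 2 ≤ T := le_csSup hbdd hmS
  have hTm : m < T := by
    have : m < (m + b) / 2 := by rw [hm]; linarith
    linarith
  have hzero : ∀ x : ℝ, m ≤ x → x < T → r x = 0 := by
    intro x h1 h2
    obtain ⟨t, ht, hxt⟩ := exists_lt_of_lt_csSup ⟨_, hmS⟩ h2
    exact ht.2 x h1 hxt.le
  obtain ⟨ε, hε, h⟩ := hstep T m hTm (fun x h1 h2 => hzero x h1.le h2)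
  have hmem : T + ε ∈ S := by
    refine ⟨by linarith, fun s h1 h2 => ?_⟩
    rcases lt_or_ge s T with h3 | h3
    · exact hzero s h1 h3
    · exact h s h3 h2
  have := le_csSup hbdd hmem
  linarith

end Pool.Agent.H183R3.Stek
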