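import Pool.Agent.H370R3.BX.Stmts

set_option autoImplicit false
set_option maxHeartbeats 4000000

open Set Filter Topology unitInterval

namespace Pool.Agent.H183R3.SuspA

open Pool.Agent.H370R3.BX

noncomputable section

/-- symmetric paths -/
theorem key {X : Type} [TopologicalSpace X] (F : C(X, X)) (hF : ∀ x, F (F x) = x) (S : X)
    (g a b : Path S (F S)) (hg : ∀ t, F (g t) = g (σ t)) (ha : ∀ t, F (a t) = b (σ t))
    (hab : a.Homotopic b) (m : ℕ)
    (hU : (FundamentalGroup.fromPath (Path.Homotopic.Quotient.mk (g.trans a.symm))) ^ (2 * m + 1) =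
      (1 : FundamentalGroup X S)) :
    ∃ Γ : Path S (F S), (∀ t, F (Γ t) = Γ (σ t)) ∧ Γ.Homotopic a := by
  set U : FundamentalGroup X S :=
    FundamentalGroup.fromPath (Path.Homotopic.Quotient.mk (g.trans a.symm)) with hUdef
  obtain ⟨w, hw⟩ := Path.Homotopic.Quotient.mk_surjective (U ^ m : FundamentalGroup X S)
  have hhalf : (2 : ℝ)⁻¹ ∈ Icc (0 : ℝ) 1 := by constructor <;> norm_num
  set h2 : I := ⟨2⁻¹, hhalf⟩ with hh2
  have hσ : σ h2 = h2 := by
    apply Subtype.ext; simp [hh2]; norm_num
  have hc : g h2 = F (g h2) := by rw [hg, hσ]
  -- first half of `g`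
  let g1 : Path S (g h2) :=
    { toFun := fun t => g ⟨(t : ℝ) / 2, by
        have := t.2.1; have := t.2.2; constructor <;> linarith⟩
      continuous_toFun := by
        refine g.continuous.comp (Continuous.subtype_mk ?_ _)
        exact continuous_subtype_val.div_const 2
      source' := by
        have : (⟨((0 : I) : ℝ) / 2, by simp⟩ : I) = 0 := by apply Subtype.ext; simp
        simp [this]
      target' := by
        congr 1
        apply Subtype.ext; simp [hh2] }
  let q : Path S (g h2) := w.trans g1
  let q' : Path (g h2) (F S) := (q.map F.continuous).symm.cast hc rfl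
  have hq'1 : ∀ s, q' s = F (q (σ s)) := fun s => rfl
  have hq1 : q 1 = g h2 := q.target
  refine ⟨q.trans q', ?_, ?_⟩
  · intro t
    rw [Path.trans_apply, Path.trans_apply]
    have h0 := t.2.1
    have h1 := t.2.2
    have hσt : ((σ t : I) : ℝ) = 1 - t := rfl
    rcases lt_trichotomy (t : ℝ) (1 / 2) with h | h | h
    · rw [dif_pos h.le, dif_neg (by rw [hσt]; linarith), hq'1]
      congr 2
      apply Subtype.ext
      simp only [coe_symm_eq]
      ring
    · rw [dif_pos h.le, dif_pos (by rw [hσt]; linarith)]
      have e1 : (⟨2 * (t : ℝ), by constructor <;> linarith⟩ : I) = 1 := by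
        apply Subtype.ext; simp; linarith
      have e2 : (⟨2 * ((σ t : I) : ℝ), by rw [hσt]; constructor <;> linarith⟩ : I) = 1 := by
        apply Subtype.ext; simp; linarith
      rw [e1, e2, hq1, ← hc]
    · rw [dif_neg (by linarith), dif_pos (by rw [hσt]; linarith), hq'1, hF]
      congr 1
      apply Subtype.ext
      simp only [coe_symm_eq]
      ring
  · -- classes
    have hg2 : g1.trans ((g1.map F.continuous).symm.cast hc rfl) = g := by
      ext t
      rw [Path.trans_apply]
      have h0 := t.2.1
      have h1 := t.2.2
      by_cases h : (t : ℝ) ≤ 1 / 2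
      · rw [dif_pos h]
        change g _ = g t
        congr 1
        apply Subtype.ext
        simp
      · rw [dif_neg h]
        change F (g _) = g t
        rw [hg]
        congr 1
        apply Subtype.ext
        simp
        ring
    have hq'2 : q' = ((g1.map F.continuous).symm.cast hc rfl).trans (w.map F.continuous).symm := by
      have : (q.map F.continuous).symm = (g1.map F.continuous).symm.trans (w.map F.continuous).symm := by
        rw [← Path.trans_symm, ← Path.map_trans]
      ext t
      change (q.map F.continuous).symm t = _
      rw [this, Path.trans_apply, Path.trans_apply]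
      rfl
    have hUF : (g.trans a.symm).map F.continuous = g.symm.trans b := by
      ext t
      change F ((g.trans a.symm) t) = _
      rw [Path.trans_apply, Path.trans_apply]
      by_cases h : (t : ℝ) ≤ 1 / 2
      · rw [dif_pos h, dif_pos h, hg]; rfl
      · rw [dif_neg h, dif_neg h]
        change F (a (σ _)) = _
        rw [ha]
        congr 1
        simp
    have hab' : Path.Homotopic.Quotient.mk a = Path.Homotopic.Quotient.mk b :=
      Path.Homotopic.Quotient.eq.2 hab
    -- the homomorphism `θ`
    let A : Path.Homotopic.Quotient S (F S) := Path.Homotopic.Quotient.mk a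
    let G : Path.Homotopic.Quotient S (F S) := Path.Homotopic.Quotient.mk g
    have hmt : ∀ {x y z : X} (u : Path.Homotopic.Quotient x y) (v : Path.Homotopic.Quotient y z),
        (u.trans v).map F = (u.map F).trans (v.map F) := by
      intro x y z u v
      induction u using Path.Homotopic.Quotient.ind with | mk u =>
      induction v using Path.Homotopic.Quotient.ind with | mk v =>
      rw [← Path.Homotopic.Quotient.mk_trans, ← Path.Homotopic.Quotient.mk_map,
        ← Path.Homotopic.Quotient.mk_map, ← Path.Homotopic.Quotient.mk_map,
        ← Path.Homotopic.Quotient.mk_trans, Path.map_trans]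
    let θ : FundamentalGroup X S →* FundamentalGroup X S :=
      { toFun := fun x => (A.trans (Path.Homotopic.Quotient.map (x : Path.Homotopic.Quotient S S) F)).trans A.symm
        map_one' := by
          have : Path.Homotopic.Quotient.map (Path.Homotopic.Quotient.refl S) F =
            Path.Homotopic.Quotient.refl (F S) := rfl
          rw [FundamentalGroup.one_def, this]
          simp
        map_mul' := by
          intro x y
          rw [FundamentalGroup.mul_def, hmt, FundamentalGroup.mul_def]
          simp only [Path.Homotopic.Quotient.trans_assoc]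
          congr 2
          rw [← Path.Homotopic.Quotient.trans_assoc A.symm A, Path.Homotopic.Quotient.symm_trans,
            Path.Homotopic.Quotient.refl_trans] }
    have hθU : θ U = U⁻¹ := by
      change (A.trans (Path.Homotopic.Quotient.map (Path.Homotopic.Quotient.mk (g.trans a.symm)) F)).trans A.symm =
        (Path.Homotopic.Quotient.mk (g.trans a.symm)).symm
      rw [← Path.Homotopic.Quotient.mk_map, hUF, Path.Homotopic.Quotient.mk_trans, ← hab',
        Path.Homotopic.Quotient.mk_symm, Path.Homotopic.Quotient.mk_trans,
        Path.Homotopic.Quotient.mk_symm]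
      change (A.trans (G.symm.trans A)).trans A.symm = (G.trans A.symm).symm
      have hss : (G.trans A.symm).symm = A.trans G.symm := by
        have e := Path.Homotopic.Quotient.symm_trans (G.trans A.symm)
        calc (G.trans A.symm).symm = (G.trans A.symm).symm.trans ((G.trans A.symm).trans (A.trans G.symm)) := by
              have : (G.trans A.symm).trans (A.trans G.symm) = Path.Homotopic.Quotient.refl S := by
                rw [Path.Homotopic.Quotient.trans_assoc, ← Path.Homotopic.Quotient.trans_assoc A.symm,
                  Path.Homotopic.Quotient.symm_trans, Path.Homotopic.Quotient.refl_trans,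
                  Path.Homotopic.Quotient.trans_symm]
              rw [this, Path.Homotopic.Quotient.trans_refl]
          _ = _ := by
              rw [← Path.Homotopic.Quotient.trans_assoc, e, Path.Homotopic.Quotient.refl_trans]
      rw [hss]
      simp only [Path.Homotopic.Quotient.trans_assoc, Path.Homotopic.Quotient.trans_symm,
        Path.Homotopic.Quotient.trans_refl]
    have hΓ : Path.Homotopic.Quotient.mk (q.trans q') =
        (Path.Homotopic.Quotient.mk w).trans (G.trans ((Path.Homotopic.Quotient.mk w).map F).symm) := by
      rw [hq'2, Path.Homotopic.Quotient.mk_trans, Path.Homotopic.Quotient.mk_trans,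
        Path.Homotopic.Quotient.mk_trans, Path.Homotopic.Quotient.trans_assoc,
        ← Path.Homotopic.Quotient.trans_assoc (Path.Homotopic.Quotient.mk g1),
        ← Path.Homotopic.Quotient.mk_trans g1, hg2, Path.Homotopic.Quotient.mk_symm,
        Path.Homotopic.Quotient.mk_map]
    -- conclusion
    have hθw : θ (FundamentalGroup.fromPath (Path.Homotopic.Quotient.mk w)) = (U ^ m)⁻¹ := by
      have : (FundamentalGroup.fromPath (Path.Homotopic.Quotient.mk w)) = U ^ m := hw
      rw [this, map_pow, hθU, inv_pow]
    have hfin : (Path.Homotopic.Quotient.mk (q.trans q')).trans A.symm =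
        Path.Homotopic.Quotient.refl S := by
      rw [hΓ]
      have hθw' : (A.trans ((Path.Homotopic.Quotient.mk w).map F)).trans A.symm =
        ((U ^ m)⁻¹ : FundamentalGroup X S) := hθw
      have e1 : ((A.trans ((Path.Homotopic.Quotient.mk w).map F)).trans A.symm).trans
          (Path.Homotopic.Quotient.mk w) = Path.Homotopic.Quotient.refl S := by
        rw [hθw', hw]
        exact mul_inv_cancel (U ^ m)
      have c1 : ∀ {x y z : X} (u : Path.Homotopic.Quotient x y) (v : Path.Homotopic.Quotient x z),
          u.trans (u.symm.trans v) = v := by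
        intro x y z u v
        rw [← Path.Homotopic.Quotient.trans_assoc, Path.Homotopic.Quotient.trans_symm,
          Path.Homotopic.Quotient.refl_trans]
      have c2 : ∀ {x y z : X} (u : Path.Homotopic.Quotient x y) (v : Path.Homotopic.Quotient y z),
          u.symm.trans (u.trans v) = v := by
        intro x y z u v
        rw [← Path.Homotopic.Quotient.trans_assoc, Path.Homotopic.Quotient.symm_trans,
          Path.Homotopic.Quotient.refl_trans]
      have e2 : ((Path.Homotopic.Quotient.mk w).map F).symm =
          (A.symm.trans (Path.Homotopic.Quotient.mk w)).trans A := by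
        have e3 : (A.symm.trans (((A.trans ((Path.Homotopic.Quotient.mk w).map F)).trans A.symm).trans
          (Path.Homotopic.Quotient.mk w))).trans A = Path.Homotopic.Quotient.refl _ := by
          rw [e1, Path.Homotopic.Quotient.trans_refl, Path.Homotopic.Quotient.symm_trans]
        rw [← Path.Homotopic.Quotient.trans_refl (((Path.Homotopic.Quotient.mk w).map F).symm), ← e3]
        simp only [Path.Homotopic.Quotient.trans_assoc, c1, c2]
      rw [e2]
      have e4 : (U ^ (2 * m + 1) : FundamentalGroup X S) =
          (Path.Homotopic.Quotient.mk w).trans ((G.trans A.symm).trans (Path.Homotopic.Quotient.mk w)) := by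
        have : (U ^ (2 * m + 1) : FundamentalGroup X S) = (U ^ m * U) * U ^ m := by
          rw [← pow_succ, ← pow_add]; congr 1; ring
        rw [this, ← hw]
        rfl
      rw [hU] at e4
      rw [FundamentalGroup.one_def] at e4
      rw [e4]
      simp only [Path.Homotopic.Quotient.trans_assoc, Path.Homotopic.Quotient.trans_symm,
        Path.Homotopic.Quotient.trans_refl]
    rw [← Path.Homotopic.Quotient.eq]
    calc Path.Homotopic.Quotient.mk (q.trans q') =
        (Path.Homotopic.Quotient.mk (q.trans q')).trans (A.symm.trans A) := by
          rw [Path.Homotopic.Quotient.symm_trans, Path.Homotopic.Quotient.trans_refl]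
      _ = _ := by
          rw [← Path.Homotopic.Quotient.trans_assoc, hfin, Path.Homotopic.Quotient.refl_trans]

/-- the involution of the mapping space -/
def FF {P R : Type} [TopologicalSpace P] [TopologicalSpace R] (νP : C(P, P)) (νR : C(R, R)) :
    C(C(P, Su R), C(P, Su R)) where
  toFun f := ((Su.inv νR).comp f).comp νP
  continuous_toFun := (ContinuousMap.continuous_precomp νP).comp
    (ContinuousMap.continuous_postcomp (Su.inv νR))

theorem inv_mk {R : Type} [TopologicalSpace R] (νR : C(R, R)) (t : I) (x : R) :
    Su.inv νR (Su.mk R (t, x)) = Su.mk R (σ t, νR x) := rfl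

theorem inv_inv {R : Type} [TopologicalSpace R] (νR : C(R, R)) (h : ∀ x, νR (νR x) = x) (y : Su R) :
    Su.inv νR (Su.inv νR y) = y := by
  induction y using Quot.ind with | mk p =>
  obtain ⟨t, x⟩ := p
  change Su.inv νR (Su.inv νR (Su.mk R (t, x))) = Su.mk R (t, x)
  rw [inv_mk, inv_mk, h, unitInterval.symm_symm]

theorem mk_zero {R : Type} [TopologicalSpace R] (x y : R) : Su.mk R (0, x) = Su.mk R (0, y) :=
  Quot.sound (SuRel.zero _ _)

theorem mk_one {R : Type} [TopologicalSpace R] (x y : R) : Su.mk R (1, x) = Su.mk R (1, y) :=
  Quot.sound (SuRel.one _ _)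

/-- the path in the mapping space given by a map to `R` -/
def pth {P R : Type} [TopologicalSpace P] [TopologicalSpace R] (νP : C(P, P)) (νR : C(R, R))
    (x0 : R) (f : C(P, R)) :
    Path (ContinuousMap.const P (Su.mk R (0, x0)))
      (FF νP νR (ContinuousMap.const P (Su.mk R (0, x0)))) where
  toFun t := (Su.mk R).comp ((ContinuousMap.const P t).prodMk f)
  continuous_toFun := by
    have : Continuous fun t : I => ((⟨fun p : I × P => Su.mk R (p.1, f p.2), by fun_prop⟩ :
      C(I × P, Su R)).curry t) := ContinuousMap.continuous _
    exact this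
  source' := by
    ext p
    exact mk_zero _ _
  target' := by
    ext p
    change Su.mk R (1, f p) = Su.mk R (σ 0, νR x0)
    rw [unitInterval.symm_zero]
    exact mk_one _ _

theorem taskSuspA : TaskSuspA := by
  intro _ _ P R _ _ _ _ _ _ νP νR hνP hνR j hj x0 hx0 N hN hpow
  obtain ⟨m, rfl⟩ := hN
  set S : C(P, Su R) := ContinuousMap.const P (Su.mk R (0, x0)) with hS
  have hkey := key (FF νP νR) (fun f => by
      ext p
      change Su.inv νR (Su.inv νR (f (νP (νP p)))) = f p
      rw [inv_inv νR hνR, hνP]) S (pth νP νR x0 j) (pth νP νR x0 (ContinuousMap.const P x0))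
      (pth νP νR x0 (ContinuousMap.const P (νR x0))) (fun t => by
        ext p
        change Su.inv νR (Su.mk R (t, j (νP p))) = Su.mk R (σ t, j p)
        rw [inv_mk, hj, hνR]) (fun t => by
        ext p
        rfl) ?_ m ?_
  · obtain ⟨Γ, h1, ⟨K⟩⟩ := hkey
    refine ⟨ContinuousMap.uncurry ⟨Γ, Γ.continuous⟩, ?_, ?_, ?_, ?_⟩
    · intro p
      change Γ 0 p = _
      rw [Γ.source]; rfl
    · intro p
      change Γ 1 p = _
      rw [Γ.target]
      change Su.mk R (σ 0, νR x0) = _
      rw [unitInterval.symm_zero]
      exact mk_one _ _
    · intro t p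
      change Γ (σ t) (νP p) = Su.inv νR (Γ t p)
      rw [← h1]
      change Su.inv νR (Γ t (νP (νP p))) = _
      rw [hνP]
    · refine ⟨(ContinuousMap.uncurry (⟨fun q : I × I => K q, K.continuous⟩ : C(I × I, C(P, Su R)))).comp
        (⟨fun q : I × (I × P) => ((q.1, q.2.1), q.2.2), by fun_prop⟩ : C(I × (I × P), (I × I) × P)),
        ?_, ?_, ?_, ?_⟩
      · intro t p
        change K (0, t) p = Γ t p
        rw [K.apply_zero]; rfl
      · intro t p
        change K (1, t) p = _
        rw [K.apply_one]; rfl
      · intro s p
        change K (s, 0) p = _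
        rw [K.source]; rfl
      · intro s p
        change K (s, 1) p = _
        rw [K.target]
        change Su.mk R (σ 0, νR x0) = _
        rw [unitInterval.symm_zero]
        exact mk_one _ _
  · -- the two constant paths are homotopic
    obtain ⟨γ⟩ := hx0
    refine ⟨⟨⟨⟨fun q : I × I => ContinuousMap.const P (Su.mk R (q.2, γ q.1)), ?_⟩, ?_, ?_⟩, ?_⟩⟩
    · refine ContinuousMap.continuous_const'.comp ((Su.mk R).continuous.comp ?_)
      fun_prop
    · intro t
      ext p
      change Su.mk R (t, γ 0) = Su.mk R (t, x0)
      rw [γ.source]
    · intro t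
      ext p
      change Su.mk R (t, γ 1) = Su.mk R (t, νR x0)
      rw [γ.target]
    · intro s t ht
      rcases ht with rfl | rfl
      · ext p
        exact mk_zero _ _
      · ext p
        exact mk_one _ _
  · -- the class
    have hpt : ∀ (t : I) (p : P), suLoop R x0 (t, j p) =
        ((pth νP νR x0 j).trans (pth νP νR x0 (ContinuousMap.const P x0)).symm) t p := by
      intro t p
      rw [Path.trans_apply]
      have ht0 := t.2.1
      have ht1 := t.2.2
      by_cases ht : (t : ℝ) ≤ 1 / 2
      · rw [dif_pos ht]
        have : suLoop R x0 (t, j p) = Su.mk R (Set.projIcc 0 1 zero_le_one (2 * (t : ℝ)), j p) :=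
          if_pos ht
        rw [this]
        rw [Set.projIcc_of_mem zero_le_one (by constructor <;> linarith)]
        rfl
      · rw [dif_neg ht]
        have : suLoop R x0 (t, j p) = Su.mk R (Set.projIcc 0 1 zero_le_one (2 - 2 * (t : ℝ)), x0) :=
          if_neg ht
        rw [this]
        change _ = Su.mk R (σ _, x0)
        rw [Set.projIcc_of_mem zero_le_one (by push Not at ht; constructor <;> linarith)]
        congr 2
        apply Subtype.ext
        simp only [coe_symm_eq]
        ring
    let val : C(RC P ∅ (Su R) (Su.mk R (0, x0)), C(P, Su R)) :=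
      ⟨fun f => f.1, continuous_subtype_val⟩
    have h := congrArg (FundamentalGroup.map val (RC.base P ∅ (Su R) (Su.mk R (0, x0)))) hpow
    rw [map_pow, map_one] at h
    have he : FundamentalGroup.map val (RC.base P ∅ (Su R) (Su.mk R (0, x0)))
        (LG.pull ∅ j (fun _ hb => absurd hb (Set.notMem_empty _)) (suClass R x0)) =
        FundamentalGroup.fromPath (Path.Homotopic.Quotient.mk
          ((pth νP νR x0 j).trans (pth νP νR x0 (ContinuousMap.const P x0)).symm)) := by
      change Path.Homotopic.Quotient.mk _ = Path.Homotopic.Quotient.mk _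
      congr 1
      apply Path.ext
      funext t
      ext p
      exact hpt t p
    rw [he] at h
    exact h

end

end Pool.Agent.H183R3.SuspA
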