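import Mathlib
import Pool.Agent.Results.MP_eb9c50_an.SidonNearZero

open scoped Real
open Complex AddCircle
open Pool.Agent.Results.MP_eb9c50_an.SidonNearZero

namespace Pool.Agent.H183R3.TilfA

variable {ι κ : Type} [Fintype ι] [Fintype κ] [DecidableEq ι] [DecidableEq κ]

/-- the point n.a -/
def pos {M : ℕ} (a : ι → UnitAddCircle) (n : ι → Fin M) : UnitAddCircle := ∑ i, (n i : ℕ) • a i

/-- box average -/
noncomputable def Av (M : ℕ) (a : ι → UnitAddCircle) :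
    C(UnitAddCircle, ℂ) →L[ℂ] C(UnitAddCircle, ℂ) :=
  ((M : ℂ) ^ Fintype.card ι)⁻¹ • ∑ n : ι → Fin M, trL (pos a n)

theorem Av_apply (M : ℕ) (a : ι → UnitAddCircle) (f : C(UnitAddCircle, ℂ)) :
    Av M a f = ((M : ℂ) ^ Fintype.card ι)⁻¹ • ∑ n : ι → Fin M, trL (pos a n) f := by
  simp [Av]

theorem Av_eval (M : ℕ) (a : ι → UnitAddCircle) (f : C(UnitAddCircle, ℂ)) (t : UnitAddCircle) :
    Av M a f t = ((M : ℂ) ^ Fintype.card ι)⁻¹ * ∑ n : ι → Fin M, f (t - pos a n) := by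
  rw [Av_apply, ContinuousMap.coe_smul, Pi.smul_apply, ContinuousMap.coe_sum, Finset.sum_apply,
    smul_eq_mul]
  rfl

theorem norm_pref (M c : ℕ) : ‖((M : ℂ) ^ c)⁻¹‖ = ((M : ℝ) ^ c)⁻¹ := by
  rw [norm_inv, norm_pow, Complex.norm_natCast]

theorem Av_norm (M : ℕ) (a : ι → UnitAddCircle) (f : C(UnitAddCircle, ℂ)) :
    ‖Av M a f‖ ≤ ‖f‖ := by
  rw [Av_apply, norm_smul, norm_pref]
  have h1 : ‖∑ n : ι → Fin M, trL (pos a n) f‖ ≤ (M : ℝ) ^ Fintype.card ι * ‖f‖ := by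
    calc ‖∑ n : ι → Fin M, trL (pos a n) f‖ ≤ ∑ n : ι → Fin M, ‖trL (pos a n) f‖ :=
          norm_sum_le _ _
      _ ≤ ∑ n : ι → Fin M, ‖f‖ := Finset.sum_le_sum (fun i _ => trL_norm _ _)
      _ = _ := by simp
  rcases eq_or_ne ((M : ℝ) ^ Fintype.card ι) 0 with h0 | h0
  · rw [h0, inv_zero, zero_mul]; exact norm_nonneg _
  · have hpos : 0 < (M : ℝ) ^ Fintype.card ι := lt_of_le_of_ne (by positivity) (Ne.symm h0)
    calc ((M : ℝ) ^ Fintype.card ι)⁻¹ * ‖∑ n : ι → Fin M, trL (pos a n) f‖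
        ≤ ((M : ℝ) ^ Fintype.card ι)⁻¹ * ((M : ℝ) ^ Fintype.card ι * ‖f‖) := by gcongr
      _ = ‖f‖ := by field_simp

theorem Av_trL (M : ℕ) (a : ι → UnitAddCircle) (b : UnitAddCircle) (f : C(UnitAddCircle, ℂ)) :
    Av M a (trL b f) = trL b (Av M a f) := by
  rw [Av_apply, Av_apply, map_smul, map_sum]
  congr 1
  apply Finset.sum_congr rfl
  intro n _
  rw [trL_comm]

theorem trL_cont : Continuous (fun p : UnitAddCircle × C(UnitAddCircle, ℂ) => trL p.1 p.2) := by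
  let τ : C(UnitAddCircle, C(UnitAddCircle, UnitAddCircle)) :=
    ContinuousMap.curry ⟨fun p : UnitAddCircle × UnitAddCircle => p.2 - p.1, by fun_prop⟩
  have h : (fun p : UnitAddCircle × C(UnitAddCircle, ℂ) => trL p.1 p.2)
      = fun p => p.2.comp (τ p.1) := by
    ext p t; rfl
  rw [h]
  have h2 : Continuous (fun p : UnitAddCircle × C(UnitAddCircle, ℂ) => (τ p.1, p.2)) := by
    fun_prop
  exact (ContinuousMap.continuous_comp').comp h2

theorem Av_cont (M : ℕ) :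
    Continuous (fun p : (ι → UnitAddCircle) × C(UnitAddCircle, ℂ) => Av M p.1 p.2) := by
  have h : (fun p : (ι → UnitAddCircle) × C(UnitAddCircle, ℂ) => Av M p.1 p.2)
      = fun p => ((M : ℂ) ^ Fintype.card ι)⁻¹ • ∑ n : ι → Fin M, trL (pos p.1 n) p.2 := by
    ext1 p; rw [Av_apply]
  rw [h]
  suffices hs : Continuous (fun p : (ι → UnitAddCircle) × C(UnitAddCircle, ℂ) =>
      ∑ n : ι → Fin M, trL (pos p.1 n) p.2) from
    (continuous_const_smul (((M : ℂ) ^ Fintype.card ι)⁻¹)).comp hs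
  apply continuous_finsetSum
  intro n _
  have h2 : Continuous (fun p : (ι → UnitAddCircle) × C(UnitAddCircle, ℂ) => (pos p.1 n, p.2)) := by
    unfold pos
    fun_prop
  exact trL_cont.comp h2

theorem Av_reindex (M : ℕ) (e : κ ≃ ι) (a : ι → UnitAddCircle) (f : C(UnitAddCircle, ℂ)) :
    Av M (a ∘ e) f = Av M a f := by
  rw [Av_apply, Av_apply, Fintype.card_congr e]
  congr 1
  refine Fintype.sum_equiv (Equiv.arrowCongr e (Equiv.refl _)) _ _ (fun n => ?_)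
  congr 1
  unfold pos
  congr 1
  refine Fintype.sum_equiv e _ _ (fun j => ?_)
  simp [Equiv.arrowCongr]

theorem Av_sum (M : ℕ) (a : ι → UnitAddCircle) (b : κ → UnitAddCircle) (f : C(UnitAddCircle, ℂ)) :
    Av M (Sum.elim a b) f = Av M a (Av M b f) := by
  rw [Av_apply, Av_apply M a, Av_apply M b, Fintype.card_sum, pow_add, mul_inv, mul_smul]
  congr 1
  rw [Fintype.sum_equiv (Equiv.sumArrowEquivProdArrow ι κ (Fin M)) _
    (fun p : (ι → Fin M) × (κ → Fin M) => trL (pos a p.1) (trL (pos b p.2) f))]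
  · rw [Fintype.sum_prod_type, Finset.smul_sum]
    apply Finset.sum_congr rfl
    intro n _
    rw [map_smul, map_sum]
  · intro n
    rw [← trL_add]
    congr 1
    unfold pos
    rw [Fintype.sum_sum_type]
    rfl

theorem Av_comm (M : ℕ) (a : ι → UnitAddCircle) (b : κ → UnitAddCircle) (f : C(UnitAddCircle, ℂ)) :
    Av M a (Av M b f) = Av M b (Av M a f) := by
  rw [Av_apply M b, Av_apply M b, map_smul, map_sum]
  congr 1
  apply Finset.sum_congr rfl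
  intro n _
  rw [Av_trL]

theorem Av_diff (M : ℕ) (hM : 1 ≤ M) (x : UnitAddCircle) (f : C(UnitAddCircle, ℂ)) :
    ‖Av M (fun _ : Fin 1 => x) (f - trL x f)‖ ≤ 2 * ‖f‖ / M := by
  rw [Av_apply, norm_smul, norm_pref, Fintype.card_fin, pow_one]
  have h1 : ∑ n : Fin 1 → Fin M, trL (pos (fun _ : Fin 1 => x) n) (f - trL x f)
      = f - trL (M • x) f := by
    rw [Fintype.sum_equiv (Equiv.funUnique (Fin 1) (Fin M)) _
      (fun k : Fin M => trL ((k : ℕ) • x) (f - trL x f))]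
    · rw [Fin.sum_univ_eq_sum_range (fun k : ℕ => trL (k • x) (f - trL x f)) M]
      have : ∀ k ∈ Finset.range M, trL (k • x) (f - trL x f) = trL (k • x) f
          - trL ((k + 1) • x) f := by
        intro k _
        rw [map_sub, ← trL_add, succ_nsmul]
      rw [Finset.sum_congr rfl this, Finset.sum_range_sub']
      rw [zero_smul, trL_zero]
    · intro n
      congr 2
      simp [pos]
  rw [h1]
  have h2 : ‖f - trL (M • x) f‖ ≤ 2 * ‖f‖ := by
    calc ‖f - trL (M • x) f‖ ≤ ‖f‖ + ‖trL (M • x) f‖ := norm_sub_le _ _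
      _ ≤ ‖f‖ + ‖f‖ := by gcongr; exact trL_norm _ _
      _ = 2 * ‖f‖ := by ring
  have hM' : (0 : ℝ) < M := by exact_mod_cast hM
  rw [inv_mul_eq_div]
  gcongr

/-- averaged decay -/
def Dec (f : C(UnitAddCircle, ℂ)) (N : ℕ) (C : ℝ) : Prop :=
  ∃ a : Fin N → UnitAddCircle, ∀ M : ℕ, 1 ≤ M → ‖Av M a f‖ ≤ C / M

theorem dec_closed (N : ℕ) (C : ℝ) : IsClosed {f : C(UnitAddCircle, ℂ) | Dec f N C} := by
  have h : {f : C(UnitAddCircle, ℂ) | Dec f N C}
      = Prod.snd '' {p : (Fin N → UnitAddCircle) × C(UnitAddCircle, ℂ) |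
        ∀ M : ℕ, 1 ≤ M → ‖Av M p.1 p.2‖ ≤ C / M} := by
    ext f
    constructor
    · rintro ⟨a, ha⟩
      exact ⟨(a, f), ha, rfl⟩
    · rintro ⟨⟨a, g⟩, ha, rfl⟩
      exact ⟨a, ha⟩
  rw [h]
  apply isClosedMap_snd_of_compactSpace
  have : {p : (Fin N → UnitAddCircle) × C(UnitAddCircle, ℂ) |
        ∀ M : ℕ, 1 ≤ M → ‖Av M p.1 p.2‖ ≤ C / M} = ⋂ M : ℕ, ⋂ _ : 1 ≤ M,
        {p : (Fin N → UnitAddCircle) × C(UnitAddCircle, ℂ) | ‖Av M p.1 p.2‖ ≤ C / M} := by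
    ext p; simp
  rw [this]
  refine isClosed_iInter (fun M => isClosed_iInter (fun _ => ?_))
  exact isClosed_le (Av_cont M).norm continuous_const

theorem dec_add {f g : C(UnitAddCircle, ℂ)} {N N' : ℕ} {C C' : ℝ} (hf : Dec f N C)
    (hg : Dec g N' C') : Dec (f + g) (N + N') (C + C') := by
  obtain ⟨a, ha⟩ := hf
  obtain ⟨b, hb⟩ := hg
  refine ⟨Sum.elim a b ∘ finSumFinEquiv.symm, fun M hM => ?_⟩
  rw [Av_reindex, map_add, add_div]
  refine (norm_add_le _ _).trans (add_le_add ?_ ?_)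
  · rw [Av_sum, Av_comm]
    exact (Av_norm _ _ _).trans (ha M hM)
  · rw [Av_sum]
    exact (Av_norm _ _ _).trans (hb M hM)

theorem dec_smul {f : C(UnitAddCircle, ℂ)} {N : ℕ} {C : ℝ} (c : ℂ) (hf : Dec f N C) :
    Dec (c • f) N (‖c‖ * C) := by
  obtain ⟨a, ha⟩ := hf
  refine ⟨a, fun M hM => ?_⟩
  rw [map_smul, norm_smul, mul_div_assoc]
  exact mul_le_mul_of_nonneg_left (ha M hM) (norm_nonneg _)

theorem dec_zero : Dec 0 0 0 := ⟨fun _ => 0, fun M _ => by simp⟩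


/-! ### continuous invariant forms vanish on mean zero functions -/

theorem av_fourier (k : ℤ) : ∃ n0 : ℕ, ∀ n : ℕ, n0 ≤ n →
    Av n (fun _ : Fin 1 => ((1 / n : ℝ) : UnitAddCircle)) (fourier k : C(UnitAddCircle, ℂ))
      = fcL 0 (fourier k : C(UnitAddCircle, ℂ)) • (fourier 0 : C(UnitAddCircle, ℂ)) := by
  refine ⟨k.natAbs + 1, fun n hn => ?_⟩
  have hn0 : 0 < n := by omega
  have hnC : (n : ℂ) ≠ 0 := by exact_mod_cast hn0.ne'
  have hnR : (n : ℝ) ≠ 0 := by exact_mod_cast hn0.ne'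
  rw [Av_apply, Fintype.card_fin, pow_one]
  have h1 : ∑ m : Fin 1 → Fin n, trL (pos (fun _ : Fin 1 => ((1 / n : ℝ) : UnitAddCircle)) m)
      (fourier k : C(UnitAddCircle, ℂ))
      = (∑ j ∈ Finset.range n, (fourier (-k) ((1 / n : ℝ) : UnitAddCircle) : ℂ) ^ j) •
        (fourier k : C(UnitAddCircle, ℂ)) := by
    rw [Fintype.sum_equiv (Equiv.funUnique (Fin 1) (Fin n)) _
      (fun j : Fin n => trL ((j : ℕ) • ((1 / n : ℝ) : UnitAddCircle))
        (fourier k : C(UnitAddCircle, ℂ)))]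
    · rw [Fin.sum_univ_eq_sum_range (fun j : ℕ => trL (j • ((1 / n : ℝ) : UnitAddCircle))
        (fourier k : C(UnitAddCircle, ℂ))) n]
      ext t
      rw [ContinuousMap.coe_sum, Finset.sum_apply]
      show _ = (∑ j ∈ Finset.range n, (fourier (-k) ((1 / n : ℝ) : UnitAddCircle) : ℂ) ^ j)
        * (fourier k : C(UnitAddCircle, ℂ)) t
      rw [Finset.sum_mul]
      apply Finset.sum_congr rfl
      intro j _
      rw [trL_fourier]
      show (fourier (-k) (j • ((1 / n : ℝ) : UnitAddCircle)) : ℂ)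
        * (fourier k : C(UnitAddCircle, ℂ)) t = _
      congr 1
      rw [fourier_apply, fourier_apply, smul_comm, AddCircle.toCircle_nsmul]
      simp
    · intro m
      congr 2
      simp [pos]
  rw [h1, fcL_apply, fourierCoeff_fourier]
  set z : ℂ := (fourier (-k) ((1 / n : ℝ) : UnitAddCircle) : ℂ) with hz
  have hzn : z ^ n = 1 := by
    rw [hz, fourier_apply, ← Circle.coe_pow, ← AddCircle.toCircle_nsmul, smul_comm]
    have : n • ((1 / n : ℝ) : UnitAddCircle) = 0 := by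
      rw [← AddCircle.coe_nsmul, nsmul_eq_mul, mul_one_div_cancel hnR]
      exact AddCircle.coe_period 1
    rw [this, smul_zero, AddCircle.toCircle_zero]
    rfl
  by_cases hk : k = 0
  · subst hk
    have hz1 : z = 1 := by rw [hz]; simp
    rw [hz1]
    simp only [one_pow, Finset.sum_const, Finset.card_range, nsmul_eq_mul, mul_one]
    rw [smul_smul, inv_mul_cancel₀ hnC]
    simp
  · have hz1 : z ≠ 1 := by
      intro h
      rw [hz, fourier_apply] at h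
      have h2 : toCircle ((-k) • ((1 / n : ℝ) : UnitAddCircle))
          = toCircle (0 : UnitAddCircle) := by
        rw [AddCircle.toCircle_zero]
        exact Circle.ext h
      have h3 := AddCircle.injective_toCircle one_ne_zero h2
      rw [← AddCircle.coe_zsmul, AddCircle.coe_eq_zero_iff] at h3
      obtain ⟨m, hm⟩ := h3
      simp only [zsmul_eq_mul, mul_one] at hm
      have hm2 : (m : ℝ) * n = -k := by
        rw [hm]; push_cast; field_simp
      have hm3 : m * (n : ℤ) = -k := by exact_mod_cast hm2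
      have hdvd : (n : ℤ) ∣ k := ⟨-m, by linarith⟩
      have := Int.natAbs_dvd_natAbs.mpr hdvd
      rw [Int.natAbs_natCast] at this
      have hpos : 0 < k.natAbs := Int.natAbs_pos.mpr hk
      have := Nat.le_of_dvd hpos this
      omega
    have hg : ∑ j ∈ Finset.range n, z ^ j = 0 := by
      rw [geom_sum_eq hz1, hzn, sub_self, zero_div]
    rw [hg, Pi.single_eq_of_ne (Ne.symm hk)]
    ext t
    simp

theorem av_poly (p : C(UnitAddCircle, ℂ)) (hp : p ∈ Submodule.span ℂ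
    (Set.range (fun k : ℤ => (fourier k : C(UnitAddCircle, ℂ))))) : ∃ n0 : ℕ, ∀ n : ℕ, n0 ≤ n →
    Av n (fun _ : Fin 1 => ((1 / n : ℝ) : UnitAddCircle)) p
      = fcL 0 p • (fourier 0 : C(UnitAddCircle, ℂ)) := by
  induction hp using Submodule.span_induction with
  | mem x h =>
    obtain ⟨k, rfl⟩ := h
    exact av_fourier k
  | zero =>
    refine ⟨0, fun n _ => ?_⟩
    rw [map_zero, map_zero]
    ext t; simp
  | add x y _ _ hx hy =>
    obtain ⟨n1, h1⟩ := hx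
    obtain ⟨n2, h2⟩ := hy
    refine ⟨max n1 n2, fun n hn => ?_⟩
    rw [map_add, map_add, h1 n (le_trans (le_max_left _ _) hn),
      h2 n (le_trans (le_max_right _ _) hn)]
    ext t; simp
  | smul c x _ hx =>
    obtain ⟨n1, h1⟩ := hx
    refine ⟨n1, fun n hn => ?_⟩
    rw [map_smul, map_smul, h1 n hn]
    ext t; simp

theorem poly_dense (f : C(UnitAddCircle, ℂ)) (ε : ℝ) (hε : 0 < ε) :
    ∃ p ∈ Submodule.span ℂ (Set.range (fun k : ℤ => (fourier k : C(UnitAddCircle, ℂ)))),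
      ‖f - p‖ < ε := by
  have h := span_fourier_closure_eq_top (T := (1 : ℝ))
  have hf : f ∈ (Submodule.span ℂ (Set.range (@fourier (1 : ℝ)))).topologicalClosure := by
    rw [h]; trivial
  have hf2 : f ∈ closure ((Submodule.span ℂ (Set.range (@fourier (1 : ℝ))) :
      Submodule ℂ C(UnitAddCircle, ℂ)) : Set C(UnitAddCircle, ℂ)) := hf
  obtain ⟨p, hp, hfp⟩ := Metric.mem_closure_iff.mp hf2 ε hε
  exact ⟨p, hp, by rwa [dist_eq_norm] at hfp⟩

theorem av_small (f : C(UnitAddCircle, ℂ)) (hf : fourierCoeff f 0 = 0) (ε : ℝ) (hε : 0 < ε) :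
    ∃ n : ℕ, 1 ≤ n ∧ ‖Av n (fun _ : Fin 1 => ((1 / n : ℝ) : UnitAddCircle)) f‖ ≤ ε := by
  obtain ⟨p, hp, hfp⟩ := poly_dense f (ε / 2) (by linarith)
  obtain ⟨n0, hn0⟩ := av_poly p hp
  refine ⟨n0 + 1, by omega, ?_⟩
  have h1 := hn0 (n0 + 1) (by omega)
  have h2 : fcL 0 p = - fcL 0 (f - p) := by
    rw [map_sub, fcL_apply 0 f, hf]; ring
  have h3 : ‖fcL 0 (f - p)‖ ≤ ‖f - p‖ := by
    have hle : ‖(fcL 0 : C(UnitAddCircle, ℂ) →L[ℂ] ℂ)‖ ≤ 1 :=
      LinearMap.mkContinuous_norm_le _ zero_le_one _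
    calc ‖fcL 0 (f - p)‖ ≤ ‖(fcL 0 : C(UnitAddCircle, ℂ) →L[ℂ] ℂ)‖ * ‖f - p‖ :=
          ContinuousLinearMap.le_opNorm _ _
      _ ≤ 1 * ‖f - p‖ := by gcongr
      _ = _ := one_mul _
  have h4 : ‖(fourier 0 : C(UnitAddCircle, ℂ))‖ ≤ 1 := by
    rw [ContinuousMap.norm_le _ zero_le_one]
    intro t; simp
  set A := Av (n0 + 1) (fun _ : Fin 1 => ((1 / ((n0 + 1 : ℕ) : ℝ) : ℝ) : UnitAddCircle)) with hA
  have h5 : A f = A (f - p) + A p := by rw [map_sub]; abel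
  rw [h5, h1, h2]
  calc ‖A (f - p) + (-(fcL 0 (f - p))) • (fourier 0 : C(UnitAddCircle, ℂ))‖
      ≤ ‖A (f - p)‖ + ‖(-(fcL 0 (f - p))) • (fourier 0 : C(UnitAddCircle, ℂ))‖ := norm_add_le _ _
    _ ≤ ‖f - p‖ + ‖f - p‖ * 1 := by
        rw [norm_smul, norm_neg]
        gcongr
        exact Av_norm _ _ _
    _ ≤ ε := by linarith

theorem form_vanish (E : Set ℤ) (Φ : CE E →ₗ[ℂ] ℂ) (hΦc : Continuous Φ)
    (hΦ : ∀ (f g : CE E) (a : UnitAddCircle),
      (∀ t, (g : C(UnitAddCircle, ℂ)) t = (f : C(UnitAddCircle, ℂ)) (t - a)) → Φ g = Φ f)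
    (f : CE E) (hf : fourierCoeff (f : C(UnitAddCircle, ℂ)) 0 = 0) : Φ f = 0 := by
  by_contra hne
  have hpos : 0 < ‖Φ f‖ := norm_pos_iff.mpr hne
  obtain ⟨δ, hδ, hδ2⟩ := Metric.continuous_iff.mp hΦc 0 ‖Φ f‖ hpos
  obtain ⟨n, hn, hsm⟩ := av_small f hf (δ / 2) (by positivity)
  have hnC : (n : ℂ) ≠ 0 := by exact_mod_cast (by omega : n ≠ 0)
  let x : UnitAddCircle := ((1 / n : ℝ) : UnitAddCircle)
  let tr : (Fin 1 → Fin n) → CE E := fun m => ⟨trL (pos (fun _ => x) m) f, trL_mem f.2 _⟩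
  let g : CE E := ((n : ℂ)⁻¹) • ∑ m : Fin 1 → Fin n, tr m
  have hg : (g : C(UnitAddCircle, ℂ)) = Av n (fun _ : Fin 1 => x) f := by
    rw [Av_apply, Fintype.card_fin, pow_one]
    simp [g, tr]
  have hg2 : Φ g = Φ f := by
    have : ∀ m, Φ (tr m) = Φ f := fun m => hΦ f (tr m) _ (fun t => rfl)
    simp only [g, map_smul, map_sum, this]
    simp [hnC]
  have h3 : dist (Φ g) (Φ 0) < ‖Φ f‖ := by
    apply hδ2
    show dist (g : C(UnitAddCircle, ℂ)) 0 < δ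
    rw [dist_zero_right, hg]
    linarith
  rw [hg2, map_zero, dist_zero_right] at h3
  exact lt_irrefl _ h3

theorem dual_sep {W : Type*} [AddCommGroup W] [Module ℂ W] (S : Set W) (x : W)
    (h : ∀ Φ : W →ₗ[ℂ] ℂ, (∀ s ∈ S, Φ s = 0) → Φ x = 0) : x ∈ Submodule.span ℂ S := by
  by_contra hnot
  obtain ⟨Φ, hΦ1, hΦ2⟩ := Submodule.exists_le_ker_of_notMem hnot
  exact hΦ1 (h Φ (fun s hs => hΦ2 (Submodule.subset_span hs)))

theorem ac_dec (E : Set ℤ) (hE : AutomaticContinuity E) (f : C(UnitAddCircle, ℂ))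
    (hf : f ∈ CE (E \ {0})) : ∃ N C, Dec f N C := by
  classical
  have hfE : f ∈ CE E := CE_mono Set.sdiff_subset hf
  have hf0 : fourierCoeff f 0 = 0 := hf 0 (by simp)
  let S : Set C(UnitAddCircle, ℂ) := {u | ∃ (g : C(UnitAddCircle, ℂ)) (a : UnitAddCircle),
    g ∈ CE E ∧ u = g - trL a g}
  have hmem : f ∈ Submodule.span ℂ S := by
    refine dual_sep S f (fun Φ' hΦ' => ?_)
    let Φ : CE E →ₗ[ℂ] ℂ := Φ'.comp (CE E).subtype
    have hinv : ∀ (u v : CE E) (a : UnitAddCircle),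
        (∀ t, (v : C(UnitAddCircle, ℂ)) t = (u : C(UnitAddCircle, ℂ)) (t - a)) → Φ v = Φ u := by
      intro u v a huv
      have hv : (v : C(UnitAddCircle, ℂ)) = trL a u := by ext t; exact huv t
      have h1 : (u : C(UnitAddCircle, ℂ)) - v ∈ S := ⟨u, a, u.2, by rw [hv]⟩
      have h2 := hΦ' _ h1
      rw [map_sub] at h2
      exact (sub_eq_zero.mp h2).symm
    exact form_vanish E Φ (hE Φ hinv) hinv ⟨f, hfE⟩ hf0
  have key : ∀ u ∈ Submodule.span ℂ S, ∃ N C, Dec u N C := by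
    intro u hu
    induction hu using Submodule.span_induction with
    | mem x h =>
      obtain ⟨g, a, hg, rfl⟩ := h
      exact ⟨1, 2 * ‖g‖, fun _ => a, fun M hM => Av_diff M hM a _⟩
    | zero => exact ⟨0, 0, dec_zero⟩
    | add x y _ _ hx hy =>
      obtain ⟨N1, C1, h1⟩ := hx
      obtain ⟨N2, C2, h2⟩ := hy
      exact ⟨N1 + N2, C1 + C2, dec_add h1 h2⟩
    | smul c x _ hx =>
      obtain ⟨N1, C1, h1⟩ := hx
      exact ⟨N1, ‖c‖ * C1, dec_smul c h1⟩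
  exact key _ hmem

theorem dec_mono {f : C(UnitAddCircle, ℂ)} {N : ℕ} {C C' : ℝ} (h : C ≤ C') (hf : Dec f N C) :
    Dec f N C' := by
  obtain ⟨a, ha⟩ := hf
  refine ⟨a, fun M hM => (ha M hM).trans ?_⟩
  gcongr

theorem CE_closed (E : Set ℤ) : IsClosed ((CE E : Submodule ℂ C(UnitAddCircle, ℂ)) :
    Set C(UnitAddCircle, ℂ)) := by
  have : ((CE E : Submodule ℂ C(UnitAddCircle, ℂ)) : Set C(UnitAddCircle, ℂ))
      = ⋂ k : ℤ, ⋂ _ : k ∉ E, {f : C(UnitAddCircle, ℂ) | fcL k f = 0} := by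
    ext f
    simp only [Set.mem_iInter]
    rfl
  rw [this]
  refine isClosed_iInter (fun k => isClosed_iInter (fun _ => ?_))
  exact isClosed_eq (fcL k).continuous continuous_const

/-- uniform decay by Baire category -/
theorem ac_uniform (E : Set ℤ) (hE : AutomaticContinuity E) :
    ∃ (N : ℕ) (C : ℝ), 0 < C ∧ ∀ h ∈ CE (E \ {0}), ∃ a : Fin N → UnitAddCircle,
      ∀ M : ℕ, 1 ≤ M → ‖Av M a h‖ ≤ C * ‖h‖ / M := by
  set X := CE (E \ {0}) with hX
  have hXc : CompleteSpace X := (CE_closed (E \ {0})).completeSpace_coe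
  let F : ℕ × ℕ → Set X := fun p => {f : X | Dec (f : C(UnitAddCircle, ℂ)) p.1 (p.2 : ℝ)}
  have hFc : ∀ p, IsClosed (F p) := fun p =>
    (dec_closed p.1 (p.2 : ℝ)).preimage continuous_subtype_val
  have hFU : ⋃ p, F p = Set.univ := by
    rw [Set.eq_univ_iff_forall]
    intro f
    obtain ⟨N, C, h⟩ := ac_dec E hE f f.2
    refine Set.mem_iUnion.mpr ⟨(N, ⌈C⌉₊), ?_⟩
    exact dec_mono (Nat.le_ceil C) h
  obtain ⟨⟨N, C⟩, f0, hf0⟩ := nonempty_interior_of_iUnion_of_closed hFc hFU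
  rw [mem_interior_iff_mem_nhds, Metric.mem_nhds_iff] at hf0
  obtain ⟨ρ, hρ, hball⟩ := hf0
  have hf0' : Dec (f0 : C(UnitAddCircle, ℂ)) N (C : ℝ) := hball (Metric.mem_ball_self hρ)
  have hC0 : (0 : ℝ) ≤ C := Nat.cast_nonneg C
  refine ⟨N + N, (C + C) * (2 / ρ) + 1, by positivity, fun h hh => ?_⟩
  by_cases h0 : h = 0
  · subst h0
    exact ⟨fun _ => 0, fun M _ => by simp⟩
  have hn : 0 < ‖h‖ := norm_pos_iff.mpr h0
  set c : ℝ := ρ / (2 * ‖h‖) with hc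
  have hc0 : 0 < c := by positivity
  let f1 : X := f0 + ((c : ℝ) : ℂ) • (⟨h, hh⟩ : X)
  have hf1 : Dec (f1 : C(UnitAddCircle, ℂ)) N (C : ℝ) := by
    apply hball
    rw [Metric.mem_ball]
    show dist ((f0 : C(UnitAddCircle, ℂ)) + ((c : ℝ) : ℂ) • h) (f0 : C(UnitAddCircle, ℂ)) < ρ
    rw [dist_eq_norm, add_sub_cancel_left, norm_smul, Complex.norm_real, Real.norm_eq_abs,
      abs_of_pos hc0, hc]
    have : ρ / (2 * ‖h‖) * ‖h‖ = ρ / 2 := by field_simp
    rw [this]; linarith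
  have hd := dec_smul (((c : ℝ) : ℂ)⁻¹) (dec_add hf1 (dec_smul (-1) hf0'))
  have he : (((c : ℝ) : ℂ)⁻¹) • ((f1 : C(UnitAddCircle, ℂ)) + (-1 : ℂ) • (f0 : C(UnitAddCircle, ℂ)))
      = h := by
    have : (f1 : C(UnitAddCircle, ℂ)) = (f0 : C(UnitAddCircle, ℂ)) + ((c : ℝ) : ℂ) • h := rfl
    rw [this]
    have hcC : ((c : ℝ) : ℂ) ≠ 0 := by exact_mod_cast hc0.ne'
    ext t
    simp only [ContinuousMap.coe_smul, ContinuousMap.coe_add, Pi.smul_apply, Pi.add_apply,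
      smul_eq_mul]
    field_simp
    ring
  rw [he] at hd
  obtain ⟨a, ha⟩ := hd
  refine ⟨a, fun M hM => (ha M hM).trans ?_⟩
  have hM' : (0 : ℝ) < M := by exact_mod_cast hM
  refine div_le_div_of_nonneg_right ?_ hM'.le
  have e1 : ‖(((c : ℝ) : ℂ)⁻¹)‖ = c⁻¹ := by
    rw [norm_inv, Complex.norm_real, Real.norm_eq_abs, abs_of_pos hc0]
  have e2 : ‖(-1 : ℂ)‖ = 1 := by norm_num
  rw [e1, e2, one_mul, hc, inv_div]
  have e3 : 2 * ‖h‖ / ρ * ((C : ℝ) + C) = (C + C) * (2 / ρ) * ‖h‖ := by field_simp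
  rw [e3]
  have : (0 : ℝ) ≤ ‖h‖ := norm_nonneg h
  nlinarith

end Pool.Agent.H183R3.TilfA
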