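import Mathlib
import Pool.Agent.H183R3.TilfA

open scoped Real
open Complex AddCircle
open Pool.Agent.Results.MP_eb9c50_an.SidonNearZero
open Pool.Agent.H183R3.TilfA

namespace Pool.Agent.H183R3.TilfB

/-- nested intervals: phases at lacunary frequencies can be prescribed -/
theorem lacunary (Q : ℕ) (hQ : 1 ≤ Q) (θ : ℕ → ℝ) (s : ℝ) (C : ℕ) :
    ∃ s' : ℝ, s ≤ s' ∧ s' + 1 / (100 * (Q * 101 ^ C)) ≤ s + 1 / (100 * Q) ∧
      ∀ t : ℝ, s' ≤ t → t ≤ s' + 1 / (100 * (Q * 101 ^ C)) → ∀ c < C, ∃ k : ℤ,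
        |Q * 101 ^ (c + 1) * t - θ c - k| ≤ 1 / 100 := by
  have hQ0 : (0 : ℝ) < Q := by exact_mod_cast hQ
  induction C with
  | zero => exact ⟨s, le_refl _, by simp, fun t _ _ c hc => absurd hc (Nat.not_lt_zero c)⟩
  | succ C ih =>
    obtain ⟨s1, h1, h2, h3⟩ := ih
    set n : ℝ := Q * 101 ^ (C + 1) with hn
    have hn0 : 0 < n := by positivity
    set z : ℤ := ⌈n * s1 - θ C⌉ with hz
    have hz1 : n * s1 - θ C ≤ z := Int.le_ceil _
    have hz2 : (z : ℝ) < n * s1 - θ C + 1 := Int.ceil_lt_add_one _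
    have hlen : 1 / (100 * ((Q : ℝ) * 101 ^ C)) = 1 / n + 1 / (100 * n) := by
      rw [hn, pow_succ]; field_simp; norm_num
    have ha : s1 ≤ (z + θ C) / n := by
      rw [le_div_iff₀ hn0]; nlinarith
    have hb : (z + θ C) / n ≤ s1 + 1 / n := by
      rw [div_le_iff₀ hn0]
      have : (s1 + 1 / n) * n = s1 * n + 1 := by field_simp
      rw [this]; nlinarith
    refine ⟨(z + θ C) / n, h1.trans ha, ?_, fun t ht1 ht2 c hc => ?_⟩
    · rw [hlen] at h2
      linarith
    · rcases Nat.lt_succ_iff_lt_or_eq.mp hc with hc' | hc'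
      · apply h3 t (ha.trans ht1) ?_ c hc'
        rw [hlen]; linarith
      · subst hc'
        refine ⟨z, ?_⟩
        rw [← hn]
        have e1 : z + θ c ≤ n * t := by
          have := (div_le_iff₀ hn0).mp ht1
          linarith
        have e2 : n * t ≤ z + θ c + 1 / 100 := by
          have : t * n ≤ ((z + θ c) / n + 1 / (100 * n)) * n := by gcongr
          have e3 : ((z + θ c) / n + 1 / (100 * n)) * n = z + θ c + 1 / 100 := by
            field_simp
          rw [e3] at this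
          linarith
        rw [abs_le]; constructor <;> linarith

/-- choice of a starting point far from the cell boundaries -/
theorem start_point (L : ℕ) (hL : 1 ≤ L) {Λ : Type} [Fintype Λ] (hΛ : Fintype.card Λ ≤ L)
    (r : Λ → ℝ) : ∃ y : ℝ, ∀ l, 1 / (8 * L : ℝ) ≤ Int.fract (y - r l) ∧
      Int.fract (y - r l) ≤ 1 - 2 / (8 * L : ℝ) := by
  have hL0 : (0 : ℝ) < L := by exact_mod_cast hL
  by_contra hcon
  push Not at hcon
  choose l hl using (fun j : Fin (L + 1) => hcon ((j : ℕ) / (2 * L : ℝ)))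
  obtain ⟨i, j, hij, hlij⟩ := Fintype.exists_ne_map_eq_of_card_lt l (by simp; omega)
  have key : ∀ k : Fin (L + 1), ∃ z : ℤ,
      -(2 / (8 * L : ℝ)) < (k : ℕ) / (2 * L : ℝ) - r (l k) - z ∧
      (k : ℕ) / (2 * L : ℝ) - r (l k) - z < 1 / (8 * L : ℝ) := by
    intro k
    set u := (k : ℕ) / (2 * L : ℝ) - r (l k) with hu
    have h0 := Int.fract_nonneg u
    have h1 := Int.fract_lt_one u
    have h2 : Int.fract u = u - ⌊u⌋ := rfl
    have hq : (0 : ℝ) < 1 / (8 * L : ℝ) := by positivity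
    have hq2 : (2 : ℝ) / (8 * L : ℝ) = 2 * (1 / (8 * L : ℝ)) := by ring
    by_cases hc : 1 / (8 * L : ℝ) ≤ Int.fract u
    · have h3 := hl k hc
      refine ⟨⌊u⌋ + 1, ?_, ?_⟩
      · push_cast; linarith
      · push_cast; linarith
    · push Not at hc
      refine ⟨⌊u⌋, ?_, ?_⟩
      · rw [← h2, hq2]; linarith
      · rw [← h2]; exact hc
  obtain ⟨z1, a1, b1⟩ := key i
  obtain ⟨z2, a2, b2⟩ := key j
  rw [hlij] at a1 b1
  have hd : |(i : ℕ) / (2 * L : ℝ) - (j : ℕ) / (2 * L : ℝ) - ((z1 - z2 : ℤ) : ℝ)| < 3 / (8 * L) := by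
    have e3 : (3 : ℝ) / (8 * L) = 2 / (8 * L) + 1 / (8 * L) := by ring
    rw [abs_lt, e3]; push_cast
    constructor <;> linarith
  have hd2 : |(((i : ℕ) : ℤ) - ((j : ℕ) : ℤ) - 2 * L * (z1 - z2) : ℤ)| < 1 := by
    have : |((((i : ℕ) : ℤ) - ((j : ℕ) : ℤ) - 2 * L * (z1 - z2) : ℤ) : ℝ)| < 1 := by
      have e : ((((i : ℕ) : ℤ) - ((j : ℕ) : ℤ) - 2 * L * (z1 - z2) : ℤ) : ℝ)
          = 2 * L * ((i : ℕ) / (2 * L : ℝ) - (j : ℕ) / (2 * L : ℝ) - ((z1 - z2 : ℤ) : ℝ)) := by
        push_cast; field_simp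
      rw [e, abs_mul, abs_of_pos (by positivity : (0 : ℝ) < 2 * L)]
      calc 2 * L * |(i : ℕ) / (2 * L : ℝ) - (j : ℕ) / (2 * L : ℝ) - ((z1 - z2 : ℤ) : ℝ)|
          < 2 * L * (3 / (8 * L)) := by gcongr
        _ = 3 / 4 := by field_simp; norm_num
        _ < 1 := by norm_num
    exact_mod_cast this
  have hd3 := Int.abs_lt_one_iff.mp hd2
  have hi := i.2
  have hj := j.2
  have hz : z1 - z2 = 0 := by
    by_contra hne
    have h1 : 1 ≤ |z1 - z2| := Int.one_le_abs hne
    have h2 : |2 * (L : ℤ) * (z1 - z2)| ≤ L := by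
      have : 2 * (L : ℤ) * (z1 - z2) = ((i : ℕ) : ℤ) - ((j : ℕ) : ℤ) := by linarith
      rw [this, abs_le]; constructor <;> omega
    rw [abs_mul, abs_of_pos (by positivity : (0 : ℤ) < 2 * L)] at h2
    have hL' : (1 : ℤ) ≤ L := by exact_mod_cast hL
    nlinarith
  rw [hz, mul_zero, sub_zero] at hd3
  exact hij (Fin.ext (by omega))

theorem norm_coe_le (x : ℝ) : ‖(x : UnitAddCircle)‖ ≤ |x| := by
  rw [UnitAddCircle.norm_eq]
  have := round_le x 0
  simpa using this

/-- distance of phases -/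
theorem phase_dist (x y : ℝ) (k : ℤ) :
    ‖cexp (2 * π * I * x) - cexp (2 * π * I * y)‖ ≤ 2 * π * |x - y - k| := by
  have h1 : cexp (2 * π * I * x) = cexp (2 * π * I * y) * cexp (I * ((2 * π * (x - y - k) : ℝ) : ℂ)) := by
    have h2 : cexp (2 * π * I * k) = 1 := by
      rw [Complex.exp_eq_one_iff]; exact ⟨k, by ring⟩
    calc cexp (2 * π * I * x) = cexp (2 * π * I * y + I * ((2 * π * (x - y - k) : ℝ) : ℂ)
          + 2 * π * I * k) := by congr 1; push_cast; ring
      _ = _ := by rw [Complex.exp_add, h2, mul_one, Complex.exp_add]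
  rw [h1]
  have h3 : cexp (2 * π * I * y) * cexp (I * ((2 * π * (x - y - k) : ℝ) : ℂ)) - cexp (2 * π * I * y)
      = cexp (2 * π * I * y) * (cexp (I * ((2 * π * (x - y - k) : ℝ) : ℂ)) - 1) := by ring
  rw [h3, norm_mul]
  have h4 : ‖cexp (2 * π * I * y)‖ = 1 := by
    have : (2 * π * I * y : ℂ) = ((2 * π * y : ℝ) : ℂ) * I := by push_cast; ring
    rw [this, Complex.norm_exp_ofReal_mul_I]
  rw [h4, one_mul]
  refine Real.norm_exp_I_mul_ofReal_sub_one_le.trans ?_
  rw [Real.norm_eq_abs, abs_mul, abs_of_pos (by positivity : (0 : ℝ) < 2 * π)]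

/-- bump function of the cell c -/
noncomputable def bump (L K : ℕ) (c : ℕ) : C(UnitAddCircle, ℂ) :=
  ⟨fun x => ((max 0 (min 1 ((1 / (2 * K : ℝ) - ‖x - (((c + 1 / 2) / K : ℝ) : UnitAddCircle)‖)
    * (8 * L * K)))  : ℝ) : ℂ), by fun_prop⟩

theorem bump_norm (L K c : ℕ) (x : UnitAddCircle) : ‖bump L K c x‖ ≤ 1 := by
  show ‖((max 0 (min 1 ((1 / (2 * K : ℝ) - ‖x - (((c + 1 / 2) / K : ℝ) : UnitAddCircle)‖)
    * (8 * L * K)))  : ℝ) : ℂ)‖ ≤ 1
  rw [Complex.norm_real, Real.norm_eq_abs, abs_of_nonneg (le_max_left _ _)]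
  exact max_le zero_le_one (min_le_left _ _)

theorem bump_one (L K c : ℕ) (hL : 1 ≤ L) (hK : 1 ≤ K) (x : UnitAddCircle)
    (hx : ‖x - (((c + 1 / 2) / K : ℝ) : UnitAddCircle)‖ ≤ (1 / 2 - 1 / (8 * L)) / K) :
    bump L K c x = 1 := by
  have hL0 : (0 : ℝ) < L := by exact_mod_cast hL
  have hK0 : (0 : ℝ) < K := by exact_mod_cast hK
  show ((max 0 (min 1 ((1 / (2 * K : ℝ) - ‖x - (((c + 1 / 2) / K : ℝ) : UnitAddCircle)‖)
    * (8 * L * K)))  : ℝ) : ℂ) = 1
  have h1 : 1 ≤ (1 / (2 * K : ℝ) - ‖x - (((c + 1 / 2) / K : ℝ) : UnitAddCircle)‖) * (8 * L * K) := by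
    calc (1 : ℝ) = (1 / (2 * K : ℝ) - (1 / 2 - 1 / (8 * L)) / K) * (8 * L * K) := by
          field_simp; ring
      _ ≤ _ := by gcongr
  rw [min_eq_left h1, max_eq_right zero_le_one]
  norm_num

theorem bump_zero (L K c : ℕ) (x : UnitAddCircle)
    (hx : 1 / (2 * K : ℝ) ≤ ‖x - (((c + 1 / 2) / K : ℝ) : UnitAddCircle)‖) :
    bump L K c x = 0 := by
  show ((max 0 (min 1 ((1 / (2 * K : ℝ) - ‖x - (((c + 1 / 2) / K : ℝ) : UnitAddCircle)‖)
    * (8 * L * K)))  : ℝ) : ℂ) = 0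
  have h1 : (1 / (2 * K : ℝ) - ‖x - (((c + 1 / 2) / K : ℝ) : UnitAddCircle)‖) * (8 * L * K) ≤ 0 := by
    apply mul_nonpos_of_nonpos_of_nonneg
    · linarith
    · positivity
  rw [min_eq_right (h1.trans zero_le_one), max_eq_left h1]
  norm_num

/-- two centres of cells are far apart -/
theorem centre_dist (K c c' : ℕ) (hc : c < K) (hc' : c' < K) (hne : c ≠ c') :
    1 / (K : ℝ) ≤ ‖(((c + 1 / 2) / K : ℝ) : UnitAddCircle) - (((c' + 1 / 2) / K : ℝ) : UnitAddCircle)‖ := by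
  have hK0 : (0 : ℝ) < K := by exact_mod_cast (by omega : 0 < K)
  rw [← AddCircle.coe_sub, UnitAddCircle.norm_eq]
  set z := round ((c + 1 / 2) / K - (c' + 1 / 2) / K : ℝ) with hz
  have e : ((c + 1 / 2) / K - (c' + 1 / 2) / K - (z : ℝ) : ℝ) = (((c : ℤ) - c' - z * K : ℤ) : ℝ) / K := by
    push_cast; field_simp; ring
  rw [e, abs_div, abs_of_pos hK0]
  have h1 : (1 : ℤ) ≤ |(c : ℤ) - c' - z * K| := by
    apply Int.one_le_abs
    intro h0
    have h2 : (c : ℤ) - c' = z * K := by linarith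
    rcases lt_trichotomy z 0 with h | h | h
    · nlinarith
    · rw [h, zero_mul] at h2
      apply hne
      omega
    · nlinarith
  have h2 : (1 : ℝ) ≤ |(((c : ℤ) - c' - z * K : ℤ) : ℝ)| := by exact_mod_cast h1
  gcongr

theorem bump_unique (L K c c' : ℕ) (hc : c < K) (hc' : c' < K) (hne : c ≠ c')
    (x : UnitAddCircle) (hx : ‖x - (((c + 1 / 2) / K : ℝ) : UnitAddCircle)‖ < 1 / (2 * K : ℝ)) :
    bump L K c' x = 0 := by
  apply bump_zero
  by_contra h
  push Not at h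
  have h1 := centre_dist K c c' hc hc' hne
  have h2 : ‖(((c + 1 / 2) / K : ℝ) : UnitAddCircle) - (((c' + 1 / 2) / K : ℝ) : UnitAddCircle)‖
      < 1 / K := by
    calc _ = ‖(x - (((c' + 1 / 2) / K : ℝ) : UnitAddCircle))
          - (x - (((c + 1 / 2) / K : ℝ) : UnitAddCircle))‖ := by congr 1; abel
      _ ≤ ‖x - (((c' + 1 / 2) / K : ℝ) : UnitAddCircle)‖
          + ‖x - (((c + 1 / 2) / K : ℝ) : UnitAddCircle)‖ := norm_sub_le _ _
      _ < 1 / (2 * K : ℝ) + 1 / (2 * K : ℝ) := by gcongr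
      _ = 1 / K := by
        rcases Nat.eq_zero_or_pos K with h0 | h0
        · omega
        · field_simp; norm_num
  linarith


/-- a universal function for separated points -/
theorem sep_fun (L K : ℕ) (hL : 1 ≤ L) (hK : 1 ≤ K) : ∃ g : C(UnitAddCircle, ℂ), ‖g‖ ≤ 1 ∧
    ∀ (Λ : Type) [Fintype Λ], Fintype.card Λ ≤ L → ∀ (q : Λ → UnitAddCircle) (w : Λ → ℂ),
      (∀ l, ‖w l‖ = 1) → (∀ l l', l ≠ l' → 1 / (K : ℝ) ≤ ‖q l - q l'‖) →
      ∃ t : UnitAddCircle, ∀ l, ‖g (t - q l) - w l‖ ≤ 1 / 10 := by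
  have hL0 : (0 : ℝ) < L := by exact_mod_cast hL
  have hL1 : (1 : ℝ) ≤ L := by exact_mod_cast hL
  have hK0 : (0 : ℝ) < K := by exact_mod_cast hK
  set Q : ℕ := L * K with hQ
  have hQ1 : 1 ≤ Q := Nat.one_le_iff_ne_zero.mpr (by positivity)
  let fr : ℕ → ℤ := fun c => ((Q * 101 ^ (c + 1) : ℕ) : ℤ)
  let g : C(UnitAddCircle, ℂ) :=
    ∑ c ∈ Finset.range K, bump L K c * (fourier (fr c) : C(UnitAddCircle, ℂ))
  have geval : ∀ x : UnitAddCircle, g x
      = ∑ c ∈ Finset.range K, bump L K c x * (fourier (fr c) x : ℂ) := by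
    intro x
    simp only [g, ContinuousMap.coe_sum, Finset.sum_apply, ContinuousMap.coe_mul, Pi.mul_apply]
  have gcell : ∀ (x : UnitAddCircle) (c : ℕ), c < K →
      ‖x - (((c + 1 / 2) / K : ℝ) : UnitAddCircle)‖ < 1 / (2 * K : ℝ) →
      g x = bump L K c x * (fourier (fr c) x : ℂ) := by
    intro x c hc hx
    rw [geval, Finset.sum_eq_single c]
    · intro c' hc' hne
      rw [bump_unique L K c c' hc (Finset.mem_range.mp hc') (Ne.symm hne) x hx, zero_mul]
    · intro h; exact absurd (Finset.mem_range.mpr hc) h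
  have hfn : ∀ (m : ℤ) (x : UnitAddCircle), ‖(fourier m x : ℂ)‖ = 1 := by
    intro m x; rw [fourier_apply]; exact Circle.norm_coe _
  refine ⟨g, ?_, ?_⟩
  · rw [ContinuousMap.norm_le _ zero_le_one]
    intro x
    by_cases h : ∃ c, c < K ∧ ‖x - (((c + 1 / 2) / K : ℝ) : UnitAddCircle)‖ < 1 / (2 * K : ℝ)
    · obtain ⟨c, hc, hx⟩ := h
      rw [gcell x c hc hx, norm_mul, hfn, mul_one]
      exact bump_norm _ _ _ _
    · push Not at h
      rw [geval, Finset.sum_eq_zero, norm_zero]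
      · exact zero_le_one
      · intro c hc
        rw [bump_zero L K c x (h c (Finset.mem_range.mp hc)), zero_mul]
  · intro Λ _ hΛ q w hw hq
    -- real lifts
    have hr : ∀ l, ∃ r : ℝ, (r : UnitAddCircle) = q l := fun l =>
      QuotientAddGroup.mk_surjective (q l)
    choose r hr using hr
    have hφ : ∀ l, ∃ φ : ℝ, cexp (2 * π * I * φ) = w l := by
      intro l
      refine ⟨(w l).arg / (2 * π), ?_⟩
      have h1 := Complex.norm_mul_exp_arg_mul_I (w l)
      rw [hw l] at h1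
      have hpi : (π : ℂ) ≠ 0 := by exact_mod_cast Real.pi_ne_zero
      have h2 : cexp (2 * π * I * (((w l).arg / (2 * π) : ℝ) : ℂ)) = cexp ((w l).arg * I) := by
        congr 1
        push_cast
        field_simp
      rw [h2]
      simpa using h1
    choose φ hφ using hφ
    obtain ⟨y, hy⟩ := start_point L hL hΛ (fun l => K * r l)
    set t0 : ℝ := y / K with ht0
    -- cells
    let z : Λ → ℤ := fun l => ⌊y - K * r l⌋
    let c : Λ → ℕ := fun l => (z l % K).toNat
    have hKz : (K : ℤ) ≠ 0 := by exact_mod_cast (by omega : K ≠ 0)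
    have hcz : ∀ l, ((c l : ℕ) : ℤ) = z l % K := fun l =>
      Int.toNat_of_nonneg (Int.emod_nonneg _ hKz)
    have hcK : ∀ l, c l < K := by
      intro l
      have h1 := Int.emod_lt_of_pos (z l) (by exact_mod_cast hK : (0 : ℤ) < K)
      rw [← hcz] at h1
      exact_mod_cast h1
    have hcell : ∀ (l : Λ) (t : ℝ), t0 ≤ t → t ≤ t0 + 1 / (8 * L * K) →
        ‖((t : ℝ) : UnitAddCircle) - q l - (((c l + 1 / 2) / K : ℝ) : UnitAddCircle)‖
          ≤ (1 / 2 - 1 / (8 * L)) / K := by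
      intro l t ht1 ht2
      have hmid : (((c l + 1 / 2) / K : ℝ) : UnitAddCircle)
          = (((z l + 1 / 2) / K : ℝ) : UnitAddCircle) := by
        have h1 : (z l : ℝ) = c l + K * (z l / K : ℤ) := by
          have := Int.emod_add_mul_ediv (z l) K
          rw [← hcz] at this
          exact_mod_cast this.symm
        have h2 : ((z l + 1 / 2) / K : ℝ) = (c l + 1 / 2) / K + ((z l / K : ℤ) : ℝ) := by
          rw [h1]; field_simp; ring
        rw [h2, AddCircle.coe_add]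
        have h3 : ((((z l / K : ℤ) : ℝ)) : UnitAddCircle) = 0 := by
          have h := AddCircle.coe_eq_zero_iff (1 : ℝ) (x := ((z l / K : ℤ) : ℝ))
          rw [h]; exact ⟨z l / K, by simp⟩
        rw [h3, add_zero]
      rw [hmid, ← hr l, ← AddCircle.coe_sub, ← AddCircle.coe_sub]
      refine (norm_coe_le _).trans ?_
      obtain ⟨hy1, hy2⟩ := hy l
      have hfr : Int.fract (y - K * r l) = y - K * r l - z l := rfl
      rw [hfr] at hy1 hy2
      have hy0 : y = K * t0 := by rw [ht0]; field_simp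
      have e1 : t - r l - (z l + 1 / 2) / K = (K * t - K * r l - z l - 1 / 2) / K := by
        field_simp
        ring
      rw [e1, abs_div, abs_of_pos hK0]
      gcongr
      have e2 : K * t0 ≤ K * t := by gcongr
      have e3 : K * t ≤ K * t0 + 1 / (8 * L) := by
        calc K * t ≤ K * (t0 + 1 / (8 * L * K)) := by gcongr
          _ = K * t0 + 1 / (8 * L) := by field_simp
      have e4 : (2 : ℝ) / (8 * L) = 1 / (8 * L) + 1 / (8 * L) := by ring
      rw [abs_le]
      constructor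
      · linarith
      · linarith
    have hcinj : Function.Injective c := by
      intro l l' hll
      by_contra hne
      have h1 := hq l l' hne
      have h2 := hcell l t0 le_rfl (by have : (0 : ℝ) < 1 / (8 * L * K) := by positivity
                                       linarith)
      have h3 := hcell l' t0 le_rfl (by have : (0 : ℝ) < 1 / (8 * L * K) := by positivity
                                        linarith)
      rw [← hll] at h3
      have h4 : ‖q l - q l'‖ ≤ (1 / 2 - 1 / (8 * L)) / K + (1 / 2 - 1 / (8 * L)) / K := by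
        calc ‖q l - q l'‖ = ‖((t0 : ℝ) : UnitAddCircle) - q l' - (((c l + 1 / 2) / K : ℝ) : UnitAddCircle)
            - (((t0 : ℝ) : UnitAddCircle) - q l - (((c l + 1 / 2) / K : ℝ) : UnitAddCircle))‖ := by
              congr 1; abel
          _ ≤ _ := (norm_sub_le _ _).trans (add_le_add h3 h2)
      have h5 : (1 / 2 - 1 / (8 * L : ℝ)) / K + (1 / 2 - 1 / (8 * L)) / K < 1 / K := by
        rw [← add_div]
        gcongr
        have : 0 < 1 / (8 * L : ℝ) := by positivity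
        linarith
      linarith
    obtain ⟨s, hs1, hs2, hs3⟩ := lacunary Q hQ1
      (Function.extend c (fun l => Q * 101 ^ (c l + 1) * r l + φ l) (fun _ => 0)) t0 K
    have hlen : (0 : ℝ) < 1 / (100 * (Q * 101 ^ K)) := by positivity
    refine ⟨(s : UnitAddCircle), fun l => ?_⟩
    have hsl : s ≤ t0 + 1 / (8 * L * K) := by
      have h1 : (1 : ℝ) / (100 * Q) ≤ 1 / (8 * L * K) := by
        rw [hQ]; push_cast
        apply one_div_le_one_div_of_le (by positivity)
        have : (0 : ℝ) < L * K := by positivity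
        nlinarith
      linarith
    have hc1 := hcell l s hs1 hsl
    have hlt : (1 / 2 - 1 / (8 * L : ℝ)) / K < 1 / (2 * K) := by
      have e : (1 : ℝ) / (2 * K) = (1 / 2) / K := by field_simp
      rw [e]
      gcongr
      have : 0 < 1 / (8 * L : ℝ) := by positivity
      linarith
    rw [gcell _ (c l) (hcK l) (lt_of_le_of_lt hc1 hlt), bump_one L K (c l) hL hK _ hc1, one_mul]
    obtain ⟨k, hk⟩ := hs3 s le_rfl (by linarith) (c l) (hcK l)
    rw [hcinj.extend_apply] at hk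
    rw [← hr l, ← AddCircle.coe_sub, fourier_coe_apply, ← hφ l]
    have e1 : (2 * π * I * (fr (c l) : ℤ) * ((s - r l : ℝ) : ℂ) / ((1 : ℝ) : ℂ) : ℂ)
        = 2 * π * I * ((Q * 101 ^ (c l + 1) * (s - r l) : ℝ) : ℂ) := by
      simp only [fr]; push_cast; ring
    rw [e1]
    refine (phase_dist _ _ k).trans ?_
    have e2 : Q * 101 ^ (c l + 1) * (s - r l) - φ l - (k : ℝ)
        = Q * 101 ^ (c l + 1) * s - (Q * 101 ^ (c l + 1) * r l + φ l) - k := by ring
    rw [e2]
    have hpi := Real.pi_lt_four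
    have hpi2 := Real.pi_pos
    calc 2 * π * |Q * 101 ^ (c l + 1) * s - (Q * 101 ^ (c l + 1) * r l + φ l) - (k : ℝ)|
        ≤ 2 * π * (1 / 100) := by gcongr
      _ ≤ 2 * 4 * (1 / 100) := by gcongr
      _ ≤ 1 / 10 := by norm_num

end Pool.Agent.H183R3.TilfB
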