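import Mathlib
import Pool.Agent.H183R3.TilfB

open scoped Real
open Complex AddCircle
open Pool.Agent.Results.MP_eb9c50_an.SidonNearZero
open Pool.Agent.H183R3.TilfA
open Pool.Agent.H183R3.TilfB

namespace Pool.Agent.H183R3.TilfC

/-- trigonometric polynomials -/
noncomputable def Trig : Submodule ℂ C(UnitAddCircle, ℂ) :=
  Submodule.span ℂ (Set.range (fun k : ℤ => (fourier k : C(UnitAddCircle, ℂ))))

theorem unif_cont (f : C(UnitAddCircle, ℂ)) (ε : ℝ) (hε : 0 < ε) :
    ∃ η : ℝ, 0 < η ∧ ∀ x y : UnitAddCircle, ‖x - y‖ < η → ‖f x - f y‖ < ε := by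
  have h := CompactSpace.uniformContinuous_of_continuous f.continuous
  obtain ⟨δ, hδ, h2⟩ := Metric.uniformContinuous_iff.mp h ε hε
  refine ⟨δ, hδ, fun x y hxy => ?_⟩
  have := h2 (a := x) (b := y) (by rwa [dist_eq_norm])
  rwa [dist_eq_norm] at this

theorem sep_poly (L K : ℕ) (hL : 1 ≤ L) (hK : 1 ≤ K) : ∃ p ∈ Trig, ‖p‖ ≤ 2 ∧ ∃ η : ℝ, 0 < η ∧
    ∀ (Λ : Type) [Fintype Λ], Fintype.card Λ ≤ L → ∀ (q : Λ → UnitAddCircle) (w : Λ → ℂ),
      (∀ l, ‖w l‖ = 1) → (∀ l l', l ≠ l' → 1 / (K : ℝ) ≤ ‖q l - q l'‖) →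
      ∃ t : UnitAddCircle, ∀ l, ∀ y : UnitAddCircle, ‖y - (t - q l)‖ < η →
        ‖p y - w l‖ ≤ 3 / 10 := by
  obtain ⟨g, hg1, hg2⟩ := sep_fun L K hL hK
  obtain ⟨p, hp, hgp⟩ := poly_dense g (1 / 10) (by norm_num)
  obtain ⟨η, hη, hη2⟩ := unif_cont p (1 / 10) (by norm_num)
  refine ⟨p, hp, ?_, η, hη, ?_⟩
  · calc ‖p‖ = ‖g - (g - p)‖ := by congr 1; abel
      _ ≤ ‖g‖ + ‖g - p‖ := norm_sub_le _ _
      _ ≤ 1 + 1 / 10 := by gcongr
      _ ≤ 2 := by norm_num
  · intro Λ _ hΛ q w hw hq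
    obtain ⟨t, ht⟩ := hg2 Λ hΛ q w hw hq
    refine ⟨t, fun l y hy => ?_⟩
    have h1 := hη2 y (t - q l) hy
    have h2 : ‖(g - p) (t - q l)‖ ≤ 1 / 10 :=
      ((g - p).norm_coe_le_norm _).trans hgp.le
    have h3 : (g - p) (t - q l) = g (t - q l) - p (t - q l) := rfl
    rw [h3] at h2
    calc ‖p y - w l‖ = ‖(p y - p (t - q l)) - (g (t - q l) - p (t - q l))
          + (g (t - q l) - w l)‖ := by congr 1; ring
      _ ≤ ‖(p y - p (t - q l)) - (g (t - q l) - p (t - q l))‖ + ‖g (t - q l) - w l‖ :=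
          norm_add_le _ _
      _ ≤ (‖p y - p (t - q l)‖ + ‖g (t - q l) - p (t - q l)‖) + ‖g (t - q l) - w l‖ := by
          gcongr; exact norm_sub_le _ _
      _ ≤ (1 / 10 + 1 / 10) + 1 / 10 := by
          gcongr
          exact ht l
      _ = 3 / 10 := by norm_num

theorem fourier_norm_one (m : ℤ) (x : UnitAddCircle) : ‖(fourier m x : ℂ)‖ = 1 := by
  rw [fourier_apply]; exact Circle.norm_coe _

/-- closeness of a character at close points -/
theorem fourier_close (m : ℤ) (x y : UnitAddCircle) :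
    ‖(fourier m x : ℂ) - fourier m y‖ ≤ 2 * π * |(m : ℝ)| * ‖x - y‖ := by
  obtain ⟨a, rfl⟩ := QuotientAddGroup.mk_surjective x
  obtain ⟨b, rfl⟩ := QuotientAddGroup.mk_surjective y
  set k := round (a - b) with hk
  have hn : ‖((a : ℝ) : UnitAddCircle) - ((b : ℝ) : UnitAddCircle)‖ = |a - b - k| := by
    rw [← AddCircle.coe_sub, UnitAddCircle.norm_eq]
  show ‖(fourier m ((a : ℝ) : UnitAddCircle) : ℂ) - fourier m ((b : ℝ) : UnitAddCircle)‖
    ≤ 2 * π * |(m : ℝ)| * ‖((a : ℝ) : UnitAddCircle) - ((b : ℝ) : UnitAddCircle)‖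
  rw [hn, fourier_coe_apply, fourier_coe_apply]
  have e1 : ∀ c : ℝ, (2 * π * I * m * c / ((1 : ℝ) : ℂ) : ℂ) = 2 * π * I * ((m * c : ℝ) : ℂ) := by
    intro c; push_cast; ring
  rw [e1, e1]
  refine (phase_dist _ _ (m * k)).trans ?_
  have e2 : (m : ℝ) * a - m * b - ((m * k : ℤ) : ℝ) = m * (a - b - k) := by push_cast; ring
  rw [e2, abs_mul]
  apply le_of_eq; ring

/-- one block -/
theorem block (N M K : ℕ) (hM : 1 ≤ M) (hK : 1 ≤ K) : ∃ p ∈ Trig, ‖p‖ ≤ 2 ∧ ∃ η : ℝ, 0 < η ∧
    ∀ (x : ℤ) (α : ℝ), 0 < α → α ≤ η → 2 * π * |(x : ℝ)| * α ≤ 1 / 10 → 2 * α ≤ 1 / K →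
      ∀ a : Fin N → UnitAddCircle,
        (∀ n n' : Fin N → Fin M, ‖pos a n - pos a n'‖ < α ∨ 1 / (K : ℝ) ≤ ‖pos a n - pos a n'‖) →
        1 / 2 ≤ ‖Av M a ((fourier x : C(UnitAddCircle, ℂ)) * p)‖ := by
  classical
  have hL : 1 ≤ M ^ N := Nat.one_le_pow _ _ hM
  obtain ⟨p, hp, hp2, η, hη, h⟩ := sep_poly (M ^ N) K hL hK
  refine ⟨p, hp, hp2, η, hη, fun x α hα hαη hxα hαK a hgood => ?_⟩
  let s : Setoid (Fin N → Fin M) :=
    { r := fun n n' => ‖pos a n - pos a n'‖ < α
      iseqv :=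
        { refl := fun n => by rw [sub_self, norm_zero]; exact hα
          symm := fun {n n'} hn => by rw [norm_sub_rev]; exact hn
          trans := fun {n n' n''} h1 h2 => by
            rcases hgood n n'' with h3 | h3
            · exact h3
            · exfalso
              have : ‖pos a n - pos a n''‖ ≤ ‖pos a n - pos a n'‖ + ‖pos a n' - pos a n''‖ := by
                calc ‖pos a n - pos a n''‖ = ‖(pos a n - pos a n') + (pos a n' - pos a n'')‖ := by
                      congr 1; abel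
                  _ ≤ _ := norm_add_le _ _
              linarith } }
  let q : Quotient s → UnitAddCircle := fun l => pos a l.out
  let w : Quotient s → ℂ := fun l => (fourier x (pos a l.out) : ℂ)
  have hcard : Fintype.card (Quotient s) ≤ M ^ N := by
    refine (Fintype.card_quotient_le s).trans ?_
    simp
  obtain ⟨t, ht⟩ := h (Quotient s) hcard q w (fun l => fourier_norm_one _ _) (fun l l' hne => by
    rcases hgood l.out l'.out with h3 | h3
    · exfalso
      apply hne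
      have : s.r l.out l'.out := h3
      rw [← Quotient.out_eq l, ← Quotient.out_eq l']
      exact Quotient.sound this
    · exact h3)
  have hM0 : (M : ℂ) ^ N ≠ 0 := by
    have : (M : ℂ) ≠ 0 := by exact_mod_cast (by omega : M ≠ 0)
    exact pow_ne_zero _ this
  have key : ∀ n : Fin N → Fin M,
      ‖((fourier x : C(UnitAddCircle, ℂ)) * p) (t - pos a n) - fourier x t‖ ≤ 4 / 10 := by
    intro n
    set l : Quotient s := Quotient.mk s n with hl
    have hn : ‖pos a l.out - pos a n‖ < α := Quotient.exact (Quotient.out_eq l)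
    have h1 := ht l (t - pos a n) (by
      have : t - pos a n - (t - q l) = pos a l.out - pos a n := by
        show t - pos a n - (t - pos a l.out) = _
        abel
      rw [this]; exact lt_of_lt_of_le hn hαη)
    have h2 : ‖w l - fourier x (pos a n)‖ ≤ 1 / 10 := by
      refine (fourier_close x _ _).trans ?_
      refine le_trans ?_ hxα
      gcongr
    have h3 : ‖p (t - pos a n) - fourier x (pos a n)‖ ≤ 4 / 10 := by
      calc ‖p (t - pos a n) - fourier x (pos a n)‖
          = ‖(p (t - pos a n) - w l) + (w l - fourier x (pos a n))‖ := by congr 1; ring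
        _ ≤ ‖p (t - pos a n) - w l‖ + ‖w l - fourier x (pos a n)‖ := norm_add_le _ _
        _ ≤ 3 / 10 + 1 / 10 := by gcongr
        _ = 4 / 10 := by norm_num
    have h4 : (fourier x t : ℂ) = fourier x (t - pos a n) * fourier x (pos a n) := by
      rw [← fourier_arg_add, sub_add_cancel]
    have h5 : ((fourier x : C(UnitAddCircle, ℂ)) * p) (t - pos a n) - fourier x t
        = fourier x (t - pos a n) * (p (t - pos a n) - fourier x (pos a n)) := by
      rw [h4, ContinuousMap.mul_apply]; ring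
    rw [h5, norm_mul, fourier_norm_one, one_mul]
    exact h3
  have hav : ‖Av M a ((fourier x : C(UnitAddCircle, ℂ)) * p) t - fourier x t‖ ≤ 4 / 10 := by
    rw [Av_eval, Fintype.card_fin]
    have e1 : ((M : ℂ) ^ N)⁻¹ * ∑ n : Fin N → Fin M,
        ((fourier x : C(UnitAddCircle, ℂ)) * p) (t - pos a n) - fourier x t
        = ((M : ℂ) ^ N)⁻¹ * ∑ n : Fin N → Fin M,
        (((fourier x : C(UnitAddCircle, ℂ)) * p) (t - pos a n) - fourier x t) := by
      rw [Finset.sum_sub_distrib, mul_sub]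
      congr 1
      rw [Finset.sum_const, Finset.card_univ, Fintype.card_fun, Fintype.card_fin, Fintype.card_fin,
        nsmul_eq_mul]
      push_cast
      field_simp
    rw [e1, norm_mul, norm_pref]
    have hM0' : (0 : ℝ) < (M : ℝ) ^ N := by
      have : (0 : ℝ) < M := by exact_mod_cast hM
      positivity
    rw [inv_mul_le_iff₀ hM0']
    refine (norm_sum_le _ _).trans ((Finset.sum_le_sum (fun n _ => key n)).trans ?_)
    rw [Finset.sum_const, Finset.card_univ, Fintype.card_fun, Fintype.card_fin, Fintype.card_fin,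
        nsmul_eq_mul]
    push_cast
    exact le_refl _
  have h1 := (Av M a ((fourier x : C(UnitAddCircle, ℂ)) * p)).norm_coe_le_norm t
  have h2 : ‖(fourier x t : ℂ)‖ ≤ ‖Av M a ((fourier x : C(UnitAddCircle, ℂ)) * p) t‖
      + ‖Av M a ((fourier x : C(UnitAddCircle, ℂ)) * p) t - fourier x t‖ := by
    calc ‖(fourier x t : ℂ)‖ = ‖Av M a ((fourier x : C(UnitAddCircle, ℂ)) * p) t
          - (Av M a ((fourier x : C(UnitAddCircle, ℂ)) * p) t - fourier x t)‖ := by congr 1; ring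
      _ ≤ _ := norm_sub_le _ _
  rw [fourier_norm_one] at h2
  linarith

/-- small translations move a function little -/
theorem trL_small (f : C(UnitAddCircle, ℂ)) (ε : ℝ) (hε : 0 < ε) :
    ∃ δ : ℝ, 0 < δ ∧ ∀ u : UnitAddCircle, ‖u‖ < δ → ‖f - trL u f‖ ≤ ε := by
  obtain ⟨η, hη, h⟩ := unif_cont f ε hε
  refine ⟨η, hη, fun u hu => ?_⟩
  rw [ContinuousMap.norm_le _ hε.le]
  intro x
  show ‖f x - f (x - u)‖ ≤ ε
  refine (h x (x - u) ?_).le
  rwa [sub_sub_cancel]

theorem norm_dbl {V : Type*} [NormedAddCommGroup V] [NormedSpace ℂ V] (v : V) :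
    ‖v + v‖ = 2 * ‖v‖ := by
  rw [← two_smul ℂ v, norm_smul]; norm_num

/-- isolating the last block -/
theorem isolate {N : ℕ} (M : ℕ) (a : Fin N → UnitAddCircle) (F p : C(UnitAddCircle, ℂ)) (x : ℤ)
    (u : UnitAddCircle) (hu : (fourier x (-u) : ℂ) = -1) (ε : ℝ)
    (hF : ‖F - trL u F‖ ≤ ε) (hp : ‖p - trL u p‖ ≤ ε) :
    ‖Av M a F‖ ≤ ‖Av M a (F + (fourier x : C(UnitAddCircle, ℂ)) * p)‖ + ε ∧
    ‖Av M a ((fourier x : C(UnitAddCircle, ℂ)) * p)‖
      ≤ ‖Av M a (F + (fourier x : C(UnitAddCircle, ℂ)) * p)‖ + ε := by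
  set G := (fourier x : C(UnitAddCircle, ℂ)) * p with hG
  set H := F + G with hH
  have hV : ‖G + trL u G‖ ≤ ε := by
    have e : G + trL u G = (fourier x : C(UnitAddCircle, ℂ)) * (p - trL u p) := by
      ext t
      show fourier x t * p t + fourier x (t - u) * p (t - u) = fourier x t * (p t - p (t - u))
      rw [sub_eq_add_neg t u, fourier_arg_add, hu]; ring
    rw [e, ContinuousMap.norm_le _ ((norm_nonneg _).trans hp)]
    intro t
    rw [ContinuousMap.mul_apply, norm_mul, fourier_norm_one, one_mul]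
    exact ((p - trL u p).norm_coe_le_norm t).trans hp
  have hAH : ‖trL u (Av M a H)‖ ≤ ‖Av M a H‖ := trL_norm _ _
  have hAF : ‖Av M a (F - trL u F)‖ ≤ ε := (Av_norm _ _ _).trans hF
  have hAG : ‖Av M a (G + trL u G)‖ ≤ ε := (Av_norm _ _ _).trans hV
  constructor
  · have e : Av M a F + Av M a F = Av M a H + trL u (Av M a H)
        + (Av M a (F - trL u F) - Av M a (G + trL u G)) := by
      rw [← Av_trL, hH]
      simp only [map_add, map_sub]
      abel
    have h2 : ‖Av M a F + Av M a F‖ ≤ ‖Av M a H‖ + ‖Av M a H‖ + (ε + ε) := by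
      rw [e]
      calc ‖Av M a H + trL u (Av M a H) + (Av M a (F - trL u F) - Av M a (G + trL u G))‖
          ≤ ‖Av M a H + trL u (Av M a H)‖ + ‖Av M a (F - trL u F) - Av M a (G + trL u G)‖ :=
            norm_add_le _ _
        _ ≤ (‖Av M a H‖ + ‖trL u (Av M a H)‖)
            + (‖Av M a (F - trL u F)‖ + ‖Av M a (G + trL u G)‖) := by
            gcongr
            · exact norm_add_le _ _
            · exact norm_sub_le _ _
        _ ≤ _ := by gcongr
    have h3 : ‖Av M a F + Av M a F‖ = 2 * ‖Av M a F‖ := norm_dbl _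
    rw [h3] at h2
    linarith
  · have e : Av M a G + Av M a G = Av M a H - trL u (Av M a H)
        + (Av M a (G + trL u G) - Av M a (F - trL u F)) := by
      rw [← Av_trL, hH]
      simp only [map_add, map_sub]
      abel
    have h2 : ‖Av M a G + Av M a G‖ ≤ ‖Av M a H‖ + ‖Av M a H‖ + (ε + ε) := by
      rw [e]
      calc ‖Av M a H - trL u (Av M a H) + (Av M a (G + trL u G) - Av M a (F - trL u F))‖
          ≤ ‖Av M a H - trL u (Av M a H)‖ + ‖Av M a (G + trL u G) - Av M a (F - trL u F)‖ :=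
            norm_add_le _ _
        _ ≤ (‖Av M a H‖ + ‖trL u (Av M a H)‖)
            + (‖Av M a (G + trL u G)‖ + ‖Av M a (F - trL u F)‖) := by
            gcongr
            · exact norm_sub_le _ _
            · exact norm_sub_le _ _
        _ ≤ _ := by gcongr
    have h3 : ‖Av M a G + Av M a G‖ = 2 * ‖Av M a G‖ := norm_dbl _
    rw [h3] at h2
    linarith

/-- a trigonometric polynomial, shifted in frequency into E -/
theorem trig_shift (E : Set ℤ) (p : C(UnitAddCircle, ℂ)) (hp : p ∈ Trig) :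
    ∃ J : ℕ, ∀ x : ℤ, (∀ k : ℤ, |k| ≤ J → x + k ∈ E) →
      (fourier x : C(UnitAddCircle, ℂ)) * p ∈ CE E := by
  unfold Trig at hp
  induction hp using Submodule.span_induction with
  | mem y h =>
    obtain ⟨k, rfl⟩ := h
    refine ⟨k.natAbs, fun x hx => ?_⟩
    have hk : x + k ∈ E := hx k (by rw [Int.natCast_natAbs])
    have e : (fourier x : C(UnitAddCircle, ℂ)) * fourier k = fourier (x + k) := by
      ext t
      rw [ContinuousMap.mul_apply, fourier_add]
    show (fourier x : C(UnitAddCircle, ℂ)) * fourier k ∈ CE E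
    rw [e]
    intro m hm
    rw [fourierCoeff_fourier]
    have : m ≠ x + k := fun h => hm (h ▸ hk)
    rw [Pi.single_eq_of_ne this]
  | zero =>
    refine ⟨0, fun x _ => ?_⟩
    rw [mul_zero]; exact (CE E).zero_mem
  | add y z _ _ hy hz =>
    obtain ⟨J1, h1⟩ := hy
    obtain ⟨J2, h2⟩ := hz
    refine ⟨max J1 J2, fun x hx => ?_⟩
    rw [mul_add]
    refine (CE E).add_mem (h1 x (fun k hk => hx k (hk.trans ?_))) (h2 x (fun k hk => hx k (hk.trans ?_)))
    · exact_mod_cast le_max_left _ _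
    · exact_mod_cast le_max_right _ _
  | smul c y _ hy =>
    obtain ⟨J1, h1⟩ := hy
    refine ⟨J1, fun x hx => ?_⟩
    have e : (fourier x : C(UnitAddCircle, ℂ)) * c • y = c • ((fourier x : C(UnitAddCircle, ℂ)) * y) := by
      ext t
      show fourier x t * (c * y t) = c * (fourier x t * y t)
      ring
    rw [e]
    exact (CE E).smul_mem c (h1 x hx)


/-- a chain of small integer combinations of a with quickly decreasing norms -/
def Chained {N : ℕ} (Γ : ℝ) (M B : ℕ) (α : ℝ) (a : Fin N → UnitAddCircle) : Prop :=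
  ∃ m : ℕ → Fin N → ℤ, (∀ i < B, ∀ j, |m i j| ≤ M) ∧ (∀ i < B, α ≤ ‖∑ j, m i j • a j‖) ∧
    (∀ i < B, Γ * ‖∑ j, m i j • a j‖ ≤ 1) ∧
    (∀ i k, i < k → k < B → Γ * ‖∑ j, m k j • a j‖ ≤ ‖∑ j, m i j • a j‖)

theorem zsmul_norm (c : ℤ) (y : UnitAddCircle) (h : |(c : ℝ)| * ‖y‖ ≤ 1 / 2) :
    ‖c • y‖ = |(c : ℝ)| * ‖y‖ := by
  obtain ⟨y0, rfl⟩ := QuotientAddGroup.mk_surjective y
  set r : ℝ := y0 - round y0 with hr
  have hyr : ((y0 : ℝ) : UnitAddCircle) = (r : UnitAddCircle) := by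
    rw [hr, AddCircle.coe_sub]
    have : (((round y0 : ℤ) : ℝ) : UnitAddCircle) = 0 := by
      have h := AddCircle.coe_eq_zero_iff (1 : ℝ) (x := ((round y0 : ℤ) : ℝ))
      rw [h]; exact ⟨round y0, by simp⟩
    rw [this, sub_zero]
  have hn : ‖((y0 : ℝ) : UnitAddCircle)‖ = |r| := UnitAddCircle.norm_eq
  change |(c : ℝ)| * ‖((y0 : ℝ) : UnitAddCircle)‖ ≤ 1 / 2 at h
  show ‖c • ((y0 : ℝ) : UnitAddCircle)‖ = |(c : ℝ)| * ‖((y0 : ℝ) : UnitAddCircle)‖
  rw [hn] at h ⊢
  rw [hyr, ← AddCircle.coe_zsmul, zsmul_eq_mul, ← abs_mul]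
  rw [← abs_mul] at h
  exact (AddCircle.norm_coe_eq_abs_iff 1 one_ne_zero).mpr (by simpa using h)

attribute [local instance] Matrix.seminormedAddCommGroup in
theorem siegel (N M : ℕ) (hN : 0 < N) (hM : 1 ≤ M) (A : Matrix (Fin N) (Fin (N + 1)) ℤ)
    (hA : ∀ j i, |A j i| ≤ M) : ∃ t : Fin (N + 1) → ℤ, t ≠ 0 ∧ A.mulVec t = 0 ∧
        ∀ i, |(t i : ℝ)| ≤ ((N + 1 : ℝ) * M) ^ N := by
  obtain ⟨t, ht0, htA, htn⟩ := Int.Matrix.exists_ne_zero_int_vec_norm_le A (by simp)
    (by simpa using hN)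
  refine ⟨t, ht0, htA, fun i => ?_⟩
  have hM1 : (1 : ℝ) ≤ M := by exact_mod_cast hM
  have hAn : ‖A‖ ≤ M := by
    rw [Matrix.norm_le_iff (by positivity)]
    intro j i
    rw [Int.norm_eq_abs]
    exact_mod_cast hA j i
  have h1 : |(t i : ℝ)| ≤ ‖t‖ := by
    have := norm_le_pi_norm t i
    rwa [Int.norm_eq_abs] at this
  refine h1.trans (htn.trans ?_)
  rw [Fintype.card_fin, Fintype.card_fin]
  have e : ((N : ℝ) / (((N + 1 : ℕ) : ℝ) - N)) = (N : ℝ) := by
    push_cast; rw [add_sub_cancel_left, div_one]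
  rw [e, Real.rpow_natCast]
  push_cast
  gcongr
  exact max_le hM1 hAn

theorem no_chain (N M : ℕ) (hM : 1 ≤ M) : ∃ Γ : ℝ, 1 ≤ Γ ∧
    ∀ (α : ℝ) (a : Fin N → UnitAddCircle), 0 < α → ¬ Chained Γ M (N + 1) α a := by
  rcases Nat.eq_zero_or_pos N with hN | hN
  · subst hN
    refine ⟨1, le_refl _, fun α a hα ⟨m, _, h2, _, _⟩ => ?_⟩
    have := h2 0 (by norm_num)
    simp at this
    linarith
  · set Cs : ℝ := ((N + 1 : ℝ) * M) ^ N with hCs
    have hM1 : (1 : ℝ) ≤ M := by exact_mod_cast hM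
    have hCs1 : 1 ≤ Cs := by
      apply one_le_pow₀
      nlinarith [(Nat.cast_nonneg N : (0 : ℝ) ≤ N)]
    refine ⟨2 * (N + 1) * Cs, by nlinarith [(Nat.cast_nonneg N : (0 : ℝ) ≤ N)], ?_⟩
    rintro α a hα ⟨m, h1, h2, h3, h4⟩
    set Γ : ℝ := 2 * (N + 1) * Cs with hΓ
    have hΓ0 : 0 < Γ := by positivity
    let A : Matrix (Fin N) (Fin (N + 1)) ℤ := fun j i => m i j
    obtain ⟨t, ht0, htA, htn⟩ : ∃ t : Fin (N + 1) → ℤ, t ≠ 0 ∧ A.mulVec t = 0 ∧
        ∀ i, |(t i : ℝ)| ≤ Cs := siegel N M hN hM A (fun j i => h1 i i.2 j)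
    let y : Fin (N + 1) → UnitAddCircle := fun i => ∑ j, m i j • a j
    have hsum : ∑ i, t i • y i = 0 := by
      simp only [y, Finset.smul_sum, smul_smul]
      rw [Finset.sum_comm]
      apply Finset.sum_eq_zero
      intro j _
      rw [← Finset.sum_smul]
      have : ∑ i, t i * m i j = 0 := by
        have := congrFun htA j
        simp only [Matrix.mulVec, dotProduct, A, Pi.zero_apply] at this
        rw [← this]
        exact Finset.sum_congr rfl (fun i _ => mul_comm _ _)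
      rw [this, zero_smul]
    obtain ⟨i0, hi0, hmin⟩ := WellFounded.has_min (wellFounded_lt : WellFounded
      ((· < ·) : Fin (N + 1) → Fin (N + 1) → Prop)) {i | t i ≠ 0} (Function.ne_iff.mp ht0)
    have hy0 : 0 < ‖y i0‖ := lt_of_lt_of_le hα (h2 i0 i0.2)
    have hti : (1 : ℝ) ≤ |(t i0 : ℝ)| := by
      have := Int.one_le_abs hi0
      exact_mod_cast this
    have hyΓ : ‖y i0‖ ≤ 1 / Γ := by
      rw [le_div_iff₀ hΓ0, mul_comm]; exact h3 i0 i0.2
    have hnorm : ‖t i0 • y i0‖ = |(t i0 : ℝ)| * ‖y i0‖ := by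
      apply zsmul_norm
      calc |(t i0 : ℝ)| * ‖y i0‖ ≤ Cs * (1 / Γ) := by
            gcongr
            exact htn i0
        _ ≤ 1 / 2 := by
            rw [mul_one_div, div_le_div_iff₀ hΓ0 (by norm_num), hΓ]
            nlinarith [(Nat.cast_nonneg N : (0 : ℝ) ≤ N)]
    have hterm : ∀ i ∈ Finset.univ.erase i0, ‖t i • y i‖ ≤ Cs * (‖y i0‖ / Γ) := by
      intro i hi
      rw [Finset.mem_erase] at hi
      rcases lt_or_gt_of_ne hi.1 with hlt | hgt
      · have : t i = 0 := by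
          by_contra hne
          exact hmin i hne hlt
        rw [this, zero_smul, norm_zero]
        positivity
      · have hi2 : ‖y i‖ ≤ ‖y i0‖ / Γ := by
          rw [le_div_iff₀ hΓ0, mul_comm]
          exact h4 i0 i hgt i.2
        calc ‖t i • y i‖ ≤ ‖t i‖ * ‖y i‖ := norm_zsmul_le _ _
          _ ≤ Cs * (‖y i0‖ / Γ) := by
            gcongr
            rw [Int.norm_eq_abs]
            exact htn i
    have hle : ‖t i0 • y i0‖ ≤ N * (Cs * (‖y i0‖ / Γ)) := by
      have e : t i0 • y i0 = -∑ i ∈ Finset.univ.erase i0, t i • y i := by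
        have h7 := Finset.add_sum_erase Finset.univ (fun i => t i • y i) (Finset.mem_univ i0)
        rw [eq_neg_iff_add_eq_zero, ← hsum, ← h7]
      rw [e, norm_neg]
      refine (norm_sum_le _ _).trans ((Finset.sum_le_sum hterm).trans ?_)
      rw [Finset.sum_const, Finset.card_erase_of_mem (Finset.mem_univ i0), Finset.card_univ,
        Fintype.card_fin, nsmul_eq_mul]
      simp
    rw [hnorm] at hle
    have h5 : N * (Cs * (‖y i0‖ / Γ)) ≤ ‖y i0‖ / 2 := by
      have e : N * (Cs * (‖y i0‖ / Γ)) = (N * Cs * ‖y i0‖) / Γ := by ring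
      rw [e, div_le_div_iff₀ hΓ0 (by norm_num), hΓ]
      have : 0 ≤ Cs * ‖y i0‖ := by positivity
      nlinarith
    nlinarith

theorem thick_far (E : Set ℤ) (hE : ∀ J : ℕ, ∃ x : ℤ, ∀ k : ℤ, |k| ≤ J → x + k ∈ E) (J R : ℕ) :
    ∃ x : ℤ, (R : ℤ) < |x| ∧ ∀ k : ℤ, |k| ≤ J → x + k ∈ E := by
  obtain ⟨x, hx⟩ := hE (J + 2 * R + 1)
  by_cases h : (R : ℤ) < |x|
  · exact ⟨x, h, fun k hk => hx k (by push_cast; omega)⟩
  · push Not at h
    refine ⟨x + (2 * R + 1), ?_, fun k hk => ?_⟩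
    · rw [abs_le] at h
      rw [lt_abs]; left; omega
    · rw [add_assoc]
      apply hx
      rw [abs_le] at hk ⊢
      push_cast
      constructor <;> omega

/-- the recursion adding one block -/
theorem recursion (E : Set ℤ) (hE : ∀ J : ℕ, ∃ x : ℤ, ∀ k : ℤ, |k| ≤ J → x + k ∈ E)
    (N M : ℕ) (hM : 1 ≤ M) (Γ ε : ℝ) (hΓ : 1 ≤ Γ) (hε : 0 < ε) (B : ℕ) :
    ∃ (α : ℝ) (h : C(UnitAddCircle, ℂ)), 0 < α ∧ α ≤ 1 ∧ h ∈ CE (E \ {0}) ∧ ‖h‖ ≤ 2 * B ∧
      ∀ a : Fin N → UnitAddCircle, 1 / 2 - B * ε ≤ ‖Av M a h‖ ∨ Chained Γ M B α a := by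
  induction B with
  | zero =>
    refine ⟨1, 0, one_pos, le_refl _, (CE (E \ {0})).zero_mem, by simp, fun a => Or.inr ?_⟩
    exact ⟨fun _ _ => 0, fun i hi => absurd hi (Nat.not_lt_zero i),
      fun i hi => absurd hi (Nat.not_lt_zero i), fun i hi => absurd hi (Nat.not_lt_zero i),
      fun i k _ hk => absurd hk (Nat.not_lt_zero k)⟩
  | succ B ih =>
    obtain ⟨α, h, hα, hα1, hh, hhn, hch⟩ := ih
    have hΓ0 : 0 < Γ := by linarith
    -- choice of K
    obtain ⟨K, hK1, hK⟩ : ∃ K : ℕ, 1 ≤ K ∧ 1 / (K : ℝ) ≤ α / Γ := by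
      refine ⟨⌈Γ / α⌉₊ + 1, by omega, ?_⟩
      have h1 : Γ / α ≤ (⌈Γ / α⌉₊ + 1 : ℕ) := by
        push_cast
        linarith [Nat.le_ceil (Γ / α)]
      have h2 : 0 < Γ / α := by positivity
      calc 1 / (((⌈Γ / α⌉₊ + 1 : ℕ)) : ℝ) ≤ 1 / (Γ / α) := one_div_le_one_div_of_le h2 h1
        _ = α / Γ := by rw [one_div_div]
    have hK0 : (0 : ℝ) < K := by exact_mod_cast hK1
    obtain ⟨p, hp, hp2, η, hη, hblock⟩ := block N M K hM hK1
    obtain ⟨J, hJ⟩ := trig_shift (E \ {0}) p hp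
    obtain ⟨δ1, hδ1, hd1⟩ := trL_small h ε hε
    obtain ⟨δ2, hδ2, hd2⟩ := trL_small p ε hε
    -- choice of x
    obtain ⟨R, hR⟩ : ∃ R : ℕ, 1 / min δ1 δ2 < R ∧ J ≤ R := by
      refine ⟨⌈1 / min δ1 δ2⌉₊ + 1 + J, ?_, by omega⟩
      push_cast
      have := Nat.le_ceil (1 / min δ1 δ2)
      have hJ0 : (0 : ℝ) ≤ J := Nat.cast_nonneg J
      linarith
    obtain ⟨x, hxR, hxE⟩ := thick_far E hE J R
    have hx0 : x ≠ 0 := by
      intro h0; rw [h0, abs_zero] at hxR
      have : (0 : ℤ) ≤ R := by positivity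
      omega
    have hxE' : ∀ k : ℤ, |k| ≤ J → x + k ∈ E \ {0} := by
      intro k hk
      refine ⟨hxE k hk, ?_⟩
      rw [Set.mem_singleton_iff]
      intro h0
      have h1 : x = -k := by linarith
      rw [h1, abs_neg] at hxR
      have h2 : (J : ℤ) ≤ R := by exact_mod_cast hR.2
      omega
    have hxr : (0 : ℝ) < |(x : ℝ)| := by
      rw [abs_pos]; exact_mod_cast hx0
    have hx1 : (1 : ℝ) ≤ |(x : ℝ)| := by
      have := Int.one_le_abs hx0
      exact_mod_cast this
    have hxR' : (R : ℝ) < |(x : ℝ)| := by exact_mod_cast hxR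
    set u : UnitAddCircle := ((1 / (2 * x) : ℝ) : UnitAddCircle) with hu
    have hun : ‖u‖ < min δ1 δ2 := by
      refine lt_of_le_of_lt (norm_coe_le _) ?_
      have hmin : 0 < min δ1 δ2 := lt_min hδ1 hδ2
      rw [abs_div, abs_one, abs_mul, abs_two]
      have h1 : 1 / min δ1 δ2 < |(x : ℝ)| := lt_trans hR.1 hxR'
      rw [div_lt_iff₀ hmin] at h1
      rw [div_lt_iff₀ (by positivity)]
      nlinarith
    have hux : (fourier x (-u) : ℂ) = -1 := by
      rw [hu, ← AddCircle.coe_neg, fourier_coe_apply]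
      have hxC : (x : ℂ) ≠ 0 := by exact_mod_cast hx0
      have : (2 * π * I * x * ((-(1 / (2 * x)) : ℝ) : ℂ) / ((1 : ℝ) : ℂ) : ℂ) = -(π * I) := by
        push_cast; field_simp
      rw [this, Complex.exp_neg, Complex.exp_pi_mul_I]
      norm_num
    have hF := hd1 u (lt_of_lt_of_le hun (min_le_left _ _))
    have hP := hd2 u (lt_of_lt_of_le hun (min_le_right _ _))
    -- the new lower window
    set α' : ℝ := min (min α η) (min (1 / (100 * |(x : ℝ)|)) (1 / (2 * K))) with hα'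
    have hα'0 : 0 < α' := by
      apply lt_min (lt_min hα hη) (lt_min (by positivity) (by positivity))
    have hα'α : α' ≤ α := (min_le_left _ _).trans (min_le_left _ _)
    have hα'η : α' ≤ η := (min_le_left _ _).trans (min_le_right _ _)
    have hα'x : α' ≤ 1 / (100 * |(x : ℝ)|) := (min_le_right _ _).trans (min_le_left _ _)
    have hα'K : α' ≤ 1 / (2 * K) := (min_le_right _ _).trans (min_le_right _ _)
    have hcond1 : 2 * π * |(x : ℝ)| * α' ≤ 1 / 10 := by
      have hpi := Real.pi_lt_four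
      have hpi2 := Real.pi_pos
      calc 2 * π * |(x : ℝ)| * α' ≤ 2 * 4 * |(x : ℝ)| * (1 / (100 * |(x : ℝ)|)) := by gcongr
        _ = 8 / 100 := by field_simp; norm_num
        _ ≤ 1 / 10 := by norm_num
    have hcond2 : 2 * α' ≤ 1 / K := by
      calc 2 * α' ≤ 2 * (1 / (2 * K)) := by gcongr
        _ = 1 / K := by field_simp
    refine ⟨α', h + (fourier x : C(UnitAddCircle, ℂ)) * p, hα'0, hα'α.trans hα1,
      (CE (E \ {0})).add_mem hh (hJ x hxE'), ?_, fun a => ?_⟩
    · have h1 : ‖(fourier x : C(UnitAddCircle, ℂ)) * p‖ ≤ 2 := by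
        rw [ContinuousMap.norm_le _ (by norm_num)]
        intro t
        rw [ContinuousMap.mul_apply, norm_mul, fourier_norm_one, one_mul]
        exact (p.norm_coe_le_norm t).trans hp2
      push_cast
      calc ‖h + (fourier x : C(UnitAddCircle, ℂ)) * p‖
          ≤ ‖h‖ + ‖(fourier x : C(UnitAddCircle, ℂ)) * p‖ := norm_add_le _ _
        _ ≤ 2 * B + 2 := by gcongr
        _ = 2 * (B + 1) := by ring
    · obtain ⟨hi1, hi2⟩ := isolate M a h p x u hux ε hF hP
      push_cast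
      rcases hch a with hc | hc
      · left; linarith
      · by_cases hgood : ∀ n n' : Fin N → Fin M,
            ‖pos a n - pos a n'‖ < α' ∨ 1 / (K : ℝ) ≤ ‖pos a n - pos a n'‖
        · left
          have h1 := hblock x α' hα'0 hα'η hcond1 hcond2 a hgood
          have h2 : 0 ≤ (B : ℝ) * ε := by positivity
          linarith
        · right
          push Not at hgood
          obtain ⟨n, n', hn1, hn2⟩ := hgood
          obtain ⟨m, m1, m2, m3, m4⟩ := hc
          have hnew : ∑ j, (((n j : ℕ) : ℤ) - ((n' j : ℕ) : ℤ)) • a j = pos a n - pos a n' := by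
            unfold pos
            rw [← Finset.sum_sub_distrib]
            apply Finset.sum_congr rfl
            intro j _
            rw [sub_smul, natCast_zsmul, natCast_zsmul]
          let v : Fin N → ℤ := fun j => ((n j : ℕ) : ℤ) - ((n' j : ℕ) : ℤ)
          have hv : ‖∑ j, v j • a j‖ = ‖pos a n - pos a n'‖ := by rw [← hnew]
          have hvΓ : Γ * ‖∑ j, v j • a j‖ ≤ α := by
            rw [hv]
            calc Γ * ‖pos a n - pos a n'‖ ≤ Γ * (α / Γ) := by
                  gcongr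
                  exact (hn2.le).trans hK
              _ = α := by field_simp
          refine ⟨fun i => if i < B then m i else v, ?_, ?_, ?_, ?_⟩
          · intro i hi j
            by_cases hiB : i < B
            · simp only [hiB, if_true]; exact m1 i hiB j
            · simp only [hiB, if_false, v]
              have h1 := (n j).2
              have h2 := (n' j).2
              rw [abs_le]; constructor <;> omega
          · intro i hi
            by_cases hiB : i < B
            · simp only [hiB, if_true]; exact hα'α.trans (m2 i hiB)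
            · simp only [hiB, if_false]; rw [hv]; exact hn1
          · intro i hi
            by_cases hiB : i < B
            · simp only [hiB, if_true]; exact m3 i hiB
            · simp only [hiB, if_false]; exact hvΓ.trans hα1
          · intro i k hik hk
            by_cases hkB : k < B
            · simp only [hkB, if_true, lt_trans hik hkB]; exact m4 i k hik hkB
            · have hiB : i < B := by omega
              simp only [hkB, if_false, hiB, if_true]
              exact hvΓ.trans (m2 i hiB)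

/-- sets containing arbitrarily long intervals -/
theorem thick_not_ac (E : Set ℤ) (hE : ∀ J : ℕ, ∃ x : ℤ, ∀ k : ℤ, |k| ≤ J → x + k ∈ E) :
    ¬ AutomaticContinuity E := by
  intro hAC
  obtain ⟨N, C, hC, huni⟩ := ac_uniform E hAC
  set M : ℕ := ⌈8 * C * (N + 1)⌉₊ + 1 with hM
  have hM1 : 1 ≤ M := by omega
  have hMC : 8 * C * (N + 1) < M := by
    rw [hM]; push_cast
    linarith [Nat.le_ceil (8 * C * (N + 1))]
  obtain ⟨Γ, hΓ, hno⟩ := no_chain N M hM1
  obtain ⟨α, h, hα, _, hh, hhn, hch⟩ := recursion E hE N M hM1 Γ (1 / (4 * (N + 1))) hΓ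
    (by positivity) (N + 1)
  obtain ⟨a, ha⟩ := huni h hh
  have h1 := ha M hM1
  have h2 : 1 / 4 ≤ ‖Av M a h‖ := by
    rcases hch a with hc | hc
    · refine le_trans ?_ hc
      have : ((N + 1 : ℕ) : ℝ) * (1 / (4 * (N + 1))) = 1 / 4 := by
        push_cast; field_simp
      rw [this]; norm_num
    · exact absurd hc (hno α a hα)
  have hM0 : (0 : ℝ) < M := by exact_mod_cast hM1
  have h3 : C * ‖h‖ / M < 1 / 4 := by
    rw [div_lt_iff₀ hM0]
    push_cast at hhn
    calc C * ‖h‖ ≤ C * (2 * (N + 1)) := by gcongr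
      _ = (8 * C * (N + 1)) / 4 := by ring
      _ < M / 4 := by gcongr
      _ = 1 / 4 * M := by ring
  linarith

end Pool.Agent.H183R3.TilfC
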